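import Pool.Agent.Work.MP_ead3fc_ag.M.JacUp

/-!
# MP_ead3fc_ag, module JACLOW (helper38): the cone over `F(M)` has dimension at least `n + 1`
-/

set_option autoImplicit false

open MeasureTheory Set Filter Topology
open scoped ENNReal LinearAlgebra.Projectivization

namespace L2M

namespace JacLow

/-- Level sets of submersions with nontrivial kernel are infinite. -/
theorem level_infinite {E T : Type*} [NormedAddCommGroup E] [NormedSpace ℂ E]
    [FiniteDimensional ℂ E] [NormedAddCommGroup T] [NormedSpace ℂ T] [FiniteDimensional ℂ T]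
    {f : E → T} {f' : E →L[ℂ] T} {a : E} (hf : HasStrictFDerivAt f f' a)
    (hf' : Function.Surjective f') {x₀ : E} (hx₀ : x₀ ≠ 0) (hx : f' x₀ = 0) {O : Set E}
    (hO : O ∈ 𝓝 a) : {x | x ∈ O ∧ f x = f a}.Infinite := by
  have : CompleteSpace E := FiniteDimensional.complete ℂ E
  have hr : f'.range = ⊤ := LinearMap.range_eq_top.2 hf'
  set Θ := hf.implicitToOpenPartialHomeomorph f f' hr with hΘ
  have hnt : Nontrivial f'.ker := ⟨⟨⟨x₀, hx⟩, 0, fun h => hx₀ (congrArg Subtype.val h)⟩⟩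
  have hat : (f a, (0 : f'.ker)) ∈ Θ.target := hf.mem_implicitToOpenPartialHomeomorph_target hr
  have has : Θ.symm (f a, (0 : f'.ker)) = a := by
    have h1 := Θ.left_inv (hf.mem_implicitToOpenPartialHomeomorph_source hr)
    rwa [hΘ, hf.implicitToOpenPartialHomeomorph_self hr] at h1
  have hc : ContinuousAt (fun z : f'.ker => (f a, z)) 0 :=
    (continuous_const.prodMk continuous_id).continuousAt
  have h1 : ∀ᶠ z : f'.ker in 𝓝 0, (f a, z) ∈ Θ.target :=
    hc.eventually (Θ.open_target.mem_nhds hat)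
  have h2 : ∀ᶠ z : f'.ker in 𝓝 0, Θ.symm (f a, z) ∈ O := by
    have h3 : ContinuousAt Θ.symm (f a, (0 : f'.ker)) := Θ.continuousAt_symm hat
    have h4 : ContinuousAt (fun z : f'.ker => Θ.symm (f a, z)) 0 :=
      ContinuousAt.comp (f := fun z : f'.ker => (f a, z)) h3 hc
    rw [ContinuousAt, has] at h4
    exact h4.eventually hO
  have h5 : {z : f'.ker | (f a, z) ∈ Θ.target ∧ Θ.symm (f a, z) ∈ O} ∈ 𝓝 (0 : f'.ker) :=
    h1.and h2
  have hne : NeBot (𝓝[≠] (0 : f'.ker)) := Module.punctured_nhds_neBot ℂ f'.ker 0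
  have h6 := infinite_of_mem_nhds (0 : f'.ker) h5
  have h7 : InjOn (fun z : f'.ker => Θ.symm (f a, z))
      {z : f'.ker | (f a, z) ∈ Θ.target ∧ Θ.symm (f a, z) ∈ O} := by
    rintro z ⟨hz, -⟩ z' ⟨hz', -⟩ h
    have h8 := Θ.symm.injOn hz hz' h
    exact congrArg Prod.snd h8
  refine (h6.image h7).mono ?_
  rintro _ ⟨z, ⟨hz, hzO⟩, rfl⟩
  refine ⟨hzO, ?_⟩
  have h9 := Θ.right_inv hz
  exact congrArg Prod.fst h9

end JacLow

/-- JACLOW. -/
theorem jaclow : S_JACLOW := by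
  intro M _ n N r _ F hl hfin hrk v hv P P' hP hs hvF hev
  obtain ⟨x, hx⟩ := hvF
  obtain ⟨U, s₀, h₀⟩ := hl x
  set y₀ := chartAt (Fin n → ℂ) x x with hy₀
  -- rescale the lift
  obtain ⟨a, ha⟩ : ∃ a : ℂ, a • s₀ y₀ = v := by
    obtain ⟨h1, h2⟩ := h₀.eq y₀ h₀.mem
    have h3 : (chartAt (Fin n → ℂ) x).symm y₀ = x :=
      (chartAt (Fin n → ℂ) x).left_inv (mem_chart_source _ x)
    rw [h3, hx] at h2
    exact (Projectivization.mk_eq_mk_iff' ℂ _ _ hv h1).1 h2
  have ha0 : a ≠ 0 := by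
    rintro rfl
    rw [zero_smul] at ha
    exact hv ha.symm
  set s : (Fin n → ℂ) → Hil (N + 1) := fun y => a • s₀ y with hsdef
  have hs1 : IsLift F x U s := by
    refine ⟨h₀.isOpen, h₀.mem, h₀.sub, h₀.hol.const_smul a, fun y hy => ?_⟩
    obtain ⟨h1, h2⟩ := h₀.eq y hy
    refine ⟨smul_ne_zero ha0 h1, ?_⟩
    rw [h2]
    exact (Projectivization.mk_eq_mk_iff' ℂ _ _ h1 (smul_ne_zero ha0 h1)).2
      ⟨a⁻¹, by rw [smul_smul, inv_mul_cancel₀ ha0, one_smul]⟩
  have hsy : s y₀ = v := ha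
  have hrk' := hrk x U s hs1
  rw [← hy₀] at hrk'
  -- the cone over the chart
  set B := fderiv ℂ s y₀ with hB
  have hsd : HasStrictFDerivAt s B y₀ :=
    (SCV.contDiffAt_of_differentiableOn h₀.isOpen hs1.hol h₀.mem (n := 1)).hasStrictFDerivAt
      (by simp)
  set H : ℂ × (Fin n → ℂ) → Hil (N + 1) := fun z => z.1 • s z.2 with hH
  set H' : ℂ × (Fin n → ℂ) →L[ℂ] Hil (N + 1) :=
    (1 : ℂ) • (B.comp (ContinuousLinearMap.snd ℂ ℂ (Fin n → ℂ))) +
      (ContinuousLinearMap.fst ℂ ℂ (Fin n → ℂ)).smulRight (s y₀) with hH'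
  have hHd : HasStrictFDerivAt H H' ((1 : ℂ), y₀) := by
    have h1 : HasStrictFDerivAt (fun z : ℂ × (Fin n → ℂ) => s z.2)
        (B.comp (ContinuousLinearMap.snd ℂ ℂ (Fin n → ℂ))) ((1 : ℂ), y₀) :=
      HasStrictFDerivAt.comp (x := ((1 : ℂ), y₀)) (g := s) hsd hasStrictFDerivAt_snd
    exact hasStrictFDerivAt_fst.smul h1
  have hH'a : ∀ (τ : ℂ) (w : Fin n → ℂ), H' (τ, w) = B w + τ • v := by
    intro τ w
    rw [hH', ← hsy]
    simp
  have hH1 : H ((1 : ℂ), y₀) = v := by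
    rw [hH]
    simp [hsy]
  -- `P` vanishes on the cone
  have hcH : Tendsto H (𝓝 ((1 : ℂ), y₀)) (𝓝 v) := by
    have := hHd.hasFDerivAt.continuousAt
    rwa [ContinuousAt, hH1] at this
  have hPH : ∀ᶠ z : ℂ × (Fin n → ℂ) in 𝓝 ((1 : ℂ), y₀), z.2 ∈ U ∧ P (H z) = 0 := by
    have h1 : ∀ᶠ z : ℂ × (Fin n → ℂ) in 𝓝 ((1 : ℂ), y₀), z.2 ∈ U :=
      continuousAt_snd.eventually (h₀.isOpen.mem_nhds h₀.mem)
    have h2 : ∀ᶠ z : ℂ × (Fin n → ℂ) in 𝓝 ((1 : ℂ), y₀), z.1 ≠ 0 :=
      (isOpen_ne.preimage continuous_fst).mem_nhds one_ne_zero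
    filter_upwards [h1, h2, hcH.eventually hev] with z hz hz1 hz2
    refine ⟨hz, ?_⟩
    obtain ⟨h3, h4⟩ := hs1.eq z.2 hz
    refine hz2 (smul_ne_zero hz1 h3) ⟨(chartAt (Fin n → ℂ) x).symm z.2, ?_⟩
    rw [h4]
    exact (Projectivization.mk_eq_mk_iff' ℂ _ _ h3 (smul_ne_zero hz1 h3)).2
      ⟨z.1⁻¹, by rw [smul_smul, inv_mul_cancel₀ hz1, one_smul]⟩
  set T := LinearMap.ker P'.toLinearMap with hT
  have hH'T : ∀ z, H' z ∈ T := by
    intro z
    have hP1 : HasFDerivAt P P' (H ((1 : ℂ), y₀)) := by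
      rw [hH1]
      exact hP.hasFDerivAt
    have h1 : HasFDerivAt (fun z => P (H z)) (P'.comp H') ((1 : ℂ), y₀) :=
      hP1.comp _ hHd.hasFDerivAt
    have h2 : HasFDerivAt (fun z => P (H z)) (0 : ℂ × (Fin n → ℂ) →L[ℂ] (Fin r → ℂ))
        ((1 : ℂ), y₀) :=
      (hasFDerivAt_const (0 : Fin r → ℂ) _).congr_of_eventuallyEq (hPH.mono fun z hz => hz.2)
    have h3 := congrArg (fun L => L z) (h1.unique h2)
    exact h3
  -- the kernel of `H'`
  have hker : Module.finrank ℂ (LinearMap.ker H'.toLinearMap) ≤ 1 := by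
    refine le_trans ?_ hrk'
    let j : LinearMap.ker H'.toLinearMap →ₗ[ℂ] LinearMap.ker (fs s y₀).toLinearMap :=
      { toFun := fun z => ⟨z.1.2, by
          have h1 : B z.1.2 + z.1.1 • v = 0 := by
            have h2 : H' z.1 = 0 := z.2
            rw [← hH'a]
            exact h2
          have h2 : B z.1.2 = -(z.1.1 • v) := eq_neg_of_add_eq_zero_left h1
          show fs s y₀ z.1.2 = 0
          unfold fs orth along
          rw [_root_.smul_apply, _root_.sub_apply,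
            _root_.smul_apply, ContinuousLinearMap.smulRight_apply,
            ContinuousLinearMap.comp_apply, ← hB, h2, hsy, innerSL_apply_apply, inner_neg_right,
            inner_smul_right, inner_self_eq_norm_sq_to_K]
          have h3 : ((‖v‖ : ℝ) : ℂ) ≠ 0 := by exact_mod_cast norm_ne_zero_iff.2 hv
          have h4 : -(z.1.1 • v) - (((‖v‖ ^ 2)⁻¹ : ℝ) : ℂ) •
              (-(z.1.1 * ((‖v‖ : ℝ) : ℂ) ^ 2)) • v = 0 := by
            rw [smul_smul]
            have h5 : (((‖v‖ ^ 2)⁻¹ : ℝ) : ℂ) * -(z.1.1 * ((‖v‖ : ℝ) : ℂ) ^ 2) = -z.1.1 := by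
              push_cast
              field_simp
            rw [h5, neg_smul]
            simp
          rw [show ((‖v‖ : ℝ) : ℂ) = RCLike.ofReal ‖v‖ from rfl] at h4
          rw [h4, smul_zero]⟩
        map_add' := fun _ _ => rfl
        map_smul' := fun _ _ => rfl }
    have hj : Function.Injective j := by
      rw [injective_iff_map_eq_zero]
      intro z hz
      have h1 : z.1.2 = 0 := congrArg Subtype.val hz
      have h2 : B z.1.2 + z.1.1 • v = 0 := by
        have h3 : H' z.1 = 0 := z.2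
        rw [← hH'a]
        exact h3
      rw [h1, map_zero, zero_add] at h2
      have h4 : z.1.1 = 0 := by
        rcases smul_eq_zero.1 h2 with h5 | h5
        · exact h5
        · exact absurd h5 hv
      exact Subtype.ext (Prod.ext h4 h1)
    exact LinearMap.finrank_le_finrank_of_injective hj
  have hrn := LinearMap.finrank_range_add_finrank_ker H'.toLinearMap
  rw [Module.finrank_prod, Module.finrank_self, Module.finrank_fin_fun] at hrn
  have hTd : r + Module.finrank ℂ T = N + 1 := by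
    have h1 := JacUp.finrank_ker P' hs
    rwa [finrank_euclideanSpace_fin] at h1
  have hle : LinearMap.range H'.toLinearMap ≤ T := by
    rintro _ ⟨z, rfl⟩
    exact hH'T z
  have hfle : Module.finrank ℂ (LinearMap.range H'.toLinearMap) ≤ Module.finrank ℂ T :=
    Submodule.finrank_mono hle
  by_contra hcon
  have heq : LinearMap.range H'.toLinearMap = T :=
    Submodule.eq_of_le_of_finrank_le hle (by omega)
  have hk1 : Module.finrank ℂ (LinearMap.ker H'.toLinearMap) = 1 := by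
    rw [heq] at hrn
    omega
  -- the projection
  set π : Hil (N + 1) →L[ℂ] T := T.orthogonalProjectionOnto with hπ
  obtain ⟨e, he⟩ := JacUp.exists_coord P' hs
  have hg : HasStrictFDerivAt (fun x => (P x, π x))
      (e : Hil (N + 1) →L[ℂ] (Fin r → ℂ) × T) v := by
    rw [he]
    exact hP.prodMk π.hasStrictFDerivAt
  have hfd : HasStrictFDerivAt (fun z => π (H z)) (π.comp H') ((1 : ℂ), y₀) :=
    π.hasStrictFDerivAt.comp _ hHd
  have hfs : Function.Surjective (π.comp H') := by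
    intro t
    have h1 : (t : Hil (N + 1)) ∈ LinearMap.range H'.toLinearMap := by
      rw [heq]
      exact t.2
    obtain ⟨z, hz⟩ := h1
    refine ⟨z, ?_⟩
    show π (H' z) = t
    have h2 : H' z = (t : Hil (N + 1)) := hz
    rw [h2]
    exact T.orthogonalProjectionOnto_mem_subspace_eq_self t
  obtain ⟨z₀, hz₀, hz₀'⟩ : ∃ z₀ : ℂ × (Fin n → ℂ), z₀ ≠ 0 ∧ H' z₀ = 0 := by
    have : Nontrivial (LinearMap.ker H'.toLinearMap) :=
      Module.nontrivial_of_finrank_pos (R := ℂ) (by omega)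
    obtain ⟨z, hz⟩ := exists_ne (0 : LinearMap.ker H'.toLinearMap)
    exact ⟨z.1, fun h => hz (Subtype.ext h), z.2⟩
  -- a neighbourhood on which `H = v` as soon as the projection is the same
  have hO : ∀ᶠ z : ℂ × (Fin n → ℂ) in 𝓝 ((1 : ℂ), y₀), (z.2 ∈ U ∧ P (H z) = 0) ∧
      hg.localInverse _ _ _ (P (H z), π (H z)) = H z :=
    hPH.and (hcH.eventually hg.eventually_left_inverse)
  have hPv : P v = 0 := by
    have h1 := hPH.self_of_nhds.2
    rwa [hH1] at h1
  have hinf := JacLow.level_infinite hfd hfs hz₀ (by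
    show π (H' z₀) = 0
    rw [hz₀', map_zero]) hO
  have himg : ∀ z ∈ {z : ℂ × (Fin n → ℂ) | z ∈ {z : ℂ × (Fin n → ℂ) | (z.2 ∈ U ∧ P (H z) = 0) ∧
      hg.localInverse _ _ _ (P (H z), π (H z)) = H z} ∧ π (H z) = π (H ((1 : ℂ), y₀))},
      z.2 ∈ U ∧ z.1 • s z.2 = v := by
    rintro z ⟨⟨⟨hzU, hz1⟩, hz2⟩, hz3⟩
    refine ⟨hzU, ?_⟩
    have h1 : hg.localInverse _ _ _ (P v, π v) = v := hg.localInverse_apply_image
    show H z = v
    rw [← hz2, hz1, hz3, hH1, ← hPv]
    exact h1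
  refine hinf ?_
  -- finiteness of the fibre
  have hF : (F ⁻¹' {F x}).Finite := hfin x
  have hfin2 : ((chartAt (Fin n → ℂ) x) '' (F ⁻¹' {F x})).Finite := hF.image _
  refine Set.Finite.of_finite_image (f := Prod.snd) (hfin2.subset ?_) ?_
  · rintro _ ⟨z, hz, rfl⟩
    obtain ⟨hzU, hzv⟩ := himg z hz
    refine ⟨(chartAt (Fin n → ℂ) x).symm z.2, ?_, (chartAt (Fin n → ℂ) x).right_inv (hs1.sub hzU)⟩
    obtain ⟨h3, h4⟩ := hs1.eq z.2 hzU
    show F _ = F x
    rw [h4, hx]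
    exact (Projectivization.mk_eq_mk_iff' ℂ _ _ h3 hv).2 (by
      have hz1 : z.1 ≠ 0 := by
        rintro h5
        rw [h5, zero_smul] at hzv
        exact hv hzv.symm
      exact ⟨z.1⁻¹, by rw [← hzv, smul_smul, inv_mul_cancel₀ hz1, one_smul]⟩)
  · rintro ⟨t, y⟩ hz ⟨t', y'⟩ hz' h
    obtain ⟨hzU, hzv⟩ := himg _ hz
    obtain ⟨-, hzv'⟩ := himg _ hz'
    simp only at h hzv hzv' hzU
    subst h
    obtain ⟨h3, -⟩ := hs1.eq y hzU
    have h5 : (t - t') • s y = 0 := by rw [sub_smul, hzv, hzv', sub_self]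
    rcases smul_eq_zero.1 h5 with h6 | h6
    · rw [sub_eq_zero.1 h6]
    · exact absurd h6 h3

end L2M
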