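import Pool.Agent.Work.MP_ead3fc_ag.M.JacA
import Pool.Agent.Work.MP_ead3fc_ag.M.JacLow

/-!
# MP_ead3fc_ag, module JAC (helper38, with helper12 and helper79): the singular locus of `F(M)`

`jac`: if the image `X` of `F : M → ℙ^N` is algebraic, then `sing n X` is contained in the zero set
of a homogeneous polynomial which is not identically zero on `X` (Jacobian criterion).
-/

set_option autoImplicit false

open MeasureTheory Set Filter Topology
open scoped ENNReal LinearAlgebra.Projectivization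

namespace L2M

namespace Jac

variable {N : ℕ}

theorem isRegPt_of {n r : ℕ} {X : Set (ℙ ℂ (Hil (N + 1)))} {p : ℙ ℂ (Hil (N + 1))} (hp : p ∈ X)
    (hr : N - n = r) (W : Set (Hil (N + 1))) (g : Hil (N + 1) → (Fin r → ℂ)) (hW : IsOpen W)
    (hpW : p.rep ∈ W) (hg : DifferentiableOn ℂ g W) (hs : Function.Surjective (fderiv ℂ g p.rep))
    (hX : ∀ (v : Hil (N + 1)) (h : v ≠ 0), v ∈ W → (Projectivization.mk ℂ v h ∈ X ↔ g v = 0)) :
    IsRegPt n X p := by
  subst hr
  exact ⟨hp, W, g, hW, hpW, hg, hs, hX⟩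

end Jac

/-- JAC: the singular locus of an algebraic set `X = F(M)` lies in the zero set of a homogeneous
polynomial which is not identically zero on `X`. -/
theorem jac (M : Type) [TopologicalSpace M] [CompactSpace M] [Nonempty M] (n N : ℕ)
    [ChartedSpace (Fin n → ℂ) M] (F : M → ℙ ℂ (Hil (N + 1))) (X : Set (ℙ ℂ (Hil (N + 1))))
    (hX : IsAlg X) (hr : Set.range F = X) (hl : ∀ x, ∃ U s, IsLift (n := n) F x U s)
    (hfin : ∀ x, (F ⁻¹' {F x}).Finite)
    (hrk : ∀ x U s, IsLift (n := n) F x U s →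
      Module.finrank ℂ (LinearMap.ker (fs s (chartAt (Fin n → ℂ) x x)).toLinearMap) ≤ 1) :
    ∃ (P : MvPolynomial (Fin (N + 1)) ℂ) (d : ℕ), P.IsHomogeneous d ∧
      (∀ p ∈ sing n X, Van P p) ∧ ∃ p ∈ X, ¬ Van P p := by
  classical
  obtain ⟨x0⟩ := ‹Nonempty M›
  -- the minors
  set R : ℕ → Prop := fun r => ∃ (P : Fin r → MvPolynomial (Fin (N + 1)) ℂ)
    (J : Fin r → Fin (N + 1)), (∀ i, P i ∈ IX X) ∧ ∃ (v : Hil (N + 1)) (h : v ≠ 0),
      Projectivization.mk ℂ v h ∈ X ∧ ev (jmin P J) v ≠ 0 with hRdef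
  have hR0 : R 0 := by
    refine ⟨Fin.elim0, Fin.elim0, fun i => i.elim0, (F x0).rep, (F x0).rep_nonzero, ?_, ?_⟩
    · rw [Projectivization.mk_rep, ← hr]
      exact mem_range_self x0
    · simp [jmin, ev]
  have hRle : ∀ r, R r → r ≤ N + 1 := by
    rintro r ⟨P, J, -, v, -, -, h⟩
    exact le_of_jmin P J v h
  set r := Nat.findGreatest R (N + 1) with hrdef
  have hRr : R r := Nat.findGreatest_spec (m := 0) (Nat.zero_le _) hR0
  have hRn : ¬ R (r + 1) := by
    intro h
    exact absurd (Nat.le_findGreatest (hRle _ h) h) (by omega)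
  have hmax : ∀ (P' : Fin (r + 1) → MvPolynomial (Fin (N + 1)) ℂ)
      (J' : Fin (r + 1) → Fin (N + 1)), (∀ i, P' i ∈ IX X) → ∀ (v : Hil (N + 1)) (h : v ≠ 0),
      Projectivization.mk ℂ v h ∈ X → ev (jmin P' J') v = 0 := by
    intro P' J' hP' v h hv
    by_contra hne
    exact hRn ⟨P', J', hP', v, h, hv, hne⟩
  obtain ⟨P, J, hP, v0, hv0, hv0X, hD0⟩ := hRr
  obtain ⟨d, hd⟩ := jmin_mem_isHomogeneous (P := P) (J := J) fun i => (hP i).1
  have key : ∀ (v : Hil (N + 1)) (h : v ≠ 0), Projectivization.mk ℂ v h ∈ X →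
      ev (jmin P J) v ≠ 0 → N = n + r := by
    intro v h hvX hD
    obtain ⟨W, hW, hvW, hWX⟩ := jac_local hX P J hP hmax v h hvX hD
    obtain ⟨P', hst, hs⟩ := jac_deriv P J v hD
    refine le_antisymm ?_ ?_
    · refine jacup M n N r F hl v _ _ hst hs ?_ ?_
      · funext i
        exact (hP i).2 v h hvX
      · have h1 : ∀ᶠ q : Hil (N + 1) in 𝓝 v, q ≠ 0 := isOpen_ne.mem_nhds h
        filter_upwards [hW.mem_nhds hvW, h1] with q hq hq0 hPq
        refine ⟨hq0, ?_⟩
        rw [hr]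
        exact (hWX q hq0 hq).2 fun i => congrFun hPq i
    · refine jaclow M n N r F hl hfin hrk v h _ _ hst hs ?_ ?_
      · rw [hr]
        exact hvX
      · filter_upwards [hW.mem_nhds hvW] with q hq hq0 hqX
        rw [hr] at hqX
        funext i
        exact (hWX q hq0 hq).1 hqX i
  have hNr : N = n + r := key v0 hv0 hv0X hD0
  have hvan : ∀ p : ℙ ℂ (Hil (N + 1)), Van (jmin P J) p ↔ ev (jmin P J) p.rep = 0 :=
    fun p => Iff.rfl
  refine ⟨jmin P J, d, hd, ?_, Projectivization.mk ℂ v0 hv0, hv0X, ?_⟩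
  · rintro p ⟨hpX, hpr⟩
    by_contra hp
    rw [hvan] at hp
    refine hpr ?_
    have hpX' : Projectivization.mk ℂ p.rep p.rep_nonzero ∈ X := by
      rwa [Projectivization.mk_rep]
    obtain ⟨W, hW, hvW, hWX⟩ := jac_local hX P J hP hmax p.rep p.rep_nonzero hpX' hp
    obtain ⟨P', hst, hs⟩ := jac_deriv P J p.rep hp
    rw [← hst.hasFDerivAt.fderiv] at hs
    refine Jac.isRegPt_of hpX (by omega) W (fun q i => ev (P i) q) hW hvW ?_ hs ?_
    · exact (differentiable_pi.2 fun i => (contDiff_ev (P i) (k := 1)).differentiable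
        (by simp)).differentiableOn
    · intro v h hv
      rw [hWX v h hv]
      exact ⟨fun h1 => funext h1, fun h1 i => congrFun h1 i⟩
  · rw [hvan]
    obtain ⟨a, ha⟩ := Projectivization.exists_smul_eq_mk_rep ℂ v0 hv0
    rw [← ha]
    intro h2
    have h3 : ev (jmin P J) ((a : ℂ) • v0) = 0 := h2
    rw [ev_smul hd] at h3
    exact mul_ne_zero (pow_ne_zero d a.ne_zero) hD0 h3

end L2M
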