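import Pool.Agent.Work.MP_ead3fc_ag.M.Tasks
import Pool.Agent.Work.MP_0e9e72_an.SCVA

/-!
# MP_ead3fc_ag, global theorem: adapted coordinates (module ADAPT)

At a point `p` of corank at most one there are linear projections `L` and a linear function `l`
such that `(l, L ∘ G)` is a local biholomorphic map and `h` does not vanish identically on the
curve `L ∘ G = L (G p)`.
-/

set_option autoImplicit false

open MeasureTheory Set Filter Topology Metric
open scoped ENNReal ContDiff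

namespace L2M

/-! ### Linear algebra -/

theorem adapt_lin (m N : ℕ) (D : (Fin (m + 1) → ℂ) →L[ℂ] Hil N)
    (hD : Module.finrank ℂ (LinearMap.ker D.toLinearMap) ≤ 1) :
    ∃ (l : (Fin (m + 1) → ℂ) →L[ℂ] ℂ) (L : Hil N →L[ℂ] (Fin m → ℂ)),
      ∀ v, l v = 0 → L (D v) = 0 → v = 0 := by
  have h1 := D.toLinearMap.finrank_range_add_finrank_ker
  rw [Module.finrank_fin_fun] at h1
  have h2 : m ≤ Module.finrank ℂ (LinearMap.range D.toLinearMap) := by omega
  obtain ⟨g, hg⟩ : ∃ g : LinearMap.range D.toLinearMap →ₗ[ℂ] (Fin m → ℂ),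
      Function.Surjective g := by
    refine ⟨(LinearMap.funLeft ℂ ℂ (Fin.castLE h2)).comp
      (Module.finBasis ℂ (LinearMap.range D.toLinearMap)).equivFun.toLinearMap, ?_⟩
    exact (LinearMap.funLeft_surjective_of_injective ℂ ℂ _ (Fin.castLE_injective h2)).comp
      (Module.finBasis ℂ (LinearMap.range D.toLinearMap)).equivFun.surjective
  obtain ⟨L0, hL0⟩ := g.exists_extend
  have hs : Function.Surjective (L0.comp D.toLinearMap) := by
    intro t
    obtain ⟨⟨_, v, rfl⟩, hr⟩ := hg t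
    refine ⟨v, ?_⟩
    rw [← hr, ← hL0]
    rfl
  have h3 := (L0.comp D.toLinearMap).finrank_range_add_finrank_ker
  rw [LinearMap.range_eq_top.2 hs, finrank_top, Module.finrank_fin_fun, Module.finrank_fin_fun]
    at h3
  have h4 : Module.finrank ℂ (LinearMap.ker (L0.comp D.toLinearMap)) = 1 := by omega
  obtain ⟨⟨v0, hv0⟩, hne, hsp⟩ := finrank_eq_one_iff'.1 h4
  have hne' : v0 ≠ 0 := fun h => hne (by ext1; exact h)
  obtain ⟨i, hi⟩ := Function.ne_iff.1 hne'
  refine ⟨ContinuousLinearMap.proj i, LinearMap.toContinuousLinearMap L0, fun v h h' => ?_⟩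
  obtain ⟨c, hc⟩ := hsp ⟨v, h'⟩
  have hc' : c • v0 = v := congrArg Subtype.val hc
  have h5 : c * v0 i = 0 := by
    have : (c • v0) i = v i := by rw [hc']
    rw [Pi.smul_apply, smul_eq_mul] at this
    rw [this]; exact h
  rcases mul_eq_zero.1 h5 with h6 | h6
  · rw [← hc', h6, zero_smul]
  · exact absurd h6 hi

/-! ### The family of maps -/

section

variable {m N : ℕ}

/-- `Fin.cons` as a continuous linear map. -/
noncomputable abbrev adCons (m : ℕ) : (ℂ × (Fin m → ℂ)) ≃L[ℂ] (Fin (m + 1) → ℂ) :=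
  Fin.consEquivL ℂ (fun _ : Fin (m + 1) => ℂ)

/-- The map `(L, y) ↦ (L, (l y, L (G y)))`. -/
noncomputable def adPhi (l : (Fin (m + 1) → ℂ) →L[ℂ] ℂ) (G : (Fin (m + 1) → ℂ) → Hil N)
    (x : (Hil N →L[ℂ] (Fin m → ℂ)) × (Fin (m + 1) → ℂ)) :
    (Hil N →L[ℂ] (Fin m → ℂ)) × (Fin (m + 1) → ℂ) :=
  (x.1, adCons m (l x.2, x.1 (G x.2)))

theorem adPhi_contDiffAt (l : (Fin (m + 1) → ℂ) →L[ℂ] ℂ) {G : (Fin (m + 1) → ℂ) → Hil N}
    {x : (Hil N →L[ℂ] (Fin m → ℂ)) × (Fin (m + 1) → ℂ)} (hG : ContDiffAt ℂ 1 G x.2) :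
    ContDiffAt ℂ 1 (adPhi l G) x := by
  unfold adPhi
  refine contDiffAt_fst.prodMk ((adCons m).contDiff.contDiffAt.comp x
    ((l.contDiff.contDiffAt.comp x contDiffAt_snd).prodMk ?_))
  exact contDiffAt_fst.clm_apply (hG.comp x contDiffAt_snd)

theorem adPhi_hasFDerivAt (l : (Fin (m + 1) → ℂ) →L[ℂ] ℂ) {G : (Fin (m + 1) → ℂ) → Hil N}
    {x : (Hil N →L[ℂ] (Fin m → ℂ)) × (Fin (m + 1) → ℂ)} (hG : DifferentiableAt ℂ G x.2)
    (hinj : ∀ v, l v = 0 → x.1 (fderiv ℂ G x.2 v) = 0 → v = 0) :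
    ∃ f' : ((Hil N →L[ℂ] (Fin m → ℂ)) × (Fin (m + 1) → ℂ)) ≃L[ℂ]
      ((Hil N →L[ℂ] (Fin m → ℂ)) × (Fin (m + 1) → ℂ)),
      HasFDerivAt (adPhi l G) (f' : ((Hil N →L[ℂ] (Fin m → ℂ)) × (Fin (m + 1) → ℂ)) →L[ℂ]
      ((Hil N →L[ℂ] (Fin m → ℂ)) × (Fin (m + 1) → ℂ))) x := by
  have h1 := (hasFDerivAt_fst (𝕜 := ℂ) (p := x)).prodMk ((adCons m).hasFDerivAt.comp x
    ((l.hasFDerivAt.comp x (hasFDerivAt_snd (𝕜 := ℂ) (p := x))).prodMk
      ((hasFDerivAt_fst (𝕜 := ℂ) (p := x)).clm_apply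
        (hG.hasFDerivAt.comp x (hasFDerivAt_snd (𝕜 := ℂ) (p := x))))))
  set D := (ContinuousLinearMap.fst ℂ (Hil N →L[ℂ] (Fin m → ℂ)) (Fin (m + 1) → ℂ)).prod
    (((adCons m : (ℂ × (Fin m → ℂ)) →L[ℂ] (Fin (m + 1) → ℂ))).comp ((l.comp
      (ContinuousLinearMap.snd ℂ (Hil N →L[ℂ] (Fin m → ℂ)) (Fin (m + 1) → ℂ))).prod
        ((x.1.comp ((fderiv ℂ G x.2).comp
          (ContinuousLinearMap.snd ℂ (Hil N →L[ℂ] (Fin m → ℂ)) (Fin (m + 1) → ℂ)))) +
        (ContinuousLinearMap.fst ℂ (Hil N →L[ℂ] (Fin m → ℂ)) (Fin (m + 1) → ℂ)).flip (G x.2))))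
    with hDdef
  have h2 : HasFDerivAt (adPhi l G) D x := h1
  have hin : Function.Injective D.toLinearMap := by
    rw [injective_iff_map_eq_zero]
    rintro ⟨L', y'⟩ h
    have h3 : L' = 0 := congrArg Prod.fst h
    subst h3
    have h4 : (adCons m) (l y', x.1 (fderiv ℂ G x.2 y') + (0 : Hil N →L[ℂ] (Fin m → ℂ)) (G x.2))
      = 0 := congrArg Prod.snd h
    rw [ContinuousLinearEquiv.map_eq_zero_iff, Prod.mk_eq_zero] at h4
    have h5 : y' = 0 := hinj y' h4.1 (by simpa using h4.2)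
    rw [h5]; rfl
  refine ⟨(LinearEquiv.ofInjectiveEndo D.toLinearMap hin).toContinuousLinearEquiv, ?_⟩
  have h6 : (((LinearEquiv.ofInjectiveEndo D.toLinearMap hin).toContinuousLinearEquiv :
      ((Hil N →L[ℂ] (Fin m → ℂ)) × (Fin (m + 1) → ℂ)) →L[ℂ]
      ((Hil N →L[ℂ] (Fin m → ℂ)) × (Fin (m + 1) → ℂ)))) = D := by
    refine ContinuousLinearMap.ext fun v => ?_
    rfl
  rw [h6]
  exact h2

/-- The local inverse. -/
theorem adapt_Phi {W : Set (Fin (m + 1) → ℂ)} {p : Fin (m + 1) → ℂ}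
    {G : (Fin (m + 1) → ℂ) → Hil N} (hW : IsOpen W) (hp : p ∈ W) (hG : DifferentiableOn ℂ G W)
    (l : (Fin (m + 1) → ℂ) →L[ℂ] ℂ) (L0 : Hil N →L[ℂ] (Fin m → ℂ))
    (hinj : ∀ v, l v = 0 → L0 (fderiv ℂ G p v) = 0 → v = 0) :
    ∃ Φ : OpenPartialHomeomorph ((Hil N →L[ℂ] (Fin m → ℂ)) × (Fin (m + 1) → ℂ))
      ((Hil N →L[ℂ] (Fin m → ℂ)) × (Fin (m + 1) → ℂ)),
      (∀ x, Φ x = adPhi l G x) ∧ (L0, p) ∈ Φ.source ∧ (∀ x ∈ Φ.source, x.2 ∈ W) ∧
      DifferentiableOn ℂ Φ.symm Φ.target := by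
  have hGc : ContDiffAt ℂ 1 G p := by
    have := SCV.contDiffAt_of_differentiableOn hW hG hp (n := 1)
    exact_mod_cast this
  have hc : ContDiffAt ℂ 1 (adPhi l G) (L0, p) := adPhi_contDiffAt l hGc
  obtain ⟨f', hf'⟩ := adPhi_hasFDerivAt l (x := (L0, p))
    ((hG p hp).differentiableAt (hW.mem_nhds hp)) hinj
  have ho : IsOpen ((univ : Set (Hil N →L[ℂ] (Fin m → ℂ))) ×ˢ W) := isOpen_univ.prod hW
  refine ⟨((hc.toOpenPartialHomeomorph (adPhi l G) hf' one_ne_zero).restrContDiff ℂ 1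
    (by simp)).restrOpen _ ho, fun x => rfl, ?_, ?_, ?_⟩
  · rw [OpenPartialHomeomorph.restrOpen_source, OpenPartialHomeomorph.restrContDiff_source]
    refine ⟨⟨hc.mem_toOpenPartialHomeomorph_source hf' one_ne_zero, ?_, ?_⟩, mem_univ _, hp⟩
    · exact hc
    · exact hc.to_localInverse hf' one_ne_zero
  · intro x hx
    rw [OpenPartialHomeomorph.restrOpen_source] at hx
    exact hx.2.2
  · refine ((OpenPartialHomeomorph.contDiffOn_restrContDiff_target ℂ
      (hc.toOpenPartialHomeomorph (adPhi l G) hf' one_ne_zero) (n := 1)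
      (by simp)).differentiableOn one_ne_zero).mono ?_
    intro x hx
    exact hx.1

/-- Slices of a local homeomorphism preserving the first coordinate. -/
noncomputable def adSlice {V E : Type*} [TopologicalSpace V] [TopologicalSpace E]
    (Φ : OpenPartialHomeomorph (V × E) (V × E)) (hΦ : ∀ x, (Φ x).1 = x.1) (L : V) :
    OpenPartialHomeomorph E E where
  toFun y := (Φ (L, y)).2
  invFun z := (Φ.symm (L, z)).2
  source := {y | (L, y) ∈ Φ.source}
  target := {z | (L, z) ∈ Φ.target}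
  map_source' y hy := by
    have h1 : ((L, (Φ (L, y)).2) : V × E) = Φ (L, y) := Prod.ext (hΦ (L, y)).symm rfl
    change (L, (Φ (L, y)).2) ∈ Φ.target
    rw [h1]
    exact Φ.map_source hy
  map_target' z hz := by
    have h1 : (Φ.symm (L, z)).1 = L := by
      rw [← hΦ, Φ.right_inv hz]
    have h2 : ((L, (Φ.symm (L, z)).2) : V × E) = Φ.symm (L, z) := Prod.ext h1.symm rfl
    change (L, (Φ.symm (L, z)).2) ∈ Φ.source
    rw [h2]
    exact Φ.map_target hz
  left_inv' y hy := by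
    have h1 : ((L, (Φ (L, y)).2) : V × E) = Φ (L, y) := Prod.ext (hΦ (L, y)).symm rfl
    change (Φ.symm (L, (Φ (L, y)).2)).2 = y
    rw [h1, Φ.left_inv hy]
  right_inv' z hz := by
    have h1 : (Φ.symm (L, z)).1 = L := by
      rw [← hΦ, Φ.right_inv hz]
    have h2 : ((L, (Φ.symm (L, z)).2) : V × E) = Φ.symm (L, z) := Prod.ext h1.symm rfl
    change (Φ (L, (Φ.symm (L, z)).2)).2 = z
    rw [h2, Φ.right_inv hz]
  open_source := Φ.open_source.preimage (by fun_prop)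
  open_target := Φ.open_target.preimage (by fun_prop)
  continuousOn_toFun := continuous_snd.comp_continuousOn
    (Φ.continuousOn.comp (by fun_prop) fun y hy => hy)
  continuousOn_invFun := continuous_snd.comp_continuousOn
    (Φ.symm.continuousOn.comp (by fun_prop) fun y hy => hy)

/-- Identity theorem on a ball. -/
theorem ad_ident {E : Type*} [NormedAddCommGroup E] [NormedSpace ℂ E] {p y1 : E} {ρ : ℝ}
    {h : E → ℂ} (hh : DifferentiableOn ℂ h (ball p ρ)) (hy1 : y1 ∈ ball p ρ)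
    (h0 : ∀ᶠ y in 𝓝 y1, h y = 0) : ∀ y ∈ ball p ρ, h y = 0 := by
  intro y hy
  have hcont : Continuous fun t : ℂ => y1 + t • (y - y1) := by fun_prop
  set T : Set ℂ := (fun t : ℂ => y1 + t • (y - y1)) ⁻¹' ball p ρ with hT
  have hTo : IsOpen T := isOpen_ball.preimage hcont
  have hTc : Convex ℝ T := by
    intro t ht t' ht' a b ha hb hab
    have h1 : y1 + (a • t + b • t') • (y - y1) =
        a • (y1 + t • (y - y1)) + b • (y1 + t' • (y - y1)) := by
      have h2 : b = 1 - a := by linarith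
      subst h2
      simp only [add_smul, smul_add, smul_assoc, sub_smul, one_smul]
      abel
    change y1 + (a • t + b • t') • (y - y1) ∈ ball p ρ
    rw [h1]
    exact convex_ball p ρ ht ht' ha hb hab
  have hdiff : DifferentiableOn ℂ (fun t : ℂ => h (y1 + t • (y - y1))) T :=
    hh.comp (by fun_prop) fun t ht => ht
  have hana := hdiff.analyticOnNhd hTo
  have h0T : (0 : ℂ) ∈ T := by
    change y1 + (0 : ℂ) • (y - y1) ∈ ball p ρ
    simpa using hy1
  have h1T : (1 : ℂ) ∈ T := by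
    change y1 + (1 : ℂ) • (y - y1) ∈ ball p ρ
    simpa using hy
  have hev : (fun t : ℂ => h (y1 + t • (y - y1))) =ᶠ[𝓝 0] 0 := by
    have h3 : Tendsto (fun t : ℂ => y1 + t • (y - y1)) (𝓝 0) (𝓝 y1) := by
      have := hcont.tendsto 0
      simpa using this
    exact h3.eventually h0
  have h4 := hana.eqOn_zero_of_preconnected_of_eventuallyEq_zero hTc.isPreconnected h0T hev h1T
  simpa using h4

/-- The rank one correction of `L0` which kills `v`. -/
noncomputable def adCorr (L0 : Hil N →L[ℂ] (Fin m → ℂ)) (v : Hil N) :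
    Hil N →L[ℂ] (Fin m → ℂ) :=
  L0 - (innerSL ℂ v).smulRight ((((‖v‖ ^ 2 : ℝ) : ℂ))⁻¹ • L0 v)

theorem adCorr_self (L0 : Hil N →L[ℂ] (Fin m → ℂ)) {v : Hil N} (hv : v ≠ 0) :
    adCorr L0 v v = 0 := by
  have h1 : (((‖v‖ ^ 2 : ℝ) : ℂ)) ≠ 0 := by
    have : ‖v‖ ≠ 0 := norm_ne_zero_iff.2 hv
    exact_mod_cast pow_ne_zero 2 this
  have h2 : inner ℂ v v = (((‖v‖ ^ 2 : ℝ) : ℂ)) := by
    rw [inner_self_eq_norm_sq_to_K]
    push_cast
    rfl
  rw [adCorr, sub_apply, ContinuousLinearMap.smulRight_apply,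
    innerSL_apply_apply, h2, smul_smul, mul_inv_cancel₀ h1, one_smul, sub_self]

theorem adCorr_of (L0 : Hil N →L[ℂ] (Fin m → ℂ)) {v : Hil N} (hv : L0 v = 0) :
    adCorr L0 v = L0 := by
  rw [adCorr, hv, smul_zero]
  ext x i
  simp

theorem adCorr_continuousAt (L0 : Hil N →L[ℂ] (Fin m → ℂ)) {v : Hil N} (hv : v ≠ 0) :
    ContinuousAt (adCorr L0) v := by
  unfold adCorr
  refine continuousAt_const.sub ?_
  have h1 : ContinuousAt (fun v : Hil N => (((‖v‖ ^ 2 : ℝ) : ℂ))⁻¹ • L0 v) v := by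
    have h3 : ContinuousAt (fun v : Hil N => (((‖v‖ ^ 2 : ℝ) : ℂ))) v :=
      (Complex.continuous_ofReal.comp (continuous_norm.pow 2)).continuousAt
    have h4 : (((‖v‖ ^ 2 : ℝ) : ℂ)) ≠ 0 := by
      have : ‖v‖ ≠ 0 := norm_ne_zero_iff.2 hv
      exact_mod_cast pow_ne_zero 2 this
    exact (h3.inv₀ h4).smul L0.continuous.continuousAt
  have h2 : ContinuousAt (fun v : Hil N => innerSL ℂ v) v :=
    (innerSL ℂ).continuous.continuousAt
  exact (((ContinuousLinearMap.smulRightL ℂ (Hil N) (Fin m → ℂ)).continuous.continuousAt.comp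
    h2).clm_apply h1)

/-! ### Existence of a good projection -/

theorem adapt_exists {W : Set (Fin (m + 1) → ℂ)} {p : Fin (m + 1) → ℂ}
    {G : (Fin (m + 1) → ℂ) → Hil N} {h : (Fin (m + 1) → ℂ) → ℂ} (hW : IsOpen W) (hp : p ∈ W)
    (hG : DifferentiableOn ℂ G W) (hh : DifferentiableOn ℂ h W) (hfr : ∃ᶠ y in 𝓝 p, h y ≠ 0)
    (hr : Module.finrank ℂ (LinearMap.ker (fderiv ℂ G p).toLinearMap) ≤ 1)
    (hiso : ∀ᶠ y in 𝓝[≠] p, G y ≠ G p) :
    ∃ (Ψ : OpenPartialHomeomorph (Fin (m + 1) → ℂ) (Fin (m + 1) → ℂ))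
      (L : Hil N →L[ℂ] (Fin m → ℂ)), p ∈ Ψ.source ∧ Ψ.source ⊆ W ∧
      DifferentiableOn ℂ Ψ Ψ.source ∧ DifferentiableOn ℂ Ψ.symm Ψ.target ∧
      (∀ y ∈ Ψ.source, ∀ j : Fin m, L (G y) j = Ψ y j.succ) ∧
      ∀ᶠ ζ in 𝓝[≠] (Ψ p 0), h (Ψ.symm (adCons m (ζ, L (G p)))) ≠ 0 := by
  obtain ⟨l, L0, hinj⟩ := adapt_lin m N (fderiv ℂ G p) hr
  obtain ⟨Φ, hΦ, hsrc, hΦW, hΦd⟩ := adapt_Phi hW hp hG l L0 hinj
  have hΦ1 : ∀ x, (Φ x).1 = x.1 := fun x => by rw [hΦ]; rfl
  -- the ball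
  obtain ⟨ρ, hρ, hball⟩ : ∃ ρ > 0, ball p ρ ⊆ W ∩ {y | y ≠ p → G y ≠ G p} := by
    rw [← Metric.mem_nhds_iff]
    refine inter_mem (hW.mem_nhds hp) ?_
    rw [eventually_nhdsWithin_iff] at hiso
    exact hiso
  -- the map `c`
  set c : (Hil N →L[ℂ] (Fin m → ℂ)) × ℂ → (Hil N →L[ℂ] (Fin m → ℂ)) × (Fin (m + 1) → ℂ) :=
    fun x => (x.1, adCons m (x.2, x.1 (G p))) with hc
  have hcd : Differentiable ℂ c := by
    intro x
    refine DifferentiableAt.prodMk differentiableAt_fst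
      ((adCons m).differentiableAt.comp x (differentiableAt_snd.prodMk ?_))
    exact differentiableAt_fst.clm_apply (differentiableAt_const _)
  have hcc : Continuous c := hcd.continuous
  have hc0 : c (L0, l p) = Φ (L0, p) := by rw [hΦ]; rfl
  have hct : c (L0, l p) ∈ Φ.target := by rw [hc0]; exact Φ.map_source hsrc
  have hcs : Φ.symm (c (L0, l p)) = (L0, p) := by rw [hc0, Φ.left_inv hsrc]
  -- uniform neighbourhood
  obtain ⟨ε, hε, hS⟩ : ∃ ε > 0, ball (L0, l p) ε ⊆ {x : (Hil N →L[ℂ] (Fin m → ℂ)) × ℂ |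
      c x ∈ Φ.target ∧ (Φ.symm (c x)).2 ∈ ball p ρ ∧ (x.1, p) ∈ Φ.source} := by
    rw [← Metric.mem_nhds_iff]
    have h1 : ∀ᶠ x in 𝓝 (L0, l p), c x ∈ Φ.target :=
      hcc.continuousAt.eventually (Φ.open_target.mem_nhds hct)
    have h2 : ∀ᶠ x in 𝓝 (L0, l p), (Φ.symm (c x)).2 ∈ ball p ρ := by
      have h3 : ContinuousAt (fun x => (Φ.symm (c x)).2) (L0, l p) :=
        continuous_snd.continuousAt.comp
          (ContinuousAt.comp (f := c) (Φ.symm.continuousAt hct) hcc.continuousAt)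
      refine h3.eventually ?_
      change ball p ρ ∈ 𝓝 (Φ.symm (c (L0, l p))).2
      rw [hcs]
      exact ball_mem_nhds p hρ
    have h4 : ∀ᶠ x : (Hil N →L[ℂ] (Fin m → ℂ)) × ℂ in 𝓝 (L0, l p), (x.1, p) ∈ Φ.source := by
      have h5 : ContinuousAt (fun x : (Hil N →L[ℂ] (Fin m → ℂ)) × ℂ => (x.1, p)) (L0, l p) := by
        fun_prop
      exact h5.eventually (Φ.open_source.mem_nhds hsrc)
    filter_upwards [h1, h2, h4] with x h1 h2 h4
    exact ⟨h1, h2, h4⟩
  have hS' : ∀ L ∈ ball L0 ε, ∀ ζ ∈ ball (l p) ε, c (L, ζ) ∈ Φ.target ∧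
      (Φ.symm (c (L, ζ))).2 ∈ ball p ρ ∧ (L, p) ∈ Φ.source := by
    intro L hL ζ hζ
    have : (L, ζ) ∈ ball (L0, l p) ε := by
      rw [← ball_prod_same]; exact ⟨hL, hζ⟩
    exact hS this
  -- holomorphic in `ζ`
  have hana : ∀ L ∈ ball L0 ε,
      AnalyticOnNhd ℂ (fun ζ : ℂ => h ((Φ.symm (c (L, ζ))).2)) (ball (l p) ε) := by
    intro L hL
    refine DifferentiableOn.analyticOnNhd ?_ isOpen_ball
    intro ζ hζ
    obtain ⟨h1, h2, -⟩ := hS' L hL ζ hζ
    have h3 : DifferentiableAt ℂ (fun ζ : ℂ => c (L, ζ)) ζ :=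
      (hcd _).comp ζ (by fun_prop)
    have h4 : DifferentiableAt ℂ Φ.symm (c (L, ζ)) :=
      (hΦd _ h1).differentiableAt (Φ.open_target.mem_nhds h1)
    have h5 : DifferentiableAt ℂ h ((Φ.symm (c (L, ζ))).2) :=
      (hh _ (hball h2).1).differentiableAt (hW.mem_nhds (hball h2).1)
    have h6 : DifferentiableAt ℂ (fun ζ : ℂ => (Φ.symm (c (L, ζ))).2) ζ :=
      differentiableAt_snd.comp ζ (h4.comp ζ h3)
    exact (h5.comp ζ h6).differentiableWithinAt
  -- a good `L`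
  obtain ⟨L, hL, hLz⟩ : ∃ L ∈ ball L0 ε, ¬ ∀ᶠ ζ in 𝓝 (l p), h ((Φ.symm (c (L, ζ))).2) = 0 := by
    by_contra hcon
    push Not at hcon
    have hall : ∀ L ∈ ball L0 ε, ∀ ζ ∈ ball (l p) ε, h ((Φ.symm (c (L, ζ))).2) = 0 := by
      intro L hL
      exact (hana L hL).eqOn_zero_of_preconnected_of_eventuallyEq_zero
        (convex_ball _ _).isPreconnected (mem_ball_self hε) (hcon L hL)
    -- the point `y1`
    set ζ1 : ℂ := l p + ((ε / 2 : ℝ) : ℂ) with hζ1
    have hζ1m : ζ1 ∈ ball (l p) ε := by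
      rw [mem_ball, dist_eq_norm, hζ1, add_sub_cancel_left, Complex.norm_real, Real.norm_eq_abs,
        abs_of_pos (by positivity)]
      linarith
    have hζ1n : ζ1 ≠ l p := by
      rw [hζ1]
      intro h1
      have h2 : ((ε / 2 : ℝ) : ℂ) = 0 := by simpa using h1
      have h3 : ε / 2 = 0 := by exact_mod_cast h2
      linarith
    obtain ⟨h1, h2, -⟩ := hS' L0 (mem_ball_self hε) ζ1 hζ1m
    set y1 := (Φ.symm (c (L0, ζ1))).2 with hy1
    have h3 : (Φ.symm (c (L0, ζ1))).1 = L0 := by rw [← hΦ1, Φ.right_inv h1]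
    have h4 : Φ.symm (c (L0, ζ1)) = (L0, y1) := Prod.ext h3 rfl
    have h5 : (L0, y1) ∈ Φ.source := by rw [← h4]; exact Φ.map_target h1
    have h6 : adPhi l G (L0, y1) = c (L0, ζ1) := by
      rw [← hΦ, ← h4, Φ.right_inv h1]
    have h7 : ((l y1, L0 (G y1)) : ℂ × (Fin m → ℂ)) = (ζ1, L0 (G p)) :=
      (adCons m).injective (congrArg Prod.snd h6)
    have h8 : l y1 = ζ1 := congrArg Prod.fst h7
    have h9 : L0 (G y1) = L0 (G p) := congrArg Prod.snd h7
    have h10 : y1 ≠ p := fun h => hζ1n (by rw [← h8, h])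
    have h11 : G y1 ≠ G p := (hball h2).2 h10
    have h12 : G y1 - G p ≠ 0 := sub_ne_zero.2 h11
    have hGc : ContinuousAt G y1 :=
      (hG.continuousOn.continuousAt (hW.mem_nhds (hball h2).1))
    have hvc : ContinuousAt (fun y => G y - G p) y1 := hGc.sub continuousAt_const
    have hΛc : ContinuousAt (fun y => adCorr L0 (G y - G p)) y1 :=
      ContinuousAt.comp (f := fun y => G y - G p) (adCorr_continuousAt L0 h12) hvc
    have hΛ1 : adCorr L0 (G y1 - G p) = L0 := adCorr_of L0 (by rw [map_sub, h9, sub_self])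
    have hev : ∀ᶠ y in 𝓝 y1, h y = 0 := by
      have e1 : ∀ᶠ y in 𝓝 y1, G y - G p ≠ 0 := hvc.eventually_ne h12
      have e2 : ∀ᶠ y in 𝓝 y1, adCorr L0 (G y - G p) ∈ ball L0 ε :=
        hΛc.eventually (by
          change ball L0 ε ∈ 𝓝 (adCorr L0 (G y1 - G p))
          rw [hΛ1]; exact ball_mem_nhds L0 hε)
      have e3 : ∀ᶠ y in 𝓝 y1, l y ∈ ball (l p) ε :=
        l.continuous.continuousAt.eventually (by
          rw [h8]; exact isOpen_ball.mem_nhds hζ1m)
      have e4 : ∀ᶠ y in 𝓝 y1, (adCorr L0 (G y - G p), y) ∈ Φ.source :=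
        (hΛc.prodMk continuousAt_id).eventually (by
          change Φ.source ∈ 𝓝 (adCorr L0 (G y1 - G p), y1)
          rw [hΛ1]; exact Φ.open_source.mem_nhds h5)
      filter_upwards [e1, e2, e3, e4] with y f1 f2 f3 f4
      have f5 : adCorr L0 (G y - G p) (G y) = adCorr L0 (G y - G p) (G p) := by
        have := adCorr_self L0 f1
        rw [map_sub] at this
        exact sub_eq_zero.1 this
      have f6 : Φ (adCorr L0 (G y - G p), y) = c (adCorr L0 (G y - G p), l y) := by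
        rw [hΦ]
        change (_, adCons m (l y, adCorr L0 (G y - G p) (G y))) = _
        rw [f5]
      have f7 := hall _ f2 _ f3
      rw [← f6, Φ.left_inv f4] at f7
      exact f7
    have hz := ad_ident (hh.mono fun y hy => (hball hy).1) h2 hev
    obtain ⟨y, hy, hy'⟩ := (hfr.and_eventually (ball_mem_nhds p hρ)).exists
    exact hy (hz y hy')
  -- the slice
  have hLs : (L, p) ∈ Φ.source := (hS' L hL (l p) (mem_ball_self hε)).2.2
  have hval : ∀ y, adSlice Φ hΦ1 L y = adCons m (l y, L (G y)) := by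
    intro y
    change (Φ (L, y)).2 = _
    rw [hΦ]
    rfl
  refine ⟨adSlice Φ hΦ1 L, L, hLs, fun y hy => hΦW _ hy, ?_, ?_, ?_, ?_⟩
  · have h1 : DifferentiableOn ℂ (fun y => adCons m (l y, L (G y))) W := by
      intro y hy
      have h2 : DifferentiableAt ℂ G y := (hG y hy).differentiableAt (hW.mem_nhds hy)
      have h3 : DifferentiableAt ℂ (fun y => ((l y, L (G y)) : ℂ × (Fin m → ℂ))) y :=
        l.differentiableAt.prodMk (L.differentiableAt.comp y h2)
      exact ((adCons m).differentiableAt.comp y h3).differentiableWithinAt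
    refine (h1.mono fun y hy => hΦW _ hy).congr fun y _ => hval y
  · intro z hz
    have h1 : DifferentiableAt ℂ Φ.symm (L, z) :=
      (hΦd _ hz).differentiableAt (Φ.open_target.mem_nhds hz)
    have h2 : DifferentiableAt ℂ (fun z : Fin (m + 1) → ℂ => (L, z)) z := by fun_prop
    exact (differentiableAt_snd.comp z (h1.comp z h2)).differentiableWithinAt
  · intro y _ j
    rw [hval y]
    rfl
  · have h1 : adSlice Φ hΦ1 L p 0 = l p := by rw [hval]; rfl
    rw [h1]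
    rcases (hana L hL _ (mem_ball_self hε)).eventually_eq_zero_or_eventually_ne_zero with h2 | h2
    · exact absurd h2 hLz
    · exact h2

/-! ### Small boxes -/

theorem adapt_closure_cbox {n : ℕ} (a b : Fin n → ℂ) :
    closure (L2P.cbox a b) ⊆ {z | ∀ j, (a j).re ≤ (z j).re ∧ (z j).re ≤ (b j).re ∧
      (a j).im ≤ (z j).im ∧ (z j).im ≤ (b j).im} := by
  refine closure_minimal (fun z hz j => ⟨(hz j).1.le, (hz j).2.1.le, (hz j).2.2.1.le,
    (hz j).2.2.2.le⟩) ?_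
  have h1 : {z : Fin n → ℂ | ∀ j, (a j).re ≤ (z j).re ∧ (z j).re ≤ (b j).re ∧
      (a j).im ≤ (z j).im ∧ (z j).im ≤ (b j).im} = ⋂ j, {z | (a j).re ≤ (z j).re ∧
      (z j).re ≤ (b j).re ∧ (a j).im ≤ (z j).im ∧ (z j).im ≤ (b j).im} := by
    ext z
    simp
  rw [h1]
  refine isClosed_iInter fun j => ?_
  have hre : Continuous fun z : Fin n → ℂ => (z j).re :=
    Complex.continuous_re.comp (continuous_apply j)
  have him : Continuous fun z : Fin n → ℂ => (z j).im :=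
    Complex.continuous_im.comp (continuous_apply j)
  exact (isClosed_le continuous_const hre).inter ((isClosed_le hre continuous_const).inter
    ((isClosed_le continuous_const him).inter (isClosed_le him continuous_const)))

theorem adapt_box {T : Set (Fin (m + 1) → ℂ)} (hT : IsOpen T) {q : Fin (m + 1) → ℂ} (hq : q ∈ T)
    {g : (Fin (m + 1) → ℂ) → ℂ} (hg : ContinuousOn g T)
    (hz : ∀ᶠ ζ in 𝓝[≠] (q 0), g (adCons m (ζ, fun j => q j.succ)) ≠ 0) :
    ∃ a b : Fin (m + 1) → ℂ, q ∈ L2P.cbox a b ∧ closure (L2P.cbox a b) ⊆ T ∧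
      ∀ z ∈ closure (L2P.cbox a b), (z 0).re = (a 0).re → g z ≠ 0 := by
  obtain ⟨ρ, hρ, hρT⟩ := Metric.mem_nhds_iff.1 (hT.mem_nhds hq)
  obtain ⟨ρ', hρ', hz'⟩ : ∃ ρ' > 0, ball (q 0) ρ' ⊆
      {ζ | ζ ≠ q 0 → g (adCons m (ζ, fun j => q j.succ)) ≠ 0} := by
    rw [← Metric.mem_nhds_iff]
    rw [eventually_nhdsWithin_iff] at hz
    exact hz
  set ε : ℝ := min ρ ρ' / 4 with hεd
  have hε : 0 < ε := by
    have := lt_min hρ hρ'
    rw [hεd]; linarith
  have hε1 : 2 * ε < ρ := by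
    have := min_le_left ρ ρ'
    rw [hεd]; linarith
  have hε2 : 2 * ε < ρ' := by
    have := min_le_right ρ ρ'
    rw [hεd]; linarith
  -- norm estimate
  have hnorm : ∀ (u w : ℂ) (r : ℝ), w.re - r ≤ u.re → u.re ≤ w.re + r → w.im - r ≤ u.im →
      u.im ≤ w.im + r → dist u w ≤ 2 * r := by
    intro u w r h1 h2 h3 h4
    rw [dist_eq_norm]
    have h5 := Complex.norm_le_abs_re_add_abs_im (u - w)
    rw [Complex.sub_re, Complex.sub_im] at h5
    have h6 : |u.re - w.re| ≤ r := abs_le.2 ⟨by linarith, by linarith⟩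
    have h7 : |u.im - w.im| ≤ r := abs_le.2 ⟨by linarith, by linarith⟩
    linarith
  -- the side
  set S0 : Set ℂ := {ζ | ζ.re = (q 0).re - ε ∧ (q 0).im - ε ≤ ζ.im ∧ ζ.im ≤ (q 0).im + ε} with hS0
  have hS0b : S0 ⊆ closedBall (q 0) (2 * ε) := by
    intro ζ hζ
    rw [mem_closedBall]
    exact hnorm ζ (q 0) ε (by rw [hζ.1]) (by rw [hζ.1]; linarith) hζ.2.1 hζ.2.2
  have hS0c : IsCompact S0 := by
    refine (isCompact_closedBall (q 0) (2 * ε)).of_isClosed_subset ?_ hS0b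
    exact (isClosed_eq Complex.continuous_re continuous_const).inter
      ((isClosed_le continuous_const Complex.continuous_im).inter
        (isClosed_le Complex.continuous_im continuous_const))
  have hcc : Continuous fun x : ℂ × (Fin m → ℂ) => adCons m x := (adCons m).continuous
  have hU : IsOpen ((fun x : ℂ × (Fin m → ℂ) => adCons m x) ⁻¹' T ∩
      (fun x : ℂ × (Fin m → ℂ) => g (adCons m x)) ⁻¹' {0}ᶜ) :=
    (hg.comp hcc.continuousOn fun x hx => hx).isOpen_inter_preimage (hT.preimage hcc)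
      isOpen_compl_singleton
  have hqq : ∀ z : Fin (m + 1) → ℂ, adCons m (z 0, fun j => z j.succ) = z := by
    intro z
    funext j
    refine Fin.cases rfl (fun j => rfl) j
  have hsub : S0 ×ˢ {fun j : Fin m => q j.succ} ⊆ (fun x : ℂ × (Fin m → ℂ) => adCons m x) ⁻¹' T ∩
      (fun x : ℂ × (Fin m → ℂ) => g (adCons m x)) ⁻¹' {0}ᶜ := by
    rintro ⟨ζ, z'⟩ ⟨hζ, hz'q⟩
    have h1 : z' = fun j : Fin m => q j.succ := hz'q
    subst h1
    have h2 : dist ζ (q 0) ≤ 2 * ε := hS0b hζ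
    refine ⟨hρT ?_, hz' (by rw [mem_ball]; linarith) ?_⟩
    · rw [mem_ball, dist_pi_lt_iff hρ]
      intro j
      refine Fin.cases ?_ (fun j => ?_) j
      · change dist ζ (q 0) < ρ
        linarith
      · change dist (q j.succ) (q j.succ) < ρ
        rw [dist_self]; exact hρ
    · intro h3
      have h4 : ζ.re = (q 0).re - ε := hζ.1
      have h5 : ζ.re = (q 0).re := congrArg Complex.re h3
      linarith
  obtain ⟨u, v, -, hv, hSu, hqv, huv⟩ := generalized_tube_lemma hS0c isCompact_singleton hU hsub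
  obtain ⟨δ, hδ, hδv⟩ := Metric.mem_nhds_iff.1 (hv.mem_nhds (hqv rfl))
  set r : Fin (m + 1) → ℝ := fun j => if j = 0 then ε else min ε (δ / 4) with hr
  have hr0 : r 0 = ε := by simp [hr]
  have hrs : ∀ j : Fin m, r j.succ = min ε (δ / 4) := fun j => by simp [hr]
  have hrp : ∀ j, 0 < r j := by
    intro j
    refine Fin.cases ?_ (fun j => ?_) j
    · rw [hr0]; exact hε
    · rw [hrs]; exact lt_min hε (by linarith)
  have hrε : ∀ j, r j ≤ ε := by
    intro j
    refine Fin.cases ?_ (fun j => ?_) j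
    · rw [hr0]
    · rw [hrs]; exact min_le_left _ _
  set a : Fin (m + 1) → ℂ := fun j => ⟨(q j).re - r j, (q j).im - r j⟩ with ha
  set b : Fin (m + 1) → ℂ := fun j => ⟨(q j).re + r j, (q j).im + r j⟩ with hb
  have hcl : ∀ z ∈ closure (L2P.cbox a b), ∀ j, dist (z j) (q j) ≤ 2 * r j := by
    intro z hzc j
    obtain ⟨h1, h2, h3, h4⟩ := adapt_closure_cbox a b hzc j
    exact hnorm _ _ _ h1 h2 h3 h4
  refine ⟨a, b, ?_, ?_, ?_⟩
  · intro j
    have := hrp j
    exact ⟨by simp [ha, this], by simp [hb, this], by simp [ha, this], by simp [hb, this]⟩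
  · intro z hzc
    refine hρT ?_
    rw [mem_ball, dist_pi_lt_iff hρ]
    intro j
    have h1 := hcl z hzc j
    have h2 := hrε j
    linarith
  · intro z hzc hside
    obtain ⟨-, -, h3, h4⟩ := adapt_closure_cbox a b hzc 0
    have h5 : z 0 ∈ u := by
      refine hSu ⟨?_, ?_, ?_⟩
      · rw [hside]; simp [ha, hr0]
      · have : (a 0).im = (q 0).im - ε := by simp [ha, hr0]
        rw [← this]; exact h3
      · have : (b 0).im = (q 0).im + ε := by simp [hb, hr0]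
        rw [← this]; exact h4
    have h6 : (fun j : Fin m => z j.succ) ∈ v := by
      refine hδv ?_
      rw [mem_ball, dist_pi_lt_iff hδ]
      intro j
      have h7 := hcl z hzc j.succ
      rw [hrs] at h7
      have h8 := min_le_right ε (δ / 4)
      change dist (z j.succ) (q j.succ) < δ
      linarith
    have h9 := (huv (mk_mem_prod h5 h6)).2
    change g (adCons m (z 0, fun j => z j.succ)) ≠ 0 at h9
    rwa [hqq] at h9

end

/-- ADAPT. -/
theorem adapt : S_ADAPT := by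
  intro m N W p G h hW hp hG hh hfr hr hiso
  obtain ⟨Ψ, L, h1, h2, h3, h4, h5, h6⟩ := adapt_exists hW hp hG hh hfr hr hiso
  refine ⟨Ψ, L, h1, h2, h3, h4, h5, fun O hO => ?_⟩
  have hT : IsOpen (Ψ.target ∩ Ψ.symm ⁻¹' interior O) :=
    Ψ.symm.isOpen_inter_preimage isOpen_interior
  have hq : Ψ p ∈ Ψ.target ∩ Ψ.symm ⁻¹' interior O :=
    ⟨Ψ.map_source h1, by rw [mem_preimage, Ψ.left_inv h1]; exact mem_interior_iff_mem_nhds.2 hO⟩
  have hg : ContinuousOn (fun z => h (Ψ.symm z)) (Ψ.target ∩ Ψ.symm ⁻¹' interior O) :=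
    (hh.continuousOn.comp Ψ.symm.continuousOn fun z hz => h2 (Ψ.map_target hz)).mono
      inter_subset_left
  have h7 : L (G p) = fun j => Ψ p j.succ := funext fun j => h5 p h1 j
  rw [h7] at h6
  obtain ⟨a, b, ha, hab, hside⟩ := adapt_box hT hq hg h6
  refine ⟨a, b, ha, fun z hz => (hab hz).1, ?_, hside⟩
  rintro _ ⟨z, hz, rfl⟩
  exact interior_subset (hab hz).2

end L2M
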