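import Pool.Agent.Work.MP_ead3fc_ag.M.Tasks
import Pool.Agent.Work.MP_ead3fc_ag.S.Par
import Pool.Agent.Work.MP_0e9e72_an.SCVA

/-!
# MP_ead3fc_ag, module MF: forms on complex manifolds, transition maps

`mf : S_MF`.
-/

set_option autoImplicit false

open MeasureTheory Set Filter Topology
open scoped ENNReal LinearAlgebra.Projectivization ContDiff Manifold

namespace L2M

namespace MF

/-- Pull backs compose (at points where both maps are differentiable). -/
theorem pull_pull {n k : ℕ} {f g : (Fin n → ℂ) → (Fin n → ℂ)} (w : L2P.Form n k)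
    {y : Fin n → ℂ} (hf : DifferentiableAt ℝ f (g y)) (hg : DifferentiableAt ℝ g y) :
    pull g (pull f w) y = pull (f ∘ g) w y := by
  unfold pull
  rw [fderiv_comp y hf hg]
  rfl

theorem pull_congr {n k : ℕ} {f g : (Fin n → ℂ) → (Fin n → ℂ)} (w : L2P.Form n k)
    {y : Fin n → ℂ} (h : f =ᶠ[𝓝 y] g) : pull f w y = pull g w y := by
  unfold pull
  rw [h.fderiv_eq, h.eq_of_nhds]

theorem contDiffAt_pull {n k : ℕ} {f : (Fin n → ℂ) → (Fin n → ℂ)} {w : L2P.Form n k}
    {y : Fin n → ℂ} (hw : ContDiffAt ℝ ∞ w (f y)) (hf : ContDiffAt ℝ ∞ f y) :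
    ContDiffAt ℝ ∞ (pull f w) y := by
  have h1 : ContDiffAt ℝ ∞ (fun z => w (f z)) y := hw.comp y hf
  have h2 : ContDiffAt ℝ ∞ (fderiv ℝ f) y := hf.fderiv_right (by simp)
  exact L2P.contDiffAt_altComp h1 h2

theorem extDeriv_pull {n k : ℕ} {f : (Fin n → ℂ) → (Fin n → ℂ)} {w : L2P.Form n k}
    {y : Fin n → ℂ} (hw : DifferentiableAt ℝ w (f y)) (hf : ContDiffAt ℝ ∞ f y) :
    extDeriv (pull f w) y = pull f (extDeriv w) y := by
  have hms : minSmoothness ℝ 2 ≤ (∞ : WithTop ℕ∞) := by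
    rw [minSmoothness_of_isRCLikeNormedField]
    exact WithTop.coe_le_coe.2 (le_top : (2 : ℕ∞) ≤ ⊤)
  exact extDeriv_pullback hw hf hms

section man

variable {M : Type} [TopologicalSpace M] {n k : ℕ} [ChartedSpace (Fin n → ℂ) M]

theorem mem_tr {x x' : M} {y : Fin n → ℂ} : y ∈ (tr (n := n) x x').source ↔
    y ∈ (chartAt (Fin n → ℂ) x').target ∧
      (chartAt (Fin n → ℂ) x').symm y ∈ (chartAt (Fin n → ℂ) x).source := by
  unfold tr
  rw [OpenPartialHomeomorph.trans_source]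
  rfl

theorem tr_apply {x x' : M} (y : Fin n → ℂ) : tr (n := n) x x' y =
    chartAt (Fin n → ℂ) x ((chartAt (Fin n → ℂ) x').symm y) := rfl

/-- `rep` is a pull back by a transition map. -/
theorem rep_eq (x : M) (w : MForm M n k) (y : Fin n → ℂ) : rep x w y =
    (w ((chartAt (Fin n → ℂ) x).symm y)).compContinuousLinearMap
      (fderiv ℝ (tr (n := n) ((chartAt (Fin n → ℂ) x).symm y) x) y) := rfl

theorem tr_comp {x x' x'' : M} {y : Fin n → ℂ} (h : y ∈ (tr (n := n) x x').source) :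
    (tr (n := n) x'' x ∘ tr (n := n) x x') =ᶠ[𝓝 y] tr (n := n) x'' x' := by
  filter_upwards [(tr (n := n) x x').open_source.mem_nhds h] with z hz
  rw [mem_tr] at hz
  show chartAt (Fin n → ℂ) x'' ((chartAt (Fin n → ℂ) x).symm
    (chartAt (Fin n → ℂ) x ((chartAt (Fin n → ℂ) x').symm z))) = _
  rw [(chartAt (Fin n → ℂ) x).left_inv hz.2]
  rfl

theorem tr_hol [IsManifold 𝓘(ℂ, Fin n → ℂ) 1 M] (x x' : M) :
    DifferentiableOn ℂ (tr (n := n) x x') (tr (n := n) x x').source := by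
  have h1 := (contDiffGroupoid 1 𝓘(ℂ, Fin n → ℂ)).compatible
    (chart_mem_atlas (Fin n → ℂ) x') (chart_mem_atlas (Fin n → ℂ) x)
  rw [contDiffGroupoid, mem_groupoid_of_pregroupoid] at h1
  have h2 : ContDiffOn ℂ 1 (tr (n := n) x x') (tr (n := n) x x').source := by
    have h3 := h1.1
    simp only [contDiffPregroupoid, mfld_simps] at h3
    exact h3.mono fun y hy => by
      rw [mem_tr] at hy
      simpa using hy
  exact h2.differentiableOn (by norm_num)

theorem tr_smooth [IsManifold 𝓘(ℂ, Fin n → ℂ) 1 M] (x x' : M) {y : Fin n → ℂ}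
    (hy : y ∈ (tr (n := n) x x').source) : ContDiffAt ℝ ∞ (tr (n := n) x x') y :=
  (SCV.contDiffAt_of_differentiableOn (tr (n := n) x x').open_source (tr_hol x x')
    hy).restrict_scalars ℝ

theorem rep_tr [IsManifold 𝓘(ℂ, Fin n → ℂ) 1 M] (w : MForm M n k) (x x' : M)
    {y : Fin n → ℂ} (hy : y ∈ (tr (n := n) x x').source) :
    rep x' w y = pull (tr (n := n) x x') (rep x w) y := by
  have hy' := mem_tr.1 hy
  set z : M := (chartAt (Fin n → ℂ) x').symm y with hz
  have e1 : (chartAt (Fin n → ℂ) x).symm (tr (n := n) x x' y) = z := by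
    rw [tr_apply, (chartAt (Fin n → ℂ) x).left_inv hy'.2]
  have h1 : tr (n := n) x x' y ∈ (tr (n := n) z x).source := by
    rw [mem_tr, e1]
    exact ⟨(chartAt (Fin n → ℂ) x).map_source hy'.2, mem_chart_source _ z⟩
  rw [rep_eq]
  unfold pull
  rw [rep_eq, e1, ← hz]
  have h2 : fderiv ℝ (tr (n := n) z x') y =
      (fderiv ℝ (tr (n := n) z x) (tr (n := n) x x' y)).comp
        (fderiv ℝ (tr (n := n) x x') y) := by
    rw [← (tr_comp (x'' := z) hy).fderiv_eq]
    exact fderiv_comp y ((tr_smooth z x h1).differentiableAt (by simp))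
      ((tr_smooth x x' hy).differentiableAt (by simp))
  rw [h2]
  rfl

theorem tr_self (x : M) {y : Fin n → ℂ} (hy : y ∈ (chartAt (Fin n → ℂ) x).target) :
    (tr (n := n) x x : (Fin n → ℂ) → (Fin n → ℂ)) =ᶠ[𝓝 y] id := by
  filter_upwards [(chartAt (Fin n → ℂ) x).open_target.mem_nhds hy] with z hz
  rw [tr_apply, (chartAt (Fin n → ℂ) x).right_inv hz]
  rfl

theorem rep_self (w : MForm M n k) (x : M) : rep x w (chartAt (Fin n → ℂ) x x) = w x := by
  rw [rep_eq, (chartAt (Fin n → ℂ) x).left_inv (mem_chart_source _ x),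
    (tr_self x (mem_chart_target _ x)).fderiv_eq, fderiv_id]
  rfl

theorem tr_mem {x x' y : M} (hy : y ∈ (chartAt (Fin n → ℂ) x).source)
    (hy' : y ∈ (chartAt (Fin n → ℂ) x').source) :
    chartAt (Fin n → ℂ) x' y ∈ (tr (n := n) x x').source := by
  rw [mem_tr, (chartAt (Fin n → ℂ) x').left_inv hy']
  exact ⟨(chartAt (Fin n → ℂ) x').map_source hy', hy⟩

theorem tr_val {x x' y : M} (hy' : y ∈ (chartAt (Fin n → ℂ) x').source) :
    tr (n := n) x x' (chartAt (Fin n → ℂ) x' y) = chartAt (Fin n → ℂ) x y := by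
  rw [tr_apply, (chartAt (Fin n → ℂ) x').left_inv hy']

theorem rep_tr_ev [IsManifold 𝓘(ℂ, Fin n → ℂ) 1 M] (w : MForm M n k) (x x' : M)
    {y : Fin n → ℂ} (hy : y ∈ (tr (n := n) x x').source) :
    rep x' w =ᶠ[𝓝 y] pull (tr (n := n) x x') (rep x w) := by
  filter_upwards [(tr (n := n) x x').open_source.mem_nhds hy] with z hz
  exact rep_tr w x x' hz

/-- Smoothness does not depend on the chart. -/
theorem smooth_tr [IsManifold 𝓘(ℂ, Fin n → ℂ) 1 M] (w : MForm M n k) (x x' y : M)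
    (hy : y ∈ (chartAt (Fin n → ℂ) x).source) (hy' : y ∈ (chartAt (Fin n → ℂ) x').source)
    (h : ContDiffAt ℝ ∞ (rep x w) (chartAt (Fin n → ℂ) x y)) :
    ContDiffAt ℝ ∞ (rep x' w) (chartAt (Fin n → ℂ) x' y) := by
  have h1 := tr_mem (n := n) hy hy'
  refine ContDiffAt.congr_of_eventuallyEq ?_ (rep_tr_ev w x x' h1)
  refine contDiffAt_pull ?_ (tr_smooth x x' h1)
  rw [tr_val hy']
  exact h

theorem smooth_iff [IsManifold 𝓘(ℂ, Fin n → ℂ) 1 M] (w : MForm M n k) (x y : M)
    (hy : y ∈ (chartAt (Fin n → ℂ) x).source) :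
    SmoothAt w y ↔ ContDiffAt ℝ ∞ (rep x w) (chartAt (Fin n → ℂ) x y) :=
  ⟨fun h => smooth_tr w y x y (mem_chart_source _ y) hy h,
    fun h => smooth_tr w x y y hy (mem_chart_source _ y) h⟩

theorem rep_d [IsManifold 𝓘(ℂ, Fin n → ℂ) 1 M] (w : MForm M n k) (x y : M)
    (hy : y ∈ (chartAt (Fin n → ℂ) x).source) (h : SmoothAt w y) :
    rep x (dM w) (chartAt (Fin n → ℂ) x y) = extDeriv (rep x w) (chartAt (Fin n → ℂ) x y) := by
  have h1 : chartAt (Fin n → ℂ) x y ∈ (tr (n := n) y x).source :=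
    tr_mem (mem_chart_source _ y) hy
  have h2 : tr (n := n) y x (chartAt (Fin n → ℂ) x y) = chartAt (Fin n → ℂ) y y := tr_val hy
  rw [(rep_tr_ev w y x h1).extDeriv_eq, extDeriv_pull ?_ (tr_smooth y x h1), rep_eq,
    (chartAt (Fin n → ℂ) x).left_inv hy]
  · unfold pull
    rw [h2]
    rfl
  · rw [h2]
    exact h.differentiableAt (by simp)

theorem of_rep [IsManifold 𝓘(ℂ, Fin n → ℂ) 1 M] (x : M) (θ : L2P.Form n k) :
    ∃ w : MForm M n k, ∀ y ∈ (chartAt (Fin n → ℂ) x).target, rep x w y = θ y := by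
  refine ⟨fun z => pull (tr (n := n) x z) θ (chartAt (Fin n → ℂ) z z), fun y hy => ?_⟩
  set z : M := (chartAt (Fin n → ℂ) x).symm y with hz
  have hzs : z ∈ (chartAt (Fin n → ℂ) x).source := (chartAt (Fin n → ℂ) x).map_target hy
  have h0 : chartAt (Fin n → ℂ) x z = y := (chartAt (Fin n → ℂ) x).right_inv hy
  have h1 : y ∈ (tr (n := n) z x).source := by
    have := tr_mem (n := n) (mem_chart_source (Fin n → ℂ) z) hzs
    rwa [h0] at this
  have h2 : chartAt (Fin n → ℂ) z z ∈ (tr (n := n) x z).source :=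
    tr_mem hzs (mem_chart_source _ z)
  have h3 : tr (n := n) z x y = chartAt (Fin n → ℂ) z z := by
    have := tr_val (n := n) (x := z) hzs
    rwa [h0] at this
  have h4 : rep x (fun z => pull (tr (n := n) x z) θ (chartAt (Fin n → ℂ) z z) : MForm M n k) y =
      pull (tr (n := n) z x) (pull (tr (n := n) x z) θ) y := by
    show (pull (tr (n := n) x z) θ (chartAt (Fin n → ℂ) z z)).compContinuousLinearMap
      (fderiv ℝ (tr (n := n) z x) y) = _
    rw [← h3]
    rfl
  rw [h4, pull_pull]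
  · have h5 : (tr (n := n) x z ∘ tr (n := n) z x) =ᶠ[𝓝 y] id :=
      (tr_comp (x'' := x) h1).trans (tr_self x hy)
    rw [pull_congr θ h5]
    unfold pull
    rw [fderiv_id]
    rfl
  · rw [h3]
    exact (tr_smooth x z h2).differentiableAt (by simp)
  · exact (tr_smooth z x h1).differentiableAt (by simp)

end man

end MF

/-- Module MF. -/
theorem mf : S_MF := by
  intro M _ n _ _
  exact
    { hol := fun x x' => MF.tr_hol x x'
      rep_tr := fun k w x x' y hy => MF.rep_tr w x x' hy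
      rep_self := fun k w x => MF.rep_self w x
      smooth_iff := fun k w x y hy => MF.smooth_iff w x y hy
      rep_d := fun k w x y hy h => MF.rep_d w x y hy h
      of_rep := fun k x θ => MF.of_rep x θ }

end L2M
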