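import Pool.Agent.Work.MP_ead3fc_ag.M.VarDefs
import Pool.Agent.Work.MP_ead3fc_ag.M.MF
import Pool.Agent.Work.MP_ead3fc_ag.M.Adapt
import Pool.Agent.Work.MP_0e9e72_an.SCVA

/-!
# MP_ead3fc_ag, global theorem, module VAR

`L2M.var : S_VAR`: the preimage of the singular locus of a projective variety satisfies the
hypotheses of the global theorem.
-/

set_option autoImplicit false

open MeasureTheory Set Filter Topology Metric
open scoped ENNReal LinearAlgebra.Projectivization ContDiff Manifold

namespace L2M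

namespace Var

/-! ### Homogeneous polynomials -/

theorem eval_smul' {N : ℕ} {P : MvPolynomial (Fin N) ℂ} {d : ℕ} (hP : P.IsHomogeneous d) (c : ℂ)
    (v : Fin N → ℂ) : MvPolynomial.eval (fun i => c * v i) P = c ^ d * MvPolynomial.eval v P := by
  rw [MvPolynomial.eval_eq, MvPolynomial.eval_eq, Finset.mul_sum]
  refine Finset.sum_congr rfl fun e he => ?_
  have h1 : e.degree = d := by
    rw [Finsupp.degree_eq_weight_one]
    exact hP (MvPolynomial.mem_support_iff.1 he)
  have h2 : ∏ i ∈ e.support, (c * v i) ^ e i = c ^ d * ∏ i ∈ e.support, v i ^ e i := by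
    simp only [mul_pow, Finset.prod_mul_distrib]
    rw [Finset.prod_pow_eq_pow_sum, ← h1]
    rfl
  rw [h2]
  ring

theorem van_mk {N : ℕ} {P : MvPolynomial (Fin (N + 1)) ℂ} {d : ℕ} (hP : P.IsHomogeneous d)
    (v : Hil (N + 1)) (hv : v ≠ 0) :
    Van P (Projectivization.mk ℂ v hv) ↔ MvPolynomial.eval (fun i => v i) P = 0 := by
  obtain ⟨a, ha⟩ := Projectivization.exists_smul_eq_mk_rep ℂ v hv
  unfold Van
  rw [← ha]
  have h1 : (fun i => (a • v) i) = fun i => (a : ℂ) * v i := rfl
  rw [h1, eval_smul' hP]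
  constructor
  · intro h
    exact (mul_eq_zero.1 h).resolve_left (pow_ne_zero _ a.ne_zero)
  · intro h
    rw [h, mul_zero]

theorem hol_eval {n N : ℕ} (P : MvPolynomial (Fin N) ℂ) {U : Set (Fin n → ℂ)}
    {s : (Fin n → ℂ) → Hil N} (hs : DifferentiableOn ℂ s U) :
    DifferentiableOn ℂ (fun y => MvPolynomial.eval (fun i => s y i) P) U := by
  induction P using MvPolynomial.induction_on with
  | C a => simp
  | add p q hp hq =>
    simp only [map_add]
    exact hp.fun_add hq
  | mul_X p i hp =>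
    have h1 : DifferentiableOn ℂ (fun y => s y i) U := by
      intro y hy
      exact (EuclideanSpace.proj (𝕜 := ℂ) i).differentiableAt.comp_differentiableWithinAt y (hs y hy)
    simp only [map_mul, MvPolynomial.eval_X]
    exact hp.fun_mul h1

/-! ### Regular points -/

theorem surj_open {E : Type*} [NormedAddCommGroup E] [NormedSpace ℂ E] {k : ℕ} {Y : Type*}
    [TopologicalSpace Y] {T : Y → E →L[ℂ] (Fin k → ℂ)} {y0 : Y} (hT : ContinuousAt T y0)
    (h0 : Function.Surjective (T y0)) : ∀ᶠ y in 𝓝 y0, Function.Surjective (T y) := by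
  choose r hr using h0
  set R : (Fin k → ℂ) →ₗ[ℂ] E := Fintype.linearCombination ℂ (fun i => r (Pi.single i 1)) with hR
  have hRs : ∀ i, R (Pi.single i 1) = r (Pi.single i 1) := fun i => by
    rw [hR, Fintype.linearCombination_apply_single, one_smul]
  have h1 : ContinuousAt (fun y => (Matrix.of fun i j : Fin k => T y (r (Pi.single j 1)) i).det)
      y0 := by
    have h2 : ContinuousAt (fun y => (Matrix.of fun i j : Fin k => T y (r (Pi.single j 1)) i))
        y0 := by
      refine continuousAt_pi.2 fun i => continuousAt_pi.2 fun j => ?_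
      exact (continuousAt_pi.1 (hT.clm_apply continuousAt_const) i)
    exact (Continuous.matrix_det continuous_id).continuousAt.comp h2
  have h3 : (Matrix.of fun i j : Fin k => T y0 (r (Pi.single j 1)) i).det = 1 := by
    have h4 : (Matrix.of fun i j : Fin k => T y0 (r (Pi.single j 1)) i) = 1 := by
      ext i j
      rw [Matrix.of_apply, hr, Matrix.one_apply, Pi.single_apply]
    rw [h4, Matrix.det_one]
  have h4 : ∀ᶠ y in 𝓝 y0, (Matrix.of fun i j : Fin k => T y (r (Pi.single j 1)) i).det ≠ 0 := by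
    refine h1.eventually_ne ?_
    rw [h3]
    exact one_ne_zero
  filter_upwards [h4] with y hy
  have h5 : Function.Surjective
      (Matrix.of fun i j : Fin k => T y (r (Pi.single j 1)) i).mulVec := by
    rw [Matrix.mulVec_surjective_iff_isUnit, Matrix.isUnit_iff_isUnit_det]
    exact isUnit_iff_ne_zero.2 hy
  intro z
  obtain ⟨a, ha⟩ := h5 z
  refine ⟨R a, ?_⟩
  rw [← ha]
  ext i
  rw [hR, Fintype.linearCombination_apply, map_sum]
  simp [Matrix.mulVec, dotProduct, mul_comm]

theorem mk_smul' {N : ℕ} {c : ℂ} (hc : c ≠ 0) {v : Hil (N + 1)} (hv : v ≠ 0) :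
    Projectivization.mk ℂ (c • v) (smul_ne_zero hc hv) = Projectivization.mk ℂ v hv := by
  rw [Projectivization.mk_eq_mk_iff']
  exact ⟨c, rfl⟩

theorem reg_open {n N : ℕ} {X : Set (ℙ ℂ (Hil (N + 1)))} {v0 : Hil (N + 1)} (hv0 : v0 ≠ 0)
    (h : IsRegPt n X (Projectivization.mk ℂ v0 hv0)) :
    ∀ᶠ v in 𝓝 v0, ∀ hv : v ≠ 0, Projectivization.mk ℂ v hv ∈ X →
      IsRegPt n X (Projectivization.mk ℂ v hv) := by
  obtain ⟨-, W, g, hW, hmem, hg, hsurj, heq⟩ := h
  obtain ⟨a, ha⟩ := Projectivization.exists_smul_eq_mk_rep ℂ v0 hv0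
  rw [← ha] at hmem hsurj
  have hsc : Continuous fun v : Hil (N + 1) => (a : ℂ) • v := continuous_const_smul _
  have h1 : ∀ᶠ v in 𝓝 v0, (a : ℂ) • v ∈ W :=
    hsc.continuousAt.eventually (hW.mem_nhds hmem)
  have h2 : ContinuousAt (fun v : Hil (N + 1) => fderiv ℂ g ((a : ℂ) • v)) v0 := by
    have h3 : ContinuousAt (fderiv ℂ g) ((a : ℂ) • v0) :=
      (SCV.contDiffAt_of_differentiableOn hW hg hmem (n := 1)).continuousAt_fderiv (by simp)
    exact ContinuousAt.comp (f := fun v : Hil (N + 1) => (a : ℂ) • v) h3 hsc.continuousAt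
  have h4 : ∀ᶠ v in 𝓝 v0, Function.Surjective (fderiv ℂ g ((a : ℂ) • v)) := surj_open h2 hsurj
  filter_upwards [h1, h4] with v hvW hvs hv hvX
  obtain ⟨b, hb⟩ := Projectivization.exists_smul_eq_mk_rep ℂ v hv
  have hc : (a : ℂ) * (b : ℂ)⁻¹ ≠ 0 := mul_ne_zero a.ne_zero (inv_ne_zero b.ne_zero)
  set c : ℂ := (a : ℂ) * (b : ℂ)⁻¹ with hcdef
  have hcr : c • (Projectivization.mk ℂ v hv).rep = (a : ℂ) • v := by
    rw [← hb, hcdef, Units.smul_def, smul_smul, mul_assoc, inv_mul_cancel₀ b.ne_zero, mul_one]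
  have hcc : Continuous fun u : Hil (N + 1) => c • u := continuous_const_smul _
  have hdg : DifferentiableAt ℂ g ((a : ℂ) • v) := hg.differentiableAt (hW.mem_nhds hvW)
  refine ⟨hvX, (fun u => c • u) ⁻¹' W, fun u => g (c • u), hW.preimage hcc, ?_, ?_, ?_, ?_⟩
  · change c • (Projectivization.mk ℂ v hv).rep ∈ W
    rw [hcr]
    exact hvW
  · exact hg.comp (by fun_prop) fun u hu => hu
  · have h5 : HasFDerivAt (fun u : Hil (N + 1) => c • u) (c • ContinuousLinearMap.id ℂ _)
        (Projectivization.mk ℂ v hv).rep := (hasFDerivAt_id _).const_smul c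
    have h6 : HasFDerivAt g (fderiv ℂ g ((a : ℂ) • v)) (c • (Projectivization.mk ℂ v hv).rep) := by
      rw [hcr]
      exact hdg.hasFDerivAt
    have h7 := (h6.comp _ h5).fderiv
    have h8 : fderiv ℂ (fun u => g (c • u)) (Projectivization.mk ℂ v hv).rep =
        (fderiv ℂ g ((a : ℂ) • v)).comp (c • ContinuousLinearMap.id ℂ _) := h7
    rw [h8]
    intro z
    obtain ⟨u, hu⟩ := hvs z
    refine ⟨c⁻¹ • u, ?_⟩
    simp [smul_smul, hc, hu]
  · intro u hu huW
    rw [← mk_smul' hc hu]
    exact heq _ _ huW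

end Var

open Var in
theorem var : S_VAR := by
  intro M _ _ n N _ _ F X hX
  refine ⟨hX.hol, hX.fin, hX.rank, ?_, ?_, fun x hx => hX.imm x hx⟩
  · -- closed
    rw [← isOpen_compl_iff, isOpen_iff_mem_nhds]
    intro x hx
    have hxX : ∀ z, F z ∈ X := fun z => hX.range ▸ mem_range_self z
    have hreg : IsRegPt n X (F x) := by
      by_contra hc
      exact hx ⟨hxX x, hc⟩
    obtain ⟨U, s, hs⟩ := hX.hol x
    obtain ⟨h0, hFx⟩ := hs.eq _ hs.mem
    rw [(chartAt (Fin n → ℂ) x).left_inv (mem_chart_source _ x)] at hFx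
    rw [hFx] at hreg
    have h1 := reg_open h0 hreg
    have hcs : ContinuousAt s (chartAt (Fin n → ℂ) x x) :=
      (hs.hol.differentiableAt (hs.isOpen.mem_nhds hs.mem)).continuousAt
    have hcc : ContinuousAt (chartAt (Fin n → ℂ) x) x :=
      (chartAt (Fin n → ℂ) x).continuousAt (mem_chart_source _ x)
    have h2 := (hcs.comp hcc).eventually h1
    filter_upwards [h2, hcc.eventually (hs.isOpen.mem_nhds hs.mem),
      (chartAt (Fin n → ℂ) x).open_source.mem_nhds (mem_chart_source _ x)] with z hz hzU hzs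
    obtain ⟨hz0, hFz⟩ := hs.eq _ hzU
    rw [(chartAt (Fin n → ℂ) x).left_inv hzs] at hFz
    intro hzA
    refine hzA.2 ?_
    rw [hFz]
    exact hz hz0 (hFz ▸ hxX z)
  · -- thin
    intro x hx
    obtain ⟨P, d, hP, hvan, p, hpX, hp⟩ := hX.sing
    obtain ⟨U, s, hs⟩ := hX.hol x
    refine ⟨U, fun y => MvPolynomial.eval (fun i => s y i) P, hs.isOpen, hs.mem,
      hol_eval P hs.hol, ?_, ?_⟩
    · intro y hy hyA
      obtain ⟨h0, hFy⟩ := hs.eq y hy
      have h1 := hvan _ hyA
      rw [hFy, van_mk hP] at h1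
      exact h1
    · intro hcon
      simp only [not_not] at hcon
      -- the set where `P` vanishes locally
      set Z : Set M := {y | ∀ᶠ z in 𝓝 y, Van P (F z)} with hZ
      have hZo : IsOpen Z := isOpen_setOfPred_eventually_nhds
      have hback : ∀ (y : M) (U : Set (Fin n → ℂ)) (s : (Fin n → ℂ) → Hil (N + 1)),
          IsLift (n := n) F y U s →
          (∀ᶠ w in 𝓝 (chartAt (Fin n → ℂ) y y), MvPolynomial.eval (fun i => s w i) P = 0) →
          y ∈ Z := by
        intro y U s hs hev
        have hcc : ContinuousAt (chartAt (Fin n → ℂ) y) y :=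
          (chartAt (Fin n → ℂ) y).continuousAt (mem_chart_source _ y)
        filter_upwards [hcc.eventually hev, hcc.eventually (hs.isOpen.mem_nhds hs.mem),
          (chartAt (Fin n → ℂ) y).open_source.mem_nhds (mem_chart_source _ y)] with z hz hzU hzs
        obtain ⟨hz0, hFz⟩ := hs.eq _ hzU
        rw [(chartAt (Fin n → ℂ) y).left_inv hzs] at hFz
        rw [hFz, van_mk hP]
        exact hz
      have hxZ : x ∈ Z := hback x U s hs hcon
      have hZc : IsClosed Z := by
        rw [← closure_subset_iff_isClosed]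
        intro y hy
        obtain ⟨U', s', hs'⟩ := hX.hol y
        obtain ⟨ρ, hρ, hball⟩ := Metric.isOpen_iff.1 hs'.isOpen _ hs'.mem
        have hcc : ContinuousAt (chartAt (Fin n → ℂ) y) y :=
          (chartAt (Fin n → ℂ) y).continuousAt (mem_chart_source _ y)
        have h1 : ∀ᶠ z in 𝓝 y, z ∈ (chartAt (Fin n → ℂ) y).source ∧
            chartAt (Fin n → ℂ) y z ∈ ball (chartAt (Fin n → ℂ) y y) ρ := by
          filter_upwards [(chartAt (Fin n → ℂ) y).open_source.mem_nhds (mem_chart_source _ y),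
            hcc.eventually (ball_mem_nhds _ hρ)] with z h1 h2 using ⟨h1, h2⟩
        obtain ⟨z, ⟨hzs, hzb⟩, hzZ⟩ := mem_closure_iff_nhds.1 hy _ h1
        have h2 : ∀ᶠ w in 𝓝 (chartAt (Fin n → ℂ) y z),
            MvPolynomial.eval (fun i => s' w i) P = 0 := by
          have h3 : ContinuousAt (chartAt (Fin n → ℂ) y).symm (chartAt (Fin n → ℂ) y z) :=
            (chartAt (Fin n → ℂ) y).symm.continuousAt ((chartAt (Fin n → ℂ) y).map_source hzs)
          have h4 : ∀ᶠ w in 𝓝 ((chartAt (Fin n → ℂ) y).symm (chartAt (Fin n → ℂ) y z)),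
              Van P (F w) := by
            rw [(chartAt (Fin n → ℂ) y).left_inv hzs]
            exact hzZ
          filter_upwards [h3.eventually h4, isOpen_ball.mem_nhds hzb] with w hw hwb
          obtain ⟨hw0, hFw⟩ := hs'.eq w (hball hwb)
          rw [hFw, van_mk hP] at hw
          exact hw
        have h5 := ad_ident ((hol_eval P hs'.hol).mono hball) hzb h2
        refine hback y U' s' hs' ?_
        filter_upwards [ball_mem_nhds _ hρ] with w hw
        exact h5 w hw
      have hZu : Z = univ := by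
        rcases isClopen_iff.1 ⟨hZc, hZo⟩ with h | h
        · rw [h] at hxZ
          exact absurd hxZ (notMem_empty x)
        · exact h
      obtain ⟨q, hq⟩ : p ∈ range F := hX.range ▸ hpX
      have hqZ : q ∈ Z := hZu ▸ mem_univ q
      have := hqZ.self_of_nhds
      rw [hq] at this
      exact hp this

end L2M

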