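import Pool.Agent.Work.MP_ead3fc_ag.M.Tasks
import Pool.Agent.Work.MP_ead3fc_ag.Geo

/-!
# MP_ead3fc_ag, module ADAPT, second half: small boxes (helper8)

If `h` is holomorphic near `z₀` and not identically zero on the line through `z₀` in the direction
of the first coordinate, then every neighbourhood of `z₀` contains a closed box around `z₀` on
whose side `Re z_0 = Re a_0` there is no zero of `h`.
-/

set_option autoImplicit false

open MeasureTheory Set Filter Topology
open scoped ENNReal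

namespace L2M

open L2P

/-- The box around `z₀` with half sides `ε` in the first coordinate and `η` in the others. -/
theorem adaptB_mem {m : ℕ} (z₀ : Fin (m + 1) → ℂ) {ε η : ℝ} (hε : 0 < ε) (hη : 0 < η) :
    ∃ a b : Fin (m + 1) → ℂ, z₀ ∈ cbox a b ∧ (a 0).re = (z₀ 0).re - ε ∧
      ∀ z ∈ closure (cbox a b), (|(z 0).re - (z₀ 0).re| ≤ ε ∧ |(z 0).im - (z₀ 0).im| ≤ ε) ∧
        ∀ j : Fin m, |(z j.succ).re - (z₀ j.succ).re| ≤ η ∧
          |(z j.succ).im - (z₀ j.succ).im| ≤ η := by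
  set r : Fin (m + 1) → ℝ := Fin.cons ε fun _ => η with hr
  have hr0 : r 0 = ε := rfl
  have hrs : ∀ j : Fin m, r j.succ = η := fun j => rfl
  have hrpos : ∀ j, 0 < r j := by
    intro j
    refine Fin.cases ?_ (fun i => ?_) j
    · rw [hr0]; exact hε
    · rw [hrs]; exact hη
  refine ⟨fun j => z₀ j - ⟨r j, r j⟩, fun j => z₀ j + ⟨r j, r j⟩, ?_, ?_, ?_⟩
  · intro j
    have := hrpos j
    simp only [Complex.sub_re, Complex.add_re, Complex.sub_im, Complex.add_im]
    refine ⟨?_, ?_, ?_, ?_⟩ <;> linarith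
  · simp only [Complex.sub_re, hr0]
  · intro z hz
    have hne : (cbox (fun j => z₀ j - ⟨r j, r j⟩) (fun j => z₀ j + ⟨r j, r j⟩)).Nonempty := by
      refine ⟨z₀, fun j => ?_⟩
      have := hrpos j
      simp only [Complex.sub_re, Complex.add_re, Complex.sub_im, Complex.add_im]
      refine ⟨?_, ?_, ?_, ?_⟩ <;> linarith
    rw [mem_closure_cbox hne] at hz
    have hall : ∀ j, |(z j).re - (z₀ j).re| ≤ r j ∧ |(z j).im - (z₀ j).im| ≤ r j := by
      intro j
      have h1 := hz j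
      simp only [Complex.sub_re, Complex.add_re, Complex.sub_im, Complex.add_im] at h1
      constructor
      · rw [abs_le]; constructor <;> linarith [h1.1.1, h1.1.2]
      · rw [abs_le]; constructor <;> linarith [h1.2.1, h1.2.2]
    exact ⟨hall 0, fun j => hall j.succ⟩

theorem adaptB_norm_le {z w : ℂ} {ε : ℝ} (h1 : |z.re - w.re| ≤ ε) (h2 : |z.im - w.im| ≤ ε) :
    ‖z - w‖ ≤ 2 * ε := by
  have h3 := Complex.norm_le_abs_re_add_abs_im (z - w)
  rw [Complex.sub_re, Complex.sub_im] at h3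
  linarith

/-- **Small boxes.** -/
theorem adaptB {m : ℕ} {T O : Set (Fin (m + 1) → ℂ)} {z₀ : Fin (m + 1) → ℂ}
    {h : (Fin (m + 1) → ℂ) → ℂ} (hT : IsOpen T) (hz : z₀ ∈ T) (hh : DifferentiableOn ℂ h T)
    (hne : ∃ᶠ ζ in 𝓝 (z₀ 0), h (Function.update z₀ 0 ζ) ≠ 0) (hO : O ∈ 𝓝 z₀) :
    ∃ a b : Fin (m + 1) → ℂ, z₀ ∈ cbox a b ∧ closure (cbox a b) ⊆ O ∩ T ∧
      ∀ z ∈ closure (cbox a b), (z 0).re = (a 0).re → h z ≠ 0 := by
  have hup : Continuous fun ζ : ℂ => Function.update z₀ 0 ζ := continuous_const.update 0 continuous_id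
  have hupd : Differentiable ℂ fun ζ : ℂ => Function.update z₀ 0 ζ := by
    rw [differentiable_pi]
    intro j
    refine Fin.cases ?_ (fun i => ?_) j
    · simp only [Function.update_self]
      exact differentiable_id
    · simp only [Function.update_of_ne (Fin.succ_ne_zero i)]
      exact differentiable_const _
  have hT' : IsOpen ((fun ζ : ℂ => Function.update z₀ 0 ζ) ⁻¹' T) := hT.preimage hup
  have hmem : z₀ 0 ∈ (fun ζ : ℂ => Function.update z₀ 0 ζ) ⁻¹' T := by
    simpa using hz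
  have hg : AnalyticAt ℂ (fun ζ : ℂ => h (Function.update z₀ 0 ζ)) (z₀ 0) := by
    have h1 : DifferentiableOn ℂ (fun ζ : ℂ => h (Function.update z₀ 0 ζ))
        ((fun ζ : ℂ => Function.update z₀ 0 ζ) ⁻¹' T) :=
      hh.comp hupd.differentiableOn fun ζ hζ => hζ
    exact h1.analyticAt (hT'.mem_nhds hmem)
  have hiso : ∀ᶠ ζ in 𝓝[≠] (z₀ 0), h (Function.update z₀ 0 ζ) ≠ 0 := by
    rcases hg.eventually_eq_zero_or_eventually_ne_zero with h1 | h1
    · exfalso
      obtain ⟨ζ, h2, h3⟩ := (hne.and_eventually h1).exists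
      exact h2 h3
    · exact h1
  rw [eventually_nhdsWithin_iff, Metric.eventually_nhds_iff] at hiso
  obtain ⟨ε₁, hε₁, hiso⟩ := hiso
  obtain ⟨ε₂, hε₂, hball⟩ := Metric.mem_nhds_iff.1 (inter_mem hO (hT.mem_nhds hz))
  set ε : ℝ := min ε₁ ε₂ / 4 with hε
  have hε0 : 0 < ε := by positivity
  have hεle₁ : 4 * ε ≤ ε₁ := by rw [hε]; linarith [min_le_left ε₁ ε₂]
  have hεle₂ : 4 * ε ≤ ε₂ := by rw [hε]; linarith [min_le_right ε₁ ε₂]
  -- the side
  set K : Set (Fin (m + 1) → ℂ) :=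
    (fun t : ℝ => Function.update z₀ 0 ⟨(z₀ 0).re - ε, (z₀ 0).im + t⟩) '' Icc (-ε) ε with hK
  have hKc : IsCompact K := by
    refine isCompact_Icc.image ?_
    refine continuous_const.update 0 ?_
    exact Complex.equivRealProdCLM.symm.continuous.comp
      (f := fun t : ℝ => (((z₀ 0).re - ε, (z₀ 0).im + t) : ℝ × ℝ)) (by fun_prop)
  have hV : IsOpen (T ∩ h ⁻¹' {0}ᶜ) :=
    hh.continuousOn.isOpen_inter_preimage hT isOpen_compl_singleton
  have hin : ∀ ζ : ℂ, ‖ζ - z₀ 0‖ ≤ 2 * ε → Function.update z₀ 0 ζ ∈ Metric.ball z₀ ε₂ := by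
    intro ζ hζ
    rw [Metric.mem_ball, dist_pi_lt_iff hε₂]
    intro j
    refine Fin.cases ?_ (fun i => ?_) j
    · rw [Function.update_self, dist_eq_norm]
      linarith
    · rw [Function.update_of_ne (Fin.succ_ne_zero i), dist_self]
      exact hε₂
  have hKV : K ⊆ T ∩ h ⁻¹' {0}ᶜ := by
    rintro _ ⟨t, ht, rfl⟩
    have h1 : ‖(⟨(z₀ 0).re - ε, (z₀ 0).im + t⟩ : ℂ) - z₀ 0‖ ≤ 2 * ε := by
      refine adaptB_norm_le ?_ ?_
      · rw [show (z₀ 0).re - ε - (z₀ 0).re = -ε by ring, abs_neg, abs_of_pos hε0]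
      · rw [show (z₀ 0).im + t - (z₀ 0).im = t by ring]
        exact abs_le.2 ht
    refine ⟨(hball (hin _ h1)).2, ?_⟩
    refine hiso (y := (⟨(z₀ 0).re - ε, (z₀ 0).im + t⟩ : ℂ)) ?_ ?_
    · rw [dist_eq_norm]
      linarith
    · intro h2
      have h3 := congrArg Complex.re (mem_singleton_iff.1 h2)
      simp only at h3
      linarith
  obtain ⟨δ, hδ, hδV⟩ := hKc.exists_cthickening_subset_open hV hKV
  set η : ℝ := min ε (δ / 2) with hη
  have hη0 : 0 < η := by positivity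
  obtain ⟨a, b, hab, ha, hcl⟩ := adaptB_mem z₀ hε0 hη0
  refine ⟨a, b, hab, ?_, ?_⟩
  · intro z hz
    apply hball
    obtain ⟨h1, h2⟩ := hcl z hz
    rw [Metric.mem_ball, dist_pi_lt_iff hε₂]
    intro j
    refine Fin.cases ?_ (fun i => ?_) j
    · rw [dist_eq_norm]
      linarith [adaptB_norm_le h1.1 h1.2]
    · rw [dist_eq_norm]
      have h3 := adaptB_norm_le (h2 i).1 (h2 i).2
      have h4 : η ≤ ε := min_le_left _ _
      linarith
  · intro z hz hre
    obtain ⟨h1, h2⟩ := hcl z hz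
    have h3 : z ∈ Metric.cthickening δ K := by
      refine Metric.mem_cthickening_of_dist_le z
        (Function.update z₀ 0 ⟨(z₀ 0).re - ε, (z₀ 0).im + ((z 0).im - (z₀ 0).im)⟩) δ K
        ⟨(z 0).im - (z₀ 0).im, abs_le.1 h1.2, rfl⟩ ?_
      rw [dist_pi_le_iff hδ.le]
      intro j
      refine Fin.cases ?_ (fun i => ?_) j
      · rw [Function.update_self]
        have h4 : z 0 = ⟨(z₀ 0).re - ε, (z₀ 0).im + ((z 0).im - (z₀ 0).im)⟩ := by
          apply Complex.ext
          · simp only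
            rw [hre, ha]
          · simp only
            ring
        rw [← h4, dist_self]
        exact hδ.le
      · rw [Function.update_of_ne (Fin.succ_ne_zero i), dist_eq_norm]
        have h5 := adaptB_norm_le (h2 i).1 (h2 i).2
        have h6 : η ≤ δ / 2 := min_le_right _ _
        linarith
    exact (hδV h3).2

end L2M
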