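import Pool.Agent.Work.MP_ead3fc_ag.M.Tasks

/-!
# MP_ead3fc_ag, global theorem: elementary calculus of forms on `M`
-/

set_option autoImplicit false

open MeasureTheory Set Filter Topology
open scoped ENNReal LinearAlgebra.Projectivization ContDiff Manifold

namespace L2M

variable {M : Type} [TopologicalSpace M] {n k N : ℕ} [ChartedSpace (Fin n → ℂ) M]

theorem rep_add (x : M) (w w' : MForm M n k) : rep x (w + w') = rep x w + rep x w' := rfl

theorem rep_smul (x : M) (c : ℂ) (w : MForm M n k) : rep x (c • w) = c • rep x w := rfl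

theorem rep_congr {x : M} {w w' : MForm M n k} (h : ∀ᶠ y in 𝓝 x, w y = w' y) :
    rep x w =ᶠ[𝓝 (chartAt (Fin n → ℂ) x x)] rep x w' := by
  have h1 : Tendsto (chartAt (Fin n → ℂ) x).symm (𝓝 (chartAt (Fin n → ℂ) x x)) (𝓝 x) := by
    have h2 := (chartAt (Fin n → ℂ) x).continuousAt_symm
      ((chartAt (Fin n → ℂ) x).map_source (mem_chart_source _ x))
    have h3 : (chartAt (Fin n → ℂ) x).symm (chartAt (Fin n → ℂ) x x) = x :=
      (chartAt (Fin n → ℂ) x).left_inv (mem_chart_source _ x)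
    rw [ContinuousAt, h3] at h2
    exact h2
  filter_upwards [h1.eventually h] with y hy
  rw [rep, rep, hy]

theorem dM_congr {x : M} {w w' : MForm M n k} (h : ∀ᶠ y in 𝓝 x, w y = w' y) :
    dM w x = dM w' x := (rep_congr h).extDeriv_eq

theorem smoothAt_congr {x : M} {w w' : MForm M n k} (h : ∀ᶠ y in 𝓝 x, w y = w' y)
    (hw : SmoothAt w x) : SmoothAt w' x :=
  ContDiffAt.congr_of_eventuallyEq hw (rep_congr (h.mono fun _ hy => hy.symm))

theorem SmoothAt.diff {x : M} {w : MForm M n k} (hw : SmoothAt w x) :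
    DifferentiableAt ℝ (rep x w) (chartAt (Fin n → ℂ) x x) :=
  ContDiffAt.differentiableAt hw (by simp)

theorem SmoothAt.add {x : M} {w w' : MForm M n k} (hw : SmoothAt w x) (hw' : SmoothAt w' x) :
    SmoothAt (w + w') x := ContDiffAt.add hw hw'

theorem SmoothAt.smul {x : M} {w : MForm M n k} (hw : SmoothAt w x) (c : ℂ) :
    SmoothAt (c • w) x := ContDiffAt.const_smul c hw

theorem SmoothAt.neg {x : M} {w : MForm M n k} (hw : SmoothAt w x) : SmoothAt (-w) x :=
  ContDiffAt.neg hw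

theorem dM_add {x : M} {w w' : MForm M n k} (hw : SmoothAt w x) (hw' : SmoothAt w' x) :
    dM (w + w') x = dM w x + dM w' x := by
  unfold dM
  rw [rep_add]
  exact extDeriv_add hw.diff hw'.diff

theorem dM_smul {x : M} {w : MForm M n k} (hw : SmoothAt w x) (c : ℂ) :
    dM (c • w) x = c • dM w x := by
  unfold dM
  rw [rep_smul]
  ext v
  rw [extDeriv_apply (hw.diff.const_smul c)]
  show _ = c • extDeriv (rep x w) (chartAt (Fin n → ℂ) x x) v
  rw [extDeriv_apply hw.diff, Finset.smul_sum]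
  refine Finset.sum_congr rfl fun i _ => ?_
  rw [smul_comm c]
  congr 1
  have h1 : DifferentiableAt ℝ (fun y => rep x w y (i.removeNth v))
      (chartAt (Fin n → ℂ) x x) :=
    ((ContinuousAlternatingMap.apply ℝ (Fin n → ℂ) ℂ (i.removeNth v)).differentiableAt).comp _
      hw.diff
  show fderiv ℝ (fun y => c • rep x w y (i.removeNth v)) (chartAt (Fin n → ℂ) x x) (v i) = _
  rw [fderiv_fun_const_smul h1]
  rfl

theorem dM_neg {x : M} {w : MForm M n k} (hw : SmoothAt w x) : dM (-w) x = -dM w x := by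
  have h1 := dM_smul hw (-1)
  rw [neg_one_smul] at h1
  refine h1.trans (ContinuousAlternatingMap.ext fun v => ?_)
  exact neg_one_smul ℂ (dM w x v)

theorem dM_sub {x : M} {w w' : MForm M n k} (hw : SmoothAt w x) (hw' : SmoothAt w' x) :
    dM (w - w') x = dM w x - dM w' x := by
  rw [sub_eq_add_neg, dM_add hw hw'.neg, dM_neg hw', sub_eq_add_neg]

theorem tendsto_chart (x : M) :
    Tendsto (chartAt (Fin n → ℂ) x).symm (𝓝 (chartAt (Fin n → ℂ) x x)) (𝓝 x) := by
  have h2 := (chartAt (Fin n → ℂ) x).continuousAt_symm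
    ((chartAt (Fin n → ℂ) x).map_source (mem_chart_source _ x))
  have h3 : (chartAt (Fin n → ℂ) x).symm (chartAt (Fin n → ℂ) x x) = x :=
    (chartAt (Fin n → ℂ) x).left_inv (mem_chart_source _ x)
  rw [ContinuousAt, h3] at h2
  exact h2

/-- Near `x`, the derivative is computed in the chart at `x`. -/
theorem rep_dM (hM : MFacts M n) {x : M} {w : MForm M n k} (hw : ∀ᶠ y in 𝓝 x, SmoothAt w y) :
    rep x (dM w) =ᶠ[𝓝 (chartAt (Fin n → ℂ) x x)] extDeriv (rep x w) := by
  have h1 : ∀ᶠ z in 𝓝 (chartAt (Fin n → ℂ) x x), z ∈ (chartAt (Fin n → ℂ) x).target :=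
    (chartAt (Fin n → ℂ) x).open_target.mem_nhds
      ((chartAt (Fin n → ℂ) x).map_source (mem_chart_source _ x))
  filter_upwards [h1, (tendsto_chart x).eventually hw] with z hz hz2
  have h2 := hM.rep_d k w x ((chartAt (Fin n → ℂ) x).symm z)
    ((chartAt (Fin n → ℂ) x).map_target hz) hz2
  rwa [(chartAt (Fin n → ℂ) x).right_inv hz] at h2

theorem smoothAt_dM (hM : MFacts M n) {x : M} {w : MForm M n k}
    (hw : ∀ᶠ y in 𝓝 x, SmoothAt w y) : SmoothAt (dM w) x := by
  refine ContDiffAt.congr_of_eventuallyEq ?_ (rep_dM hM hw)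
  have h1 : ContDiffAt ℝ ∞ (rep x w) (chartAt (Fin n → ℂ) x x) := hw.self_of_nhds
  have h2 : ContDiffAt ℝ ∞ (fderiv ℝ (rep x w)) (chartAt (Fin n → ℂ) x x) :=
    h1.fderiv_right (by simp)
  exact (ContinuousAlternatingMap.alternatizeUncurryFinCLM ℝ (Fin n → ℂ) ℂ
    (n := k)).contDiff.contDiffAt.comp _ h2

theorem dM_dM (hM : MFacts M n) {x : M} {w : MForm M n k}
    (hw : ∀ᶠ y in 𝓝 x, SmoothAt w y) : dM (dM w) x = 0 := by
  have h1 : ContDiffAt ℝ ∞ (rep x w) (chartAt (Fin n → ℂ) x x) := hw.self_of_nhds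
  have hms : minSmoothness ℝ 2 ≤ (∞ : WithTop ℕ∞) := by
    rw [minSmoothness_of_isRCLikeNormedField]
    exact WithTop.coe_le_coe.2 (le_top : (2 : ℕ∞) ≤ ⊤)
  show extDeriv (rep x (dM w)) (chartAt (Fin n → ℂ) x x) = 0
  rw [(rep_dM hM hw).extDeriv_eq]
  exact extDeriv_extDeriv_apply h1 hms

end L2M
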