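import Pool.Agent.Work.MP_ead3fc_ag.S.Homo

/-!
# MP_ead3fc_ag, global theorem, BOXP: the homotopy operator in the direction `Re z_0`
-/

set_option autoImplicit false

open MeasureTheory Set Filter Topology
open scoped ENNReal ContDiff

namespace L2M

open L2P

variable {m k : ℕ}

/-- The first basis vector. -/
noncomputable def e0 (m : ℕ) : Fin (m + 1) → ℂ := Pi.single 0 1

/-- The real part of the first coordinate. -/
noncomputable def re0 (m : ℕ) : (Fin (m + 1) → ℂ) →L[ℝ] ℝ :=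
  Complex.reCLM.comp (ContinuousLinearMap.proj (R := ℝ) (φ := fun _ : Fin (m + 1) => ℂ) 0)

lemma re0_apply (x : Fin (m + 1) → ℂ) : re0 m x = (x 0).re := rfl

lemma re0_e0 : re0 m (e0 m) = 1 := by
  rw [re0_apply, e0, Pi.single_eq_same, Complex.one_re]

/-- The integrand of the homotopy operator. -/
noncomputable def kapG (F : Form (m + 1) (k + 1)) (x : Fin (m + 1) → ℂ) (p : ℝ) :
    (Fin (m + 1) → ℂ) [⋀^Fin k]→L[ℝ] ℂ :=
  cutS p • (re0 m x) • (F (x + ((p - 1) * re0 m x) • e0 m)).curryLeft (e0 m)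

/-- The homotopy operator: `∫ ι_{∂_r} F dr`. -/
noncomputable def kap (F : Form (m + 1) (k + 1)) : Form (m + 1) k := fun x =>
  ∫ p in Icc (0 : ℝ) 1, kapG F x p

variable {F : Form (m + 1) (k + 1)}

lemma kapG_zero (x : Fin (m + 1) → ℂ) (p : ℝ) (hp : p ∉ Icc (-1 : ℝ) (3 / 2)) :
    kapG F x p = 0 := by
  rw [kapG, cutS_zero hp, zero_smul]

lemma kapG_smooth (hF : ContDiff ℝ ∞ F) :
    ContDiffOn ℝ ∞ (Function.uncurry (kapG F)) (univ ×ˢ univ) := by
  rw [univ_prod_univ, contDiffOn_univ, contDiff_iff_contDiffAt]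
  intro q
  apply contDiffAt_alt
  intro v
  have h1 : (fun q : (Fin (m + 1) → ℂ) × ℝ => Function.uncurry (kapG F) q v) =
      fun q : (Fin (m + 1) → ℂ) × ℝ => cutS q.2 • (re0 m q.1) •
        F (q.1 + ((q.2 - 1) * re0 m q.1) • e0 m) (Matrix.vecCons (e0 m) v) := rfl
  rw [h1]
  have h2 : ContDiff ℝ ∞ fun q : (Fin (m + 1) → ℂ) × ℝ => cutS q.2 :=
    cutS.contDiff.comp contDiff_snd
  have h3 : ContDiff ℝ ∞ fun q : (Fin (m + 1) → ℂ) × ℝ => re0 m q.1 :=
    (re0 m).contDiff.comp contDiff_fst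
  have h4 : ContDiff ℝ ∞ fun q : (Fin (m + 1) → ℂ) × ℝ =>
      q.1 + ((q.2 - 1) * re0 m q.1) • e0 m :=
    contDiff_fst.add (((contDiff_snd.sub contDiff_const).mul h3).smul contDiff_const)
  have h5 : ContDiff ℝ ∞ fun q : (Fin (m + 1) → ℂ) × ℝ =>
      F (q.1 + ((q.2 - 1) * re0 m q.1) • e0 m) (Matrix.vecCons (e0 m) v) :=
    ((ContinuousAlternatingMap.apply ℝ (Fin (m + 1) → ℂ) ℂ
      (Matrix.vecCons (e0 m) v)).contDiff).comp (hF.comp h4)
  exact (h2.smul (h3.smul h5)).contDiffAt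

lemma kap_smooth (hF : ContDiff ℝ ∞ F) : ContDiff ℝ ∞ (kap F) := by
  have h := (extDeriv_par (μ := volume) (S := Icc (0 : ℝ) 1) (K := Icc (-1 : ℝ) (3 / 2))
    measurableSet_Icc isOpen_univ isCompact_Icc (fun x _ p hp => kapG_zero x p hp)
    (kapG_smooth hF)).1
  rwa [contDiffOn_univ] at h

/-- contraction with `∂_r` along the line -/
noncomputable def kapL (F : Form (m + 1) (k + 1)) (x : Fin (m + 1) → ℂ) (t : ℝ) :
    (Fin (m + 1) → ℂ) [⋀^Fin k]→L[ℝ] ℂ :=
  (F (x + (t - re0 m x) • e0 m)).curryLeft (e0 m)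

lemma kapL_cont (hF : ContDiff ℝ ∞ F) (x : Fin (m + 1) → ℂ) : Continuous (kapL F x) := by
  have h1 : ContDiff ℝ ∞ (kapL F x) := by
    rw [contDiff_iff_contDiffAt]
    intro t
    apply contDiffAt_alt
    intro v
    have h4 : ContDiff ℝ ∞ fun t : ℝ => x + (t - re0 m x) • e0 m :=
      contDiff_const.add ((contDiff_id.sub contDiff_const).smul contDiff_const)
    exact (((ContinuousAlternatingMap.apply ℝ (Fin (m + 1) → ℂ) ℂ
      (Matrix.vecCons (e0 m) v)).contDiff).comp (hF.comp h4)).contDiffAt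
  exact h1.continuous

lemma kap_eq (F : Form (m + 1) (k + 1)) (x : Fin (m + 1) → ℂ) :
    kap F x = ∫ t in (0 : ℝ)..(re0 m x), kapL F x t := by
  have h1 := intervalIntegral.smul_integral_comp_mul_right (kapL F x) (re0 m x) (a := 0) (b := 1)
  rw [zero_mul, one_mul] at h1
  rw [← h1, kap, intervalIntegral.integral_of_le zero_le_one, ← integral_Icc_eq_integral_Ioc,
    ← integral_smul]
  refine setIntegral_congr_fun measurableSet_Icc fun p hp => ?_
  rw [kapG, cutS_one hp, one_smul, kapL]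
  congr 5
  ring_nf

lemma kapL_shift (F : Form (m + 1) (k + 1)) (x : Fin (m + 1) → ℂ) (h : ℝ) :
    kapL F (x + h • e0 m) = kapL F x := by
  funext t
  rw [kapL, kapL]
  congr 2
  rw [map_add, map_smul, re0_e0, smul_eq_mul, mul_one, add_assoc, ← add_smul]
  congr 2
  ring_nf

/-- The derivative of the homotopy operator in the direction `∂_r`. -/
lemma fderiv_kap (hF : ContDiff ℝ ∞ F) (x : Fin (m + 1) → ℂ) :
    fderiv ℝ (kap F) x (e0 m) = (F x).curryLeft (e0 m) := by
  have h1 : HasDerivAt (fun h : ℝ => kap F (x + h • e0 m)) (fderiv ℝ (kap F) x (e0 m)) 0 := by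
    have h2 : HasDerivAt (fun h : ℝ => x + h • e0 m) (e0 m) 0 := by
      simpa using ((hasDerivAt_id (0 : ℝ)).smul_const (e0 m)).const_add x
    have h3 : HasFDerivAt (kap F) (fderiv ℝ (kap F) x) (x + (0 : ℝ) • e0 m) := by
      rw [zero_smul, add_zero]
      exact ((kap_smooth hF).differentiable (by simp) x).hasFDerivAt
    exact h3.comp_hasDerivAt (0 : ℝ) h2
  have h4 : (fun h : ℝ => kap F (x + h • e0 m)) =
      fun h : ℝ => ∫ t in (0 : ℝ)..(re0 m x + h), kapL F x t := by
    funext h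
    rw [kap_eq, kapL_shift, map_add, map_smul, re0_e0, smul_eq_mul, mul_one]
  have h5 : HasDerivAt (fun h : ℝ => ∫ t in (0 : ℝ)..(re0 m x + h), kapL F x t)
      (kapL F x (re0 m x)) 0 := by
    have h6 : HasDerivAt (fun u : ℝ => ∫ t in (0 : ℝ)..u, kapL F x t)
        (kapL F x (re0 m x)) (re0 m x + 0) := by
      rw [add_zero]
      exact ((kapL_cont hF x).integral_hasStrictDerivAt 0 (re0 m x)).hasDerivAt
    have h7 : HasDerivAt (fun h : ℝ => re0 m x + h) 1 0 := by
      simpa using (hasDerivAt_id (0 : ℝ)).const_add (re0 m x)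
    have h8 := h6.scomp (0 : ℝ) h7
    rw [one_smul] at h8
    exact h8
  rw [h4] at h1
  rw [h1.unique h5, kapL, sub_self, zero_smul, add_zero]

/-- `ι_{∂_r}` of the homotopy operator vanishes. -/
lemma kap_e0 (hF : ContDiff ℝ ∞ F) (x : Fin (m + 1) → ℂ) (v : Fin k → Fin (m + 1) → ℂ)
    (i : Fin k) (hi : v i = e0 m) : kap F x v = 0 := by
  have h1 : kap F x v = ∫ t in (0 : ℝ)..(re0 m x), kapL F x t v := by
    rw [kap_eq]
    have h2 := (ContinuousAlternatingMap.apply ℝ (Fin (m + 1) → ℂ) ℂ v).intervalIntegral_comp_comm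
      ((kapL_cont hF x).intervalIntegrable (μ := volume) 0 (re0 m x))
    exact h2.symm
  rw [h1]
  have h3 : ∀ t, kapL F x t v = 0 := by
    intro t
    rw [kapL, ContinuousAlternatingMap.curryLeft_apply_apply]
    apply ContinuousAlternatingMap.map_eq_zero_of_eq _ _ (i := 0) (j := i.succ) _
      (Fin.succ_ne_zero i).symm
    rw [Matrix.cons_val_zero, Matrix.cons_val_succ, hi]
  simp [h3]

/-- `ι_{∂_r} d κ F = ι_{∂_r} F`. -/
lemma extDeriv_kap (hF : ContDiff ℝ ∞ F) (x : Fin (m + 1) → ℂ) (v : Fin k → Fin (m + 1) → ℂ) :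
    extDeriv (kap F) x (Matrix.vecCons (e0 m) v) = F x (Matrix.vecCons (e0 m) v) := by
  have hd : DifferentiableAt ℝ (kap F) x := (kap_smooth hF).differentiable (by simp) x
  rw [extDeriv_apply hd, Fin.sum_univ_succ]
  have h1 : ∀ i : Fin k, (-1 : ℤ) ^ (i.succ : Fin (k + 1)).val • fderiv ℝ (fun y =>
      kap F y (i.succ.removeNth (Matrix.vecCons (e0 m) v))) x
      ((Matrix.vecCons (e0 m) v : Fin (k + 1) → Fin (m + 1) → ℂ) i.succ) = 0 := by
    intro i
    have h2 : (fun y => kap F y (i.succ.removeNth (Matrix.vecCons (e0 m) v))) = fun _ => 0 := by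
      funext y
      have hk : 0 < k := i.pos
      refine kap_e0 hF y _ ⟨0, hk⟩ ?_
      obtain ⟨k', rfl⟩ : ∃ k', k = k' + 1 := ⟨k - 1, by omega⟩
      rfl
    rw [h2]
    simp
  rw [Finset.sum_congr rfl fun i _ => h1 i, Finset.sum_const_zero, add_zero]
  have h3 : (fun y => kap F y ((0 : Fin (k + 1)).removeNth (Matrix.vecCons (e0 m) v))) =
      fun y => kap F y v := by
    funext y
    rfl
  rw [h3]
  have h4 : fderiv ℝ (fun y => kap F y v) x (e0 m) = (fderiv ℝ (kap F) x (e0 m)) v := by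
    have h5 := ((ContinuousAlternatingMap.apply ℝ (Fin (m + 1) → ℂ) ℂ v).hasFDerivAt.comp x
      hd.hasFDerivAt).fderiv
    have h6 : (fun y => kap F y v) =
      (ContinuousAlternatingMap.apply ℝ (Fin (m + 1) → ℂ) ℂ v) ∘ kap F := rfl
    rw [h6, h5]
    rfl
  rw [Matrix.cons_val_zero, h4, fderiv_kap hF, ContinuousAlternatingMap.curryLeft_apply_apply]
  simp

lemma two_le_inf : minSmoothness ℝ 2 ≤ ((⊤ : ℕ∞) : WithTop ℕ∞) := by
  rw [minSmoothness_of_isRCLikeNormedField]
  exact WithTop.coe_le_coe.2 (le_top : (2 : ℕ∞) ≤ ⊤)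

/-- The corrected primitive. -/
theorem exists_iota_zero {k : ℕ} {F : Form (m + 1) k} (hF : ContDiff ℝ ∞ F) :
    ∃ f : Form (m + 1) k, ContDiff ℝ ∞ f ∧ (∀ x, extDeriv f x = extDeriv F x) ∧
      ∀ x, ∀ (v : Fin k → Fin (m + 1) → ℂ) (i : Fin k), v i = e0 m → f x v = 0 := by
  cases k with
  | zero => exact ⟨F, hF, fun _ => rfl, fun x v i => i.elim0⟩
  | succ k =>
    have hk := kap_smooth hF
    have hdk : ContDiff ℝ ∞ (extDeriv (kap F)) := by
      have h1 : ContDiff ℝ ∞ (fderiv ℝ (kap F)) := hk.fderiv_right (by simp)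
      exact (ContinuousAlternatingMap.alternatizeUncurryFinCLM ℝ (Fin (m + 1) → ℂ)
        ℂ).contDiff.comp h1
    refine ⟨fun x => F x - extDeriv (kap F) x, hF.sub hdk, fun x => ?_, fun x v i hi => ?_⟩
    · have h1 : (fun x => F x - extDeriv (kap F) x) =
          fun x => F x + ((-1 : ℝ) • extDeriv (kap F)) x := by
        funext x
        rw [Pi.smul_apply, neg_one_smul, sub_eq_add_neg]
      rw [h1, extDeriv_fun_add (hF.differentiable (by simp) x)
        (((hdk.differentiable (by simp)) x).const_smul (-1 : ℝ)), extDeriv_smul,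
        extDeriv_extDeriv hk two_le_inf, Pi.zero_apply, smul_zero, add_zero]
    · -- move the vector `∂_r` to the first place
      have key : ∀ w : Fin k → Fin (m + 1) → ℂ,
          (F x - extDeriv (kap F) x) (Matrix.vecCons (e0 m) w) = 0 := by
        intro w
        rw [ContinuousAlternatingMap.sub_apply, extDeriv_kap hF, sub_self]
      rcases Fin.eq_zero_or_eq_succ i with h0 | ⟨j, hj⟩
      · subst h0
        have h1 : v = Matrix.vecCons (e0 m) (fun i => v i.succ) := by
          rw [← hi]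
          exact (Matrix.cons_head_tail v).symm
        rw [h1]
        exact key _
      · have hne : (0 : Fin (k + 1)) ≠ i := by
          rw [hj]
          exact (Fin.succ_ne_zero j).symm
        have h1 := (F x - extDeriv (kap F) x).toAlternatingMap.map_swap v hne
        have h2 : (v ∘ Equiv.swap 0 i) = Matrix.vecCons (e0 m)
            (fun l => (v ∘ Equiv.swap 0 i) l.succ) := by
          have h3 : (v ∘ Equiv.swap 0 i) 0 = e0 m := by
            rw [Function.comp_apply, Equiv.swap_apply_left, hi]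
          rw [← h3]
          exact (Matrix.cons_head_tail (v ∘ Equiv.swap 0 i)).symm
        have h4 : (F x - extDeriv (kap F) x).toAlternatingMap (v ∘ Equiv.swap 0 i) = 0 := by
          rw [h2]
          exact key _
        rw [h4] at h1
        exact neg_eq_zero.1 h1.symm

end L2M
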