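import Pool.Agent.Work.MP_ead3fc_ag.M.Defs

/-!
# MP_ead3fc_ag, global theorem: module statements

Modules (one file each in `M/`):
* `MF` forms on manifolds (`MFacts`);
* `FSQ` linear algebra of the Fubini-Study length (`S_FSQ`);
* `TR` transport of the square integral by a biholomorphic map (`S_TR`);
* `ADAPT` adapted coordinates (`S_ADAPT`);
* `BOXP` Poincaré lemma on boxes with bounded norm (`S_BOXP`, `S_BOX0`);
* `LOCA`, `LOCB` local exactness in `ℂ^n` (`S_LOCA`, `S_LOCA0`, `S_LOCB`);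
* `CHG` square integrability near points of `M` (`L2Facts`);
* `CUT` cut-off functions (`S_CUT`);
* `LOC` local exactness on `M` (`LocFacts`);
* `GLUE`, `FIN` (helper30).
-/

set_option autoImplicit false

open MeasureTheory Set Filter Topology
open scoped ENNReal LinearAlgebra.Projectivization ContDiff Manifold

namespace L2M

/-! ### Local geometry in `ℂ^n` -/

/-- The square of the norm of `w` times the volume density, for the family `T`. -/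
noncomputable def den {n N k : ℕ} (T : (Fin n → ℂ) → (Fin n → ℂ) →L[ℂ] Hil N)
    (w : L2P.Form n k) (y : Fin n → ℂ) : ℝ≥0∞ :=
  nrm (T y) (w y) ^ 2 * ‖gram (T y)‖ₑ

/-- Pull back of a form. -/
noncomputable def pull {n k : ℕ} (f : (Fin n → ℂ) → (Fin n → ℂ)) (w : L2P.Form n k) :
    L2P.Form n k := fun y => (w (f y)).compContinuousLinearMap (fderiv ℝ f y)

/-- FSQ: (1) comparison of norms and densities; (2) composition with a linear map; (3) change of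
the lift; (4) the affine representative `s / s_j`. -/
def S_FSQ : Prop :=
  (∀ (n N N' k : ℕ) (T : (Fin n → ℂ) →L[ℂ] Hil N) (T' : (Fin n → ℂ) →L[ℂ] Hil N') (C : ℝ),
    0 < C → (∀ v, ‖T v‖ ≤ C * ‖T' v‖) →
    (∀ w : (Fin n → ℂ) [⋀^Fin k]→L[ℝ] ℂ, nrm T' w ≤ ENNReal.ofReal C ^ k * nrm T w) ∧
    ‖gram T‖ ≤ C ^ (2 * n) * ‖gram T'‖) ∧
  (∀ (n N k : ℕ) (T : (Fin n → ℂ) →L[ℂ] Hil N) (B : (Fin n → ℂ) →L[ℂ] (Fin n → ℂ)),
    (∀ w : (Fin n → ℂ) [⋀^Fin k]→L[ℝ] ℂ,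
      nrm (T.comp B) (w.compContinuousLinearMap (B.restrictScalars ℝ)) ≤ nrm T w) ∧
    ‖gram (T.comp B)‖ = ‖B.det‖ ^ 2 * ‖gram T‖) ∧
  (∀ (n N : ℕ) (s : (Fin n → ℂ) → Hil N) (l : (Fin n → ℂ) → ℂ) (y : Fin n → ℂ),
    DifferentiableAt ℂ s y → DifferentiableAt ℂ l y → s y ≠ 0 → l y ≠ 0 →
    ∃ u : ℂ, ‖u‖ = 1 ∧ fs (fun z => l z • s z) y = u • fs s y) ∧
  (∀ (n N : ℕ) (s : (Fin n → ℂ) → Hil N) (j : Fin N) (y : Fin n → ℂ),
    DifferentiableAt ℂ s y → s y j ≠ 0 → ∀ v,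
    ‖fs s y v‖ ≤ ‖fderiv ℂ (fun z => (s z j)⁻¹ • s z) y v‖ ∧
    ‖fderiv ℂ (fun z => (s z j)⁻¹ • s z) y v‖ ≤
      ‖(s y j)⁻¹ • s y‖ ^ 2 * ‖fs s y v‖)

/-- TR: transport of the square integral by a biholomorphic map `Ψ`, on compact sets. -/
def S_TR : Prop :=
  ∀ (n N k : ℕ) (Ψ : OpenPartialHomeomorph (Fin n → ℂ) (Fin n → ℂ)) (K : Set (Fin n → ℂ)),
    DifferentiableOn ℂ Ψ Ψ.source → DifferentiableOn ℂ Ψ.symm Ψ.target → IsCompact K →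
    K ⊆ Ψ.source → ∃ C : ℝ, 0 < C ∧ ∀ (T : (Fin n → ℂ) → (Fin n → ℂ) →L[ℂ] Hil N)
      (w : L2P.Form n k) (S : Set (Fin n → ℂ)), MeasurableSet S → S ⊆ K →
      ∫⁻ y in S, den (fun y => (T (Ψ y)).comp (fderiv ℂ Ψ y)) (pull Ψ w) y ≤
        ENNReal.ofReal C * ∫⁻ y in Ψ '' S, den T w y

/-- ADAPT: adapted coordinates at a point of corank at most one, with small boxes on a side of
which `h` has no zero. -/
def S_ADAPT : Prop :=
  ∀ (m N : ℕ) (W : Set (Fin (m + 1) → ℂ)) (p : Fin (m + 1) → ℂ)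
    (G : (Fin (m + 1) → ℂ) → Hil N) (h : (Fin (m + 1) → ℂ) → ℂ), IsOpen W → p ∈ W →
    DifferentiableOn ℂ G W → DifferentiableOn ℂ h W → (∃ᶠ y in 𝓝 p, h y ≠ 0) →
    Module.finrank ℂ (LinearMap.ker (fderiv ℂ G p).toLinearMap) ≤ 1 →
    (∀ᶠ y in 𝓝[≠] p, G y ≠ G p) →
    ∃ (Ψ : OpenPartialHomeomorph (Fin (m + 1) → ℂ) (Fin (m + 1) → ℂ))
      (L : Hil N →L[ℂ] (Fin m → ℂ)), p ∈ Ψ.source ∧ Ψ.source ⊆ W ∧
      DifferentiableOn ℂ Ψ Ψ.source ∧ DifferentiableOn ℂ Ψ.symm Ψ.target ∧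
      (∀ y ∈ Ψ.source, ∀ j : Fin m, L (G y) j = Ψ y j.succ) ∧
      ∀ O ∈ 𝓝 p, ∃ a b : Fin (m + 1) → ℂ, Ψ p ∈ L2P.cbox a b ∧
        closure (L2P.cbox a b) ⊆ Ψ.target ∧ Ψ.symm '' closure (L2P.cbox a b) ⊆ O ∧
        ∀ z ∈ closure (L2P.cbox a b), (z 0).re = (a 0).re → h (Ψ.symm z) ≠ 0

/-- BOXP: a closed smooth form on a neighbourhood of a closed box has a primitive with bounded
density for the metric `G^*(Euclidean)`, if the last `m` coordinates are linear functions of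
`G`. -/
def S_BOXP : Prop :=
  ∀ (m N k : ℕ) (a b : Fin (m + 1) → ℂ) (W : Set (Fin (m + 1) → ℂ))
    (G : (Fin (m + 1) → ℂ) → Hil N) (L : Hil N →L[ℂ] (Fin m → ℂ)) (e : L2P.Form (m + 1) (k + 1)),
    IsOpen W → (L2P.cbox a b).Nonempty → closure (L2P.cbox a b) ⊆ W → DifferentiableOn ℂ G W →
    (∀ z ∈ W, ∀ j : Fin m, L (G z) j = z j.succ) → ContDiffOn ℝ ∞ e W →
    (∀ z ∈ W, extDeriv e z = 0) →
    ∃ (f : L2P.Form (m + 1) k) (C : ℝ), ContDiffOn ℝ ∞ f (L2P.cbox a b) ∧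
      (∀ z ∈ L2P.cbox a b, extDeriv f z = e z) ∧
      ∀ z ∈ L2P.cbox a b, den (fderiv ℂ G) f z ≤ ENNReal.ofReal C

/-- BOX0: closed smooth `0`-forms on open boxes are constant; constants have bounded density on
compact sets. -/
def S_BOX0 : Prop :=
  (∀ (n : ℕ) (a b : Fin n → ℂ) (e : L2P.Form n 0), ContDiffOn ℝ ∞ e (L2P.cbox a b) →
    (∀ z ∈ L2P.cbox a b, extDeriv e z = 0) →
    ∃ c : ℂ, ∀ z ∈ L2P.cbox a b,
      e z = ContinuousAlternatingMap.constOfIsEmpty ℝ (Fin n → ℂ) (Fin 0) c) ∧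
  (∀ (n N : ℕ) (K W : Set (Fin n → ℂ)) (G : (Fin n → ℂ) → Hil N) (c : ℂ), IsCompact K →
    IsOpen W → K ⊆ W → DifferentiableOn ℂ G W → ∃ C : ℝ, ∀ z ∈ K,
      den (fderiv ℂ G) (fun _ => ContinuousAlternatingMap.constOfIsEmpty ℝ (Fin n → ℂ)
        (Fin 0) c) z ≤ ENNReal.ofReal C)

/-- The data of adapted coordinates: `Ψ` biholomorphic, `L (G y) = (Ψ y)_{1..m}`, `G` an immersion
off `B`, `B` in the zero set of `h`. -/
structure Ad (m N : ℕ) where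
  Ψ : OpenPartialHomeomorph (Fin (m + 1) → ℂ) (Fin (m + 1) → ℂ)
  G : (Fin (m + 1) → ℂ) → Hil N
  L : Hil N →L[ℂ] (Fin m → ℂ)
  h : (Fin (m + 1) → ℂ) → ℂ
  B : Set (Fin (m + 1) → ℂ)
  a : Fin (m + 1) → ℂ
  b : Fin (m + 1) → ℂ
  hol : DifferentiableOn ℂ Ψ Ψ.source
  hol' : DifferentiableOn ℂ Ψ.symm Ψ.target
  hG : DifferentiableOn ℂ G Ψ.source
  hh : DifferentiableOn ℂ h Ψ.source
  hL : ∀ y ∈ Ψ.source, ∀ j : Fin m, L (G y) j = Ψ y j.succ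
  ne : (L2P.cbox a b).Nonempty
  sub : closure (L2P.cbox a b) ⊆ Ψ.target
  side : ∀ z ∈ closure (L2P.cbox a b), (z 0).re = (a 0).re → h (Ψ.symm z) ≠ 0
  closed : IsOpen (Ψ.source \ B)
  zero : ∀ y ∈ Ψ.source, y ∈ B → h y = 0
  imm : ∀ y ∈ Ψ.source \ B, Function.Injective (fderiv ℂ G y)

/-- The open set `Ψ⁻¹ (box)`. -/
def Ad.U {m N : ℕ} (X : Ad m N) : Set (Fin (m + 1) → ℂ) := X.Ψ.source ∩ X.Ψ ⁻¹' L2P.cbox X.a X.b

/-- LOCA: local exactness of the `L²` complex. -/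
def S_LOCA : Prop :=
  ∀ (m N k : ℕ) (X : Ad m N) (w : L2P.Form (m + 1) (k + 1)), ContDiffOn ℝ ∞ w (X.U \ X.B) →
    (∀ y ∈ X.U \ X.B, extDeriv w y = 0) → ∫⁻ y in X.U \ X.B, den (fderiv ℂ X.G) w y < ⊤ →
    ∃ η : L2P.Form (m + 1) k, ContDiffOn ℝ ∞ η (X.U \ X.B) ∧
      (∀ y ∈ X.U \ X.B, extDeriv η y = w y) ∧
      ∫⁻ y in X.U \ X.B, den (fderiv ℂ X.G) η y < ⊤

/-- LOCA0: `L²` closed `0`-forms are constant. -/
def S_LOCA0 : Prop :=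
  ∀ (m N : ℕ) (X : Ad m N) (w : L2P.Form (m + 1) 0), ContDiffOn ℝ ∞ w (X.U \ X.B) →
    (∀ y ∈ X.U \ X.B, extDeriv w y = 0) → ∫⁻ y in X.U \ X.B, den (fderiv ℂ X.G) w y < ⊤ →
    ∃ c : ℂ, ∀ y ∈ X.U \ X.B,
      w y = ContinuousAlternatingMap.constOfIsEmpty ℝ (Fin (m + 1) → ℂ) (Fin 0) c

/-- LOCB: local exactness of the smooth complex, with a square integrable primitive. -/
def S_LOCB : Prop :=
  (∀ (m N k : ℕ) (X : Ad m N) (e : L2P.Form (m + 1) (k + 1)), ContDiffOn ℝ ∞ e X.Ψ.source →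
    (∀ y ∈ X.Ψ.source, extDeriv e y = 0) →
    ∃ f : L2P.Form (m + 1) k, ContDiffOn ℝ ∞ f X.U ∧ (∀ y ∈ X.U, extDeriv f y = e y) ∧
      ∫⁻ y in X.U, den (fderiv ℂ X.G) f y < ⊤) ∧
  (∀ (m N : ℕ) (X : Ad m N) (e : L2P.Form (m + 1) 0), ContDiffOn ℝ ∞ e X.U →
    (∀ y ∈ X.U, extDeriv e y = 0) →
    ∃ c : ℂ, ∀ y ∈ X.U,
      e y = ContinuousAlternatingMap.constOfIsEmpty ℝ (Fin (m + 1) → ℂ) (Fin 0) c)

/-! ### Forms on manifolds -/

section forms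

variable (M : Type) [TopologicalSpace M] (n : ℕ) [ChartedSpace (Fin n → ℂ) M]

/-- The transition map from the chart at `x'` to the chart at `x`. -/
noncomputable def tr {M : Type} [TopologicalSpace M] {n : ℕ} [ChartedSpace (Fin n → ℂ) M]
    (x x' : M) : OpenPartialHomeomorph (Fin n → ℂ) (Fin n → ℂ) :=
  (chartAt (Fin n → ℂ) x').symm.trans (chartAt (Fin n → ℂ) x)

/-- MF: facts about forms on complex manifolds. -/
structure MFacts : Prop where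
  hol : ∀ x x' : M, DifferentiableOn ℂ (tr (n := n) x x') (tr (n := n) x x').source
  rep_tr : ∀ (k : ℕ) (w : MForm M n k) (x x' : M), ∀ y ∈ (tr (n := n) x x').source,
    rep x' w y = pull (tr (n := n) x x') (rep x w) y
  rep_self : ∀ (k : ℕ) (w : MForm M n k) (x : M), rep x w (chartAt (Fin n → ℂ) x x) = w x
  smooth_iff : ∀ (k : ℕ) (w : MForm M n k) (x : M), ∀ y ∈ (chartAt (Fin n → ℂ) x).source,
    (SmoothAt w y ↔ ContDiffAt ℝ ∞ (rep x w) (chartAt (Fin n → ℂ) x y))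
  rep_d : ∀ (k : ℕ) (w : MForm M n k) (x : M), ∀ y ∈ (chartAt (Fin n → ℂ) x).source,
    SmoothAt w y → rep x (dM w) (chartAt (Fin n → ℂ) x y) =
      extDeriv (rep x w) (chartAt (Fin n → ℂ) x y)
  of_rep : ∀ (k : ℕ) (x : M) (θ : L2P.Form n k), ∃ w : MForm M n k,
    ∀ y ∈ (chartAt (Fin n → ℂ) x).target, rep x w y = θ y

end forms

/-- MF. -/
def S_MF : Prop :=
  ∀ (M : Type) [TopologicalSpace M] (n : ℕ) [ChartedSpace (Fin n → ℂ) M]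
    [IsManifold 𝓘(ℂ, Fin n → ℂ) 1 M], MFacts M n

section l2

variable {M : Type} [TopologicalSpace M] {n N : ℕ} [ChartedSpace (Fin n → ℂ) M]

/-- `G` is an affine representative of `F` on the open subset `U` of the chart at `x`. -/
def IsAff (F : M → ℙ ℂ (Hil (N + 1))) (x : M) (U : Set (Fin n → ℂ))
    (G : (Fin n → ℂ) → Hil (N + 1)) : Prop :=
  ∃ (s : (Fin n → ℂ) → Hil (N + 1)) (j : Fin (N + 1)), IsLift F x U s ∧
    (∀ y ∈ U, s y j ≠ 0) ∧ G = fun y => (s y j)⁻¹ • s y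

/-- CHG: facts about square integrability near points. -/
structure L2Facts (F : M → ℙ ℂ (Hil (N + 1))) (A : Set M) : Prop where
  aff : ∀ x : M, ∀ O ∈ 𝓝 (chartAt (Fin n → ℂ) x x), ∃ U ⊆ O, ∃ G, IsAff (n := n) F x U G
  iff_aff : ∀ (k : ℕ) (w : MForm M n k) (x : M) (U : Set (Fin n → ℂ))
    (G : (Fin n → ℂ) → Hil (N + 1)), IsAff F x U G →
    (L2Near F A w x ↔ ∃ V ⊆ U, IsOpen V ∧ chartAt (Fin n → ℂ) x x ∈ V ∧
      ∫⁻ y in V \ (chartAt (Fin n → ℂ) x).symm ⁻¹' A, den (fderiv ℂ G) (rep x w) y < ⊤)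
  near : ∀ (k : ℕ) (w : MForm M n k) (x : M) (U : Set (Fin n → ℂ))
    (G : (Fin n → ℂ) → Hil (N + 1)), IsAff F x U G →
    (∫⁻ y in U \ (chartAt (Fin n → ℂ) x).symm ⁻¹' A, den (fderiv ℂ G) (rep x w) y < ⊤) →
    ∀ y ∈ U, L2Near F A w ((chartAt (Fin n → ℂ) x).symm y)
  add : ∀ (k : ℕ) (w w' : MForm M n k) (x : M), (∀ᶠ y in 𝓝 x, y ∉ A → SmoothAt w y) →
    L2Near F A w x → L2Near F A w' x → L2Near F A (w + w') x
  smul : ∀ (k : ℕ) (c : ℂ) (w : MForm M n k) (x : M), L2Near F A w x → L2Near F A (c • w) x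
  congr : ∀ (k : ℕ) (w w' : MForm M n k) (x : M), (∀ᶠ y in 𝓝 x, y ∉ A → w y = w' y) →
    L2Near F A w x → L2Near F A w' x

end l2

/-- CHG. -/
def S_CHG : Prop :=
  ∀ (M : Type) [TopologicalSpace M] (n N : ℕ) [ChartedSpace (Fin n → ℂ) M]
    [IsManifold 𝓘(ℂ, Fin n → ℂ) 1 M] (F : M → ℙ ℂ (Hil (N + 1))) (A : Set M),
    (∀ x, ∃ U s, IsLift (n := n) F x U s) → IsClosed A → L2Facts (n := n) F A

/-! ### Cut-off functions -/

/-- The embedding of projective space in the space of matrices, `[s] ↦ s s^* / ‖s‖²`. -/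
noncomputable def Qm {N : ℕ} (p : ℙ ℂ (Hil N)) : Fin N → Fin N → ℂ := fun i j =>
  (((‖p.rep‖ ^ 2)⁻¹ : ℝ) : ℂ) * (p.rep i * (starRingEnd ℂ) (p.rep j))

section cut

variable {M : Type} [TopologicalSpace M] {n N : ℕ} [ChartedSpace (Fin n → ℂ) M]

/-- Multiplication of a form by a real function. -/
noncomputable def fmul {k : ℕ} (χ : M → ℝ) (w : MForm M n k) : MForm M n k := fun x => χ x • w x

/-- CUT: facts about the cut-offs `ψ ∘ Qm ∘ F`. -/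
structure CutFacts (F : M → ℙ ℂ (Hil (N + 1))) (A : Set M) : Prop where
  inj : ∀ x y : M, Qm (F x) = Qm (F y) → F x = F y
  cont : Continuous fun x => Qm (F x)
  smooth : ∀ (k : ℕ) (w : MForm M n k) (ψ : (Fin (N + 1) → Fin (N + 1) → ℂ) → ℝ) (x : M),
    ContDiff ℝ ∞ ψ → SmoothAt w x → SmoothAt (fmul (fun y => ψ (Qm (F y))) w) x
  l2 : ∀ (k : ℕ) (w : MForm M n k) (ψ : (Fin (N + 1) → Fin (N + 1) → ℂ) → ℝ) (x : M),
    ContDiff ℝ ∞ ψ → L2Near F A w x → L2Near F A (fmul (fun y => ψ (Qm (F y))) w) x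
  l2d : ∀ (k : ℕ) (w : MForm M n k) (ψ : (Fin (N + 1) → Fin (N + 1) → ℂ) → ℝ) (x : M),
    ContDiff ℝ ∞ ψ → (∀ᶠ y in 𝓝 x, y ∉ A → SmoothAt w y) → L2Near F A w x →
    L2Near F A (dM w) x → L2Near F A (dM (fmul (fun y => ψ (Qm (F y))) w)) x

end cut

/-- CUT. -/
def S_CUT : Prop :=
  ∀ (M : Type) [TopologicalSpace M] (n N : ℕ) [ChartedSpace (Fin n → ℂ) M]
    [IsManifold 𝓘(ℂ, Fin n → ℂ) 1 M] (F : M → ℙ ℂ (Hil (N + 1))) (A : Set M),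
    (∀ x, ∃ U s, IsLift (n := n) F x U s) → IsClosed A → CutFacts (n := n) F A

/-! ### Local exactness on `M` -/

section loc

variable {M : Type} [TopologicalSpace M] {n N : ℕ} [ChartedSpace (Fin n → ℂ) M]

/-- Nice near `x`, `L²` complex of `M \ A`. -/
def NiceA (F : M → ℙ ℂ (Hil (N + 1))) (A : Set M) {k : ℕ} (w : MForm M n k) (x : M) : Prop :=
  ∀ᶠ y in 𝓝 x, (y ∉ A → SmoothAt w y) ∧ L2Near F A w y ∧ L2Near F A (dM w) y

/-- Nice near `x`, smooth complex. -/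
def NiceE {k : ℕ} (w : MForm M n k) (x : M) : Prop := ∀ᶠ y in 𝓝 x, SmoothAt w y

/-- The constant `0`-form. -/
noncomputable def constM (M : Type) (n : ℕ) (c : ℂ) : MForm M n 0 := fun _ =>
  ContinuousAlternatingMap.constOfIsEmpty ℝ (Fin n → ℂ) (Fin 0) c

/-- LOC: local exactness. -/
structure LocFacts (F : M → ℙ ℂ (Hil (N + 1))) (A : Set M) : Prop where
  exA : ∀ (k : ℕ) (w : MForm M n (k + 1)) (x : M), NiceA F A w x →
    (∀ᶠ y in 𝓝 x, y ∉ A → dM w y = 0) →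
    ∃ η : MForm M n k, NiceA F A η x ∧ ∀ᶠ y in 𝓝 x, y ∉ A → dM η y = w y
  exA0 : ∀ (w : MForm M n 0) (x : M), NiceA F A w x → (∀ᶠ y in 𝓝 x, y ∉ A → dM w y = 0) →
    ∃ c : ℂ, ∀ᶠ y in 𝓝 x, y ∉ A → w y = constM M n c y
  exE : ∀ (k : ℕ) (w : MForm M n (k + 1)) (x : M), NiceE w x → (∀ᶠ y in 𝓝 x, dM w y = 0) →
    ∃ η : MForm M n k, NiceE η x ∧ (∀ᶠ y in 𝓝 x, L2Near F A η y) ∧
      ∀ᶠ y in 𝓝 x, dM η y = w y
  exE0 : ∀ (w : MForm M n 0) (x : M), NiceE w x → (∀ᶠ y in 𝓝 x, dM w y = 0) →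
    ∃ c : ℂ, ∀ᶠ y in 𝓝 x, w y = constM M n c y
  const : ∀ (c : ℂ) (x : M), NiceE (constM M n c) x ∧ L2Near F A (constM M n c) x ∧
    dM (constM M n c) x = 0
  dense : ∀ x : M, ∃ᶠ y in 𝓝 x, y ∉ A

end loc

/-- LOC. -/
def S_LOC : Prop :=
  ∀ (M : Type) [TopologicalSpace M] (m N : ℕ) [ChartedSpace (Fin (m + 1) → ℂ) M]
    [IsManifold 𝓘(ℂ, Fin (m + 1) → ℂ) 1 M] (F : M → ℙ ℂ (Hil (N + 1))) (A : Set M),
    IsCorankOne (n := m + 1) F A → LocFacts (n := m + 1) F A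

end L2M
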