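import Pool.Agent.Work.MP_ead3fc_ag.M.BoxPA
import Pool.Agent.Work.MP_ead3fc_ag.M.Tasks
import Pool.Agent.Work.MP_ead3fc_ag.Metric

/-!
# MP_ead3fc_ag, global theorem, BOXP: the density of a form killed by `∂ / ∂ Re z_0`
-/

set_option autoImplicit false

open MeasureTheory Set Filter Topology
open scoped ENNReal ContDiff

namespace L2M

open L2P

variable {m k : ℕ}

lemma map_e0_eq (w : (Fin (m + 1) → ℂ) [⋀^Fin k]→L[ℝ] ℂ)
    (hw : ∀ (v : Fin k → Fin (m + 1) → ℂ) (i : Fin k), v i = e0 m → w v = 0)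
    (u : Fin k → Fin (m + 1) → ℂ) (x : Fin k → ℝ) :
    w (fun i => u i + x i • e0 m) = w u := by
  classical
  have h1 : (fun i => u i + x i • e0 m) = u + fun i => x i • e0 m := rfl
  rw [h1, w.map_add_univ, Finset.sum_eq_single Finset.univ]
  · rw [Finset.piecewise_univ]
  · intro s _ hs
    obtain ⟨i, hi⟩ : ∃ i, i ∉ s := by
      by_contra hcon
      push Not at hcon
      exact hs (Finset.eq_univ_iff_forall.2 hcon)
    set g : Fin k → Fin (m + 1) → ℂ := s.piecewise u (fun i => x i • e0 m) with hg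
    have h2 : g = Function.update g i (x i • e0 m) := by
      rw [Function.eq_update_iff]
      exact ⟨by rw [hg, Finset.piecewise_eq_of_notMem _ _ _ hi], fun _ _ => rfl⟩
    rw [h2, w.map_update_smul, hw _ i (Function.update_self _ _ _), smul_zero]
  · intro h
    exact absurd (Finset.mem_univ _) h

lemma term_bound (w : (Fin (m + 1) → ℂ) [⋀^Fin k]→L[ℝ] ℂ) (u : Fin k → Fin (m + 1) → ℂ)
    (y : Fin k → ℝ) (θ : Fin (m + 1) → ℂ) (C ρ : ℝ) (hC : 1 ≤ C) (hρC : ρ ≤ C)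
    (hθ : ‖θ‖ ≤ 1) (hu : ∀ i, ‖u i‖ ≤ C) (hy : ∀ i, ρ * |y i| ≤ C) (s : Finset (Fin k)) :
    ρ * ‖w (s.piecewise u fun i => y i • θ)‖ ≤ C ^ (k + 1) * ‖w‖ := by
  classical
  have hC0 : 0 ≤ C := by linarith
  set c : Fin k → ℝ := fun i => if i ∈ s then 1 else y i with hc
  set h : Fin k → Fin (m + 1) → ℂ := fun i => if i ∈ s then u i else θ with hh
  have h1 : s.piecewise u (fun i => y i • θ) = fun i => c i • h i := by
    funext i
    by_cases hi : i ∈ s
    · simp only [hi, Finset.piecewise_eq_of_mem, hc, hh, if_true, one_smul]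
    · simp only [hi, not_false_eq_true, Finset.piecewise_eq_of_notMem, hc, hh, if_false]
  rw [h1, w.map_smul_univ, norm_smul]
  by_cases hs : ∃ i j, i ∉ s ∧ j ∉ s ∧ i ≠ j
  · obtain ⟨i, j, hi, hj, hij⟩ := hs
    have h2 : w h = 0 := w.map_eq_zero_of_eq h (i := i) (j := j) (by simp [hh, hi, hj]) hij
    rw [h2, norm_zero, mul_zero, mul_zero]
    positivity
  · push Not at hs
    have h3 : ‖w h‖ ≤ ‖w‖ * C ^ k := by
      refine (w.le_opNorm h).trans ?_
      gcongr
      calc ∏ i, ‖h i‖ ≤ ∏ _i : Fin k, C := by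
            refine Finset.prod_le_prod (fun _ _ => norm_nonneg _) fun i _ => ?_
            by_cases hi : i ∈ s
            · simp only [hh, hi, if_true]
              exact hu i
            · simp only [hh, hi, if_false]
              exact hθ.trans hC
        _ = C ^ k := by simp
    have h4 : ρ * ‖∏ i, c i‖ ≤ C := by
      by_cases h5 : ∃ i, i ∉ s
      · obtain ⟨i, hi⟩ := h5
        have h6 : ∏ j, c j = y i := by
          rw [Finset.prod_eq_single i]
          · simp only [hc, hi, if_false]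
          · intro j _ hji
            have h7 : j ∈ s := by
              by_contra hcon
              exact hji (hs j i hcon hi)
            simp only [hc, h7, if_true]
          · intro h7
            exact absurd (Finset.mem_univ _) h7
        rw [h6, Real.norm_eq_abs]
        exact hy i
      · push Not at h5
        have h6 : ∏ j, c j = 1 := by
          apply Finset.prod_eq_one
          intro j _
          simp only [hc, h5 j, if_true]
        rw [h6, norm_one, mul_one]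
        exact hρC
    calc ρ * (‖∏ i, c i‖ * ‖w h‖) = (ρ * ‖∏ i, c i‖) * ‖w h‖ := by ring
      _ ≤ C * (‖w‖ * C ^ k) := by gcongr
      _ = C ^ (k + 1) * ‖w‖ := by ring

/-- The pointwise bound. -/
theorem rho_bound {N : ℕ} (T : (Fin (m + 1) → ℂ) →L[ℂ] Hil N)
    (w : (Fin (m + 1) → ℂ) [⋀^Fin k]→L[ℝ] ℂ)
    (hw : ∀ (v : Fin k → Fin (m + 1) → ℂ) (i : Fin k), v i = e0 m → w v = 0)
    (C ρ : ℝ) (hC : 1 ≤ C) (hρ : 0 ≤ ρ) (hρC : ρ ≤ C)
    (hT : ∀ v : Fin (m + 1) → ℂ, (∀ j : Fin m, ‖v j.succ‖ ≤ C * ‖T v‖) ∧ ρ * ‖v 0‖ ≤ C * ‖T v‖)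
    (v : Fin k → Fin (m + 1) → ℂ) (hv : ∀ i, ‖T (v i)‖ ≤ 1) :
    ρ * ‖w v‖ ≤ 2 ^ k * (C ^ (k + 1) * ‖w‖) := by
  classical
  have hC0 : 0 ≤ C := by linarith
  set u : Fin k → Fin (m + 1) → ℂ := fun i => Fin.cons 0 fun j => v i j.succ with hu
  set y : Fin k → ℝ := fun i => (v i 0).im with hy
  set x : Fin k → ℝ := fun i => (v i 0).re with hx
  set θ : Fin (m + 1) → ℂ := Pi.single 0 Complex.I with hθ
  have h1 : v = fun i => (u i + y i • θ) + x i • e0 m := by
    funext i j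
    refine Fin.cases ?_ (fun j => ?_) j
    · simp only [hu, hθ, e0, hy, hx, Pi.add_apply, Pi.smul_apply, Fin.cons_zero,
        Pi.single_eq_same, Complex.real_smul, zero_add, mul_one]
      exact ((add_comm _ _).trans (Complex.re_add_im (v i 0))).symm
    · simp only [hu, hθ, e0, Pi.add_apply, Pi.smul_apply, Fin.cons_succ,
        Pi.single_eq_of_ne (Fin.succ_ne_zero j), smul_zero, add_zero]
  have h2 : w v = w (u + fun i => y i • θ) := by
    conv_lhs => rw [h1]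
    exact map_e0_eq w hw (fun i => u i + y i • θ) x
  have hub : ∀ i, ‖u i‖ ≤ C := by
    intro i
    rw [pi_norm_le_iff_of_nonneg hC0]
    intro j
    refine Fin.cases ?_ (fun j => ?_) j
    · simp only [hu, Fin.cons_zero, norm_zero]
      exact hC0
    · simp only [hu, Fin.cons_succ]
      refine ((hT (v i)).1 j).trans ?_
      calc C * ‖T (v i)‖ ≤ C * 1 := by
            gcongr
            exact hv i
        _ = C := mul_one C
  have hyb : ∀ i, ρ * |y i| ≤ C := by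
    intro i
    calc ρ * |y i| ≤ ρ * ‖v i 0‖ := by
          gcongr
          exact Complex.abs_im_le_norm _
      _ ≤ C * ‖T (v i)‖ := (hT (v i)).2
      _ ≤ C * 1 := by
          gcongr
          exact hv i
      _ = C := mul_one C
  have hθ1 : ‖θ‖ ≤ 1 := by
    rw [hθ, pi_norm_le_iff_of_nonneg zero_le_one]
    intro j
    refine Fin.cases ?_ (fun j => ?_) j
    · simp
    · simp
  rw [h2, w.map_add_univ]
  calc ρ * ‖∑ s : Finset (Fin k), w (s.piecewise u fun i => y i • θ)‖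
      ≤ ρ * ∑ s : Finset (Fin k), ‖w (s.piecewise u fun i => y i • θ)‖ := by
        gcongr
        exact norm_sum_le _ _
    _ = ∑ s : Finset (Fin k), ρ * ‖w (s.piecewise u fun i => y i • θ)‖ := Finset.mul_sum _ _ _
    _ ≤ ∑ _s : Finset (Fin k), C ^ (k + 1) * ‖w‖ :=
        Finset.sum_le_sum fun s _ => term_bound w u y θ C ρ hC hρC hθ1 hub hyb s
    _ = 2 ^ k * (C ^ (k + 1) * ‖w‖) := by
        rw [Finset.sum_const, Finset.card_univ, Fintype.card_finset, Fintype.card_fin,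
          nsmul_eq_mul]
        push_cast
        ring

/-- The bound of the density. -/
theorem density_bound {n N : ℕ} (T : (Fin n → ℂ) →L[ℂ] Hil N)
    (w : (Fin n → ℂ) [⋀^Fin k]→L[ℝ] ℂ) (C ρ B : ℝ) (hC : 0 ≤ C) (hρ : 0 ≤ ρ) (hB : 0 ≤ B)
    (h : ∀ v : Fin k → Fin n → ℂ, (∀ i, ‖T (v i)‖ ≤ 1) → ρ * ‖w v‖ ≤ B)
    (hg : ‖gram T‖ ≤ C * ρ ^ 2) :
    nrm T w ^ 2 * ‖gram T‖ₑ ≤ ENNReal.ofReal (C * B ^ 2) := by
  have h1 : ENNReal.ofReal ρ * nrm T w ≤ ENNReal.ofReal B := by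
    unfold nrm
    rw [ENNReal.mul_iSup]
    refine iSup_le fun v => ?_
    rw [← ofReal_norm, ← ENNReal.ofReal_mul hρ]
    exact ENNReal.ofReal_le_ofReal (h v.1 v.2)
  have h2 : ‖gram T‖ₑ ≤ ENNReal.ofReal C * ENNReal.ofReal ρ ^ 2 := by
    rw [← ENNReal.ofReal_pow hρ, ← ENNReal.ofReal_mul hC, ← ofReal_norm]
    exact ENNReal.ofReal_le_ofReal hg
  calc nrm T w ^ 2 * ‖gram T‖ₑ ≤ nrm T w ^ 2 * (ENNReal.ofReal C * ENNReal.ofReal ρ ^ 2) := by
        gcongr
    _ = ENNReal.ofReal C * (ENNReal.ofReal ρ * nrm T w) ^ 2 := by ring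
    _ ≤ ENNReal.ofReal C * ENNReal.ofReal B ^ 2 := by gcongr
    _ = ENNReal.ofReal (C * B ^ 2) := by
        rw [← ENNReal.ofReal_pow hB, ← ENNReal.ofReal_mul hC]

/-- A bounded form killed by `∂ / ∂ Re z_0` has bounded density. -/
theorem den_bound {N : ℕ} (K W : Set (Fin (m + 1) → ℂ)) (G : (Fin (m + 1) → ℂ) → Hil N)
    (L : Hil N →L[ℂ] (Fin m → ℂ)) (hK : IsCompact K) (hW : IsOpen W) (hKW : K ⊆ W)
    (hG : DifferentiableOn ℂ G W) (hL : ∀ z ∈ W, ∀ j : Fin m, L (G z) j = z j.succ)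
    (f : Form (m + 1) k) (hf : ContinuousOn f K)
    (hw : ∀ z, ∀ (v : Fin k → Fin (m + 1) → ℂ) (i : Fin k), v i = e0 m → f z v = 0) :
    ∃ C : ℝ, ∀ z ∈ K, den (fderiv ℂ G) f z ≤ ENNReal.ofReal C := by
  obtain ⟨C, hC, h⟩ := metric m N K W G L hK hW hKW hG hL
  obtain ⟨D, hD⟩ := hK.exists_bound_of_continuousOn hf
  refine ⟨C * (2 ^ k * (C ^ (k + 1) * max D 0)) ^ 2, fun z hz => ?_⟩
  obtain ⟨h1, h2, h3, -⟩ := h z hz
  have hC0 : 0 ≤ C := by linarith
  refine density_bound (fderiv ℂ G z) (f z) C ‖fderiv ℂ G z (Pi.single 0 1)‖ _ hC0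
    (norm_nonneg _) (by positivity) (fun v hv => ?_) h3
  refine (rho_bound (fderiv ℂ G z) (f z) (hw z) C _ hC (norm_nonneg _) (h1 0) h2 v hv).trans ?_
  gcongr
  exact (hD z hz).trans (le_max_left _ _)

end L2M
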