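import Pool.Agent.Work.MP_ead3fc_ag.M.BoxPB
import Pool.Agent.Work.MP_ead3fc_ag.S.Smooth

/-!
# MP_ead3fc_ag, global theorem, BOXP: the Poincaré lemma on boxes
-/

set_option autoImplicit false

open MeasureTheory Set Filter Topology
open scoped ENNReal ContDiff Manifold

namespace L2M

open L2P

variable {m k : ℕ}

/-- A slightly larger box. -/
theorem exists_larger {n : ℕ} {a b : Fin n → ℂ} {W : Set (Fin n → ℂ)} (hW : IsOpen W)
    (hne : (cbox a b).Nonempty) (hsub : closure (cbox a b) ⊆ W) :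
    ∃ a' b' : Fin n → ℂ, closure (cbox a b) ⊆ cbox a' b' ∧ closure (cbox a' b') ⊆ W := by
  have hK : IsCompact (closure (cbox a b)) := by
    rw [closure_cbox hne]
    exact isCompact_univ_pi fun j => isCompact_Icc.reProdIm isCompact_Icc
  obtain ⟨δ, hδ, hδW⟩ := hK.exists_cthickening_subset_open hW hsub
  set a' : Fin n → ℂ := fun j => ⟨(a j).re - δ / 2, (a j).im - δ / 2⟩ with ha'
  set b' : Fin n → ℂ := fun j => ⟨(b j).re + δ / 2, (b j).im + δ / 2⟩ with hb'
  have h1 : closure (cbox a b) ⊆ cbox a' b' := by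
    intro z hz
    rw [mem_closure_cbox hne] at hz
    intro j
    obtain ⟨⟨h1, h2⟩, h3, h4⟩ := hz j
    simp only [ha', hb']
    exact ⟨by linarith, by linarith, by linarith, by linarith⟩
  refine ⟨a', b', h1, fun z hz => hδW ?_⟩
  have hne' : (cbox a' b').Nonempty := (hne.mono subset_closure).mono h1
  rw [mem_closure_cbox hne'] at hz
  obtain ⟨z0, hz0⟩ := hne
  set p : Fin n → ℂ := fun j => ⟨max (a j).re (min (b j).re (z j).re),
    max (a j).im (min (b j).im (z j).im)⟩ with hp
  have hpK : p ∈ closure (cbox a b) := by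
    rw [mem_closure_cbox ⟨z0, hz0⟩]
    intro j
    obtain ⟨h1, h2, h3, h4⟩ := hz0 j
    simp only [hp]
    exact ⟨⟨le_max_left _ _, max_le (h1.trans h2).le (min_le_left _ _)⟩,
      le_max_left _ _, max_le (h3.trans h4).le (min_le_left _ _)⟩
  refine Metric.mem_cthickening_of_dist_le z p δ _ hpK ?_
  rw [dist_pi_le_iff hδ.le]
  intro j
  obtain ⟨⟨h1, h2⟩, h3, h4⟩ := hz j
  obtain ⟨g1, g2, g3, g4⟩ := hz0 j
  simp only [ha', hb'] at h1 h2 h3 h4
  have key : ∀ α β t : ℝ, α < β → α - δ / 2 ≤ t → t ≤ β + δ / 2 →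
      |t - max α (min β t)| ≤ δ / 2 := by
    intro α β t hαβ ht1 ht2
    rw [abs_le]
    rcases le_total β t with h5 | h5
    · rw [min_eq_left h5, max_eq_right hαβ.le]
      exact ⟨by linarith, by linarith⟩
    · rw [min_eq_right h5]
      rcases le_total α t with h6 | h6
      · rw [max_eq_right h6]
        exact ⟨by linarith, by linarith⟩
      · rw [max_eq_left h6]
        exact ⟨by linarith, by linarith⟩
  rw [dist_eq_norm]
  refine (Complex.norm_le_abs_re_add_abs_im _).trans ?_
  have h5 := key _ _ _ (g1.trans g2) h1 h2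
  have h6 := key _ _ _ (g3.trans g4) h3 h4
  simp only [hp, Complex.sub_re, Complex.sub_im]
  linarith

/-- The identity map of `ℂ^n`, with values in the Hermitian space. -/
noncomputable def idE (n : ℕ) : (Fin n → ℂ) →L[ℂ] EuclideanSpace ℂ (Fin n) :=
  ((EuclideanSpace.equiv (Fin n) ℂ).symm : (Fin n → ℂ) →L[ℂ] EuclideanSpace ℂ (Fin n))

lemma idE_apply {n : ℕ} (z : Fin n → ℂ) (j : Fin n) : idE n z j = z j := rfl

lemma norm_le_idE {n : ℕ} (z : Fin n → ℂ) : ‖z‖ ≤ ‖idE n z‖ := by
  rw [pi_norm_le_iff_of_nonneg (norm_nonneg _)]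
  intro j
  exact PiLp.norm_apply_le (idE n z) j

/-- The last `m` coordinates. -/
noncomputable def lastE (m : ℕ) : EuclideanSpace ℂ (Fin (m + 1)) →L[ℂ] (Fin m → ℂ) :=
  ContinuousLinearMap.pi fun j =>
    (ContinuousLinearMap.proj (R := ℂ) (φ := fun _ : Fin (m + 1) => ℂ) j.succ).comp
      ((EuclideanSpace.equiv (Fin (m + 1)) ℂ) : EuclideanSpace ℂ (Fin (m + 1)) →L[ℂ] _)

/-- The chart for the Euclidean metric. -/
noncomputable def flatChart {a b : Fin (m + 1) → ℂ} (hne : (cbox a b).Nonempty) :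
    Chart m (m + 1) where
  a := a
  b := b
  W := univ
  F := idE (m + 1)
  L := lastE m
  h := fun _ => 1
  A := ∅
  ne := hne
  hW := isOpen_univ
  hUW := subset_univ _
  hF := (idE (m + 1)).differentiable.differentiableOn
  hL := fun _ _ _ => rfl
  hh := (differentiable_const _).differentiableOn
  hA := isClosed_empty
  hAh := fun _ _ h => absurd h (notMem_empty _)
  hside := fun _ _ _ => one_ne_zero
  himm := fun z _ _ => by
    rw [(idE (m + 1)).fderiv]
    exact (EuclideanSpace.equiv (Fin (m + 1)) ℂ).symm.injective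

lemma isL2_flat {n : ℕ} {Ω : Set (Fin n → ℂ)} (hΩ : IsOpen Ω) (hfin : volume Ω < ⊤)
    {e : Form n k} (he : ContinuousOn e Ω) {D : ℝ} (hD : ∀ z ∈ Ω, ‖e z‖ ≤ D) :
    IsL2 (idE n) Ω e := by
  refine ⟨he.aestronglyMeasurable hΩ.measurableSet, ?_⟩
  have h1 : ∀ z ∈ Ω, normAt (idE n) z (e z) ^ 2 * ‖gramDet (idE n) z‖ₑ ≤
      ENNReal.ofReal D ^ 2 * ENNReal.ofReal (n.factorial * (‖idE n‖ ^ 2) ^ n) := by
    intro z hz
    gcongr
    · unfold normAt
      refine iSup_le fun v => ?_
      rw [← ofReal_norm]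
      apply ENNReal.ofReal_le_ofReal
      refine ((e z).le_opNorm v.1).trans ?_
      have h2 : ∏ i, ‖v.1 i‖ ≤ 1 := by
        refine Finset.prod_le_one (fun _ _ => norm_nonneg _) fun i _ => ?_
        have h4 := v.2 i
        obtain ⟨u, hu⟩ : ∃ u, u = v.1 i := ⟨_, rfl⟩
        rw [← hu] at h4 ⊢
        have h5 : fderiv ℂ (idE n) z = idE n := (idE n).fderiv
        rw [h5] at h4
        exact (norm_le_idE _).trans h4
      calc ‖e z‖ * ∏ i, ‖v.1 i‖ ≤ ‖e z‖ * 1 := by gcongr
        _ ≤ D := by rw [mul_one]; exact hD z hz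
    · rw [← ofReal_norm]
      apply ENNReal.ofReal_le_ofReal
      unfold gramDet
      rw [(idE n).fderiv]
      refine det_gram_le (fun i => idE n (Pi.single i 1)) ‖idE n‖ (norm_nonneg _) fun i => ?_
      refine ((idE n).le_opNorm _).trans ?_
      have h3 : ‖(Pi.single i 1 : Fin n → ℂ)‖ ≤ 1 := by
        rw [pi_norm_le_iff_of_nonneg zero_le_one]
        intro j
        by_cases hij : j = i
        · subst hij; simp
        · simp [Pi.single_eq_of_ne hij]
      calc ‖idE n‖ * ‖(Pi.single i 1 : Fin n → ℂ)‖ ≤ ‖idE n‖ * 1 := by gcongr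
        _ = ‖idE n‖ := mul_one _
  calc ∫⁻ z in Ω, normAt (idE n) z (e z) ^ 2 * ‖gramDet (idE n) z‖ₑ
      ≤ ∫⁻ _z in Ω, ENNReal.ofReal D ^ 2 * ENNReal.ofReal (n.factorial * (‖idE n‖ ^ 2) ^ n) :=
        setLIntegral_mono' hΩ.measurableSet h1
    _ = ENNReal.ofReal D ^ 2 * ENNReal.ofReal (n.factorial * (‖idE n‖ ^ 2) ^ n) * volume Ω :=
        setLIntegral_const _ _
    _ < ⊤ := by
        refine ENNReal.mul_lt_top (ENNReal.mul_lt_top ?_ ENNReal.ofReal_lt_top) hfin
        exact ENNReal.pow_lt_top ENNReal.ofReal_lt_top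

/-- The Poincaré lemma on boxes. -/
theorem exists_prim {a b : Fin (m + 1) → ℂ} {W : Set (Fin (m + 1) → ℂ)}
    {e : Form (m + 1) (k + 1)} (hne : (cbox a b).Nonempty)
    (hsub : closure (cbox a b) ⊆ W) (he : ContDiffOn ℝ ∞ e W)
    (hd : ∀ z ∈ W, extDeriv e z = 0) :
    ∃ f : Form (m + 1) k, ContDiffOn ℝ ∞ f (cbox a b) ∧
      ∀ z ∈ cbox a b, extDeriv f z = e z := by
  have hK : IsCompact (closure (cbox a b)) := by
    rw [closure_cbox hne]
    exact isCompact_univ_pi fun j => isCompact_Icc.reProdIm isCompact_Icc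
  obtain ⟨D, hD⟩ := hK.exists_bound_of_continuousOn (he.continuousOn.mono hsub)
  set X := flatChart hne with hX
  have hΩ : X.Ω = cbox a b := sdiff_empty
  have hfin : volume (cbox a b) < ⊤ :=
    (measure_mono subset_closure).trans_lt hK.measure_lt_top
  have h1 : IsL2 X.F X.Ω e := by
    rw [hΩ]
    exact isL2_flat (isOpen_cbox a b) hfin (he.continuousOn.mono (subset_closure.trans hsub))
      (fun z hz => hD z (subset_closure hz))
  obtain ⟨f, h2, -, h3⟩ := X.smooth_pos (w := e) (by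
    rw [hΩ]
    exact he.mono (subset_closure.trans hsub)) h1 (fun x hx => by
    rw [hΩ] at hx
    exact hd x (hsub (subset_closure hx)))
  rw [hΩ] at h2 h3
  exact ⟨f, h2, h3⟩

/-- Global primitives. -/
theorem exists_prim_global {a b : Fin (m + 1) → ℂ} {W : Set (Fin (m + 1) → ℂ)}
    {e : Form (m + 1) (k + 1)} (hW : IsOpen W) (hne : (cbox a b).Nonempty)
    (hsub : closure (cbox a b) ⊆ W) (he : ContDiffOn ℝ ∞ e W)
    (hd : ∀ z ∈ W, extDeriv e z = 0) :
    ∃ f : Form (m + 1) k, ContDiff ℝ ∞ f ∧ ∀ z ∈ cbox a b, extDeriv f z = e z := by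
  obtain ⟨a', b', h1, h2⟩ := exists_larger hW hne hsub
  have hne' : (cbox a' b').Nonempty := (hne.mono subset_closure).mono h1
  obtain ⟨f, hf1, hf2⟩ := exists_prim hne' h2 he hd
  obtain ⟨χ, h3, h4, -⟩ := exists_contMDiffMap_zero_one_nhds_of_isClosed (n := ⊤)
    𝓘(ℝ, Fin (m + 1) → ℂ) (isOpen_cbox a' b').isClosed_compl
    (isClosed_closure (s := cbox a b)) (disjoint_left.2 fun x hx hxK => hx (h1 hxK))
  have hχ : ContDiff ℝ ∞ χ := χ.contMDiff.contDiff
  refine ⟨fun z => χ z • f z, ?_, fun z hz => ?_⟩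
  · rw [contDiff_iff_contDiffAt]
    intro x
    by_cases hx : x ∈ cbox a' b'
    · exact hχ.contDiffAt.smul (hf1.contDiffAt ((isOpen_cbox a' b').mem_nhds hx))
    · have h5 : ∀ᶠ y in 𝓝 x, χ y = 0 := (eventually_nhdsSet_iff_forall.1 h3) x hx
      refine (contDiffAt_const (c := 0)).congr_of_eventuallyEq ?_
      filter_upwards [h5] with y hy
      rw [hy]
      exact zero_smul ℝ (f y)
  · have h5 : ∀ᶠ y in 𝓝 z, χ y = 1 :=
      (eventually_nhdsSet_iff_forall.1 h4) z (subset_closure hz)
    have h6 : (fun z => χ z • f z) =ᶠ[𝓝 z] f := by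
      filter_upwards [h5] with y hy
      rw [hy]
      exact one_smul ℝ (f y)
    rw [h6.extDeriv_eq]
    exact hf2 z (h1 (subset_closure hz))

/-- BOXP. -/
theorem boxp : S_BOXP := by
  intro m N k a b W G L e hW hne hsub hG hL he hd
  obtain ⟨f₀, h1, h2⟩ := exists_prim_global hW hne hsub he hd
  obtain ⟨f, h3, h4, h5⟩ := exists_iota_zero h1
  have hK : IsCompact (closure (cbox a b)) := by
    rw [closure_cbox hne]
    exact isCompact_univ_pi fun j => isCompact_Icc.reProdIm isCompact_Icc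
  obtain ⟨C, hC⟩ := den_bound (closure (cbox a b)) W G L hK hW hsub hG hL f
    h3.continuous.continuousOn h5
  exact ⟨f, C, h3.contDiffOn, fun z hz => (h4 z).trans (h2 z hz),
    fun z hz => hC z (subset_closure hz)⟩

/-- BOX0. -/
theorem box0 : S_BOX0 := by
  constructor
  · intro n a b e he hd
    rcases (cbox a b).eq_empty_or_nonempty with h0 | ⟨z0, hz0⟩
    · exact ⟨0, fun z hz => by rw [h0] at hz; exact absurd hz (notMem_empty _)⟩
    refine ⟨e z0 ![], fun z hz => ?_⟩
    have hconv : Convex ℝ (cbox a b) := by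
      intro x hx y hy s t hs ht hst j
      obtain ⟨x1, x2, x3, x4⟩ := hx j
      obtain ⟨y1, y2, y3, y4⟩ := hy j
      have hre : ((s • x + t • y) j).re = s * (x j).re + t * (y j).re := by
        simp
      have him : ((s • x + t • y) j).im = s * (x j).im + t * (y j).im := by
        simp
      rw [hre, him]
      have key : ∀ α p q : ℝ, α < p → α < q → α < s * p + t * q := by
        intro α p q h1 h2
        have h3 : α = s * α + t * α := by rw [← add_mul, hst, one_mul]
        rcases hs.eq_or_lt with h4 | h4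
        · have h5 : t = 1 := by linarith
          rw [← h4, h5]
          linarith
        · nlinarith [mul_lt_mul_of_pos_left h1 h4, mul_le_mul_of_nonneg_left h2.le ht]
      have key2 : ∀ α p q : ℝ, p < α → q < α → s * p + t * q < α := by
        intro α p q h1 h2
        have h3 : α = s * α + t * α := by rw [← add_mul, hst, one_mul]
        rcases hs.eq_or_lt with h4 | h4
        · have h5 : t = 1 := by linarith
          rw [← h4, h5]
          linarith
        · nlinarith [mul_lt_mul_of_pos_left h1 h4, mul_le_mul_of_nonneg_left h2.le ht]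
      exact ⟨key _ _ _ x1 y1, key2 _ _ _ x2 y2, key _ _ _ x3 y3, key2 _ _ _ x4 y4⟩
    have hop := isOpen_cbox a b
    have hdiff : DifferentiableOn ℝ (fun z => e z ![]) (cbox a b) := by
      intro x hx
      have h1 : DifferentiableAt ℝ e x :=
        (he.contDiffAt (hop.mem_nhds hx)).differentiableAt (by simp)
      exact ((ContinuousAlternatingMap.apply ℝ (Fin n → ℂ) ℂ
        ![]).differentiableAt.comp x h1).differentiableWithinAt
    have hzero : (cbox a b).EqOn (fderiv ℝ fun z => e z ![]) 0 := by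
      intro x hx
      have h1 : DifferentiableAt ℝ e x :=
        (he.contDiffAt (hop.mem_nhds hx)).differentiableAt (by simp)
      ext v
      have h2 := congrArg (fun w => w ![v]) (hd x hx)
      simp only [extDeriv_apply h1] at h2
      rw [Fin.sum_univ_succ] at h2
      simpa using h2
    have hc := hop.is_const_of_fderiv_eq_zero (𝕜 := ℝ) hconv.isPreconnected hdiff hzero hz hz0
    ext v
    rw [ContinuousAlternatingMap.constOfIsEmpty_apply]
    have hv : v = ![] := Subsingleton.elim _ _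
    rw [hv]
    exact hc
  · intro n N K W G c hK hW hKW hG
    obtain ⟨C, hC, h1⟩ := exists_dir_bound hK hW hKW hG
    refine ⟨n.factorial * (C ^ 2) ^ n * ‖c‖ ^ 2, fun z hz => ?_⟩
    have hs : ∀ j : Fin n, ‖(Pi.single j 1 : Fin n → ℂ)‖ ≤ 1 := by
      intro j
      rw [pi_norm_le_iff_of_nonneg zero_le_one]
      intro i
      by_cases hij : i = j
      · subst hij; simp
      · simp [Pi.single_eq_of_ne hij]
    have h2 : ‖gram (fderiv ℂ G z)‖ ≤ n.factorial * (C ^ 2) ^ n * 1 ^ 2 := by
      rw [one_pow, mul_one]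
      exact det_gram_le (fun i => fderiv ℂ G z (Pi.single i 1)) C hC fun i =>
        h1 z hz _ (hs i)
    exact density_bound (fderiv ℂ G z) _ (n.factorial * (C ^ 2) ^ n) 1 ‖c‖ (by positivity)
      zero_le_one (norm_nonneg _) (fun v _ => by
        rw [one_mul, ContinuousAlternatingMap.constOfIsEmpty_apply]) h2

end L2M
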