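import Pool.Agent.Work.MP_ead3fc_ag.M.Tasks
import Pool.Agent.Work.MP_0e9e72_an.SCVA

/-!
# MP_ead3fc_ag, global theorem, module CHG: square integrability near points of `M`

`L2M.chg : S_MF → S_FSQ → S_TR → S_CHG`.
-/

set_option autoImplicit false

open MeasureTheory Set Filter Topology
open scoped ENNReal LinearAlgebra.Projectivization ContDiff Manifold

namespace L2M

namespace Chg

variable {n N k : ℕ}

/-! ### Measurability of the density -/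

theorem lt_nrm_iff {T : (Fin n → ℂ) →L[ℂ] Hil N} {w : (Fin n → ℂ) [⋀^Fin k]→L[ℝ] ℂ} {c : ℝ≥0∞} :
    c < nrm T w ↔ ∃ v : Fin k → Fin n → ℂ, (∀ i, ‖T (v i)‖ < 1) ∧ c < ‖w v‖ₑ := by
  constructor
  · intro h
    rw [nrm, lt_iSup_iff] at h
    obtain ⟨⟨v, hv⟩, hc⟩ := h
    have hcont : Continuous fun r : ℝ => ‖w (fun i => r • v i)‖ₑ :=
      (w.cont.comp (by fun_prop : Continuous fun r : ℝ => fun i => r • v i)).enorm
    have h1 : ∀ᶠ r in 𝓝 (1 : ℝ), c < ‖w (fun i => r • v i)‖ₑ := by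
      refine hcont.continuousAt.eventually (lt_mem_nhds ?_)
      simpa using hc
    have h2 : ∀ᶠ r in 𝓝[<] (1 : ℝ), c < ‖w (fun i => r • v i)‖ₑ := h1.filter_mono nhdsWithin_le_nhds
    have h3 : ∀ᶠ r in 𝓝[<] (1 : ℝ), 0 < r := by
      filter_upwards [nhdsWithin_le_nhds (lt_mem_nhds (zero_lt_one (α := ℝ)))] with r hr
      exact hr
    obtain ⟨r, ⟨hr, hr0⟩, hr1⟩ := ((h2.and h3).and self_mem_nhdsWithin).exists
    refine ⟨fun i => r • v i, fun i => ?_, hr⟩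
    have h4 : T (r • v i) = (r : ℂ) • T (v i) := by
      rw [← T.map_smul]
      congr 1
    rw [h4, norm_smul, Complex.norm_real, Real.norm_of_nonneg hr0.le]
    calc r * ‖T (v i)‖ ≤ r * 1 := by gcongr; exact hv i
      _ < 1 := by simpa using hr1
  · rintro ⟨v, hv, hc⟩
    exact hc.trans_le (le_iSup (fun u : {u : Fin k → Fin n → ℂ // ∀ i, ‖T (u i)‖ ≤ 1} =>
      ‖w u.1‖ₑ) ⟨v, fun i => (hv i).le⟩)

theorem isOpen_lt_nrm {O : Set (Fin n → ℂ)} (hO : IsOpen O)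
    {T : (Fin n → ℂ) → (Fin n → ℂ) →L[ℂ] Hil N} {w : L2P.Form n k} (hT : ContinuousOn T O)
    (hw : ContinuousOn w O) (c : ℝ≥0∞) : IsOpen {y | y ∈ O ∧ c < nrm (T y) (w y)} := by
  rw [isOpen_iff_mem_nhds]
  rintro y ⟨hy, hc⟩
  obtain ⟨v, hv, hc⟩ := lt_nrm_iff.1 hc
  have h1 : ∀ᶠ z in 𝓝 y, ∀ i, ‖T z (v i)‖ < 1 := by
    refine eventually_all.2 fun i => ?_
    have : ContinuousAt (fun z => ‖T z (v i)‖) y :=
      ((hT.continuousAt (hO.mem_nhds hy)).clm_apply continuousAt_const).norm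
    exact this.eventually (gt_mem_nhds (hv i))
  have h2 : ∀ᶠ z in 𝓝 y, c < ‖w z v‖ₑ := by
    have : ContinuousAt (fun z => w z v) y :=
      (continuous_eval_const v).continuousAt.comp (hw.continuousAt (hO.mem_nhds hy))
    exact this.enorm.eventually (lt_mem_nhds hc)
  filter_upwards [hO.mem_nhds hy, h1, h2] with z hz h1 h2
  exact ⟨hz, lt_nrm_iff.2 ⟨v, h1, h2⟩⟩

theorem aemeasurable_den {O : Set (Fin n → ℂ)} (hO : IsOpen O)
    {T : (Fin n → ℂ) → (Fin n → ℂ) →L[ℂ] Hil N} {w : L2P.Form n k} (hT : ContinuousOn T O)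
    (hw : ContinuousOn w O) : AEMeasurable (den T w) (volume.restrict O) := by
  have h1 : AEMeasurable (fun y => nrm (T y) (w y)) (volume.restrict O) := by
    rw [← aemeasurable_indicator_iff hO.measurableSet]
    refine Measurable.aemeasurable (measurable_of_Ioi fun c => ?_)
    convert (isOpen_lt_nrm hO hT hw c).measurableSet using 1
    ext y
    by_cases hy : y ∈ O
    · simp [hy]
    · simp [hy]
  have h2 : AEMeasurable (fun y => ‖gram (T y)‖ₑ) (volume.restrict O) := by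
    refine ContinuousOn.aemeasurable ?_ hO.measurableSet
    refine ContinuousOn.enorm ?_
    have hgram : ContinuousOn (fun y => Matrix.of fun i j : Fin n =>
        inner ℂ (T y (Pi.single i 1)) (T y (Pi.single j 1))) O := by
      refine continuousOn_pi.2 fun i => continuousOn_pi.2 fun j => ?_
      exact (hT.clm_apply continuousOn_const).inner (hT.clm_apply continuousOn_const)
    exact (Continuous.matrix_det continuous_id).comp_continuousOn hgram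
  exact (h1.pow_const 2).mul h2

/-! ### Algebra of `nrm` and `den` -/

theorem nrm_le {T : (Fin n → ℂ) →L[ℂ] Hil N} {w : (Fin n → ℂ) [⋀^Fin k]→L[ℝ] ℂ} {c : ℝ≥0∞}
    (h : ∀ v : Fin k → Fin n → ℂ, (∀ i, ‖T (v i)‖ ≤ 1) → ‖w v‖ₑ ≤ c) : nrm T w ≤ c :=
  iSup_le fun v => h v.1 v.2

theorem le_nrm {T : (Fin n → ℂ) →L[ℂ] Hil N} (w : (Fin n → ℂ) [⋀^Fin k]→L[ℝ] ℂ)
    {v : Fin k → Fin n → ℂ} (h : ∀ i, ‖T (v i)‖ ≤ 1) : ‖w v‖ₑ ≤ nrm T w :=
  le_iSup (fun u : {u : Fin k → Fin n → ℂ // ∀ i, ‖T (u i)‖ ≤ 1} => ‖w u.1‖ₑ) ⟨v, h⟩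

theorem nrm_add_le (T : (Fin n → ℂ) →L[ℂ] Hil N) (w w' : (Fin n → ℂ) [⋀^Fin k]→L[ℝ] ℂ) :
    nrm T (w + w') ≤ nrm T w + nrm T w' :=
  nrm_le fun v hv => (enorm_add_le _ _).trans (add_le_add (le_nrm w hv) (le_nrm w' hv))

theorem nrm_smul_le (T : (Fin n → ℂ) →L[ℂ] Hil N) (c : ℂ) (w : (Fin n → ℂ) [⋀^Fin k]→L[ℝ] ℂ) :
    nrm T (c • w) ≤ ‖c‖ₑ * nrm T w := by
  refine nrm_le fun v hv => ?_
  rw [ContinuousAlternatingMap.smul_apply, enorm_smul]
  gcongr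
  exact le_nrm w hv

theorem add_sq_le (a b : ℝ≥0∞) : (a + b) ^ 2 ≤ 4 * (a ^ 2 + b ^ 2) := by
  rcases le_total a b with h | h
  · calc (a + b) ^ 2 ≤ (b + b) ^ 2 := by gcongr
      _ = 4 * b ^ 2 := by ring
      _ ≤ 4 * (a ^ 2 + b ^ 2) := by gcongr; exact le_add_self
  · calc (a + b) ^ 2 ≤ (a + a) ^ 2 := by gcongr
      _ = 4 * a ^ 2 := by ring
      _ ≤ 4 * (a ^ 2 + b ^ 2) := by gcongr; exact le_self_add

theorem den_add_le (T : (Fin n → ℂ) → (Fin n → ℂ) →L[ℂ] Hil N) (w w' : L2P.Form n k)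
    (y : Fin n → ℂ) :
    nrm (T y) (w y + w' y) ^ 2 * ‖gram (T y)‖ₑ ≤ 4 * (den T w y + den T w' y) := by
  calc nrm (T y) (w y + w' y) ^ 2 * ‖gram (T y)‖ₑ
      ≤ (nrm (T y) (w y) + nrm (T y) (w' y)) ^ 2 * ‖gram (T y)‖ₑ := by
        gcongr; exact nrm_add_le _ _ _
    _ ≤ 4 * (nrm (T y) (w y) ^ 2 + nrm (T y) (w' y) ^ 2) * ‖gram (T y)‖ₑ := by
        gcongr; exact add_sq_le _ _
    _ = 4 * (den T w y + den T w' y) := by
        unfold den
        ring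

theorem den_cmp (h : S_FSQ) {N' : ℕ} {T : (Fin n → ℂ) →L[ℂ] Hil N}
    {T' : (Fin n → ℂ) →L[ℂ] Hil N'} {C : ℝ} (hC : 0 < C) (h1 : ∀ v, ‖T v‖ ≤ ‖T' v‖)
    (h2 : ∀ v, ‖T' v‖ ≤ C * ‖T v‖) (w : (Fin n → ℂ) [⋀^Fin k]→L[ℝ] ℂ) :
    nrm T' w ^ 2 * ‖gram T'‖ₑ ≤ ENNReal.ofReal C ^ (2 * n) * (nrm T w ^ 2 * ‖gram T‖ₑ) ∧
    nrm T w ^ 2 * ‖gram T‖ₑ ≤ ENNReal.ofReal C ^ (2 * k) * (nrm T' w ^ 2 * ‖gram T'‖ₑ) := by
  obtain ⟨a1, a2⟩ := h.1 n N N' k T T' 1 one_pos (by simpa using h1)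
  obtain ⟨b1, b2⟩ := h.1 n N' N k T' T C hC h2
  have a1' : nrm T' w ≤ nrm T w := by simpa using a1 w
  have a2' : ‖gram T‖ₑ ≤ ‖gram T'‖ₑ := by
    rw [← ofReal_norm, ← ofReal_norm]
    exact ENNReal.ofReal_le_ofReal (by simpa using a2)
  have b2' : ‖gram T'‖ₑ ≤ ENNReal.ofReal C ^ (2 * n) * ‖gram T‖ₑ := by
    rw [← ofReal_norm, ← ofReal_norm, ← ENNReal.ofReal_pow hC.le,
      ← ENNReal.ofReal_mul (by positivity)]
    exact ENNReal.ofReal_le_ofReal b2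
  constructor
  · calc nrm T' w ^ 2 * ‖gram T'‖ₑ ≤ nrm T w ^ 2 * (ENNReal.ofReal C ^ (2 * n) * ‖gram T‖ₑ) := by
          gcongr
      _ = _ := by ring
  · calc nrm T w ^ 2 * ‖gram T‖ₑ ≤ (ENNReal.ofReal C ^ k * nrm T' w) ^ 2 * ‖gram T'‖ₑ := by
          gcongr
          exact b1 w
      _ = _ := by ring

/-! ### Lifts -/

section lifts

variable {M : Type} [TopologicalSpace M] [ChartedSpace (Fin n → ℂ) M]

theorem mono {F : M → ℙ ℂ (Hil (N + 1))} {x : M} {U V : Set (Fin n → ℂ)}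
    {s : (Fin n → ℂ) → Hil (N + 1)} (h : IsLift F x U s) (hV : IsOpen V)
    (hx : chartAt (Fin n → ℂ) x x ∈ V) (hVU : V ⊆ U) : IsLift F x V s :=
  ⟨hV, hx, hVU.trans h.sub, h.hol.mono hVU, fun y hy => h.eq y (hVU hy)⟩

theorem aff_eq {F : M → ℙ ℂ (Hil (N + 1))} {x : M} {U U' : Set (Fin n → ℂ)}
    {s s' : (Fin n → ℂ) → Hil (N + 1)} (h : IsLift F x U s) (h' : IsLift F x U' s')
    {j : Fin (N + 1)} {y : Fin n → ℂ} (hy : y ∈ U) (hy' : y ∈ U') (hj : s y j ≠ 0) :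
    s' y j ≠ 0 ∧ (s' y j)⁻¹ • s' y = (s y j)⁻¹ • s y := by
  obtain ⟨h0, h1⟩ := h.eq y hy
  obtain ⟨h0', h1'⟩ := h'.eq y hy'
  rw [h1] at h1'
  obtain ⟨a, ha⟩ := (Projectivization.mk_eq_mk_iff' ℂ _ _ h0 h0').1 h1'
  have hj' : s y j = a * s' y j := by rw [← ha]; simp
  have ha0 : a ≠ 0 := fun h => hj (by rw [hj', h, zero_mul])
  have hs0 : s' y j ≠ 0 := fun h => hj (by rw [hj', h, mul_zero])
  refine ⟨hs0, ?_⟩
  rw [hj', ← ha, smul_smul]
  congr 1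
  field_simp

/-- The affine representative compared with any lift. -/
theorem cmp (hF : S_FSQ) {F : M → ℙ ℂ (Hil (N + 1))} {x : M} {U U' : Set (Fin n → ℂ)}
    {s s' : (Fin n → ℂ) → Hil (N + 1)} (h : IsLift F x U s) (h' : IsLift F x U' s')
    {j : Fin (N + 1)} (hj : ∀ y ∈ U, s y j ≠ 0) {y : Fin n → ℂ} (hy : y ∈ U) (hy' : y ∈ U')
    (v : Fin n → ℂ) :
    ‖fs s' y v‖ ≤ ‖fderiv ℂ (fun z => (s z j)⁻¹ • s z) y v‖ ∧
    ‖fderiv ℂ (fun z => (s z j)⁻¹ • s z) y v‖ ≤ ‖(s y j)⁻¹ • s y‖ ^ 2 * ‖fs s' y v‖ := by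
  have he : (fun z => (s' z j)⁻¹ • s' z) =ᶠ[𝓝 y] fun z => (s z j)⁻¹ • s z := by
    filter_upwards [h.isOpen.mem_nhds hy, h'.isOpen.mem_nhds hy'] with z hz hz'
    exact (aff_eq h h' hz hz' (hj z hz)).2
  have h1 := hF.2.2.2 n (N + 1) s' j y
    ((h'.hol y hy').differentiableAt (h'.isOpen.mem_nhds hy')) (aff_eq h h' hy hy' (hj y hy)).1 v
  rw [he.fderiv_eq, (aff_eq h h' hy hy' (hj y hy)).2] at h1
  exact h1

theorem aff_diff {F : M → ℙ ℂ (Hil (N + 1))} {x : M} {U : Set (Fin n → ℂ)}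
    {s : (Fin n → ℂ) → Hil (N + 1)} (h : IsLift F x U s)
    {j : Fin (N + 1)} (hj : ∀ y ∈ U, s y j ≠ 0) :
    DifferentiableOn ℂ (fun z => (s z j)⁻¹ • s z) U := by
  have h1 : DifferentiableOn ℂ (fun z => s z j) U := by
    have h2 : (fun z => s z j) = fun z => (EuclideanSpace.proj j : Hil (N + 1) →L[ℂ] ℂ) (s z) := rfl
    rw [h2]
    exact (EuclideanSpace.proj j : Hil (N + 1) →L[ℂ] ℂ).differentiable.comp_differentiableOn h.hol
  exact (h1.inv hj).smul h.hol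

theorem isOpen_diff {x : M} {A : Set M} (hA : IsClosed A) {V : Set (Fin n → ℂ)} (hV : IsOpen V)
    (hVt : V ⊆ (chartAt (Fin n → ℂ) x).target) :
    IsOpen (V \ (chartAt (Fin n → ℂ) x).symm ⁻¹' A) := by
  have h1 : ContinuousOn (chartAt (Fin n → ℂ) x).symm V :=
    (chartAt (Fin n → ℂ) x).continuousOn_symm.mono hVt
  have h2 := h1.isOpen_inter_preimage hV hA.isOpen_compl
  exact h2

end lifts

/-! ### The facts -/

section main

variable {M : Type} [TopologicalSpace M] [ChartedSpace (Fin n → ℂ) M]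
  {F : M → ℙ ℂ (Hil (N + 1))} {A : Set M}

theorem exists_aff (hl : ∀ x, ∃ U s, IsLift (n := n) F x U s) (x : M) (O : Set (Fin n → ℂ))
    (hO : O ∈ 𝓝 (chartAt (Fin n → ℂ) x x)) : ∃ U ⊆ O, ∃ G, IsAff (n := n) F x U G := by
  obtain ⟨U, s, h⟩ := hl x
  obtain ⟨h0, -⟩ := h.eq _ h.mem
  obtain ⟨j, hj⟩ : ∃ j, s (chartAt (Fin n → ℂ) x x) j ≠ 0 := by
    by_contra hcon
    push Not at hcon
    refine h0 ?_
    ext j
    simpa using hcon j
  have hc : ContinuousOn (fun z => s z j) U := by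
    have h2 : (fun z => s z j) = fun z => (EuclideanSpace.proj j : Hil (N + 1) →L[ℂ] ℂ) (s z) := rfl
    rw [h2]
    exact (EuclideanSpace.proj j : Hil (N + 1) →L[ℂ] ℂ).continuous.comp_continuousOn
      h.hol.continuousOn
  have hop : IsOpen (U ∩ (fun z => s z j) ⁻¹' {0}ᶜ) :=
    hc.isOpen_inter_preimage h.isOpen isOpen_compl_singleton
  refine ⟨(U ∩ (fun z => s z j) ⁻¹' {0}ᶜ) ∩ interior O,
    inter_subset_right.trans interior_subset, _, s, j, mono h (hop.inter isOpen_interior)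
      ⟨⟨h.mem, hj⟩, mem_interior_iff_mem_nhds.2 hO⟩ (inter_subset_left.trans inter_subset_left),
      fun y hy => hy.1.2, rfl⟩

theorem iff_aff (hF : S_FSQ) (hA : IsClosed A) (w : MForm M n k) (x : M) (U : Set (Fin n → ℂ))
    (G : (Fin n → ℂ) → Hil (N + 1)) (hG : IsAff F x U G) :
    L2Near F A w x ↔ ∃ V ⊆ U, IsOpen V ∧ chartAt (Fin n → ℂ) x x ∈ V ∧
      ∫⁻ y in V \ (chartAt (Fin n → ℂ) x).symm ⁻¹' A, den (fderiv ℂ G) (rep x w) y < ⊤ := by
  obtain ⟨s, j, h, hj, rfl⟩ := hG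
  set G : (Fin n → ℂ) → Hil (N + 1) := fun y => (s y j)⁻¹ • s y with hGdef
  set p := chartAt (Fin n → ℂ) x x with hp
  set C : ℝ := ‖G p‖ ^ 2 + 1 with hC
  have hC0 : 0 < C := by positivity
  have hGc : ContinuousOn G U := (aff_diff h hj).continuousOn
  have hop : ∀ V ⊆ U, IsOpen V → IsOpen (V ∩ (fun y => ‖G y‖ ^ 2) ⁻¹' Iio C) := fun V hVU hV =>
    (((hGc.mono hVU).norm.pow 2).isOpen_inter_preimage hV isOpen_Iio)
  constructor
  · rintro ⟨U', s', h', hfin⟩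
    have hV0 : IsOpen ((U ∩ U') ∩ (fun y => ‖G y‖ ^ 2) ⁻¹' Iio C) :=
      hop _ inter_subset_left (h.isOpen.inter h'.isOpen)
    refine ⟨(U ∩ U') ∩ (fun y => ‖G y‖ ^ 2) ⁻¹' Iio C, inter_subset_left.trans inter_subset_left,
      hV0, ⟨⟨h.mem, h'.mem⟩, by simp [hC, hp]⟩, ?_⟩
    refine lt_of_le_of_lt (setLIntegral_mono' (g := fun y => ENNReal.ofReal C ^ (2 * n) *
      (nrm (fs s' y) (rep x w y) ^ 2 * ‖gram (fs s' y)‖ₑ))
      (isOpen_diff hA hV0 (fun y hy => h.sub hy.1.1)).measurableSet ?_) ?_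
    · rintro y ⟨⟨⟨hy, hy'⟩, hyC⟩, -⟩
      refine (den_cmp hF hC0 (fun v => (cmp hF h h' hj hy hy' v).1) (fun v => ?_) _).1
      refine (cmp hF h h' hj hy hy' v).2.trans ?_
      have : ‖(s y j)⁻¹ • s y‖ ^ 2 ≤ C := le_of_lt hyC
      gcongr
    · rw [lintegral_const_mul' _ _ (by finiteness)]
      refine ENNReal.mul_lt_top (by finiteness) (lt_of_le_of_lt (lintegral_mono_set ?_) hfin)
      rintro y ⟨⟨⟨-, hy'⟩, -⟩, hyA⟩
      exact ⟨hy', hyA⟩
  · rintro ⟨V, hVU, hV, hpV, hfin⟩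
    have hV0 : IsOpen (V ∩ (fun y => ‖G y‖ ^ 2) ⁻¹' Iio C) := hop _ hVU hV
    have hl : IsLift F x (V ∩ (fun y => ‖G y‖ ^ 2) ⁻¹' Iio C) s :=
      mono h hV0 ⟨hpV, by simp [hC, hp]⟩ (inter_subset_left.trans hVU)
    refine ⟨_, s, hl, ?_⟩
    refine lt_of_le_of_lt (setLIntegral_mono' (g := fun y => ENNReal.ofReal C ^ (2 * k) *
      den (fderiv ℂ G) (rep x w) y)
      (isOpen_diff hA hV0 (fun y hy => h.sub (hVU hy.1))).measurableSet ?_) ?_
    · rintro y ⟨⟨hy, hyC⟩, -⟩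
      refine (den_cmp hF hC0 (fun v => (cmp hF h h hj (hVU hy) (hVU hy) v).1) (fun v => ?_) _).2
      refine (cmp hF h h hj (hVU hy) (hVU hy) v).2.trans ?_
      have : ‖(s y j)⁻¹ • s y‖ ^ 2 ≤ C := le_of_lt hyC
      gcongr
    · rw [lintegral_const_mul' _ _ (by finiteness)]
      refine ENNReal.mul_lt_top (by finiteness) (lt_of_le_of_lt (lintegral_mono_set ?_) hfin)
      rintro y ⟨⟨hy, -⟩, hyA⟩
      exact ⟨hy, hyA⟩

theorem near [IsManifold 𝓘(ℂ, Fin n → ℂ) 1 M] (hM : S_MF) (hF : S_FSQ) (hT : S_TR)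
    (hA : IsClosed A) (w : MForm M n k) (x : M) (U : Set (Fin n → ℂ))
    (G : (Fin n → ℂ) → Hil (N + 1)) (hG : IsAff F x U G)
    (hfin : ∫⁻ y in U \ (chartAt (Fin n → ℂ) x).symm ⁻¹' A, den (fderiv ℂ G) (rep x w) y < ⊤)
    (y : Fin n → ℂ) (hy : y ∈ U) : L2Near F A w ((chartAt (Fin n → ℂ) x).symm y) := by
  obtain ⟨s, j, h, hj, rfl⟩ := hG
  set G : (Fin n → ℂ) → Hil (N + 1) := fun y => (s y j)⁻¹ • s y with hGdef
  set x' := (chartAt (Fin n → ℂ) x).symm y with hx'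
  have hx'x : x' ∈ (chartAt (Fin n → ℂ) x).source := (chartAt (Fin n → ℂ) x).map_target (h.sub hy)
  have hxy : chartAt (Fin n → ℂ) x x' = y := (chartAt (Fin n → ℂ) x).right_inv (h.sub hy)
  set t := tr (n := n) x x' with ht
  have hMf := hM M n
  have htc : ContinuousOn t t.source := t.continuousOn
  have hback : (chartAt (Fin n → ℂ) x').symm (chartAt (Fin n → ℂ) x' x') = x' :=
    (chartAt (Fin n → ℂ) x').left_inv (mem_chart_source _ _)
  have hts : ∀ z ∈ t.source, z ∈ (chartAt (Fin n → ℂ) x').target ∧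
      (chartAt (Fin n → ℂ) x').symm z ∈ (chartAt (Fin n → ℂ) x).source := by
    intro z hz
    rw [ht, tr, OpenPartialHomeomorph.trans_source] at hz
    exact hz
  have htz : ∀ z ∈ t.source, (chartAt (Fin n → ℂ) x).symm (t z) =
      (chartAt (Fin n → ℂ) x').symm z := fun z hz =>
    (chartAt (Fin n → ℂ) x).left_inv (hts z hz).2
  have hU' : IsOpen (t.source ∩ t ⁻¹' U) := htc.isOpen_inter_preimage t.open_source h.isOpen
  have hp' : chartAt (Fin n → ℂ) x' x' ∈ t.source ∩ t ⁻¹' U := by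
    constructor
    · rw [ht, tr, OpenPartialHomeomorph.trans_source]
      refine ⟨(chartAt (Fin n → ℂ) x').map_source (mem_chart_source _ _), ?_⟩
      rw [mem_preimage, hback]
      exact hx'x
    · change chartAt (Fin n → ℂ) x ((chartAt (Fin n → ℂ) x').symm (chartAt (Fin n → ℂ) x' x')) ∈ U
      rw [hback, hxy]
      exact hy
  have hlift : IsLift F x' (t.source ∩ t ⁻¹' U) (s ∘ t) := by
    refine ⟨hU', hp', fun z hz => (hts z hz.1).1, ?_, ?_⟩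
    · exact h.hol.comp ((hMf.hol x x').mono inter_subset_left) (fun z hz => hz.2)
    · intro z hz
      obtain ⟨h0, h1⟩ := h.eq (t z) hz.2
      refine ⟨h0, ?_⟩
      rw [← htz z hz.1]
      exact h1
  have haff : IsAff F x' (t.source ∩ t ⁻¹' U) (G ∘ t) :=
    ⟨s ∘ t, j, hlift, fun z hz => hj _ hz.2, rfl⟩
  rw [iff_aff hF hA w x' _ _ haff]
  obtain ⟨r, hr, hball⟩ := Metric.isOpen_iff.1 hU' _ hp'
  set K := Metric.closedBall (chartAt (Fin n → ℂ) x' x') (r / 2) with hK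
  have hKU : K ⊆ t.source ∩ t ⁻¹' U :=
    (Metric.closedBall_subset_ball (by linarith)).trans hball
  set V := Metric.ball (chartAt (Fin n → ℂ) x' x') (r / 2) with hV
  have hVK : V ⊆ K := Metric.ball_subset_closedBall
  refine ⟨V, hVK.trans hKU, Metric.isOpen_ball, Metric.mem_ball_self (by linarith), ?_⟩
  have hsymm : t.symm = tr (n := n) x' x := by
    rw [ht, tr, tr, OpenPartialHomeomorph.trans_symm_eq_symm_trans_symm,
      OpenPartialHomeomorph.symm_symm]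
  obtain ⟨C, hC, hTR⟩ := hT n (N + 1) k t K (hMf.hol x x')
    (by
      have := hMf.hol x' x
      rw [← hsymm] at this
      exact this) (isCompact_closedBall _ _) (hKU.trans inter_subset_left)
  have hmeas : MeasurableSet (V \ (chartAt (Fin n → ℂ) x').symm ⁻¹' A) :=
    (isOpen_diff hA Metric.isOpen_ball
      (fun z hz => (hts z (hKU (hVK hz)).1).1)).measurableSet
  have hle := hTR (fderiv ℂ G) (rep x w) (V \ (chartAt (Fin n → ℂ) x').symm ⁻¹' A) hmeas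
    (sdiff_subset.trans hVK)
  refine lt_of_le_of_lt ?_ (lt_of_le_of_lt hle ?_)
  · refine setLIntegral_mono' hmeas fun z hz => ?_
    have hz1 := hKU (hVK hz.1)
    have h1 : rep x' w z = pull t (rep x w) z := hMf.rep_tr k w x x' z hz1.1
    have h2 : fderiv ℂ (G ∘ t) z = (fderiv ℂ G (t z)).comp (fderiv ℂ t z) := by
      refine fderiv_comp z ?_ ?_
      · exact (aff_diff h hj (t z) hz1.2).differentiableAt (h.isOpen.mem_nhds hz1.2)
      · exact (hMf.hol x x' z hz1.1).differentiableAt (t.open_source.mem_nhds hz1.1)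
    unfold den
    rw [h1, h2]
  · refine ENNReal.mul_lt_top (by finiteness) (lt_of_le_of_lt (lintegral_mono_set ?_) hfin)
    rintro _ ⟨z, hz, rfl⟩
    refine ⟨(hKU (hVK hz.1)).2, ?_⟩
    rw [mem_preimage, htz z (hKU (hVK hz.1)).1]
    exact hz.2

theorem rep_add (x : M) (w w' : MForm M n k) (y : Fin n → ℂ) :
    rep x (w + w') y = rep x w y + rep x w' y := rfl

theorem rep_smul (x : M) (c : ℂ) (w : MForm M n k) (y : Fin n → ℂ) :
    rep x (c • w) y = c • rep x w y := rfl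

theorem eventually_chart {x : M} {P : M → Prop} (h : ∀ᶠ y in 𝓝 x, P y) :
    ∃ O : Set (Fin n → ℂ), IsOpen O ∧ chartAt (Fin n → ℂ) x x ∈ O ∧
      O ⊆ (chartAt (Fin n → ℂ) x).target ∧ ∀ y ∈ O, P ((chartAt (Fin n → ℂ) x).symm y) := by
  obtain ⟨Q, hQP, hQ, hxQ⟩ := eventually_nhds_iff.1 h
  refine ⟨(chartAt (Fin n → ℂ) x).target ∩ (chartAt (Fin n → ℂ) x).symm ⁻¹' Q,
    (chartAt (Fin n → ℂ) x).continuousOn_symm.isOpen_inter_preimage
      (chartAt (Fin n → ℂ) x).open_target hQ,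
    ⟨mem_chart_target _ _, ?_⟩, inter_subset_left, fun y hy => hQP _ hy.2⟩
  rw [mem_preimage, (chartAt (Fin n → ℂ) x).left_inv (mem_chart_source _ _)]
  exact hxQ

theorem continuousOn_fderiv {U : Set (Fin n → ℂ)} (hU : IsOpen U)
    {G : (Fin n → ℂ) → Hil N} (hG : DifferentiableOn ℂ G U) : ContinuousOn (fderiv ℂ G) U := by
  intro y hy
  exact ((SCV.contDiffAt_of_differentiableOn hU hG hy
    (n := 1)).continuousAt_fderiv (by simp)).continuousWithinAt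

theorem add [IsManifold 𝓘(ℂ, Fin n → ℂ) 1 M] (hM : S_MF) (hF : S_FSQ)
    (hl : ∀ x, ∃ U s, IsLift (n := n) F x U s) (hA : IsClosed A) (w w' : MForm M n k) (x : M)
    (hsm : ∀ᶠ y in 𝓝 x, y ∉ A → SmoothAt w y) (hw : L2Near F A w x) (hw' : L2Near F A w' x) :
    L2Near F A (w + w') x := by
  obtain ⟨U, -, G, hG⟩ := exists_aff hl x univ univ_mem
  obtain ⟨V, hVU, hV, hpV, h1⟩ := (iff_aff hF hA w x U G hG).1 hw
  obtain ⟨V', hVU', hV', hpV', h2⟩ := (iff_aff hF hA w' x U G hG).1 hw'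
  obtain ⟨O, hO, hpO, hOt, hOs⟩ := eventually_chart (n := n) hsm
  refine (iff_aff hF hA (w + w') x U G hG).2 ⟨V ∩ V' ∩ O, (inter_subset_left.trans
    inter_subset_left).trans hVU, (hV.inter hV').inter hO, ⟨⟨hpV, hpV'⟩, hpO⟩, ?_⟩
  have hD : IsOpen ((V ∩ V' ∩ O) \ (chartAt (Fin n → ℂ) x).symm ⁻¹' A) :=
    isOpen_diff hA ((hV.inter hV').inter hO) (inter_subset_right.trans hOt)
  have hGd : DifferentiableOn ℂ G U := by
    obtain ⟨s, j, h, hj, rfl⟩ := hG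
    exact aff_diff h hj
  have hUo : IsOpen U := by
    obtain ⟨s, j, h, hj, rfl⟩ := hG
    exact h.isOpen
  have hT : ContinuousOn (fderiv ℂ G) ((V ∩ V' ∩ O) \ (chartAt (Fin n → ℂ) x).symm ⁻¹' A) :=
    (continuousOn_fderiv hUo hGd).mono fun y hy => hVU hy.1.1.1
  have hc : ContinuousOn (rep x w) ((V ∩ V' ∩ O) \ (chartAt (Fin n → ℂ) x).symm ⁻¹' A) := by
    rintro y ⟨⟨-, hyO⟩, hyA⟩
    have hs := hOs y hyO hyA
    have hy' : (chartAt (Fin n → ℂ) x).symm y ∈ (chartAt (Fin n → ℂ) x).source :=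
      (chartAt (Fin n → ℂ) x).map_target (hOt hyO)
    have := ((hM M n).smooth_iff k w x _ hy').1 hs
    rw [(chartAt (Fin n → ℂ) x).right_inv (hOt hyO)] at this
    exact this.continuousAt.continuousWithinAt
  refine lt_of_le_of_lt (setLIntegral_mono' (g := fun y => 4 * (den (fderiv ℂ G) (rep x w) y +
    den (fderiv ℂ G) (rep x w') y)) hD.measurableSet fun y _ => ?_) ?_
  · exact den_add_le (fderiv ℂ G) (rep x w) (rep x w') y
  · rw [lintegral_const_mul' _ _ (by finiteness), lintegral_add_left' (aemeasurable_den hD hT hc)]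
    refine ENNReal.mul_lt_top (by finiteness) (ENNReal.add_lt_top.2 ⟨?_, ?_⟩)
    · refine lt_of_le_of_lt (lintegral_mono_set ?_) h1
      rintro y ⟨⟨⟨hy, -⟩, -⟩, hyA⟩
      exact ⟨hy, hyA⟩
    · refine lt_of_le_of_lt (lintegral_mono_set ?_) h2
      rintro y ⟨⟨⟨-, hy⟩, -⟩, hyA⟩
      exact ⟨hy, hyA⟩

theorem smul (hA : IsClosed A) (c : ℂ) (w : MForm M n k) (x : M) (hw : L2Near F A w x) :
    L2Near F A (c • w) x := by
  obtain ⟨U, s, h, hfin⟩ := hw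
  refine ⟨U, s, h, ?_⟩
  refine lt_of_le_of_lt (setLIntegral_mono' (g := fun y => ‖c‖ₑ ^ 2 *
    (nrm (fs s y) (rep x w y) ^ 2 * ‖gram (fs s y)‖ₑ))
    (isOpen_diff hA h.isOpen h.sub).measurableSet fun y _ => ?_) ?_
  · rw [rep_smul]
    calc nrm (fs s y) (c • rep x w y) ^ 2 * ‖gram (fs s y)‖ₑ
        ≤ (‖c‖ₑ * nrm (fs s y) (rep x w y)) ^ 2 * ‖gram (fs s y)‖ₑ := by
          gcongr; exact nrm_smul_le _ _ _
      _ = _ := by ring
  · rw [lintegral_const_mul' _ _ (by finiteness)]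
    exact ENNReal.mul_lt_top (by finiteness) hfin

theorem congr (hA : IsClosed A) (w w' : MForm M n k) (x : M)
    (heq : ∀ᶠ y in 𝓝 x, y ∉ A → w y = w' y) (hw : L2Near F A w x) : L2Near F A w' x := by
  obtain ⟨U, s, h, hfin⟩ := hw
  obtain ⟨O, hO, hpO, hOt, hOs⟩ := eventually_chart (n := n) heq
  refine ⟨U ∩ O, s, mono h (h.isOpen.inter hO) ⟨h.mem, hpO⟩ inter_subset_left, ?_⟩
  refine lt_of_le_of_lt (setLIntegral_mono' (g := fun y =>
    nrm (fs s y) (rep x w y) ^ 2 * ‖gram (fs s y)‖ₑ)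
    (isOpen_diff hA (h.isOpen.inter hO) (inter_subset_right.trans hOt)).measurableSet
      fun y hy => ?_) ?_
  · have h1 : rep x w y = rep x w' y := by
      unfold rep
      rw [hOs y hy.1.2 hy.2]
    rw [h1]
  · refine lt_of_le_of_lt (lintegral_mono_set ?_) hfin
    rintro y ⟨⟨hy, -⟩, hyA⟩
    exact ⟨hy, hyA⟩

end main

end Chg

/-- CHG: square integrability near points of `M`. -/
theorem chg (hM : S_MF) (hF : S_FSQ) (hT : S_TR) : S_CHG := by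
  intro M _ n N _ _ F A hl hA
  exact ⟨Chg.exists_aff hl, fun k => Chg.iff_aff hF hA, fun k => Chg.near hM hF hT hA,
    fun k => Chg.add hM hF hl hA, fun k => Chg.smul hA, fun k => Chg.congr hA⟩

end L2M
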