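import Mathlib

/-!
# MP_ead3fc_ag, global theorem: gluing of local exactness for complexes of fine sheaves
-/

set_option autoImplicit false

open Set Filter Topology

namespace L2M

/-- A complex of groups of global objects with local notions of being nice at `x` and of vanishing near `x`. -/
structure Fine (M V : Type) [TopologicalSpace M] [TopologicalSpace V] (Q : M → V) where
  G : ℕ → Type
  grp : ∀ k, AddCommGroup (G k)
  D : ∀ k, G k → G (k + 1)
  Sec : ∀ k, M → AddSubgroup (G k)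
  Van : ∀ k, M → AddSubgroup (G k)
  sec_open : ∀ k x c, c ∈ Sec k x → ∀ᶠ y in 𝓝 x, c ∈ Sec k y
  van_open : ∀ k x c, c ∈ Van k x → ∀ᶠ y in 𝓝 x, c ∈ Van k y
  van_sec : ∀ k x, Van k x ≤ Sec k x
  D_add : ∀ k x c c', c ∈ Sec k x → c' ∈ Sec k x → D k (c + c') - (D k c + D k c') ∈ Van (k + 1) x
  D_sec : ∀ k x c, c ∈ Sec k x → D k c ∈ Sec (k + 1) x
  D_van : ∀ k x c, c ∈ Van k x → D k c ∈ Van (k + 1) x
  D_D : ∀ k x c, c ∈ Sec k x → D (k + 1) (D k c) ∈ Van (k + 2) x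
  cut : ∀ k (K O : Set V) (c : G k), IsCompact K → IsOpen O → K ⊆ O →
    (∀ x, Q x ∈ O → c ∈ Sec k x) →
    ∃ c' : G k, (∀ x, c' ∈ Sec k x) ∧ ∀ x, Q x ∈ K → c' - c ∈ Van k x
  glue : ∀ k (W W' : Set M) (c c' : G k), IsOpen W → IsOpen W' →
    (∀ x ∈ W ∩ W', c - c' ∈ Van k x) →
    ∃ c'' : G k, (∀ x ∈ W, c'' - c ∈ Van k x) ∧ ∀ x ∈ W', c'' - c' ∈ Van k x
  exact : ∀ k x c, c ∈ Sec (k + 1) x → D (k + 1) c ∈ Van (k + 2) x →
    ∃ b, b ∈ Sec k x ∧ D k b - c ∈ Van (k + 1) x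
  exact0 : ∀ x c, c ∈ Sec 0 x → D 0 c ∈ Van 1 x → c ∈ Van 0 x
  fin : ∀ v, (Q ⁻¹' {v}).Finite

attribute [instance] Fine.grp

namespace Fine

variable {M V : Type} [TopologicalSpace M] [TopologicalSpace V] {Q : M → V} (S : Fine M V Q)

theorem van_add {k : ℕ} {x : M} {a b : S.G k} (ha : a ∈ S.Van k x) (hb : b ∈ S.Van k x) :
    a + b ∈ S.Van k x := (S.Van k x).add_mem ha hb

/-- The set where `b` is a primitive of `c`. -/
def Good {k : ℕ} (c : S.G (k + 1)) (b : S.G k) : Set M :=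
  {x | b ∈ S.Sec k x ∧ S.D k b - c ∈ S.Van (k + 1) x}

theorem isOpen_good {k : ℕ} (c : S.G (k + 1)) (b : S.G k) : IsOpen (S.Good c b) := by
  rw [isOpen_iff_mem_nhds]
  rintro x ⟨h1, h2⟩
  filter_upwards [S.sec_open k x b h1, S.van_open (k + 1) x _ h2] with y h3 h4
  exact ⟨h3, h4⟩

theorem isOpen_van {k : ℕ} (c : S.G k) : IsOpen {x | c ∈ S.Van k x} := by
  rw [isOpen_iff_mem_nhds]
  intro x h
  exact S.van_open k x c h

theorem isOpen_sec {k : ℕ} (c : S.G k) : IsOpen {x | c ∈ S.Sec k x} := by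
  rw [isOpen_iff_mem_nhds]
  intro x h
  exact S.sec_open k x c h

/-- `D` respects equality near `x`. -/
theorem D_congr {k : ℕ} {x : M} {b b' : S.G k} (hb : b ∈ S.Sec k x) (h : b' - b ∈ S.Van k x) :
    S.D k b' - S.D k b ∈ S.Van (k + 1) x := by
  have h1 := S.D_add k x b (b' - b) hb (S.van_sec k x h)
  have h2 := S.D_van k x _ h
  rw [add_sub_cancel] at h1
  have h3 := S.van_add h1 h2
  have h4 : S.D k b' - (S.D k b + S.D k (b' - b)) + S.D k (b' - b) = S.D k b' - S.D k b := by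
    abel
  rwa [h4] at h3

theorem sec_congr {k : ℕ} {x : M} {b b' : S.G k} (hb : b ∈ S.Sec k x)
    (h : b' - b ∈ S.Van k x) : b' ∈ S.Sec k x := by
  have h1 := (S.Sec k x).add_mem hb (S.van_sec k x h)
  rwa [add_sub_cancel] at h1

theorem good_congr {k : ℕ} {x : M} {c : S.G (k + 1)} {b b' : S.G k} (hb : x ∈ S.Good c b)
    (h : b' - b ∈ S.Van k x) : x ∈ S.Good c b' := by
  refine ⟨S.sec_congr hb.1 h, ?_⟩
  have h1 := S.van_add (S.D_congr hb.1 h) hb.2
  rwa [sub_add_sub_cancel] at h1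

theorem D_sub {k : ℕ} {x : M} {b b' : S.G k} (hb : b ∈ S.Sec k x) (hb' : b' ∈ S.Sec k x) :
    S.D k (b - b') - (S.D k b - S.D k b') ∈ S.Van (k + 1) x := by
  have h1 := S.D_add k x (b - b') b' ((S.Sec k x).sub_mem hb hb') hb'
  rw [sub_add_cancel] at h1
  have h2 := (S.Van (k + 1) x).neg_mem h1
  have h3 : -(S.D k b - (S.D k (b - b') + S.D k b')) = S.D k (b - b') - (S.D k b - S.D k b') := by
    abel
  rwa [h3] at h2

/-- Exactness near a finite set of points. -/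
theorem exact_finite [T2Space M] {k : ℕ} (c : S.G (k + 1)) {F : Set M} (hF : F.Finite)
    (h1 : ∀ x ∈ F, c ∈ S.Sec (k + 1) x) (h2 : ∀ x ∈ F, S.D (k + 1) c ∈ S.Van (k + 2) x) :
    ∃ b, F ⊆ S.Good c b := by
  induction F, hF using Set.Finite.induction_on with
  | empty => exact ⟨0, empty_subset _⟩
  | @insert a F ha hF ih =>
    obtain ⟨b, hb⟩ := ih (fun x hx => h1 x (mem_insert_of_mem _ hx))
      fun x hx => h2 x (mem_insert_of_mem _ hx)
    obtain ⟨b', hb'⟩ := S.exact k a c (h1 a (mem_insert _ _)) (h2 a (mem_insert _ _))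
    obtain ⟨U, U', hU, hU', haU, hFU', hd⟩ := SeparatedNhds.of_isCompact_isCompact
      (isCompact_singleton (x := a)) hF.isCompact (disjoint_singleton_left.2 ha)
    obtain ⟨b'', h3, h4⟩ := S.glue k U U' b' b hU hU' fun x hx =>
      absurd hx (by rw [hd.inter_eq]; exact notMem_empty x)
    refine ⟨b'', ?_⟩
    rintro x (rfl | hx)
    · exact S.good_congr hb' (h3 x (haU rfl))
    · exact S.good_congr (hb hx) (h4 x (hFU' hx))

section compact

variable [T2Space M] [CompactSpace M] [T2Space V]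

omit [T2Space M] in
/-- An open neighbourhood of `Q⁻¹ K` contains `Q⁻¹ O` for an open neighbourhood `O` of `K`. -/
theorem exists_open (hQ : Continuous Q) {K : Set V} {W : Set M} (hW : IsOpen W)
    (h : Q ⁻¹' K ⊆ W) : ∃ O, IsOpen O ∧ K ⊆ O ∧ Q ⁻¹' O ⊆ W := by
  refine ⟨(Q '' Wᶜ)ᶜ, ?_, ?_, ?_⟩
  · exact (hW.isClosed_compl.isCompact.image hQ).isClosed.isOpen_compl
  · rintro v hv ⟨x, hx, rfl⟩
    exact hx (h hv)
  · intro x hx
    by_contra hxW
    exact hx ⟨x, hxW, rfl⟩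

omit [T2Space V] in
/-- Gluing two primitives which agree near the intersection. -/
theorem glue_good {k : ℕ} {c : S.G (k + 1)} {b b' : S.G k} {C C' : Set M}
    (hC : IsClosed C) (hC' : IsClosed C') (h : C ⊆ S.Good c b) (h' : C' ⊆ S.Good c b')
    (hbb : ∀ x ∈ C ∩ C', b - b' ∈ S.Van k x) : ∃ b'', C ∪ C' ⊆ S.Good c b'' := by
  set Z : Set M := {x | b - b' ∈ S.Van k x} with hZ
  have hZo : IsOpen Z := S.isOpen_van _
  have hd : Disjoint (C \ Z) (C' \ Z) := by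
    rw [Set.disjoint_left]
    rintro x ⟨h1, h2⟩ ⟨h3, -⟩
    exact h2 (hbb x ⟨h1, h3⟩)
  obtain ⟨U1, U2, hU1, hU2, h1, h2, hU12⟩ :=
    normal_separation (hC.sdiff hZo) (hC'.sdiff hZo) hd
  obtain ⟨b'', h3, h4⟩ := S.glue k (Z ∪ U1) (Z ∪ U2) b b' (hZo.union hU1) (hZo.union hU2)
    (by
      rintro x ⟨hx1 | hx1, hx2 | hx2⟩
      · exact hx1
      · exact hx1
      · exact hx2
      · exact absurd hx2 (Set.disjoint_left.1 hU12 hx1))
  refine ⟨b'', ?_⟩
  rintro x (hx | hx)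
  · refine S.good_congr (h hx) (h3 x ?_)
    by_cases hxZ : x ∈ Z
    · exact Or.inl hxZ
    · exact Or.inr (h1 ⟨hx, hxZ⟩)
  · refine S.good_congr (h' hx) (h4 x ?_)
    by_cases hxZ : x ∈ Z
    · exact Or.inl hxZ
    · exact Or.inr (h2 ⟨hx, hxZ⟩)

/-- The union step. -/
theorem union_step (hQ : Continuous Q) {k : ℕ} {c : S.G (k + 1)} {b b' : S.G k} {L L' : Set V}
    (hL : IsClosed L) (hL' : IsClosed L') (hLc : IsCompact L)
    (ih : ∀ e : S.G k, (∀ x ∈ Q ⁻¹' (L ∩ L'), e ∈ S.Sec k x) →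
      (∀ x ∈ Q ⁻¹' (L ∩ L'), S.D k e ∈ S.Van (k + 1) x) →
      ∃ e', (∀ x, e' ∈ S.Sec k x ∧ S.D k e' ∈ S.Van (k + 1) x) ∧
        ∀ x ∈ Q ⁻¹' (L ∩ L'), e' - e ∈ S.Van k x)
    (h : Q ⁻¹' L ⊆ S.Good c b) (h' : Q ⁻¹' L' ⊆ S.Good c b') :
    ∃ b'', Q ⁻¹' (L ∪ L') ⊆ S.Good c b'' := by
  have _ := hLc
  obtain ⟨e', he1, he2⟩ := ih (b - b')
    (fun x hx => (S.Sec k x).sub_mem (h hx.1).1 (h' hx.2).1)
    (fun x hx => by
      have h1 := S.D_sub (h hx.1).1 (h' hx.2).1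
      have h2 := (S.Van (k + 1) x).sub_mem (h hx.1).2 (h' hx.2).2
      have h3 := S.van_add h1 h2
      have h4 : S.D k (b - b') - (S.D k b - S.D k b') + (S.D k b - c - (S.D k b' - c)) =
          S.D k (b - b') := by abel
      rwa [h4] at h3)
  refine S.glue_good (b := b) (b' := b' + e') (hL.preimage hQ) (hL'.preimage hQ) h ?_ ?_
  · intro x hx
    refine ⟨(S.Sec k x).add_mem (h' hx).1 (he1 x).1, ?_⟩
    have h1 := S.D_add k x b' e' (h' hx).1 (he1 x).1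
    have h2 := S.van_add (S.van_add h1 (h' hx).2) (he1 x).2
    have h3 : S.D k (b' + e') - (S.D k b' + S.D k e') + (S.D k b' - c) + S.D k e' =
        S.D k (b' + e') - c := by abel
    rwa [h3] at h2
  · rintro x hx
    have h1 := (S.Van k x).neg_mem (he2 x hx)
    have h2 : -(e' - (b - b')) = b - (b' + e') := by abel
    rwa [h2] at h1

/-- Extension of closed elements, up to equality near a compact set. -/
def Ext (k : ℕ) : Prop :=
  ∀ (K : Set V) (e : S.G k), IsCompact K → (∀ x ∈ Q ⁻¹' K, e ∈ S.Sec k x) →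
    (∀ x ∈ Q ⁻¹' K, S.D k e ∈ S.Van (k + 1) x) →
    ∃ e', (∀ x, e' ∈ S.Sec k x ∧ S.D k e' ∈ S.Van (k + 1) x) ∧
      ∀ x ∈ Q ⁻¹' K, e' - e ∈ S.Van k x

omit [T2Space M] [CompactSpace M] [T2Space V] in
theorem ext_zero : S.Ext 0 := by
  intro K e _ h1 h2
  refine ⟨0, fun x => ⟨(S.Sec 0 x).zero_mem, S.D_van 0 x 0 (S.Van 0 x).zero_mem⟩, fun x hx => ?_⟩
  rw [zero_sub]
  exact (S.Van 0 x).neg_mem (S.exact0 x e (h1 x hx) (h2 x hx))

/-- Exactness near the preimages of compact sets, from the extension property. -/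
theorem exact_of_ext [RegularSpace V] (hQ : Continuous Q) {k : ℕ} (hE : S.Ext k)
    (c : S.G (k + 1)) (K : Set V) (hK : IsCompact K)
    (h1 : ∀ x ∈ Q ⁻¹' K, c ∈ S.Sec (k + 1) x)
    (h2 : ∀ x ∈ Q ⁻¹' K, S.D (k + 1) c ∈ S.Van (k + 2) x) : ∃ b, Q ⁻¹' K ⊆ S.Good c b := by
  have key : ∃ b, Q ⁻¹' (closure (K ∩ K)) ⊆ S.Good c b := by
    refine hK.induction_on (p := fun s => ∃ b, Q ⁻¹' closure (K ∩ s) ⊆ S.Good c b) ?_ ?_ ?_ ?_
    · exact ⟨0, by simp⟩
    · rintro s t hst ⟨b, hb⟩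
      exact ⟨b, (preimage_mono (closure_mono (inter_subset_inter_right K hst))).trans hb⟩
    · rintro s t ⟨b, hb⟩ ⟨b', hb'⟩
      rw [inter_union_distrib_left, closure_union]
      have hsK : closure (K ∩ s) ⊆ K := closure_minimal inter_subset_left hK.isClosed
      have hc : IsCompact (closure (K ∩ s)) := hK.of_isClosed_subset isClosed_closure hsK
      refine S.union_step hQ isClosed_closure isClosed_closure hc ?_ hb hb'
      intro e he1 he2
      exact hE _ e (hc.inter_right isClosed_closure) he1 he2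
    · intro v hv
      obtain ⟨b, hb⟩ := S.exact_finite c (S.fin v)
        (fun x hx => h1 x (by rw [mem_preimage, show Q x = v from hx]; exact hv))
        (fun x hx => h2 x (by rw [mem_preimage, show Q x = v from hx]; exact hv))
      obtain ⟨O, hO, hvO, hOb⟩ := exists_open hQ (S.isOpen_good c b) (K := {v}) hb
      obtain ⟨t, ht, htc, htO⟩ := exists_mem_nhds_isClosed_subset
        (hO.mem_nhds (singleton_subset_iff.1 hvO))
      refine ⟨t, mem_nhdsWithin_of_mem_nhds ht, b, ?_⟩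
      refine (preimage_mono ?_).trans hOb
      exact (closure_minimal inter_subset_right htc).trans htO
  rwa [inter_self, hK.isClosed.closure_eq] at key

omit [T2Space M] in
/-- The extension property in the next degree. -/
theorem ext_succ (hQ : Continuous Q) {k : ℕ}
    (hk : ∀ (c : S.G (k + 1)) (K : Set V), IsCompact K →
      (∀ x ∈ Q ⁻¹' K, c ∈ S.Sec (k + 1) x) → (∀ x ∈ Q ⁻¹' K, S.D (k + 1) c ∈ S.Van (k + 2) x) →
      ∃ b, Q ⁻¹' K ⊆ S.Good c b) : S.Ext (k + 1) := by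
  intro K e hK h1 h2
  obtain ⟨f, hf⟩ := hk e K hK h1 h2
  obtain ⟨O, hO, hKO, hOf⟩ := exists_open hQ (S.isOpen_good e f) hf
  obtain ⟨f', hf1, hf2⟩ := S.cut k K O f hK hO hKO fun x hx => (hOf hx).1
  refine ⟨S.D k f', fun x => ⟨S.D_sec k x f' (hf1 x), S.D_D k x f' (hf1 x)⟩, fun x hx => ?_⟩
  have h3 := S.van_add (S.D_congr (hf hx).1 (hf2 x hx)) (hf hx).2
  rwa [sub_add_sub_cancel] at h3

/-- Exactness near the preimages of compact sets. -/
theorem exact_compact [RegularSpace V] (hQ : Continuous Q) :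
    ∀ (k : ℕ) (c : S.G (k + 1)) (K : Set V), IsCompact K →
      (∀ x ∈ Q ⁻¹' K, c ∈ S.Sec (k + 1) x) → (∀ x ∈ Q ⁻¹' K, S.D (k + 1) c ∈ S.Van (k + 2) x) →
      ∃ b, Q ⁻¹' K ⊆ S.Good c b := by
  intro k
  induction k with
  | zero => exact fun c K => S.exact_of_ext hQ S.ext_zero c K
  | succ k ih => exact fun c K => S.exact_of_ext hQ (S.ext_succ hQ ih) c K

/-- Global exactness. -/
theorem exact_global [RegularSpace V] (hQ : Continuous Q) (k : ℕ) (c : S.G (k + 1))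
    (h1 : ∀ x, c ∈ S.Sec (k + 1) x) (h2 : ∀ x, S.D (k + 1) c ∈ S.Van (k + 2) x) :
    ∃ b, ∀ x, b ∈ S.Sec k x ∧ S.D k b - c ∈ S.Van (k + 1) x := by
  obtain ⟨b, hb⟩ := S.exact_compact hQ k c (range Q) (isCompact_range hQ) (fun x _ => h1 x)
    fun x _ => h2 x
  exact ⟨b, fun x => hb (mem_range_self x)⟩

end compact

end Fine

end L2M
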