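import Pool.Agent.Work.MP_ead3fc_ag.M.Basic
import Pool.Agent.Work.MP_ead3fc_ag.M.Glue

/-!
# MP_ead3fc_ag, global theorem: the cone of an inclusion of complexes of forms
-/

set_option autoImplicit false

open Set Filter Topology
open scoped ContDiff Manifold

namespace L2M

/-- Two complexes of forms `X ⊆ Y` on `M`; the elements of `Y` are considered on the open dense
set `S` only. -/
structure Pair (M : Type) [TopologicalSpace M] (n : ℕ) [ChartedSpace (Fin n → ℂ) M] (V : Type)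
    [TopologicalSpace V] (Q : M → V) where
  S : Set M
  hS : IsOpen S
  dense : ∀ x : M, ∃ᶠ y in 𝓝 x, y ∈ S
  Y : ∀ k, M → AddSubgroup (MForm M n k)
  X : ∀ k, M → AddSubgroup (MForm M n k)
  Y_open : ∀ k x w, w ∈ Y k x → ∀ᶠ y in 𝓝 x, w ∈ Y k y
  X_open : ∀ k x w, w ∈ X k x → ∀ᶠ y in 𝓝 x, w ∈ X k y
  XY : ∀ k x, X k x ≤ Y k x
  Y_smooth : ∀ k x w, w ∈ Y k x → ∀ᶠ y in 𝓝 x, y ∈ S → SmoothAt w y
  X_smooth : ∀ k x w, w ∈ X k x → ∀ᶠ y in 𝓝 x, SmoothAt w y
  Y_d : ∀ k x w, w ∈ Y k x → dM w ∈ Y (k + 1) x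
  X_d : ∀ k x w, w ∈ X k x → dM w ∈ X (k + 1) x
  Y_van : ∀ k x (w : MForm M n k), (∀ᶠ y in 𝓝 x, y ∈ S → w y = 0) → w ∈ Y k x
  X_van : ∀ k x (w : MForm M n k), (∀ᶠ y in 𝓝 x, w y = 0) → w ∈ X k x
  cut : ∀ (K O : Set V), IsCompact K → IsOpen O → K ⊆ O → ∃ χ : M → ℝ,
    (∀ x, Q x ∈ K → ∀ᶠ y in 𝓝 x, χ y = 1) ∧
    (∀ k (w : MForm M n k), (∀ x, Q x ∈ O → w ∈ Y k x) → ∀ x, fmul χ w ∈ Y k x) ∧
    (∀ k (w : MForm M n k), (∀ x, Q x ∈ O → w ∈ X k x) → ∀ x, fmul χ w ∈ X k x)
  exY : ∀ k (w : MForm M n (k + 1)) x, w ∈ Y (k + 1) x → (∀ᶠ y in 𝓝 x, y ∈ S → dM w y = 0) →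
    ∃ η ∈ Y k x, ∀ᶠ y in 𝓝 x, y ∈ S → dM η y = w y
  exY0 : ∀ (w : MForm M n 0) x, w ∈ Y 0 x → (∀ᶠ y in 𝓝 x, y ∈ S → dM w y = 0) →
    ∃ c : ℂ, ∀ᶠ y in 𝓝 x, y ∈ S → w y = constM M n c y
  exX : ∀ k (w : MForm M n (k + 1)) x, w ∈ X (k + 1) x → (∀ᶠ y in 𝓝 x, dM w y = 0) →
    ∃ η ∈ X k x, ∀ᶠ y in 𝓝 x, dM η y = w y
  constX : ∀ (c : ℂ) x, constM M n c ∈ X 0 x
  dconst : ∀ (c : ℂ) (x : M), dM (constM M n c) x = 0
  fin : ∀ v, (Q ⁻¹' {v}).Finite
  mf : MFacts M n

/-- The groups of the cone. -/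
def GG (M : Type) (n : ℕ) : ℕ → Type
  | 0 => MForm M n 0
  | k + 1 => MForm M n k × MForm M n (k + 1)

noncomputable instance GG.group (M : Type) (n : ℕ) : ∀ k, AddCommGroup (GG M n k)
  | 0 => inferInstanceAs (AddCommGroup (MForm M n 0))
  | k + 1 => inferInstanceAs (AddCommGroup (MForm M n k × MForm M n (k + 1)))

/-- The differential of the cone. -/
noncomputable def GG.D (M : Type) [TopologicalSpace M] (n : ℕ) [ChartedSpace (Fin n → ℂ) M] :
    ∀ k, GG M n k → GG M n (k + 1)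
  | 0 => fun e => ((e, dM e) : MForm M n 0 × MForm M n 1)
  | k + 1 => fun c => ((c.2 - dM c.1, dM c.2) : MForm M n (k + 1) × MForm M n (k + 2))

section van

variable {M : Type} [TopologicalSpace M] {n k : ℕ}

/-- Forms vanishing near `x` on `S`. -/
def VanOn (M : Type) [TopologicalSpace M] (n k : ℕ) (S : Set M) (x : M) :
    AddSubgroup (MForm M n k) where
  carrier := {w | ∀ᶠ y in 𝓝 x, y ∈ S → w y = 0}
  add_mem' := by
    intro a b ha hb
    filter_upwards [ha, hb] with y h1 h2 hy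
    show a y + b y = 0
    rw [h1 hy, h2 hy, add_zero]
  zero_mem' := Filter.Eventually.of_forall fun y _ => rfl
  neg_mem' := by
    intro a ha
    filter_upwards [ha] with y h1 hy
    show -a y = 0
    rw [h1 hy, neg_zero]

theorem mem_vanOn {S : Set M} {x : M} {w : MForm M n k} :
    w ∈ VanOn M n k S x ↔ ∀ᶠ y in 𝓝 x, y ∈ S → w y = 0 := Iff.rfl

theorem vanOn_open {S : Set M} {x : M} {w : MForm M n k} (h : w ∈ VanOn M n k S x) :
    ∀ᶠ y in 𝓝 x, w ∈ VanOn M n k S y := eventually_eventually_nhds.2 h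

open Classical in
/-- Piecewise form. -/
noncomputable def glueF (W : Set M) (c c' : MForm M n k) : MForm M n k :=
  fun y => if y ∈ W then c y else c' y

theorem glueF_left {S W : Set M} (hW : IsOpen W) (c c' : MForm M n k) {x : M} (hx : x ∈ W) :
    glueF W c c' - c ∈ VanOn M n k S x := by
  filter_upwards [hW.mem_nhds hx] with y hy _
  show glueF W c c' y - c y = 0
  unfold glueF
  rw [if_pos hy, sub_self]

theorem glueF_right {S W W' : Set M} (hW' : IsOpen W') {c c' : MForm M n k}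
    (h : ∀ x ∈ W ∩ W', c - c' ∈ VanOn M n k S x) {x : M} (hx : x ∈ W') :
    glueF W c c' - c' ∈ VanOn M n k S x := by
  filter_upwards [hW'.mem_nhds hx] with y hy hyS
  show glueF W c c' y - c' y = 0
  unfold glueF
  by_cases hyW : y ∈ W
  · rw [if_pos hyW]
    exact (h y ⟨hyW, hy⟩).self_of_nhds hyS
  · rw [if_neg hyW, sub_self]

end van

namespace Pair

variable {M : Type} [TopologicalSpace M] {n : ℕ} [ChartedSpace (Fin n → ℂ) M] {V : Type}
  [TopologicalSpace V] {Q : M → V} (P : Pair M n V Q)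

/-- Nice elements of the cone. -/
noncomputable def sec : ∀ k, M → AddSubgroup (GG M n k)
  | 0 => fun x => P.X 0 x
  | k + 1 => fun x => (P.Y k x).prod (P.X (k + 1) x)

/-- Elements of the cone vanishing near `x`. -/
noncomputable def van : ∀ k, M → AddSubgroup (GG M n k)
  | 0 => fun x => VanOn M n 0 univ x
  | k + 1 => fun x => (VanOn M n k P.S x).prod (VanOn M n (k + 1) univ x)

theorem d_add_Y {k : ℕ} {x : M} {w w' : MForm M n k} (hw : w ∈ P.Y k x) (hw' : w' ∈ P.Y k x) :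
    dM (w + w') - (dM w + dM w') ∈ VanOn M n (k + 1) P.S x := by
  filter_upwards [P.Y_smooth k x w hw, P.Y_smooth k x w' hw'] with y h1 h2 hy
  show dM (w + w') y - (dM w y + dM w' y) = 0
  rw [dM_add (h1 hy) (h2 hy), sub_self]

theorem d_add_X {k : ℕ} {x : M} {w w' : MForm M n k} (hw : w ∈ P.X k x) (hw' : w' ∈ P.X k x) :
    dM (w + w') - (dM w + dM w') ∈ VanOn M n (k + 1) univ x := by
  filter_upwards [P.X_smooth k x w hw, P.X_smooth k x w' hw'] with y h1 h2 _
  show dM (w + w') y - (dM w y + dM w' y) = 0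
  rw [dM_add h1 h2, sub_self]

theorem dM_zero (x : M) (k : ℕ) : dM (0 : MForm M n k) x = 0 := by
  have h1 : rep x (0 : MForm M n k) = 0 := rfl
  show extDeriv (rep x (0 : MForm M n k)) (chartAt (Fin n → ℂ) x x) = 0
  rw [h1]
  show ContinuousAlternatingMap.alternatizeUncurryFin (fderiv ℝ (0 : L2P.Form n k) _) = 0
  rw [fderiv_zero]
  exact (ContinuousAlternatingMap.alternatizeUncurryFinCLM ℝ (Fin n → ℂ) ℂ (n := k)).map_zero

theorem d_van_Y {k : ℕ} {x : M} {w : MForm M n k} (hw : w ∈ VanOn M n k P.S x) :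
    dM w ∈ VanOn M n (k + 1) P.S x := by
  have h1 : ∀ᶠ y in 𝓝 x, ∀ᶠ z in 𝓝 y, z ∈ P.S → w z = 0 := eventually_eventually_nhds.2 hw
  filter_upwards [h1] with y hy hyS
  have h2 : ∀ᶠ z in 𝓝 y, w z = (0 : MForm M n k) z := by
    filter_upwards [hy, P.hS.mem_nhds hyS] with z h3 h4
    exact h3 h4
  rw [dM_congr h2]
  exact dM_zero y k

theorem d_van_X {k : ℕ} {x : M} {w : MForm M n k} (hw : w ∈ VanOn M n k univ x) :
    dM w ∈ VanOn M n (k + 1) univ x := by
  have h1 : ∀ᶠ y in 𝓝 x, ∀ᶠ z in 𝓝 y, z ∈ univ → w z = 0 := eventually_eventually_nhds.2 hw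
  filter_upwards [h1] with y hy _
  have h2 : ∀ᶠ z in 𝓝 y, w z = (0 : MForm M n k) z := by
    filter_upwards [hy] with z h3
    exact h3 (mem_univ z)
  rw [dM_congr h2]
  exact dM_zero y k

theorem van_univ {k : ℕ} {x : M} {S : Set M} {w : MForm M n k} (hw : w ∈ VanOn M n k univ x) :
    w ∈ VanOn M n k S x := by
  filter_upwards [hw] with y h1 _
  exact h1 (mem_univ y)

theorem dd_X {k : ℕ} {x : M} {w : MForm M n k} (hw : w ∈ P.X k x) :
    dM (dM w) ∈ VanOn M n (k + 2) univ x := by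
  filter_upwards [eventually_eventually_nhds.2 (P.X_smooth k x w hw)] with y h1 _
  exact dM_dM P.mf h1

theorem dd_Y {k : ℕ} {x : M} {w : MForm M n k} (hw : w ∈ P.Y k x) :
    dM (dM w) ∈ VanOn M n (k + 2) P.S x := by
  filter_upwards [eventually_eventually_nhds.2 (P.Y_smooth k x w hw)] with y h1 hy
  refine dM_dM P.mf ?_
  filter_upwards [h1, P.hS.mem_nhds hy] with z h2 h3
  exact h2 h3

/-- A form of `X` vanishing on `S` near `x` vanishes near `x`. -/
theorem van_of_dense {k : ℕ} {x : M} {w : MForm M n k} (hw : w ∈ P.X k x)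
    (h : w ∈ VanOn M n k P.S x) : w ∈ VanOn M n k univ x := by
  filter_upwards [P.X_smooth k x w hw, eventually_eventually_nhds.2 h] with y h1 h2 _
  have h3 : ContinuousAt (rep y w) (chartAt (Fin n → ℂ) y y) := ContDiffAt.continuousAt h1
  have h4 : ∃ᶠ z in 𝓝 (chartAt (Fin n → ℂ) y y), rep y w z = 0 := by
    have h5 : ∃ᶠ z in 𝓝 y, z ∈ P.S ∧ z ∈ (chartAt (Fin n → ℂ) y).source ∧ w z = 0 := by
      refine ((P.dense y).and_eventually (h2.and ((chartAt (Fin n → ℂ) y).open_source.mem_nhds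
        (mem_chart_source _ y)))).mono ?_
      rintro z ⟨h5, h6, h7⟩
      exact ⟨h5, h7, h6 h5⟩
    have h6 : Tendsto (chartAt (Fin n → ℂ) y) (𝓝 y) (𝓝 (chartAt (Fin n → ℂ) y y)) :=
      (chartAt (Fin n → ℂ) y).continuousAt (mem_chart_source _ y)
    refine h6.frequently (h5.mono ?_)
    rintro z ⟨-, h7, h8⟩
    show (w ((chartAt (Fin n → ℂ) y).symm (chartAt (Fin n → ℂ) y z))).compContinuousLinearMap _ = 0
    rw [(chartAt (Fin n → ℂ) y).left_inv h7, h8]
    rfl
  have h7 : rep y w (chartAt (Fin n → ℂ) y y) = 0 := by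
    by_contra hne
    have h8 : ∀ᶠ z in 𝓝 (chartAt (Fin n → ℂ) y y), rep y w z ≠ 0 := h3.eventually_ne hne
    exact h4 h8
  rwa [P.mf.rep_self] at h7

/-- The cone as a complex of fine sheaves. -/
noncomputable def fine : Fine M V Q where
  G := GG M n
  grp := GG.group M n
  D := GG.D M n
  Sec := P.sec
  Van := P.van
  sec_open := by
    intro k x c hc
    cases k with
    | zero => exact P.X_open 0 x c hc
    | succ k =>
      filter_upwards [P.Y_open k x c.1 hc.1, P.X_open (k + 1) x c.2 hc.2] with y h1 h2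
      exact ⟨h1, h2⟩
  van_open := by
    intro k x c hc
    cases k with
    | zero => exact vanOn_open hc
    | succ k =>
      filter_upwards [vanOn_open hc.1, vanOn_open hc.2] with y h1 h2
      exact ⟨h1, h2⟩
  van_sec := by
    intro k x c hc
    cases k with
    | zero => exact P.X_van 0 x c (hc.mono fun y hy => hy (mem_univ y))
    | succ k => exact ⟨P.Y_van k x c.1 hc.1, P.X_van (k + 1) x c.2
        (Filter.Eventually.mono hc.2 fun y hy => hy (mem_univ y))⟩
  D_add := by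
    intro k x c c' hc hc'
    cases k with
    | zero =>
      refine ⟨?_, P.d_add_X hc hc'⟩
      exact Filter.Eventually.of_forall fun y _ => sub_self _
    | succ k =>
      refine ⟨?_, P.d_add_X hc.2 hc'.2⟩
      have h1 := (VanOn M n (k + 1) P.S x).neg_mem (P.d_add_Y hc.1 hc'.1)
      have h2 : (c.2 + c'.2 - dM (c.1 + c'.1)) - ((c.2 - dM c.1) + (c'.2 - dM c'.1)) =
          -(dM (c.1 + c'.1) - (dM c.1 + dM c'.1)) := by abel
      show (c.2 + c'.2 - dM (c.1 + c'.1)) - ((c.2 - dM c.1) + (c'.2 - dM c'.1)) ∈ _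
      rw [h2]
      exact h1
  D_sec := by
    intro k x c hc
    cases k with
    | zero => exact ⟨P.XY 0 x hc, P.X_d 0 x c hc⟩
    | succ k => exact ⟨(P.Y (k + 1) x).sub_mem (P.XY (k + 1) x hc.2) (P.Y_d k x c.1 hc.1),
        P.X_d (k + 1) x c.2 hc.2⟩
  D_van := by
    intro k x c hc
    cases k with
    | zero => exact ⟨van_univ hc, d_van_X hc⟩
    | succ k => exact ⟨(VanOn M n (k + 1) P.S x).sub_mem (van_univ hc.2) (P.d_van_Y hc.1),
        d_van_X hc.2⟩
  D_D := by
    intro k x c hc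
    cases k with
    | zero =>
      refine ⟨?_, P.dd_X hc⟩
      exact Filter.Eventually.of_forall fun y _ => sub_self _
    | succ k =>
      refine ⟨?_, P.dd_X hc.2⟩
      show dM c.2 - dM (c.2 - dM c.1) ∈ VanOn M n (k + 2) P.S x
      have h1 := P.d_add_Y (P.XY (k + 1) x hc.2)
        ((P.Y (k + 1) x).neg_mem (P.Y_d k x c.1 hc.1))
      have h2 := P.dd_Y hc.1
      have h3 : dM (-dM c.1) + dM (dM c.1) ∈ VanOn M n (k + 2) P.S x := by
        filter_upwards [P.Y_smooth (k + 1) x _ (P.Y_d k x c.1 hc.1)] with y h4 hy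
        show dM (-dM c.1) y + dM (dM c.1) y = 0
        rw [dM_neg (h4 hy)]
        exact neg_add_cancel _
      have h4 := (VanOn M n (k + 2) P.S x).sub_mem h2
        ((VanOn M n (k + 2) P.S x).add_mem h1 h3)
      have h5 : dM (dM c.1) - (dM (c.2 + -dM c.1) - (dM c.2 + dM (-dM c.1)) +
          (dM (-dM c.1) + dM (dM c.1))) = dM c.2 - dM (c.2 + -dM c.1) := by abel
      rw [h5, ← sub_eq_add_neg] at h4
      exact h4
  cut := by
    intro k K O c hK hO hKO hc
    obtain ⟨χ, h1, h2, h3⟩ := P.cut K O hK hO hKO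
    have h4 : ∀ (l : ℕ) (w : MForm M n l) (S : Set M) (x : M), Q x ∈ K →
        fmul χ w - w ∈ VanOn M n l S x := by
      intro l w S x hx
      filter_upwards [h1 x hx] with y hy _
      show χ y • w y - w y = 0
      rw [hy]
      exact ContinuousAlternatingMap.ext fun v => by
        show (1 : ℝ) • w y v - w y v = 0
        rw [one_smul, sub_self]
    cases k with
    | zero => exact ⟨fmul χ c, fun x => h3 0 c hc x, fun x hx => h4 0 c univ x hx⟩
    | succ k =>
      refine ⟨(fmul χ c.1, fmul χ c.2), fun x => ⟨h2 k c.1 (fun x hx => (hc x hx).1) x,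
        h3 (k + 1) c.2 (fun x hx => (hc x hx).2) x⟩, fun x hx =>
        ⟨h4 k c.1 P.S x hx, h4 (k + 1) c.2 univ x hx⟩⟩
  glue := by
    intro k W W' c c' hW hW' h
    cases k with
    | zero => exact ⟨glueF W c c', fun x hx => glueF_left hW c c' hx,
        fun x hx => glueF_right hW' h hx⟩
    | succ k => exact ⟨(glueF W c.1 c'.1, glueF W c.2 c'.2),
        fun x hx => ⟨glueF_left hW c.1 c'.1 hx, glueF_left hW c.2 c'.2 hx⟩,
        fun x hx => ⟨glueF_right hW' (fun x hx => (h x hx).1) hx,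
          glueF_right hW' (fun x hx => (h x hx).2) hx⟩⟩
  exact := by
    intro k x c hc hD
    obtain ⟨f, hf, hdf⟩ := P.exX k c.2 x hc.2
      (Filter.Eventually.mono hD.2 fun y hy => hy (mem_univ y))
    have hfa : f - c.1 ∈ P.Y k x := (P.Y k x).sub_mem (P.XY k x hf) hc.1
    have hcl : ∀ᶠ y in 𝓝 x, y ∈ P.S → dM (f - c.1) y = 0 := by
      filter_upwards [P.X_smooth k x f hf, P.Y_smooth k x c.1 hc.1, hdf,
        (show ∀ᶠ y in 𝓝 x, y ∈ P.S → (c.2 - dM c.1) y = 0 from hD.1)] with y h1 h2 h3 h4 hy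
      rw [dM_sub h1 (h2 hy), h3]
      exact h4 hy
    cases k with
    | zero =>
      obtain ⟨a, ha⟩ := P.exY0 (f - c.1) x hfa hcl
      refine ⟨f - constM M n a, (P.X 0 x).sub_mem hf (P.constX a x), ?_, ?_⟩
      · filter_upwards [ha] with y hy hyS
        show f y - constM M n a y - c.1 y = 0
        have h1 : f y - c.1 y = constM M n a y := hy hyS
        rw [← h1]
        abel
      · filter_upwards [P.X_smooth 0 x f hf, P.X_smooth 0 x _ (P.constX a x), hdf]
          with y h1 h2 h3 _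
        show dM (f - constM M n a) y - c.2 y = 0
        rw [dM_sub h1 h2, P.dconst, sub_zero, h3, sub_self]
    | succ k =>
      obtain ⟨b, hb, hdb⟩ := P.exY k (f - c.1) x hfa hcl
      refine ⟨(b, f), ⟨hb, hf⟩, ?_, ?_⟩
      · filter_upwards [hdb] with y hy hyS
        show f y - dM b y - c.1 y = 0
        rw [hy hyS]
        show f y - (f y - c.1 y) - c.1 y = 0
        abel
      · filter_upwards [hdf] with y hy _
        show dM f y - c.2 y = 0
        rw [hy, sub_self]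
  exact0 := by
    intro x c hc hD
    exact P.van_of_dense hc hD.1
  fin := P.fin

section global

variable [T2Space M] [CompactSpace M] [T2Space V] [RegularSpace V]

/-- Closed elements of `Y` come from `X`, up to exact elements, positive degrees. -/
theorem surj (hQ : Continuous Q) {k : ℕ} {a : MForm M n (k + 1)} (ha : ∀ x, a ∈ P.Y (k + 1) x)
    (hd : ∀ x ∈ P.S, dM a x = 0) :
    ∃ (e : MForm M n (k + 1)) (b : MForm M n k), (∀ x, e ∈ P.X (k + 1) x) ∧ (∀ x, dM e x = 0) ∧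
      (∀ x, b ∈ P.Y k x) ∧ ∀ x ∈ P.S, a x = e x - dM b x := by
  obtain ⟨c, hc⟩ := P.fine.exact_global hQ (k + 1)
    ((a, 0) : MForm M n (k + 1) × MForm M n (k + 2))
    (fun x => ⟨ha x, (P.X (k + 2) x).zero_mem⟩) fun x => by
      refine ⟨?_, ?_⟩
      · filter_upwards with y hy
        show (0 : MForm M n (k + 2)) y - dM a y = 0
        rw [hd y hy]
        exact sub_zero _
      · filter_upwards with y _
        exact dM_zero y (k + 2)
  refine ⟨c.2, c.1, fun x => (hc x).1.2, fun x => ?_, fun x => (hc x).1.1, fun x hx => ?_⟩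
  · have h1 := ((hc x).2.2).self_of_nhds (mem_univ x)
    have h2 : dM c.2 x - (0 : MForm M n (k + 2)) x = 0 := h1
    rwa [show (0 : MForm M n (k + 2)) x = 0 from rfl, sub_zero] at h2
  · have h1 := ((hc x).2.1).self_of_nhds hx
    have h2 : c.2 x - dM c.1 x - a x = 0 := h1
    exact (sub_eq_zero.1 h2).symm

/-- Closed elements of `Y` come from `X`, degree zero. -/
theorem surj0 (hQ : Continuous Q) {a : MForm M n 0} (ha : ∀ x, a ∈ P.Y 0 x)
    (hd : ∀ x ∈ P.S, dM a x = 0) :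
    ∃ e : MForm M n 0, (∀ x, e ∈ P.X 0 x) ∧ (∀ x, dM e x = 0) ∧ ∀ x ∈ P.S, a x = e x := by
  obtain ⟨c, hc⟩ := P.fine.exact_global hQ 0 ((a, 0) : MForm M n 0 × MForm M n 1)
    (fun x => ⟨ha x, (P.X 1 x).zero_mem⟩) fun x => by
      refine ⟨?_, ?_⟩
      · filter_upwards with y hy
        show (0 : MForm M n 1) y - dM a y = 0
        rw [hd y hy]
        exact sub_zero _
      · filter_upwards with y _
        exact dM_zero y 1
  refine ⟨c, fun x => (hc x).1, fun x => ?_, fun x hx => ?_⟩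
  · have h1 := ((hc x).2.2).self_of_nhds (mem_univ x)
    have h2 : dM c x - (0 : MForm M n 1) x = 0 := h1
    rwa [show (0 : MForm M n 1) x = 0 from rfl, sub_zero] at h2
  · have h1 := ((hc x).2.1).self_of_nhds hx
    have h2 : c x - a x = 0 := h1
    exact (sub_eq_zero.1 h2).symm

/-- A closed element of `X` which is exact in `Y` is exact in `X`. -/
theorem inj (hQ : Continuous Q) {k : ℕ} {e : MForm M n (k + 1)} {a : MForm M n k}
    (he : ∀ x, e ∈ P.X (k + 1) x) (hde : ∀ x, dM e x = 0) (ha : ∀ x, a ∈ P.Y k x)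
    (hda : ∀ x ∈ P.S, dM a x = e x) :
    ∃ f : MForm M n k, (∀ x, f ∈ P.X k x) ∧ ∀ x, dM f x = e x := by
  obtain ⟨c, hc⟩ := P.fine.exact_global hQ k ((a, e) : MForm M n k × MForm M n (k + 1))
    (fun x => ⟨ha x, he x⟩) fun x => by
      refine ⟨?_, ?_⟩
      · filter_upwards with y hy
        show e y - dM a y = 0
        rw [hda y hy, sub_self]
      · filter_upwards with y _
        exact hde y
  cases k with
  | zero =>
    refine ⟨c, fun x => (hc x).1, fun x => ?_⟩
    have h1 := ((hc x).2.2).self_of_nhds (mem_univ x)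
    have h2 : dM c x - e x = 0 := h1
    exact sub_eq_zero.1 h2
  | succ k =>
    refine ⟨c.2, fun x => (hc x).1.2, fun x => ?_⟩
    have h1 := ((hc x).2.2).self_of_nhds (mem_univ x)
    have h2 : dM c.2 x - e x = 0 := h1
    exact sub_eq_zero.1 h2

end global

end Pair

end L2M
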