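import Pool.Agent.Work.MP_ead3fc_ag.M.Chg

/-!
# MP_ead3fc_ag, global theorem, module CUT, second half (helper38)

`cut_l2`, `cut_l2d`: the cut-offs `ψ ∘ Qm ∘ F` preserve square integrability of `w` and of
`(w, d w)` near points of `M`.
-/

set_option autoImplicit false

open MeasureTheory Set Filter Topology
open scoped ENNReal LinearAlgebra.Projectivization ContDiff Manifold

namespace L2M

namespace CutB

/-! ### The matrix `g g^* / ‖g‖²` -/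

/-- The matrix `g g^* / ‖g‖²`. -/
noncomputable def Phi {N : ℕ} (g : Hil N) : Fin N → Fin N → ℂ := fun i j =>
  (((‖g‖ ^ 2)⁻¹ : ℝ) : ℂ) * (g i * (starRingEnd ℂ) (g j))

theorem Phi_smul {N : ℕ} (a : ℂ) (ha : a ≠ 0) (g : Hil N) : Phi (a • g) = Phi g := by
  funext i j
  have h1 : ((‖a‖ : ℝ) : ℂ) ≠ 0 := by exact_mod_cast norm_ne_zero_iff.2 ha
  have h2 : a * (starRingEnd ℂ) a = ((‖a‖ : ℝ) : ℂ) ^ 2 := Complex.mul_conj' a
  unfold Phi
  simp only [PiLp.smul_apply, smul_eq_mul, map_mul, norm_smul, mul_pow, mul_inv]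
  push_cast
  calc (((‖a‖ : ℝ) : ℂ) ^ 2)⁻¹ * (((‖g‖ : ℝ) : ℂ) ^ 2)⁻¹ *
        (a * g i * ((starRingEnd ℂ) a * (starRingEnd ℂ) (g j)))
      = (((‖a‖ : ℝ) : ℂ) ^ 2)⁻¹ * (a * (starRingEnd ℂ) a) * ((((‖g‖ : ℝ) : ℂ) ^ 2)⁻¹ *
        (g i * (starRingEnd ℂ) (g j))) := by ring
    _ = _ := by rw [h2, inv_mul_cancel₀ (pow_ne_zero 2 h1), one_mul]

theorem Qm_mk {N : ℕ} (g : Hil N) (h : g ≠ 0) : Qm (Projectivization.mk ℂ g h) = Phi g := by
  obtain ⟨a, ha⟩ := Projectivization.exists_smul_eq_mk_rep ℂ g h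
  have h1 : Qm (Projectivization.mk ℂ g h) = Phi ((Projectivization.mk ℂ g h).rep) := rfl
  rw [h1, ← ha]
  exact Phi_smul (a : ℂ) a.ne_zero g

theorem contDiffAt_Phi {N : ℕ} {g : Hil N} (hg : g ≠ 0) : ContDiffAt ℝ ∞ (Phi (N := N)) g := by
  have h1 : ContDiffAt ℝ ∞ (fun g : Hil N => (‖g‖ ^ 2)⁻¹) g :=
    (contDiff_norm_sq ℂ).contDiffAt.inv (pow_ne_zero 2 (norm_ne_zero_iff.2 hg))
  have h2 : ContDiffAt ℝ ∞ (fun g : Hil N => (((‖g‖ ^ 2)⁻¹ : ℝ) : ℂ)) g :=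
    Complex.ofRealCLM.contDiff.contDiffAt.comp g h1
  have h3 : ∀ i, ContDiffAt ℝ ∞ (fun g : Hil N => g i) g := fun i =>
    ((EuclideanSpace.proj i : Hil N →L[ℂ] ℂ).restrictScalars ℝ).contDiff.contDiffAt
  have h4 : ∀ j, ContDiffAt ℝ ∞ (fun g : Hil N => (starRingEnd ℂ) (g j)) g := fun j =>
    Complex.conjCLE.contDiff.contDiffAt.comp g (h3 j)
  exact contDiffAt_pi.2 fun i => contDiffAt_pi.2 fun j => h2.mul ((h3 i).mul (h4 j))

/-! ### Linear algebra -/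

section alg

variable {n N k : ℕ}

theorem nrm_smul_real_le (T : (Fin n → ℂ) →L[ℂ] Hil N) (c : ℝ)
    (w : (Fin n → ℂ) [⋀^Fin k]→L[ℝ] ℂ) : nrm T (c • w) ≤ ‖c‖ₑ * nrm T w := by
  refine Chg.nrm_le fun v hv => ?_
  rw [ContinuousAlternatingMap.smul_apply, enorm_smul]
  gcongr
  exact Chg.le_nrm w hv

theorem nrm_wedge_le (T : (Fin n → ℂ) →L[ℂ] Hil N) (l : (Fin n → ℂ) →L[ℝ] ℝ) (C : ℝ)
    (hC : 0 ≤ C) (hl : ∀ v, ‖l v‖ ≤ C * ‖T v‖) (w : (Fin n → ℂ) [⋀^Fin k]→L[ℝ] ℂ) :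
    nrm T (ContinuousAlternatingMap.alternatizeUncurryFin (l.smulRight w)) ≤
      ENNReal.ofReal ((k + 1) * C) * nrm T w := by
  refine Chg.nrm_le fun v hv => ?_
  rw [ContinuousAlternatingMap.alternatizeUncurryFin_apply]
  have h1 : ∀ i ∈ (Finset.univ : Finset (Fin (k + 1))),
      ‖(-1 : ℤ) ^ (i : ℕ) • (l.smulRight w) (v i) (i.removeNth v)‖ₑ ≤
        ENNReal.ofReal C * nrm T w := by
    intro i _
    have h2 : ‖(-1 : ℤ) ^ (i : ℕ) • (l.smulRight w) (v i) (i.removeNth v)‖ₑ =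
        ‖l (v i) • w (i.removeNth v)‖ₑ := by
      rcases neg_one_pow_eq_or ℤ (i : ℕ) with h | h
      · rw [h, one_smul]
        rfl
      · rw [h, neg_smul, one_smul, enorm_neg]
        rfl
    rw [h2, enorm_smul]
    refine mul_le_mul' ?_ (Chg.le_nrm w fun j => hv _)
    rw [← ofReal_norm]
    refine ENNReal.ofReal_le_ofReal ((hl (v i)).trans ?_)
    calc C * ‖T (v i)‖ ≤ C * 1 := by gcongr; exact hv i
      _ = C := mul_one C
  calc ‖∑ i : Fin (k + 1), (-1 : ℤ) ^ (i : ℕ) • (l.smulRight w) (v i) (i.removeNth v)‖ₑ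
      ≤ ∑ i : Fin (k + 1), ‖(-1 : ℤ) ^ (i : ℕ) • (l.smulRight w) (v i) (i.removeNth v)‖ₑ :=
        enorm_sum_le _ _
    _ ≤ ∑ _i : Fin (k + 1), ENNReal.ofReal C * nrm T w := Finset.sum_le_sum h1
    _ = ENNReal.ofReal ((k + 1) * C) * nrm T w := by
        rw [Finset.sum_const, Finset.card_univ, Fintype.card_fin, nsmul_eq_mul,
          ENNReal.ofReal_mul (by positivity), mul_assoc]
        congr 1
        rw [ENNReal.ofReal_add (by positivity) zero_le_one]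
        simp

theorem extDeriv_fmul {f : (Fin n → ℂ) → ℝ} {w : L2P.Form n k} {z : Fin n → ℂ}
    (hf : DifferentiableAt ℝ f z) (hw : DifferentiableAt ℝ w z) :
    extDeriv (fun y => f y • w y) z = f z • extDeriv w z +
      ContinuousAlternatingMap.alternatizeUncurryFin ((fderiv ℝ f z).smulRight (w z)) := by
  unfold extDeriv
  rw [fderiv_fun_smul hf hw, ContinuousAlternatingMap.alternatizeUncurryFin_add,
    ContinuousAlternatingMap.alternatizeUncurryFin_smul]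

end alg

/-! ### The cut-off in a chart -/

section chart

variable {M : Type} [TopologicalSpace M] {n N k : ℕ} [ChartedSpace (Fin n → ℂ) M]
  {F : M → ℙ ℂ (Hil (N + 1))} {A : Set M}

theorem aff_isOpen {x : M} {U : Set (Fin n → ℂ)} {G : (Fin n → ℂ) → Hil (N + 1)}
    (hG : IsAff F x U G) : IsOpen U := by
  obtain ⟨s, j, h, hj, rfl⟩ := hG
  exact h.isOpen

theorem aff_mem {x : M} {U : Set (Fin n → ℂ)} {G : (Fin n → ℂ) → Hil (N + 1)}
    (hG : IsAff F x U G) : chartAt (Fin n → ℂ) x x ∈ U := by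
  obtain ⟨s, j, h, hj, rfl⟩ := hG
  exact h.mem

theorem aff_sub {x : M} {U : Set (Fin n → ℂ)} {G : (Fin n → ℂ) → Hil (N + 1)}
    (hG : IsAff F x U G) : U ⊆ (chartAt (Fin n → ℂ) x).target := by
  obtain ⟨s, j, h, hj, rfl⟩ := hG
  exact h.sub

theorem aff_hol {x : M} {U : Set (Fin n → ℂ)} {G : (Fin n → ℂ) → Hil (N + 1)}
    (hG : IsAff F x U G) : DifferentiableOn ℂ G U := by
  obtain ⟨s, j, h, hj, rfl⟩ := hG
  exact Chg.aff_diff h hj

theorem aff_ne {x : M} {U : Set (Fin n → ℂ)} {G : (Fin n → ℂ) → Hil (N + 1)}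
    (hG : IsAff F x U G) {y : Fin n → ℂ} (hy : y ∈ U) : G y ≠ 0 := by
  obtain ⟨s, j, h, hj, rfl⟩ := hG
  obtain ⟨h0, -⟩ := h.eq y hy
  exact smul_ne_zero (inv_ne_zero (hj y hy)) h0

/-- The matrix of `F` in terms of an affine representative. -/
theorem Qm_aff {x : M} {U : Set (Fin n → ℂ)} {G : (Fin n → ℂ) → Hil (N + 1)}
    (hG : IsAff F x U G) {y : Fin n → ℂ} (hy : y ∈ U) :
    Qm (F ((chartAt (Fin n → ℂ) x).symm y)) = Phi (G y) := by
  obtain ⟨s, j, h, hj, rfl⟩ := hG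
  obtain ⟨h0, h1⟩ := h.eq y hy
  rw [h1, Qm_mk]
  exact (Phi_smul _ (inv_ne_zero (hj y hy)) _).symm

/-- The cut-off in the chart at `x`. -/
noncomputable def loc (G : (Fin n → ℂ) → Hil (N + 1))
    (ψ : (Fin (N + 1) → Fin (N + 1) → ℂ) → ℝ) : (Fin n → ℂ) → ℝ := fun y => ψ (Phi (G y))

theorem rep_cut {x : M} {U : Set (Fin n → ℂ)} {G : (Fin n → ℂ) → Hil (N + 1)}
    (hG : IsAff F x U G) (ψ : (Fin (N + 1) → Fin (N + 1) → ℂ) → ℝ) (w : MForm M n k)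
    {y : Fin n → ℂ} (hy : y ∈ U) :
    rep x (fmul (fun y => ψ (Qm (F y))) w) y = loc G ψ y • rep x w y := by
  have h1 : rep x (fmul (fun y => ψ (Qm (F y))) w) y =
      ψ (Qm (F ((chartAt (Fin n → ℂ) x).symm y))) • rep x w y := by
    ext v
    rfl
  rw [h1, Qm_aff hG hy]
  rfl

theorem contDiffAt_aff {x : M} {U : Set (Fin n → ℂ)} {G : (Fin n → ℂ) → Hil (N + 1)}
    (hG : IsAff F x U G) {y : Fin n → ℂ} (hy : y ∈ U) : ContDiffAt ℝ ∞ G y :=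
  (SCV.contDiffAt_of_differentiableOn (aff_isOpen hG) (aff_hol hG) hy).restrict_scalars ℝ

theorem contDiffAt_psi {ψ : (Fin (N + 1) → Fin (N + 1) → ℂ) → ℝ} (hψ : ContDiff ℝ ∞ ψ)
    {g : Hil (N + 1)} (hg : g ≠ 0) : ContDiffAt ℝ ∞ (fun g => ψ (Phi g)) g :=
  hψ.contDiffAt.comp g (contDiffAt_Phi hg)

theorem contDiffAt_loc {x : M} {U : Set (Fin n → ℂ)} {G : (Fin n → ℂ) → Hil (N + 1)}
    (hG : IsAff F x U G) {ψ : (Fin (N + 1) → Fin (N + 1) → ℂ) → ℝ} (hψ : ContDiff ℝ ∞ ψ)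
    {y : Fin n → ℂ} (hy : y ∈ U) : ContDiffAt ℝ ∞ (loc G ψ) y :=
  (contDiffAt_psi hψ (aff_ne hG hy)).comp y (contDiffAt_aff hG hy)

/-- Near `x` the cut-off and its derivative are bounded. -/
theorem exists_bound {x : M} {U : Set (Fin n → ℂ)} {G : (Fin n → ℂ) → Hil (N + 1)}
    (hG : IsAff F x U G) {ψ : (Fin (N + 1) → Fin (N + 1) → ℂ) → ℝ} (hψ : ContDiff ℝ ∞ ψ) :
    ∃ (C : ℝ) (V : Set (Fin n → ℂ)), 0 ≤ C ∧ V ⊆ U ∧ IsOpen V ∧
      chartAt (Fin n → ℂ) x x ∈ V ∧ ∀ y ∈ V, ‖loc G ψ y‖ ≤ C ∧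
        ∀ v, ‖fderiv ℝ (loc G ψ) y v‖ ≤ C * ‖fderiv ℂ G y v‖ := by
  set p := chartAt (Fin n → ℂ) x x with hp
  have hpU : p ∈ U := aff_mem hG
  set g : Hil (N + 1) → ℝ := fun g => ψ (Phi g) with hg
  have h1 : ContinuousAt (fun y => ‖loc G ψ y‖) p := (contDiffAt_loc hG hψ hpU).continuousAt.norm
  have h2 : ContinuousAt (fun y => ‖fderiv ℝ g (G y)‖) p := by
    have h3 : ContinuousAt (fderiv ℝ g) (G p) :=
      (contDiffAt_psi hψ (aff_ne hG hpU)).continuousAt_fderiv (by simp)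
    exact (ContinuousAt.comp (f := G) h3 (contDiffAt_aff hG hpU).continuousAt).norm
  set C : ℝ := max (‖loc G ψ p‖ + 1) (‖fderiv ℝ g (G p)‖ + 1) with hC
  have h3 : ∀ᶠ y in 𝓝 p, y ∈ U ∧ ‖loc G ψ y‖ < C ∧ ‖fderiv ℝ g (G y)‖ < C := by
    have e1 : ∀ᶠ y in 𝓝 p, y ∈ U := (aff_isOpen hG).mem_nhds hpU
    have e2 : ∀ᶠ y in 𝓝 p, ‖loc G ψ y‖ < C :=
      h1.eventually (gt_mem_nhds (lt_of_lt_of_le (by linarith) (le_max_left _ _)))
    have e3 : ∀ᶠ y in 𝓝 p, ‖fderiv ℝ g (G y)‖ < C :=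
      h2.eventually (gt_mem_nhds (lt_of_lt_of_le (by linarith) (le_max_right _ _)))
    exact e1.and (e2.and e3)
  obtain ⟨V, hV, hVo, hpV⟩ := eventually_nhds_iff.1 h3
  refine ⟨C, V, le_trans (by positivity) (le_max_left _ _), fun y hy => (hV y hy).1, hVo, hpV,
    fun y hy => ⟨(hV y hy).2.1.le, fun v => ?_⟩⟩
  have hyU := (hV y hy).1
  have h4 : DifferentiableAt ℝ g (G y) :=
    (contDiffAt_psi hψ (aff_ne hG hyU)).differentiableAt (by simp)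
  have h5 : HasFDerivAt G (fderiv ℂ G y) y :=
    ((aff_hol hG y hyU).differentiableAt ((aff_isOpen hG).mem_nhds hyU)).hasFDerivAt
  have h6 : HasFDerivAt (loc G ψ) ((fderiv ℝ g (G y)).comp ((fderiv ℂ G y).restrictScalars ℝ)) y :=
    h4.hasFDerivAt.comp y (h5.restrictScalars ℝ)
  rw [h6.fderiv]
  calc ‖fderiv ℝ g (G y) (fderiv ℂ G y v)‖ ≤ ‖fderiv ℝ g (G y)‖ * ‖fderiv ℂ G y v‖ :=
        ContinuousLinearMap.le_opNorm _ _
    _ ≤ C * ‖fderiv ℂ G y v‖ := by gcongr; exact (hV y hy).2.2.le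

/-! ### Square integrability -/

theorem l2 (hF : S_FSQ) (hl : ∀ x, ∃ U s, IsLift (n := n) F x U s) (hA : IsClosed A)
    (w : MForm M n k) (ψ : (Fin (N + 1) → Fin (N + 1) → ℂ) → ℝ) (x : M) (hψ : ContDiff ℝ ∞ ψ)
    (hw : L2Near F A w x) : L2Near F A (fmul (fun y => ψ (Qm (F y))) w) x := by
  obtain ⟨U, -, G, hG⟩ := Chg.exists_aff hl x univ univ_mem
  obtain ⟨V, hVU, hV, hpV, h1⟩ := (Chg.iff_aff hF hA w x U G hG).1 hw
  obtain ⟨C, V', hC, hVU', hV', hpV', h2⟩ := exists_bound hG hψ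
  refine (Chg.iff_aff hF hA _ x U G hG).2 ⟨V ∩ V', inter_subset_left.trans hVU,
    hV.inter hV', ⟨hpV, hpV'⟩, ?_⟩
  have hD : IsOpen ((V ∩ V') \ (chartAt (Fin n → ℂ) x).symm ⁻¹' A) :=
    Chg.isOpen_diff hA (hV.inter hV') ((inter_subset_left.trans hVU).trans (aff_sub hG))
  refine lt_of_le_of_lt (setLIntegral_mono' (g := fun y => ENNReal.ofReal C ^ 2 *
    den (fderiv ℂ G) (rep x w) y) hD.measurableSet fun y hy => ?_) ?_
  · unfold den
    rw [rep_cut hG ψ w (hVU hy.1.1)]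
    have h3 : nrm (fderiv ℂ G y) (loc G ψ y • rep x w y) ≤
        ENNReal.ofReal C * nrm (fderiv ℂ G y) (rep x w y) := by
      refine (nrm_smul_real_le _ _ _).trans ?_
      gcongr
      rw [← ofReal_norm]
      exact ENNReal.ofReal_le_ofReal (h2 y hy.1.2).1
    calc nrm (fderiv ℂ G y) (loc G ψ y • rep x w y) ^ 2 * ‖gram (fderiv ℂ G y)‖ₑ
        ≤ (ENNReal.ofReal C * nrm (fderiv ℂ G y) (rep x w y)) ^ 2 * ‖gram (fderiv ℂ G y)‖ₑ := by
          gcongr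
      _ = _ := by ring
  · rw [lintegral_const_mul' _ _ (by finiteness)]
    refine ENNReal.mul_lt_top (by finiteness) (lt_of_le_of_lt (lintegral_mono_set ?_) h1)
    rintro y ⟨⟨hy, -⟩, hyA⟩
    exact ⟨hy, hyA⟩

theorem l2d [IsManifold 𝓘(ℂ, Fin n → ℂ) 1 M] (hM : S_MF) (hF : S_FSQ)
    (hl : ∀ x, ∃ U s, IsLift (n := n) F x U s) (hA : IsClosed A)
    (w : MForm M n k) (ψ : (Fin (N + 1) → Fin (N + 1) → ℂ) → ℝ) (x : M) (hψ : ContDiff ℝ ∞ ψ)
    (hsm : ∀ᶠ y in 𝓝 x, y ∉ A → SmoothAt w y) (hw : L2Near F A w x)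
    (hdw : L2Near F A (dM w) x) : L2Near F A (dM (fmul (fun y => ψ (Qm (F y))) w)) x := by
  obtain ⟨U, -, G, hG⟩ := Chg.exists_aff hl x univ univ_mem
  obtain ⟨V, hVU, hV, hpV, h1⟩ := (Chg.iff_aff hF hA w x U G hG).1 hw
  obtain ⟨V1, hVU1, hV1, hpV1, h1'⟩ := (Chg.iff_aff hF hA (dM w) x U G hG).1 hdw
  obtain ⟨C, V', hC, hVU', hV', hpV', h2⟩ := exists_bound hG hψ
  obtain ⟨O, hO, hpO, hOt, hOs⟩ := Chg.eventually_chart (n := n) hsm
  refine (Chg.iff_aff hF hA _ x U G hG).2 ⟨V ∩ V1 ∩ V' ∩ O,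
    ((inter_subset_left.trans inter_subset_left).trans inter_subset_left).trans hVU,
    ((hV.inter hV1).inter hV').inter hO, ⟨⟨⟨hpV, hpV1⟩, hpV'⟩, hpO⟩, ?_⟩
  set D := (V ∩ V1 ∩ V' ∩ O) \ (chartAt (Fin n → ℂ) x).symm ⁻¹' A with hDdef
  have hD : IsOpen D := Chg.isOpen_diff hA (((hV.inter hV1).inter hV').inter hO)
    (inter_subset_right.trans hOt)
  have hrep : ∀ y ∈ D, ContDiffAt ℝ ∞ (rep x w) y := by
    rintro y ⟨⟨-, hyO⟩, hyA⟩
    have hs := hOs y hyO hyA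
    have hy' : (chartAt (Fin n → ℂ) x).symm y ∈ (chartAt (Fin n → ℂ) x).source :=
      (chartAt (Fin n → ℂ) x).map_target (hOt hyO)
    have := ((hM M n).smooth_iff k w x _ hy').1 hs
    rwa [(chartAt (Fin n → ℂ) x).right_inv (hOt hyO)] at this
  have hT : ContinuousOn (fderiv ℂ G) D :=
    (Chg.continuousOn_fderiv (aff_isOpen hG) (aff_hol hG)).mono fun y hy => hVU hy.1.1.1.1
  have hc : ContinuousOn (rep x w) D := fun y hy => (hrep y hy).continuousAt.continuousWithinAt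
  -- the exterior derivative of the product
  have hder : ∀ y ∈ D, rep x (dM (fmul (fun y => ψ (Qm (F y))) w)) y =
      loc G ψ y • rep x (dM w) y + ContinuousAlternatingMap.alternatizeUncurryFin
        ((fderiv ℝ (loc G ψ) y).smulRight (rep x w y)) := by
    intro y hy
    have hyU : y ∈ U := hVU hy.1.1.1.1
    have hyO : y ∈ O := hy.1.2
    have hy' : (chartAt (Fin n → ℂ) x).symm y ∈ (chartAt (Fin n → ℂ) x).source :=
      (chartAt (Fin n → ℂ) x).map_target (hOt hyO)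
    have hri : chartAt (Fin n → ℂ) x ((chartAt (Fin n → ℂ) x).symm y) = y :=
      (chartAt (Fin n → ℂ) x).right_inv (hOt hyO)
    have hev : rep x (fmul (fun y => ψ (Qm (F y))) w) =ᶠ[𝓝 y] fun z => loc G ψ z • rep x w z := by
      filter_upwards [(aff_isOpen hG).mem_nhds hyU] with z hz
      exact rep_cut hG ψ w hz
    have hsm1 : SmoothAt (fmul (fun y => ψ (Qm (F y))) w) ((chartAt (Fin n → ℂ) x).symm y) := by
      rw [(hM M n).smooth_iff k _ x _ hy', hri]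
      exact ((contDiffAt_loc hG hψ hyU).smul (hrep y hy)).congr_of_eventuallyEq hev
    have h5 := (hM M n).rep_d k _ x _ hy' hsm1
    have h6 := (hM M n).rep_d k _ x _ hy' (hOs y hyO hy.2)
    rw [hri] at h5 h6
    rw [h5, hev.extDeriv_eq, h6]
    exact extDeriv_fmul ((contDiffAt_loc hG hψ hyU).differentiableAt (by simp))
      ((hrep y hy).differentiableAt (by simp))
  set c1 : ℝ≥0∞ := ENNReal.ofReal C with hc1
  set c2 : ℝ≥0∞ := ENNReal.ofReal ((k + 1) * C) with hc2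
  have hbound : ∀ y ∈ D, den (fderiv ℂ G) (rep x (dM (fmul (fun y => ψ (Qm (F y))) w))) y ≤
      4 * (c2 ^ 2 * den (fderiv ℂ G) (rep x w) y + c1 ^ 2 * den (fderiv ℂ G) (rep x (dM w)) y) := by
    intro y hy
    have hyV := h2 y hy.1.1.2
    unfold den
    rw [hder y hy]
    have h3 : nrm (fderiv ℂ G y) (loc G ψ y • rep x (dM w) y) ≤
        c1 * nrm (fderiv ℂ G y) (rep x (dM w) y) := by
      refine (nrm_smul_real_le _ _ _).trans ?_
      gcongr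
      rw [← ofReal_norm]
      exact ENNReal.ofReal_le_ofReal hyV.1
    have h4 := nrm_wedge_le (fderiv ℂ G y) (fderiv ℝ (loc G ψ) y) C hC hyV.2 (rep x w y)
    calc nrm (fderiv ℂ G y) (loc G ψ y • rep x (dM w) y +
          ContinuousAlternatingMap.alternatizeUncurryFin
            ((fderiv ℝ (loc G ψ) y).smulRight (rep x w y))) ^ 2 * ‖gram (fderiv ℂ G y)‖ₑ
        ≤ (c1 * nrm (fderiv ℂ G y) (rep x (dM w) y) + c2 * nrm (fderiv ℂ G y) (rep x w y)) ^ 2 *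
            ‖gram (fderiv ℂ G y)‖ₑ := by
          gcongr
          exact (Chg.nrm_add_le _ _ _).trans (add_le_add h3 h4)
      _ ≤ 4 * ((c1 * nrm (fderiv ℂ G y) (rep x (dM w) y)) ^ 2 +
            (c2 * nrm (fderiv ℂ G y) (rep x w y)) ^ 2) * ‖gram (fderiv ℂ G y)‖ₑ := by
          gcongr
          exact Chg.add_sq_le _ _
      _ = _ := by ring
  refine lt_of_le_of_lt (setLIntegral_mono' hD.measurableSet hbound) ?_
  rw [lintegral_const_mul' _ _ (by finiteness), lintegral_add_left'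
    ((Chg.aemeasurable_den hD hT hc).const_mul _), lintegral_const_mul' _ _ (by finiteness),
    lintegral_const_mul' _ _ (by finiteness)]
  refine ENNReal.mul_lt_top (by finiteness) (ENNReal.add_lt_top.2
    ⟨ENNReal.mul_lt_top (by finiteness) (lt_of_le_of_lt (lintegral_mono_set ?_) h1),
      ENNReal.mul_lt_top (by finiteness) (lt_of_le_of_lt (lintegral_mono_set ?_) h1')⟩)
  · rintro y ⟨⟨⟨⟨hy, -⟩, -⟩, -⟩, hyA⟩
    exact ⟨hy, hyA⟩
  · rintro y ⟨⟨⟨⟨-, hy⟩, -⟩, -⟩, hyA⟩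
    exact ⟨hy, hyA⟩

end chart

end CutB

section main

variable {M : Type} [TopologicalSpace M] {n N : ℕ} [ChartedSpace (Fin n → ℂ) M]
  {F : M → ℙ ℂ (Hil (N + 1))} {A : Set M}

/-- Field `l2` of `CutFacts`. -/
theorem cut_l2 (h2 : S_FSQ) (hl : ∀ x, ∃ U s, IsLift (n := n) F x U s) (hA : IsClosed A)
    (k : ℕ) (w : MForm M n k) (ψ : (Fin (N + 1) → Fin (N + 1) → ℂ) → ℝ) (x : M)
    (hψ : ContDiff ℝ ∞ ψ) (hw : L2Near F A w x) :
    L2Near F A (fmul (fun y => ψ (Qm (F y))) w) x :=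
  CutB.l2 h2 hl hA w ψ x hψ hw

/-- Field `l2d` of `CutFacts`. -/
theorem cut_l2d [IsManifold 𝓘(ℂ, Fin n → ℂ) 1 M] (h1 : S_MF) (h2 : S_FSQ) (hl : ∀ x, ∃ U s, IsLift (n := n) F x U s)
    (hA : IsClosed A) (k : ℕ) (w : MForm M n k) (ψ : (Fin (N + 1) → Fin (N + 1) → ℂ) → ℝ) (x : M)
    (hψ : ContDiff ℝ ∞ ψ) (hsm : ∀ᶠ y in 𝓝 x, y ∉ A → SmoothAt w y) (hw : L2Near F A w x)
    (hdw : L2Near F A (dM w) x) : L2Near F A (dM (fmul (fun y => ψ (Qm (F y))) w)) x :=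
  CutB.l2d h1 h2 hl hA w ψ x hψ hsm hw hdw

end main

end L2M
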