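import Pool.Agent.Work.MP_ead3fc_ag.M.Tasks

/-!
# MP_ead3fc_ag, module FSQ: linear algebra of the Fubini-Study length (helper8)
-/

set_option autoImplicit false

open MeasureTheory Set Filter Topology Matrix
open scoped ENNReal ComplexConjugate

namespace L2M

/-! ### Gram matrices -/

section gram

variable {n : ℕ} {H H' : Type*} [NormedAddCommGroup H] [InnerProductSpace ℂ H]
  [NormedAddCommGroup H'] [InnerProductSpace ℂ H']

theorem fsq_gram_comp (v : Fin n → H) (P : Matrix (Fin n) (Fin n) ℂ) :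
    Matrix.gram ℂ (fun i => ∑ j, P j i • v j) = Pᴴ * Matrix.gram ℂ v * P := by
  ext i j
  rw [Matrix.gram_apply, sum_inner, Matrix.mul_apply]
  simp_rw [inner_sum, inner_smul_left, inner_smul_right]
  rw [Finset.sum_comm]
  refine Finset.sum_congr rfl fun l _ => ?_
  rw [Matrix.mul_apply, Finset.sum_mul]
  refine Finset.sum_congr rfl fun k _ => ?_
  rw [Matrix.conjTranspose_apply, Matrix.gram_apply]
  simp only [RCLike.star_def]
  ring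

theorem fsq_det_gram_comp (v : Fin n → H) (P : Matrix (Fin n) (Fin n) ℂ) :
    ‖(Matrix.gram ℂ (fun i => ∑ j, P j i • v j)).det‖ =
      ‖P.det‖ ^ 2 * ‖(Matrix.gram ℂ v).det‖ := by
  rw [fsq_gram_comp, Matrix.det_mul, Matrix.det_mul, Matrix.det_conjTranspose, norm_mul,
    norm_mul, norm_star]
  ring

theorem fsq_exists_orth (v : Fin n → H) (hv : LinearIndependent ℂ v) :
    ∃ P : Matrix (Fin n) (Fin n) ℂ, Matrix.gram ℂ (fun i => ∑ j, P j i • v j) = 1 := by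
  have : FiniteDimensional ℂ (Submodule.span ℂ (Set.range v)) :=
    FiniteDimensional.span_of_finite ℂ (Set.finite_range v)
  have hn : Module.finrank ℂ (Submodule.span ℂ (Set.range v)) = n := by
    rw [finrank_span_eq_card hv, Fintype.card_fin]
  set o : OrthonormalBasis (Fin n) ℂ (Submodule.span ℂ (Set.range v)) :=
    (stdOrthonormalBasis ℂ (Submodule.span ℂ (Set.range v))).reindex (finCongr hn) with ho
  set b := Module.Basis.span hv with hb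
  refine ⟨fun j i => b.repr (o i) j, ?_⟩
  have h1 : ∀ i, ∑ j, b.repr (o i) j • v j = (o i : H) := by
    intro i
    have h2 := congrArg (Subtype.val) (b.sum_repr (o i))
    rw [← h2]
    simp only [Submodule.coe_sum, Submodule.coe_smul]
    refine Finset.sum_congr rfl fun j _ => ?_
    rw [hb, Module.Basis.span_apply]
  ext i j
  rw [Matrix.gram_apply]
  simp only [h1]
  rw [← Submodule.coe_inner, orthonormal_iff_ite.1 o.orthonormal i j, Matrix.one_apply]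

/-- Upper bound for Gram determinants. -/
theorem fsq_det_gram_le (w : Fin n → H) (c : ℝ)
    (h : ∀ x : Fin n → ℂ, ‖∑ i, x i • w i‖ ^ 2 ≤ c * ∑ i, ‖x i‖ ^ 2) :
    ‖(Matrix.gram ℂ w).det‖ ≤ c ^ n := by
  have hA := Matrix.isHermitian_gram ℂ w
  have hev : ∀ i, hA.eigenvalues i ≤ c := by
    intro i
    rw [hA.eigenvalues_eq i, Matrix.star_dotProduct_gram_mulVec]
    have h1 := h (fun j => hA.eigenvectorBasis i j)
    have h2 : ∑ j, ‖hA.eigenvectorBasis i j‖ ^ 2 = 1 := by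
      rw [← EuclideanSpace.norm_sq_eq, hA.eigenvectorBasis.orthonormal.1 i, one_pow]
    rw [h2, mul_one] at h1
    rw [inner_self_eq_norm_sq (𝕜 := ℂ)]
    exact h1
  have hev0 : ∀ i, 0 ≤ hA.eigenvalues i := fun i =>
    (Matrix.posSemidef_gram ℂ w).eigenvalues_nonneg i
  rw [hA.det_eq_prod_eigenvalues, norm_prod]
  have h3 : ∏ i, ‖(hA.eigenvalues i : ℂ)‖ ≤ ∏ _i : Fin n, c := by
    refine Finset.prod_le_prod (fun _ _ => norm_nonneg _) fun i _ => ?_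
    rw [Complex.norm_real, Real.norm_of_nonneg (hev0 i)]
    exact hev i
  exact h3.trans (le_of_eq (by simp))

theorem fsq_sum_comm (u : Fin n → H) (P : Matrix (Fin n) (Fin n) ℂ) (x : Fin n → ℂ) :
    ∑ i, x i • ∑ j, P j i • u j = ∑ j, (∑ i, x i * P j i) • u j := by
  simp_rw [Finset.smul_sum, smul_smul]
  rw [Finset.sum_comm]
  simp_rw [Finset.sum_smul]

/-- Comparison of Gram determinants. -/
theorem fsq_det_gram_mono (v : Fin n → H) (v' : Fin n → H') (c : ℝ)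
    (h : ∀ x : Fin n → ℂ, ‖∑ i, x i • v i‖ ^ 2 ≤ c * ‖∑ i, x i • v' i‖ ^ 2) :
    ‖(Matrix.gram ℂ v).det‖ ≤ c ^ n * ‖(Matrix.gram ℂ v').det‖ := by
  by_cases h0 : (Matrix.gram ℂ v').det = 0
  · have h1 : ¬ LinearIndependent ℂ v := by
      intro hv
      apply (Matrix.det_gram_ne_zero_iff_linearIndependent (𝕜 := ℂ) (v := v')).2 ?_ h0
      rw [Fintype.linearIndependent_iff] at hv ⊢
      intro x hx
      apply hv
      have h2 := h x
      rw [hx, norm_zero] at h2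
      have h3 : ‖∑ i, x i • v i‖ ^ 2 ≤ 0 := by simpa using h2
      have h4 : ‖∑ i, x i • v i‖ ^ 2 = 0 := le_antisymm h3 (sq_nonneg _)
      exact norm_eq_zero.1 ((pow_eq_zero_iff two_ne_zero).1 h4)
    have h2 : (Matrix.gram ℂ v).det = 0 := by
      by_contra h3
      exact h1 (Matrix.det_gram_ne_zero_iff_linearIndependent.1 h3)
    rw [h0, h2]
    simp
  · obtain ⟨P, hP⟩ := fsq_exists_orth v' (Matrix.det_gram_ne_zero_iff_linearIndependent.1 h0)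
    have h1 := fsq_det_gram_comp v' P
    rw [hP, Matrix.det_one, norm_one] at h1
    have h2 := fsq_det_gram_comp v P
    have h3 : ‖(Matrix.gram ℂ (fun i => ∑ j, P j i • v j)).det‖ ≤ c ^ n := by
      refine fsq_det_gram_le _ c fun x => ?_
      have h5 : ‖∑ i, x i • ∑ j, P j i • v' j‖ ^ 2 = ∑ i, ‖x i‖ ^ 2 := by
        have h6 := Matrix.star_dotProduct_gram_mulVec (𝕜 := ℂ)
          (fun i => ∑ j, P j i • v' j) x x
        rw [hP, Matrix.one_mulVec] at h6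
        have h7 := congrArg RCLike.re h6
        rw [inner_self_eq_norm_sq (𝕜 := ℂ)] at h7
        rw [← h7]
        simp only [dotProduct, Pi.star_apply, map_sum]
        refine Finset.sum_congr rfl fun i _ => ?_
        rw [RCLike.star_def, RCLike.conj_mul]
        norm_cast
      rw [← h5, fsq_sum_comm v, fsq_sum_comm v']
      exact h _
    rw [h2] at h3
    have hP0 : 0 < ‖P.det‖ ^ 2 := by
      by_contra h8
      have h9 : ‖P.det‖ ^ 2 = 0 := le_antisymm (not_lt.1 h8) (sq_nonneg _)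
      rw [h9, zero_mul] at h1
      exact one_ne_zero h1
    have h10 : ‖P.det‖ ^ 2 * ‖(Matrix.gram ℂ v).det‖ ≤
        ‖P.det‖ ^ 2 * (c ^ n * ‖(Matrix.gram ℂ v').det‖) := by
      calc ‖P.det‖ ^ 2 * ‖(Matrix.gram ℂ v).det‖ ≤ c ^ n * 1 := by rw [mul_one]; exact h3
        _ = ‖P.det‖ ^ 2 * (c ^ n * ‖(Matrix.gram ℂ v').det‖) := by rw [h1]; ring
    exact le_of_mul_le_mul_left h10 hP0

end gram

theorem fsq_gram_eq {n N : ℕ} (T : (Fin n → ℂ) →L[ℂ] Hil N) :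
    gram T = (Matrix.gram ℂ (fun i : Fin n => T (Pi.single i 1))).det := rfl

theorem fsq_apply {n N : ℕ} (T : (Fin n → ℂ) →L[ℂ] Hil N) (x : Fin n → ℂ) :
    T x = ∑ i, x i • T (Pi.single i 1) := by
  have h := pi_eq_sum_univ' x
  conv_lhs => rw [h]
  rw [map_sum]
  simp only [map_smul]

theorem fsq_nrm {n N N' k : ℕ} (T : (Fin n → ℂ) →L[ℂ] Hil N) (T' : (Fin n → ℂ) →L[ℂ] Hil N')
    (C : ℝ) (hC : 0 < C) (h : ∀ v, ‖T v‖ ≤ C * ‖T' v‖) (w : (Fin n → ℂ) [⋀^Fin k]→L[ℝ] ℂ) :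
    nrm T' w ≤ ENNReal.ofReal C ^ k * nrm T w := by
  refine iSup_le fun v => ?_
  have h1 : ∀ i, ‖T (C⁻¹ • v.1 i)‖ ≤ 1 := by
    intro i
    have h2 : T (C⁻¹ • v.1 i) = C⁻¹ • T (v.1 i) := by
      rw [← Complex.coe_smul, map_smul, Complex.coe_smul]
    rw [h2, norm_smul, norm_inv, Real.norm_of_nonneg hC.le, inv_mul_le_iff₀ hC, mul_one]
    calc ‖T (v.1 i)‖ ≤ C * ‖T' (v.1 i)‖ := h _
      _ ≤ C * 1 := by gcongr; exact v.2 i
      _ = C := mul_one C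
  have h3 : w v.1 = C ^ k • w (fun i => C⁻¹ • v.1 i) := by
    have h4 : v.1 = fun i => C • (C⁻¹ • v.1 i) := by
      funext i
      rw [smul_smul, mul_inv_cancel₀ hC.ne', one_smul]
    conv_lhs => rw [h4]
    rw [w.map_smul_univ]
    simp
  rw [h3, enorm_smul, enorm_pow]
  have h5 : ‖C‖ₑ = ENNReal.ofReal C := Real.enorm_eq_ofReal hC.le
  rw [h5]
  gcongr
  exact le_iSup (fun v : {v : Fin k → Fin n → ℂ // ∀ i, ‖T (v i)‖ ≤ 1} => ‖w v.1‖ₑ)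
    ⟨fun i => C⁻¹ • v.1 i, h1⟩

theorem fsq_gram {n N N' : ℕ} (T : (Fin n → ℂ) →L[ℂ] Hil N) (T' : (Fin n → ℂ) →L[ℂ] Hil N')
    (C : ℝ) (hC : 0 < C) (h : ∀ v, ‖T v‖ ≤ C * ‖T' v‖) :
    ‖gram T‖ ≤ C ^ (2 * n) * ‖gram T'‖ := by
  rw [fsq_gram_eq, fsq_gram_eq, pow_mul]
  refine fsq_det_gram_mono _ _ _ fun x => ?_
  rw [← fsq_apply, ← fsq_apply, ← mul_pow]
  gcongr
  exact h x

theorem fsq_nrm_comp {n N k : ℕ} (T : (Fin n → ℂ) →L[ℂ] Hil N)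
    (B : (Fin n → ℂ) →L[ℂ] (Fin n → ℂ)) (w : (Fin n → ℂ) [⋀^Fin k]→L[ℝ] ℂ) :
    nrm (T.comp B) (w.compContinuousLinearMap (B.restrictScalars ℝ)) ≤ nrm T w := by
  refine iSup_le fun v => ?_
  exact le_iSup (fun v : {v : Fin k → Fin n → ℂ // ∀ i, ‖T (v i)‖ ≤ 1} => ‖w v.1‖ₑ)
    ⟨fun i => B (v.1 i), v.2⟩

theorem fsq_gram_comp' {n N : ℕ} (T : (Fin n → ℂ) →L[ℂ] Hil N)
    (B : (Fin n → ℂ) →L[ℂ] (Fin n → ℂ)) :
    ‖gram (T.comp B)‖ = ‖B.det‖ ^ 2 * ‖gram T‖ := by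
  have h := fsq_det_gram_comp (fun i : Fin n => T (Pi.single i 1))
    (LinearMap.toMatrix' (B : (Fin n → ℂ) →ₗ[ℂ] (Fin n → ℂ)))
  rw [LinearMap.det_toMatrix'] at h
  rw [fsq_gram_eq, fsq_gram_eq, ← h]
  congr 3
  funext i
  rw [ContinuousLinearMap.comp_apply, fsq_apply T]
  rfl

/-! ### The Fubini-Study length -/

theorem fsq_fs_apply {n N : ℕ} (s : (Fin n → ℂ) → Hil N) (y v : Fin n → ℂ) :
    fs s y v = ((‖s y‖⁻¹ : ℝ) : ℂ) • (fderiv ℂ s y v - (((‖s y‖ ^ 2)⁻¹ : ℝ) : ℂ) •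
      (inner ℂ (s y) (fderiv ℂ s y v) • s y)) := rfl

theorem fsq_fs_smul {n N : ℕ} (s : (Fin n → ℂ) → Hil N) (l : (Fin n → ℂ) → ℂ) (y : Fin n → ℂ)
    (hs : DifferentiableAt ℂ s y) (hl : DifferentiableAt ℂ l y) (hs0 : s y ≠ 0) (hl0 : l y ≠ 0) :
    fs (fun z => l z • s z) y = (l y * ((‖l y‖⁻¹ : ℝ) : ℂ)) • fs s y := by
  ext1 v
  have hd : fderiv ℂ (fun z => l z • s z) y v = l y • fderiv ℂ s y v + fderiv ℂ l y v • s y := by
    rw [fderiv_fun_smul hl hs]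
    rfl
  have hS : ((‖s y‖ : ℝ) : ℂ) ≠ 0 := by exact_mod_cast norm_ne_zero_iff.2 hs0
  have hL : ((‖l y‖ : ℝ) : ℂ) ≠ 0 := by exact_mod_cast norm_ne_zero_iff.2 hl0
  have hc : (starRingEnd ℂ) (l y) * l y = ((‖l y‖ : ℝ) : ℂ) ^ 2 := by
    rw [Complex.conj_mul']
  rw [_root_.smul_apply, fsq_fs_apply, fsq_fs_apply, hd]
  simp only [inner_add_right, inner_smul_left, inner_smul_right, norm_smul]
  have hss : inner ℂ (s y) (s y) = ((‖s y‖ : ℝ) : ℂ) ^ 2 := inner_self_eq_norm_sq_to_K _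
  rw [hss]
  have hconj : (starRingEnd ℂ) (l y) = ((‖l y‖ : ℝ) : ℂ) ^ 2 / l y := by
    rw [eq_div_iff hl0, hc]
  rw [hconj]
  push_cast
  match_scalars
  · field_simp
  · field_simp
    ring

theorem fsq_norm_unit {c : ℂ} (hc : c ≠ 0) : ‖c * ((‖c‖⁻¹ : ℝ) : ℂ)‖ = 1 := by
  have h : ‖c‖ ≠ 0 := norm_ne_zero_iff.2 hc
  rw [norm_mul, Complex.norm_real, Real.norm_of_nonneg (by positivity), mul_inv_cancel₀ h]

theorem fsq_norm_fs_le {n N : ℕ} (s : (Fin n → ℂ) → Hil N) (y v : Fin n → ℂ) (hs0 : s y ≠ 0) :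
    ‖s y‖ ^ 2 * (‖s y‖ ^ 2 * ‖fs s y v‖ ^ 2) =
      ‖s y‖ ^ 2 * ‖fderiv ℂ s y v‖ ^ 2 - ‖inner ℂ (s y) (fderiv ℂ s y v)‖ ^ 2 := by
  have hS : 0 < ‖s y‖ := norm_pos_iff.2 hs0
  set w := fderiv ℂ s y v with hw
  set a : ℂ := inner ℂ (s y) w with ha
  have h1 : ‖fs s y v‖ = ‖s y‖⁻¹ * ‖w - (((‖s y‖ ^ 2)⁻¹ : ℝ) : ℂ) • (a • s y)‖ := by
    rw [fsq_fs_apply, norm_smul, Complex.norm_real, norm_inv, norm_norm]
  have h2 : ‖w - (((‖s y‖ ^ 2)⁻¹ : ℝ) : ℂ) • (a • s y)‖ ^ 2 = ‖w‖ ^ 2 - ‖a‖ ^ 2 / ‖s y‖ ^ 2 := by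
    rw [@norm_sub_sq ℂ, inner_smul_right, inner_smul_right, norm_smul, norm_smul]
    have h3 : inner ℂ w (s y) = (starRingEnd ℂ) a := by rw [ha, inner_conj_symm]
    rw [h3, Complex.mul_conj']
    have h4 : RCLike.re ((((‖s y‖ ^ 2)⁻¹ : ℝ) : ℂ) * ((‖a‖ : ℝ) : ℂ) ^ 2) =
        (‖s y‖ ^ 2)⁻¹ * ‖a‖ ^ 2 := by
      norm_cast
    rw [h4, Complex.norm_real, Real.norm_of_nonneg (by positivity)]
    field_simp
    ring
  rw [h1, mul_pow, h2]
  field_simp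

theorem fsq_aff {n N : ℕ} (s : (Fin n → ℂ) → Hil N) (j : Fin N) (y : Fin n → ℂ)
    (hs : DifferentiableAt ℂ s y) (hj : s y j ≠ 0) (v : Fin n → ℂ) :
    ‖fs s y v‖ ≤ ‖fderiv ℂ (fun z => (s z j)⁻¹ • s z) y v‖ ∧
    ‖fderiv ℂ (fun z => (s z j)⁻¹ • s z) y v‖ ≤ ‖(s y j)⁻¹ • s y‖ ^ 2 * ‖fs s y v‖ := by
  have hs0 : s y ≠ 0 := by
    intro h
    rw [h] at hj
    exact hj rfl
  have hsj : DifferentiableAt ℂ (fun z => s z j) y := by
    exact (EuclideanSpace.proj (𝕜 := ℂ) j).differentiableAt.comp y hs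
  have hl : DifferentiableAt ℂ (fun z => (s z j)⁻¹) y := hsj.inv hj
  have hl0 : (s y j)⁻¹ ≠ 0 := inv_ne_zero hj
  set G : (Fin n → ℂ) → Hil N := fun z => (s z j)⁻¹ • s z with hG
  have hGd : DifferentiableAt ℂ G y := hl.smul hs
  have h1 : ‖fs s y v‖ = ‖fs G y v‖ := by
    have h2 := fsq_fs_smul s (fun z => (s z j)⁻¹) y hs hl hs0 hl0
    have h3 : fs G y v = ((s y j)⁻¹ * ((‖(s y j)⁻¹‖⁻¹ : ℝ) : ℂ)) • fs s y v := by
      rw [hG, h2]
      rfl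
    rw [h3, norm_smul, fsq_norm_unit hl0, one_mul]
  have hGj : ∀ᶠ z in 𝓝 y, G z j = 1 := by
    filter_upwards [hsj.continuousAt.eventually_ne hj] with z hz
    change (s z j)⁻¹ * s z j = 1
    exact inv_mul_cancel₀ hz
  have hGj1 : G y j = 1 := hGj.self_of_nhds
  have hG0 : G y ≠ 0 := by
    intro h
    rw [h] at hGj1
    exact zero_ne_one hGj1
  have hw : (fderiv ℂ G y v) j = 0 := by
    have h4 : HasFDerivAt (fun z => G z j) ((EuclideanSpace.proj (𝕜 := ℂ) j).comp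
        (fderiv ℂ G y)) y :=
      (EuclideanSpace.proj (𝕜 := ℂ) j).hasFDerivAt.comp y hGd.hasFDerivAt
    have h5 : HasFDerivAt (fun z => G z j) (0 : (Fin n → ℂ) →L[ℂ] ℂ) y :=
      (hasFDerivAt_const (1 : ℂ) y).congr_of_eventuallyEq hGj
    have h6 := congrArg (fun T => T v) (h4.unique h5)
    exact h6
  have hmain := fsq_norm_fs_le G y v hG0
  rw [h1]
  set w := fderiv ℂ G y v with hwdef
  have hGn : 1 ≤ ‖G y‖ := by
    calc (1 : ℝ) = ‖G y j‖ := by rw [hGj1, norm_one]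
      _ ≤ ‖G y‖ := PiLp.norm_apply_le _ _
  -- the inner product
  have h7 : ‖inner ℂ (G y) w‖ ^ 2 ≤ (‖G y‖ ^ 2 - 1) * ‖w‖ ^ 2 := by
    set e : Hil N := EuclideanSpace.single j (1 : ℂ) with he
    have h8 : inner ℂ e w = 0 := by
      rw [he, EuclideanSpace.inner_single_left, hw, mul_zero]
    have h9 : inner ℂ (G y) w = inner ℂ (G y - e) w := by
      rw [inner_sub_left, h8, sub_zero]
    have h10 : ‖G y - e‖ ^ 2 = ‖G y‖ ^ 2 - 1 := by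
      rw [@norm_sub_sq ℂ, he, EuclideanSpace.inner_single_right, hGj1]
      simp
      ring
    rw [h9, ← h10, ← mul_pow]
    gcongr
    exact norm_inner_le_norm _ _
  have hfs0 := norm_nonneg (fs G y v)
  have hG2 : 0 < ‖G y‖ ^ 2 := by positivity
  constructor
  · have h11 : ‖G y‖ ^ 2 * ‖fs G y v‖ ^ 2 ≤ ‖w‖ ^ 2 := by
      have h12 : ‖G y‖ ^ 2 * (‖G y‖ ^ 2 * ‖fs G y v‖ ^ 2) ≤ ‖G y‖ ^ 2 * ‖w‖ ^ 2 := by
        rw [hmain]
        nlinarith [sq_nonneg ‖inner ℂ (G y) w‖]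
      exact le_of_mul_le_mul_left h12 hG2
    have h13 : ‖fs G y v‖ ^ 2 ≤ ‖w‖ ^ 2 := by
      nlinarith [sq_nonneg ‖fs G y v‖]
    exact le_of_sq_le_sq h13 (norm_nonneg _)
  · have h14 : ‖w‖ ^ 2 ≤ ‖G y‖ ^ 2 * (‖G y‖ ^ 2 * ‖fs G y v‖ ^ 2) := by
      rw [hmain]
      nlinarith
    have h15 : ‖w‖ ^ 2 ≤ (‖G y‖ ^ 2 * ‖fs G y v‖) ^ 2 := by
      calc ‖w‖ ^ 2 ≤ ‖G y‖ ^ 2 * (‖G y‖ ^ 2 * ‖fs G y v‖ ^ 2) := h14
        _ = (‖G y‖ ^ 2 * ‖fs G y v‖) ^ 2 := by ring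
    exact le_of_sq_le_sq h15 (by positivity)

/-- FSQ. -/
theorem fsq : S_FSQ := by
  refine ⟨fun n N N' k T T' C hC h => ⟨fun w => fsq_nrm T T' C hC h w, fsq_gram T T' C hC h⟩,
    fun n N k T B => ⟨fun w => fsq_nrm_comp T B w, fsq_gram_comp' T B⟩,
    fun n N s l y hs hl hs0 hl0 => ⟨l y * ((‖l y‖⁻¹ : ℝ) : ℂ), ?_,
      fsq_fs_smul s l y hs hl hs0 hl0⟩, fun n N s j y hs hj v => fsq_aff s j y hs hj v⟩
  exact fsq_norm_unit hl0

end L2M
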