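import Pool.Agent.Work.MP_ead3fc_ag.M.Tasks

/-!
# MP_ead3fc_ag, module TR: transport of the square integral by a biholomorphic map

`tr_thm : S_TR` (the constant is `1`: the real Jacobian of a holomorphic map is the square of the
modulus of the complex one).
-/

set_option autoImplicit false

open MeasureTheory Set Filter Topology
open scoped ENNReal LinearAlgebra.Projectivization ContDiff

namespace L2M

namespace TR

/-- The norm of a form decreases under pull back by a linear map. -/
theorem nrm_comp_le {n N k : ℕ} (T : (Fin n → ℂ) →L[ℂ] Hil N)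
    (B : (Fin n → ℂ) →L[ℂ] (Fin n → ℂ)) (w : (Fin n → ℂ) [⋀^Fin k]→L[ℝ] ℂ) :
    nrm (T.comp B) (w.compContinuousLinearMap (B.restrictScalars ℝ)) ≤ nrm T w := by
  unfold nrm
  refine iSup_le fun v => ?_
  refine le_iSup_of_le ⟨fun i => B (v.1 i), fun i => v.2 i⟩ ?_
  exact le_of_eq rfl

/-- The volume density under composition with a linear map. -/
theorem gram_comp {n N : ℕ} (T : (Fin n → ℂ) →L[ℂ] Hil N)
    (B : (Fin n → ℂ) →L[ℂ] (Fin n → ℂ)) :
    ‖gram (T.comp B)‖ = ‖B.det‖ ^ 2 * ‖gram T‖ := by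
  classical
  set A : Matrix (Fin n) (Fin n) ℂ := LinearMap.toMatrix' B.toLinearMap with hA
  have hAd : A.det = B.det := LinearMap.det_toMatrix' B.toLinearMap
  have hB : ∀ i, T (B (Pi.single i 1)) = ∑ a, A a i • T (Pi.single a 1) := by
    intro i
    have h1 : B (Pi.single i 1) = ∑ a, A a i • (Pi.single a (1 : ℂ) : Fin n → ℂ) := by
      funext b
      simp [hA, LinearMap.toMatrix'_apply, Finset.sum_apply, Pi.single_apply]
    rw [h1, map_sum]
    exact Finset.sum_congr rfl fun a _ => by rw [map_smul]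
  have hM : (Matrix.of fun i j : Fin n =>
      inner ℂ ((T.comp B) (Pi.single i 1)) ((T.comp B) (Pi.single j 1))) =
      A.conjTranspose * (Matrix.of fun i j : Fin n =>
        inner ℂ (T (Pi.single i 1)) (T (Pi.single j 1))) * A := by
    ext i j
    simp only [Matrix.of_apply, ContinuousLinearMap.comp_apply, Matrix.mul_apply,
      Matrix.conjTranspose_apply]
    rw [hB i, hB j, sum_inner]
    simp only [inner_sum, inner_smul_left, inner_smul_right, Finset.sum_mul]
    rw [Finset.sum_comm]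
    refine Finset.sum_congr rfl fun b _ => Finset.sum_congr rfl fun a _ => ?_
    rw [← starRingEnd_apply]
    ring
  unfold gram
  rw [hM, Matrix.det_mul, Matrix.det_mul, Matrix.det_conjTranspose, hAd, norm_mul, norm_mul,
    norm_star]
  ring

/-- The real Jacobian of a complex linear map. -/
theorem abs_det {n : ℕ} (B : (Fin n → ℂ) →L[ℂ] (Fin n → ℂ)) :
    |(B.restrictScalars ℝ).det| = ‖B.det‖ ^ 2 := by
  have h : (B.restrictScalars ℝ).det = Complex.normSq B.det := by
    change LinearMap.det ((B.toLinearMap).restrictScalars ℝ) = _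
    rw [LinearMap.det_restrictScalars, Algebra.norm_complex_apply]
  rw [h, abs_of_nonneg (Complex.normSq_nonneg _), Complex.normSq_eq_norm_sq]

end TR

open TR

/-- TR. -/
theorem tr_thm : S_TR := by
  intro n N k Ψ K hΨ _ _ hKs
  refine ⟨1, one_pos, fun T w S hS hSK => ?_⟩
  have hd : ∀ y ∈ S, HasFDerivAt Ψ (fderiv ℂ Ψ y) y := fun y hy =>
    ((hΨ y (hKs (hSK hy))).differentiableAt
      (Ψ.open_source.mem_nhds (hKs (hSK hy)))).hasFDerivAt
  have hinj : InjOn Ψ S := Ψ.injOn.mono (hSK.trans hKs)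
  rw [ENNReal.ofReal_one, one_mul, lintegral_image_eq_lintegral_abs_det_fderiv_mul volume hS
    (fun y hy => ((hd y hy).restrictScalars ℝ).hasFDerivWithinAt) hinj]
  refine setLIntegral_mono_ae' hS (Eventually.of_forall fun y hy => ?_)
  have hR : fderiv ℝ Ψ y = (fderiv ℂ Ψ y).restrictScalars ℝ :=
    ((hd y hy).restrictScalars ℝ).fderiv
  unfold den pull
  rw [hR, abs_det]
  have h1 : nrm ((T (Ψ y)).comp (fderiv ℂ Ψ y))
      ((w (Ψ y)).compContinuousLinearMap ((fderiv ℂ Ψ y).restrictScalars ℝ)) ≤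
      nrm (T (Ψ y)) (w (Ψ y)) := nrm_comp_le _ _ _
  have h2 : ‖gram ((T (Ψ y)).comp (fderiv ℂ Ψ y))‖ₑ =
      ENNReal.ofReal (‖(fderiv ℂ Ψ y).det‖ ^ 2) * ‖gram (T (Ψ y))‖ₑ := by
    rw [← ofReal_norm, gram_comp, ENNReal.ofReal_mul (by positivity), ofReal_norm]
  rw [h2]
  refine (mul_le_mul' (pow_le_pow_left' h1 2) le_rfl).trans (le_of_eq ?_)
  ring

end L2M
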