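import Pool.Agent.Work.MP_ead3fc_ag.M.CutA
import Pool.Agent.Work.MP_ead3fc_ag.M.CutB
import Pool.Agent.Work.MP_ead3fc_ag.M.FSQ
import Pool.Agent.Work.MP_ead3fc_ag.M.TR
import Pool.Agent.Work.MP_ead3fc_ag.M.MF

/-!
# MP_ead3fc_ag, global theorem, module CUT (helper12: CutA, helper38: CutB)

`cut (h1 : S_MF) (h3 : S_CHG) : S_CUT` and `cut_thm : S_CUT`.
-/

set_option autoImplicit false

open MeasureTheory Set Filter Topology
open scoped ENNReal LinearAlgebra.Projectivization ContDiff Manifold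

namespace L2M

/-- CUT: facts about the cut-offs (the hypothesis `S_CHG` is not needed). -/
theorem cut (h1 : S_MF) (_h3 : S_CHG) : S_CUT := by
  intro M _ n N _ _ F A hl hA
  exact
    { inj := fun x y h => cut_inj F x y h
      cont := cut_cont F hl
      smooth := fun k w ψ x hψ hw => cut_smooth F hl k w ψ x hψ hw
      l2 := fun k w ψ x hψ hw => cut_l2 fsq hl hA k w ψ x hψ hw
      l2d := fun k w ψ x hψ hsm hw hdw => cut_l2d h1 fsq hl hA k w ψ x hψ hsm hw hdw }

/-- CUT. -/
theorem cut_thm : S_CUT := cut mf (chg mf fsq tr_thm)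

end L2M
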