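import Pool.Agent.Work.MP_ead3fc_ag.M.Basic
import Pool.Agent.Work.MP_0e9e72_an.SCVA

/-!
# MP_ead3fc_ag, global theorem, module CUT, first half: the embedding `Qm` (helper12)

* `Qv v i j = ‖v‖⁻² v_i conj v_j`, smooth outside zero (`contDiffOn_Qv`), `Qm (mk v) = Qv v`;
* `cut_inj`, `cut_cont`, `cut_smooth`.
-/

set_option autoImplicit false

open MeasureTheory Set Filter Topology
open scoped ENNReal LinearAlgebra.Projectivization ContDiff Manifold ComplexConjugate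

namespace L2M

/-- The matrix `v v^* / ‖v‖²`. -/
noncomputable def Qv {N : ℕ} (v : Hil N) : Fin N → Fin N → ℂ := fun i j =>
  (((‖v‖ ^ 2)⁻¹ : ℝ) : ℂ) * (v i * (starRingEnd ℂ) (v j))

theorem Qm_eq {N : ℕ} (p : ℙ ℂ (Hil N)) : Qm p = Qv p.rep := rfl

theorem Qv_smul {N : ℕ} {c : ℂ} (hc : c ≠ 0) (v : Hil N) : Qv (c • v) = Qv v := by
  funext i j
  have hC : ((‖c‖ : ℝ) : ℂ) ≠ 0 := by exact_mod_cast norm_ne_zero_iff.2 hc
  have h1 : c * (starRingEnd ℂ) c = ((‖c‖ : ℝ) : ℂ) ^ 2 := Complex.mul_conj' c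
  have h2 : (c • v) i = c * v i := rfl
  have h3 : (c • v) j = c * v j := rfl
  unfold Qv
  rw [h2, h3, norm_smul, map_mul, mul_pow, mul_inv]
  push_cast
  calc (((‖c‖ : ℝ) : ℂ) ^ 2)⁻¹ * (((‖v‖ : ℝ) : ℂ) ^ 2)⁻¹ *
        (c * v i * ((starRingEnd ℂ) c * (starRingEnd ℂ) (v j)))
      = (((‖c‖ : ℝ) : ℂ) ^ 2)⁻¹ * (c * (starRingEnd ℂ) c) *
        ((((‖v‖ : ℝ) : ℂ) ^ 2)⁻¹ * (v i * (starRingEnd ℂ) (v j))) := by ring
    _ = (((‖v‖ : ℝ) : ℂ) ^ 2)⁻¹ * (v i * (starRingEnd ℂ) (v j)) := by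
        rw [h1, inv_mul_cancel₀ (pow_ne_zero 2 hC), one_mul]

/-- `Qm` does not depend on the representative. -/
theorem Qm_mk_eq {N : ℕ} {v : Hil N} (h : v ≠ 0) : Qm (Projectivization.mk ℂ v h) = Qv v := by
  rw [Qm_eq]
  obtain ⟨a, ha⟩ := Projectivization.exists_smul_eq_mk_rep ℂ v h
  rw [← ha]
  exact Qv_smul a.ne_zero v

theorem Qm_mk {N : ℕ} {v : Hil N} (h : v ≠ 0) (i j : Fin N) :
    Qm (Projectivization.mk ℂ v h) i j =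
      (((‖v‖ ^ 2)⁻¹ : ℝ) : ℂ) * (v i * (starRingEnd ℂ) (v j)) := by
  rw [Qm_mk_eq]
  rfl

theorem Qv_inj {N : ℕ} {v w : Hil N} (hv : v ≠ 0) (hw : w ≠ 0) (h : Qv v = Qv w) :
    ∃ c : ℂ, c • v = w := by
  have h1 : ∃ j, w j ≠ 0 := by
    by_contra h2
    push Not at h2
    exact hw (PiLp.ext h2)
  obtain ⟨j, hj⟩ := h1
  have hj' : (starRingEnd ℂ) (w j) ≠ 0 := by
    rwa [Ne, map_eq_zero]
  have hW : ((‖w‖ : ℝ) : ℂ) ≠ 0 := by exact_mod_cast norm_ne_zero_iff.2 hw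
  have hV : ((‖v‖ : ℝ) : ℂ) ≠ 0 := by exact_mod_cast norm_ne_zero_iff.2 hv
  refine ⟨((‖w‖ : ℝ) : ℂ) ^ 2 * (((‖v‖ : ℝ) : ℂ) ^ 2)⁻¹ * (starRingEnd ℂ) (v j) *
    ((starRingEnd ℂ) (w j))⁻¹, PiLp.ext fun i => ?_⟩
  have h3 := congrFun (congrFun h i) j
  unfold Qv at h3
  push_cast at h3
  change _ * v i = w i
  have h4 : w i * (starRingEnd ℂ) (w j) = ((‖w‖ : ℝ) : ℂ) ^ 2 *
      ((((‖v‖ : ℝ) : ℂ) ^ 2)⁻¹ * (v i * (starRingEnd ℂ) (v j))) := by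
    rw [h3, ← mul_assoc, mul_inv_cancel₀ (pow_ne_zero 2 hW), one_mul]
  calc ((‖w‖ : ℝ) : ℂ) ^ 2 * (((‖v‖ : ℝ) : ℂ) ^ 2)⁻¹ * (starRingEnd ℂ) (v j) *
        ((starRingEnd ℂ) (w j))⁻¹ * v i
      = (((‖w‖ : ℝ) : ℂ) ^ 2 * ((((‖v‖ : ℝ) : ℂ) ^ 2)⁻¹ * (v i * (starRingEnd ℂ) (v j)))) *
        ((starRingEnd ℂ) (w j))⁻¹ := by ring
    _ = w i := by rw [← h4, mul_assoc, mul_inv_cancel₀ hj', mul_one]

/-- `Qm` is injective. -/
theorem Qm_injective {N : ℕ} : Function.Injective (Qm (N := N)) := by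
  intro p q h
  rw [Qm_eq, Qm_eq] at h
  obtain ⟨c, hc⟩ := Qv_inj p.rep_nonzero q.rep_nonzero h
  rw [← p.mk_rep, ← q.mk_rep, Projectivization.mk_eq_mk_iff']
  refine ⟨c⁻¹, ?_⟩
  have hc0 : c ≠ 0 := by
    rintro rfl
    rw [zero_smul] at hc
    exact q.rep_nonzero hc.symm
  rw [← hc, smul_smul, inv_mul_cancel₀ hc0, one_smul]

/-- `Qv` is smooth outside zero. -/
theorem contDiffAt_Qv {N : ℕ} {v : Hil N} (hv : v ≠ 0) : ContDiffAt ℝ ∞ (Qv (N := N)) v := by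
  refine contDiffAt_pi.2 fun i => contDiffAt_pi.2 fun j => ?_
  have h1 : ContDiffAt ℝ ∞ (fun v : Hil N => (‖v‖ ^ 2)⁻¹) v :=
    (contDiff_norm_sq ℂ).contDiffAt.inv (pow_ne_zero 2 (norm_ne_zero_iff.2 hv))
  have hp : ∀ l : Fin N, ContDiff ℝ ∞ (fun v : Hil N => v l) := fun l =>
    ((EuclideanSpace.proj (𝕜 := ℂ) l : Hil N →L[ℂ] ℂ).restrictScalars ℝ).contDiff
  have h2 : ContDiffAt ℝ ∞ (fun v : Hil N => (((‖v‖ ^ 2)⁻¹ : ℝ) : ℂ)) v :=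
    Complex.ofRealCLM.contDiff.contDiffAt.comp v h1
  have h3 : ContDiff ℝ ∞ (fun v : Hil N => (starRingEnd ℂ) (v j)) :=
    Complex.conjCLE.contDiff.comp (hp j)
  exact h2.mul ((hp i).contDiffAt.mul h3.contDiffAt)

section man

variable {M : Type} [TopologicalSpace M] {n k N : ℕ} [ChartedSpace (Fin n → ℂ) M]

/-- `Qm ∘ F` in the chart. -/
theorem IsLift.Qm_eq {F : M → ℙ ℂ (Hil (N + 1))} {x : M} {U : Set (Fin n → ℂ)}
    {s : (Fin n → ℂ) → Hil (N + 1)} (h : IsLift F x U s) {y : Fin n → ℂ} (hy : y ∈ U) :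
    Qm (F ((chartAt (Fin n → ℂ) x).symm y)) = Qv (s y) := by
  obtain ⟨h0, h1⟩ := h.eq y hy
  rw [h1, Qm_mk_eq]

theorem IsLift.ne_zero {F : M → ℙ ℂ (Hil (N + 1))} {x : M} {U : Set (Fin n → ℂ)}
    {s : (Fin n → ℂ) → Hil (N + 1)} (h : IsLift F x U s) {y : Fin n → ℂ} (hy : y ∈ U) :
    s y ≠ 0 := (h.eq y hy).1

theorem IsLift.contDiffAt {F : M → ℙ ℂ (Hil (N + 1))} {x : M} {U : Set (Fin n → ℂ)}
    {s : (Fin n → ℂ) → Hil (N + 1)} (h : IsLift F x U s) {y : Fin n → ℂ} (hy : y ∈ U) :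
    ContDiffAt ℝ ∞ s y :=
  (SCV.contDiffAt_of_differentiableOn h.isOpen h.hol hy (n := ⊤)).restrict_scalars ℝ

/-- The cut-off in the chart is a smooth function of the lift. -/
theorem IsLift.cut_eq {F : M → ℙ ℂ (Hil (N + 1))} {x : M} {U : Set (Fin n → ℂ)}
    {s : (Fin n → ℂ) → Hil (N + 1)} (h : IsLift F x U s)
    (ψ : (Fin (N + 1) → Fin (N + 1) → ℂ) → ℝ) {y : Fin n → ℂ} (hy : y ∈ U) :
    ψ (Qm (F ((chartAt (Fin n → ℂ) x).symm y))) = ψ (Qv (s y)) := by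
  rw [h.Qm_eq hy]

/-- The cut-off in the chart is smooth. -/
theorem IsLift.contDiffAt_cut {F : M → ℙ ℂ (Hil (N + 1))} {x : M} {U : Set (Fin n → ℂ)}
    {s : (Fin n → ℂ) → Hil (N + 1)} (h : IsLift F x U s)
    {ψ : (Fin (N + 1) → Fin (N + 1) → ℂ) → ℝ} (hψ : ContDiff ℝ ∞ ψ) {y : Fin n → ℂ}
    (hy : y ∈ U) :
    ContDiffAt ℝ ∞ (fun y => ψ (Qm (F ((chartAt (Fin n → ℂ) x).symm y)))) y := by
  have h1 : ContDiffAt ℝ ∞ (fun y => ψ (Qv (s y))) y :=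
    hψ.contDiffAt.comp y ((contDiffAt_Qv (h.ne_zero hy)).comp y (h.contDiffAt hy))
  refine h1.congr_of_eventuallyEq ?_
  filter_upwards [h.isOpen.mem_nhds hy] with z hz
  exact h.cut_eq ψ hz

omit [TopologicalSpace M] in
/-- CUT, injectivity. -/
theorem cut_inj (F : M → ℙ ℂ (Hil (N + 1))) (x y : M) (h : Qm (F x) = Qm (F y)) : F x = F y :=
  Qm_injective h

/-- CUT, continuity. -/
theorem cut_cont (F : M → ℙ ℂ (Hil (N + 1)))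
    (hF : ∀ x, ∃ U s, IsLift (n := n) F x U s) : Continuous fun x => Qm (F x) := by
  rw [continuous_iff_continuousAt]
  intro x
  obtain ⟨U, s, h⟩ := hF x
  have hc : ContinuousAt (chartAt (Fin n → ℂ) x) x :=
    (chartAt (Fin n → ℂ) x).continuousAt (mem_chart_source _ x)
  have h1 : ContinuousAt (fun z => Qv (s (chartAt (Fin n → ℂ) x z))) x := by
    have h2 : ContinuousAt (fun y => Qv (s y)) (chartAt (Fin n → ℂ) x x) :=
      ((contDiffAt_Qv (h.ne_zero h.mem)).comp _ (h.contDiffAt h.mem)).continuousAt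
    exact ContinuousAt.comp (f := chartAt (Fin n → ℂ) x) h2 hc
  refine h1.congr ?_
  have h3 : ∀ᶠ z in 𝓝 x, z ∈ (chartAt (Fin n → ℂ) x).source :=
    (chartAt (Fin n → ℂ) x).open_source.mem_nhds (mem_chart_source _ x)
  have h4 : ∀ᶠ z in 𝓝 x, chartAt (Fin n → ℂ) x z ∈ U := hc (h.isOpen.mem_nhds h.mem)
  filter_upwards [h3, h4] with z hz hzU
  have h5 := h.Qm_eq hzU
  rw [(chartAt (Fin n → ℂ) x).left_inv hz] at h5
  exact h5.symm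

theorem rep_fmul (χ : M → ℝ) (w : MForm M n k) (x : M) (y : Fin n → ℂ) :
    rep x (fmul χ w) y = χ ((chartAt (Fin n → ℂ) x).symm y) • rep x w y := rfl

/-- CUT, smoothness. -/
theorem cut_smooth (F : M → ℙ ℂ (Hil (N + 1)))
    (hF : ∀ x, ∃ U s, IsLift (n := n) F x U s) (k : ℕ) (w : MForm M n k)
    (ψ : (Fin (N + 1) → Fin (N + 1) → ℂ) → ℝ) (x : M) (hψ : ContDiff ℝ ∞ ψ)
    (hw : SmoothAt w x) : SmoothAt (fmul (fun y => ψ (Qm (F y))) w) x := by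
  obtain ⟨U, s, h⟩ := hF x
  exact (h.contDiffAt_cut hψ h.mem).smul hw

end man

end L2M
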