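import Pool.Agent.Work.MP_ead3fc_ag.Defs

/-!
# MP_ead3fc_ag, global theorem: public definitions

Differential forms on a complex manifold `M` (modelled on `ℂ^n`), the Fubini-Study metric pulled
back by a holomorphic map `F : M → ℙ^N`, the `L²` complex on `M \ A` and its cohomology, and the
de Rham cohomology of `M`.
-/

set_option autoImplicit false

open MeasureTheory Set Filter Topology
open scoped ENNReal LinearAlgebra.Projectivization

namespace L2M

/-- `ℂ^N` with the Hermitian norm. -/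
abbrev Hil (N : ℕ) : Type := EuclideanSpace ℂ (Fin N)

/-- Complex valued `k`-forms on `M` (at every point in terms of the preferred chart, as in the
definition of the tangent space in Mathlib). -/
def MForm (M : Type) (n k : ℕ) : Type := M → (Fin n → ℂ) [⋀^Fin k]→L[ℝ] ℂ

noncomputable instance (M : Type) (n k : ℕ) : AddCommGroup (MForm M n k) :=
  Pi.addCommGroup

noncomputable instance (M : Type) (n k : ℕ) : Module ℂ (MForm M n k) :=
  Pi.module M (fun _ => (Fin n → ℂ) [⋀^Fin k]→L[ℝ] ℂ) ℂ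

section forms

variable {M : Type} [TopologicalSpace M] {n k N : ℕ} [ChartedSpace (Fin n → ℂ) M]

/-- The expression of the form `w` in the preferred chart at `x`. -/
noncomputable def rep (x : M) (w : MForm M n k) : L2P.Form n k := fun y =>
  (w ((chartAt (Fin n → ℂ) x).symm y)).compContinuousLinearMap
    (fderiv ℝ (chartAt (Fin n → ℂ) ((chartAt (Fin n → ℂ) x).symm y) ∘
      (chartAt (Fin n → ℂ) x).symm) y)

/-- `w` is smooth at `x`. -/
def SmoothAt (w : MForm M n k) (x : M) : Prop :=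
  ContDiffAt ℝ ((⊤ : ℕ∞) : WithTop ℕ∞) (rep x w) (chartAt (Fin n → ℂ) x x)

/-- The exterior derivative. -/
noncomputable def dM (w : MForm M n k) : MForm M n (k + 1) := fun x =>
  extDeriv (rep x w) (chartAt (Fin n → ℂ) x x)

/-- `s` is a holomorphic lift of `F` on the open set `U` of the chart at `x`. -/
structure IsLift (F : M → ℙ ℂ (Hil (N + 1))) (x : M) (U : Set (Fin n → ℂ))
    (s : (Fin n → ℂ) → Hil (N + 1)) : Prop where
  isOpen : IsOpen U
  mem : chartAt (Fin n → ℂ) x x ∈ U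
  sub : U ⊆ (chartAt (Fin n → ℂ) x).target
  hol : DifferentiableOn ℂ s U
  eq : ∀ y ∈ U, ∃ h : s y ≠ 0,
    F ((chartAt (Fin n → ℂ) x).symm y) = Projectivization.mk ℂ (s y) h

/-- The map `v ↦ ⟨a, T v⟩ a`. -/
noncomputable def along {E V : Type} [NormedAddCommGroup E] [NormedSpace ℂ E]
    [NormedAddCommGroup V] [InnerProductSpace ℂ V] (a : V) (T : E →L[ℂ] V) : E →L[ℂ] V :=
  ((innerSL ℂ a).comp T).smulRight a

/-- The part of `T` orthogonal to `a`. -/
noncomputable def orth {E V : Type} [NormedAddCommGroup E] [NormedSpace ℂ E]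
    [NormedAddCommGroup V] [InnerProductSpace ℂ V] (a : V) (T : E →L[ℂ] V) : E →L[ℂ] V :=
  T - (((‖a‖ ^ 2)⁻¹ : ℝ) : ℂ) • along a T

/-- The part of the derivative of `s` orthogonal to `s`, divided by `‖s‖`: its norm is the
Fubini-Study length of tangent vectors. -/
noncomputable def fs (s : (Fin n → ℂ) → Hil N) (y : Fin n → ℂ) : (Fin n → ℂ) →L[ℂ] Hil N :=
  ((‖s y‖⁻¹ : ℝ) : ℂ) • orth (s y) (fderiv ℂ s y)

/-- The norm of `w` for the Hermitian form `‖T v‖²`. -/
noncomputable def nrm {V : Type} [NormedAddCommGroup V] [InnerProductSpace ℂ V]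
    (T : (Fin n → ℂ) →L[ℂ] V) (w : (Fin n → ℂ) [⋀^Fin k]→L[ℝ] ℂ) : ℝ≥0∞ :=
  ⨆ v : {v : Fin k → Fin n → ℂ // ∀ i, ‖T (v i)‖ ≤ 1}, ‖w v.1‖ₑ

/-- The volume density of the Hermitian form `‖T v‖²`, up to a number of modulus one. -/
noncomputable def gram {V : Type} [NormedAddCommGroup V] [InnerProductSpace ℂ V]
    (T : (Fin n → ℂ) →L[ℂ] V) : ℂ :=
  (Matrix.of fun i j : Fin n => inner ℂ (T (Pi.single i 1)) (T (Pi.single j 1))).det

/-- `w` is square integrable near `x`, off `A`, for the metric `F^*(Fubini-Study)`. -/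
def L2Near (F : M → ℙ ℂ (Hil (N + 1))) (A : Set M) (w : MForm M n k) (x : M) : Prop :=
  ∃ U s, IsLift F x U s ∧
    ∫⁻ y in U \ (chartAt (Fin n → ℂ) x).symm ⁻¹' A,
      nrm (fs s y) (rep x w y) ^ 2 * ‖gram (fs s y)‖ₑ < ∞

/-- Smooth square integrable forms on `M \ A` (`M` compact). -/
structure SL2 (F : M → ℙ ℂ (Hil (N + 1))) (A : Set M) (w : MForm M n k) : Prop where
  smooth : ∀ x ∉ A, SmoothAt w x
  l2 : ∀ x, L2Near F A w x

/-- Closed forms in the `L²` complex of `M \ A`. -/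
noncomputable def closedL2 (F : M → ℙ ℂ (Hil (N + 1))) (A : Set M) (k : ℕ) :
    Submodule ℂ (MForm M n k) :=
  Submodule.span ℂ {w | SL2 F A w ∧ ∀ x ∉ A, dM w x = 0}

/-- Exact forms in the `L²` complex of `M \ A` (values on `A` are irrelevant). -/
noncomputable def exactL2 (F : M → ℙ ℂ (Hil (N + 1))) (A : Set M) :
    (k : ℕ) → Submodule ℂ (MForm M n k)
  | 0 => Submodule.span ℂ {w | ∀ x ∉ A, w x = 0}
  | k + 1 => Submodule.span ℂ {w | ∃ η : MForm M n k, SL2 F A η ∧ ∀ x ∉ A, dM η x = w x}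

/-- The `L²` cohomology of `M \ A`. -/
abbrev HL2 (F : M → ℙ ℂ (Hil (N + 1))) (A : Set M) (k : ℕ) : Type :=
  closedL2 (n := n) F A k ⧸ (exactL2 F A k).submoduleOf (closedL2 F A k)

/-- Closed smooth forms on `M`. -/
noncomputable def closedDR (M : Type) [TopologicalSpace M] (n : ℕ) [ChartedSpace (Fin n → ℂ) M]
    (k : ℕ) : Submodule ℂ (MForm M n k) :=
  Submodule.span ℂ {w | (∀ x, SmoothAt w x) ∧ dM w = 0}

/-- Exact smooth forms on `M`. -/
noncomputable def exactDR (M : Type) [TopologicalSpace M] (n : ℕ) [ChartedSpace (Fin n → ℂ) M] :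
    (k : ℕ) → Submodule ℂ (MForm M n k)
  | 0 => ⊥
  | k + 1 => Submodule.span ℂ {w | ∃ η : MForm M n k, (∀ x, SmoothAt η x) ∧ dM η = w}

/-- The de Rham cohomology of `M`. -/
abbrev HDR (M : Type) [TopologicalSpace M] (n : ℕ) [ChartedSpace (Fin n → ℂ) M] (k : ℕ) : Type :=
  closedDR M n k ⧸ (exactDR M n k).submoduleOf (closedDR M n k)

/-- The corank of `F` at `x` is at most one. -/
def CorankAt (F : M → ℙ ℂ (Hil (N + 1))) (x : M) : Prop :=
  ∀ U s, IsLift (n := n) F x U s →
    Module.finrank ℂ (LinearMap.ker (fs s (chartAt (Fin n → ℂ) x x)).toLinearMap) ≤ 1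

/-- `F` is an immersion at `x`. -/
def ImmAt (F : M → ℙ ℂ (Hil (N + 1))) (x : M) : Prop :=
  ∀ U s, IsLift (n := n) F x U s → Function.Injective (fs s (chartAt (Fin n → ℂ) x x))

/-- `A` is near `x` contained in the zero set of a holomorphic function which is not identically
zero near `x`. -/
def ThinAt (n : ℕ) [ChartedSpace (Fin n → ℂ) M] (A : Set M) (x : M) : Prop :=
  ∃ (V : Set (Fin n → ℂ)) (h : (Fin n → ℂ) → ℂ), IsOpen V ∧
    chartAt (Fin n → ℂ) x x ∈ V ∧ DifferentiableOn ℂ h V ∧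
    (∀ y ∈ V, (chartAt (Fin n → ℂ) x).symm y ∈ A → h y = 0) ∧
    ∃ᶠ y in 𝓝 (chartAt (Fin n → ℂ) x x), h y ≠ 0

/-- Hypotheses on `F` and `A`: `F : M → ℙ^N` is holomorphic with finite fibres and corank at most
one; `A` is closed, contained locally in the zero set of a holomorphic function which is not
identically zero, and `F` is an immersion outside `A`. -/
structure IsCorankOne (F : M → ℙ ℂ (Hil (N + 1))) (A : Set M) : Prop where
  hol : ∀ x, ∃ U s, IsLift (n := n) F x U s
  fin : ∀ x, (F ⁻¹' {F x}).Finite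
  rank : ∀ x, CorankAt (n := n) F x
  closed : IsClosed A
  thin : ∀ x ∈ A, ThinAt n A x
  imm : ∀ x ∉ A, ImmAt (n := n) F x

end forms

end L2M
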