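import Pool.Agent.Work.MP_ead3fc_ag.M.Cone

/-!
# MP_ead3fc_ag, global theorem: from the local facts to the global theorem
-/

set_option autoImplicit false

open Set Filter Topology MeasureTheory
open scoped ContDiff Manifold ENNReal LinearAlgebra.Projectivization

namespace L2M

/-- A smooth cut-off on a finite dimensional space. -/
theorem exists_cut {V : Type} [NormedAddCommGroup V] [NormedSpace ℝ V] [FiniteDimensional ℝ V]
    {K O : Set V} (hK : IsCompact K) (hO : IsOpen O) (hKO : K ⊆ O) :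
    ∃ ψ : V → ℝ, ContDiff ℝ ∞ ψ ∧ (∀ v ∈ K, ∀ᶠ u in 𝓝 v, ψ u = 1) ∧
      ∀ v ∉ O, ∀ᶠ u in 𝓝 v, ψ u = 0 := by
  haveI : ProperSpace V := FiniteDimensional.proper ℝ V
  obtain ⟨L, hL, hKL, hLO⟩ := exists_compact_between hK hO hKO
  obtain ⟨f, hf1, hf0, -⟩ := exists_contMDiffMap_one_nhds_of_subset_interior
    (n := (⊤ : ℕ∞)) (I := 𝓘(ℝ, V)) hK.isClosed hKL
  refine ⟨f, contMDiff_iff_contDiff.1 f.contMDiff, fun v hv => ?_, fun v hv => ?_⟩
  · exact (eventually_nhdsSet_iff_forall.1 hf1) v hv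
  · filter_upwards [hL.isClosed.isOpen_compl.mem_nhds fun h => hv (hLO h)] with u hu
    exact hf0 u hu

theorem csmul_zero {n k : ℕ} (c : ℂ) : c • (0 : (Fin n → ℂ) [⋀^Fin k]→L[ℝ] ℂ) = 0 :=
  ContinuousAlternatingMap.ext fun v => by
    show c • (0 : ℂ) = 0
    exact smul_zero c

section nice

variable {M : Type} [TopologicalSpace M] {n N : ℕ} [ChartedSpace (Fin n → ℂ) M]
  {F : M → ℙ ℂ (Hil (N + 1))} {A : Set M}

theorem nrm_zero {n N k : ℕ} (T : (Fin n → ℂ) →L[ℂ] Hil N) :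
    nrm T (0 : (Fin n → ℂ) [⋀^Fin k]→L[ℝ] ℂ) = 0 := by
  unfold nrm
  refine le_antisymm (iSup_le fun v => ?_) zero_le
  show ‖(0 : ℂ)‖ₑ ≤ 0
  rw [enorm_zero]

theorem l2_zero (hl : ∀ x, ∃ U s, IsLift (n := n) F x U s) (k : ℕ) (x : M) :
    L2Near F A (0 : MForm M n k) x := by
  obtain ⟨U, s, hs⟩ := hl x
  refine ⟨U, s, hs, ?_⟩
  have h1 : ∀ y, nrm (fs s y) (rep x (0 : MForm M n k) y) ^ 2 * ‖gram (fs s y)‖ₑ = 0 := by
    intro y
    have h2 : rep x (0 : MForm M n k) y = 0 := rfl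
    rw [h2, nrm_zero]
    simp
  simp only [h1]
  simp

theorem smoothAt_zero (k : ℕ) (x : M) : SmoothAt (0 : MForm M n k) x := by
  have h1 : rep x (0 : MForm M n k) = fun _ => 0 := rfl
  show ContDiffAt ℝ ∞ (rep x (0 : MForm M n k)) _
  rw [h1]
  exact contDiffAt_const

/-- General niceness: smooth on `S`, square integrable off `A` if `l`. -/
def NG (F : M → ℙ ℂ (Hil (N + 1))) (A S : Set M) (l : Prop) {k : ℕ} (w : MForm M n k) (x : M) :
    Prop :=
  ∀ᶠ y in 𝓝 x, (y ∈ S → SmoothAt w y) ∧ (l → L2Near F A w y ∧ L2Near F A (dM w) y)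

theorem NG.open {S : Set M} {l : Prop} {k : ℕ} {w : MForm M n k} {x : M} (h : NG F A S l w x) :
    ∀ᶠ y in 𝓝 x, NG F A S l w y := eventually_eventually_nhds.2 h

section

variable {S : Set M} (hS : IsOpen S) (hAS : Aᶜ ⊆ S) {l : Prop} {k : ℕ}

include hS hAS

theorem NG.congr (hL : L2Facts (n := n) F A) {w w' : MForm M n k} {x : M} (h : NG F A S l w x)
    (hw : ∀ᶠ y in 𝓝 x, y ∈ S → w y = w' y) : NG F A S l w' x := by
  filter_upwards [h, eventually_eventually_nhds.2 hw] with y h1 h2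
  refine ⟨fun hy => ?_, fun hl => ⟨?_, ?_⟩⟩
  · refine smoothAt_congr ?_ (h1.1 hy)
    filter_upwards [h2, hS.mem_nhds hy] with z h3 h4
    exact h3 h4
  · exact hL.congr k w w' y (h2.mono fun z h3 hz => h3 (hAS hz)) (h1.2 hl).1
  · refine hL.congr (k + 1) (dM w) (dM w') y ?_ (h1.2 hl).2
    filter_upwards [eventually_eventually_nhds.2 h2] with z h3 hz
    refine dM_congr ?_
    filter_upwards [h3, hS.mem_nhds (hAS hz)] with u h4 h5
    exact h4 h5

theorem NG.zero (hl : ∀ x, ∃ U s, IsLift (n := n) F x U s) (x : M) :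
    NG F A S l (0 : MForm M n k) x := by
  refine Filter.Eventually.of_forall fun y => ⟨fun _ => smoothAt_zero k y, fun _ =>
    ⟨l2_zero hl k y, ?_⟩⟩
  have h1 : dM (0 : MForm M n k) = 0 := funext fun z => Pair.dM_zero z k
  rw [h1]
  exact l2_zero hl (k + 1) y

theorem NG.add (hM : MFacts M n) (hL : L2Facts (n := n) F A) {w w' : MForm M n k} {x : M}
    (h : NG F A S l w x) (h' : NG F A S l w' x) : NG F A S l (w + w') x := by
  filter_upwards [h, h', eventually_eventually_nhds.2 h, eventually_eventually_nhds.2 h']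
    with y h1 h2 h3 h4
  have h5 : ∀ᶠ z in 𝓝 y, z ∉ A → SmoothAt w z := h3.mono fun z hz hzA => hz.1 (hAS hzA)
  have h6 : ∀ᶠ z in 𝓝 y, z ∉ A → SmoothAt w' z := h4.mono fun z hz hzA => hz.1 (hAS hzA)
  refine ⟨fun hy => (h1.1 hy).add (h2.1 hy), fun hl => ⟨?_, ?_⟩⟩
  · exact hL.add k w w' y h5 (h1.2 hl).1 (h2.2 hl).1
  · refine hL.congr (k + 1) (dM w + dM w') (dM (w + w')) y ?_ (hL.add (k + 1) (dM w) (dM w') y ?_
      (h1.2 hl).2 (h2.2 hl).2)
    · filter_upwards [h5, h6] with z h7 h8 hz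
      exact (dM_add (h7 hz) (h8 hz)).symm
    · filter_upwards [eventually_eventually_nhds.2 h3] with z h7 hz
      refine smoothAt_dM hM ?_
      filter_upwards [h7, hS.mem_nhds (hAS hz)] with u h8 h9
      exact h8.1 h9

theorem NG.smul (hL : L2Facts (n := n) F A) {w : MForm M n k} {x : M} (c : ℂ)
    (h : NG F A S l w x) : NG F A S l (c • w) x := by
  filter_upwards [h, eventually_eventually_nhds.2 h] with y h1 h3
  refine ⟨fun hy => (h1.1 hy).smul c, fun hl => ⟨hL.smul k c w y (h1.2 hl).1, ?_⟩⟩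
  refine hL.congr (k + 1) (c • dM w) (dM (c • w)) y ?_ (hL.smul (k + 1) c (dM w) y (h1.2 hl).2)
  filter_upwards [h3] with z h4 hz
  exact (dM_smul (h4.1 (hAS hz)) c).symm

theorem NG.d (hM : MFacts M n) (hL : L2Facts (n := n) F A)
    (hl : ∀ x, ∃ U s, IsLift (n := n) F x U s) {w : MForm M n k} {x : M}
    (h : NG F A S l w x) : NG F A S l (dM w) x := by
  filter_upwards [h, eventually_eventually_nhds.2 h] with y h1 h3
  refine ⟨fun hy => ?_, fun hll => ⟨(h1.2 hll).2, ?_⟩⟩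
  · refine smoothAt_dM hM ?_
    filter_upwards [h3, hS.mem_nhds hy] with z h4 h5
    exact h4.1 h5
  · refine hL.congr (k + 2) 0 (dM (dM w)) y ?_ (l2_zero hl (k + 2) y)
    filter_upwards [eventually_eventually_nhds.2 h3] with z h4 hz
    refine (dM_dM hM ?_).symm
    filter_upwards [h4, hS.mem_nhds (hAS hz)] with u h5 h6
    exact h5.1 h6

end

/-- Nice forms as a group. -/
def ngGroup {S : Set M} (hS : IsOpen S) (hAS : Aᶜ ⊆ S) (l : Prop) (hM : MFacts M n)
    (hL : L2Facts (n := n) F A) (hl : ∀ x, ∃ U s, IsLift (n := n) F x U s) (k : ℕ) (x : M) :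
    AddSubgroup (MForm M n k) where
  carrier := {w | NG F A S l w x}
  add_mem' := fun h1 h2 => NG.add hS hAS hM hL h1 h2
  zero_mem' := NG.zero hS hAS hl x
  neg_mem' := by
    intro w h
    have h1 := NG.smul hS hAS hL (-1) h
    rwa [neg_one_smul] at h1

/-- The pair of complexes: `Y` nice on `S` with `L²` condition if `l`, `X` smooth with `L²`
condition. -/
noncomputable def mkPair {S : Set M} (hS : IsOpen S) (hAS : Aᶜ ⊆ S) (l : Prop) (hM : MFacts M n)
    (hL : L2Facts (n := n) F A) (hl : ∀ x, ∃ U s, IsLift (n := n) F x U s)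
    (hC : CutFacts (n := n) F A) (hE : LocFacts (n := n) F A) (hfin : ∀ x, (F ⁻¹' {F x}).Finite)
    (exY : ∀ k (w : MForm M n (k + 1)) x, NG F A S l w x →
      (∀ᶠ y in 𝓝 x, y ∈ S → dM w y = 0) →
      ∃ η : MForm M n k, NG F A S l η x ∧ ∀ᶠ y in 𝓝 x, y ∈ S → dM η y = w y)
    (exY0 : ∀ (w : MForm M n 0) x, NG F A S l w x → (∀ᶠ y in 𝓝 x, y ∈ S → dM w y = 0) →
      ∃ c : ℂ, ∀ᶠ y in 𝓝 x, y ∈ S → w y = constM M n c y) :
    Pair M n (Fin (N + 1) → Fin (N + 1) → ℂ) (fun x => Qm (F x)) where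
  S := S
  hS := hS
  dense := fun x => (hE.dense x).mono fun y hy => hAS hy
  Y := ngGroup hS hAS l hM hL hl
  X := ngGroup isOpen_univ (subset_univ _) True hM hL hl
  Y_open := fun k x w h => NG.open h
  X_open := fun k x w h => NG.open h
  XY := by
    intro k x w h
    exact Filter.Eventually.mono h fun y hy => ⟨fun _ => hy.1 (mem_univ y), fun _ =>
      hy.2 trivial⟩
  Y_smooth := fun k x w h => Filter.Eventually.mono h fun y hy => hy.1
  X_smooth := fun k x w h => Filter.Eventually.mono h fun y hy => hy.1 (mem_univ y)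
  Y_d := fun k x w h => NG.d hS hAS hM hL hl h
  X_d := fun k x w h => NG.d isOpen_univ (subset_univ _) hM hL hl h
  Y_van := fun k x w h => NG.congr hS hAS hL (NG.zero hS hAS hl x)
    (h.mono fun y hy hyS => (hy hyS).symm)
  X_van := fun k x w h => NG.congr isOpen_univ (subset_univ _) hL
    (NG.zero isOpen_univ (subset_univ _) hl x) (h.mono fun y hy _ => hy.symm)
  cut := by
    intro K O hK hO hKO
    obtain ⟨ψ, h1, h2, h3⟩ := exists_cut hK hO hKO
    refine ⟨fun x => ψ (Qm (F x)), fun x hx => hC.cont.continuousAt.eventually (h2 _ hx), ?_, ?_⟩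
    · intro k w hw x
      by_cases hx : Qm (F x) ∈ O
      · have h4 : NG F A S l w x := hw x hx
        show NG F A S l _ x
        filter_upwards [h4, eventually_eventually_nhds.2 h4] with y h5 h6
        refine ⟨fun hy => hC.smooth k w ψ y h1 (h5.1 hy), fun hll =>
          ⟨hC.l2 k w ψ y h1 (h5.2 hll).1, hC.l2d k w ψ y h1 ?_ (h5.2 hll).1 (h5.2 hll).2⟩⟩
        filter_upwards [h6] with z h7 hz
        exact h7.1 (hAS hz)
      · refine NG.congr hS hAS hL (NG.zero hS hAS hl x) ?_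
        filter_upwards [hC.cont.continuousAt.eventually (h3 _ hx)] with y hy _
        show 0 = ψ (Qm (F y)) • w y
        rw [hy]
        exact ContinuousAlternatingMap.ext fun v => (zero_smul ℝ (w y v)).symm
    · intro k w hw x
      by_cases hx : Qm (F x) ∈ O
      · have h4 : NG F A univ True w x := hw x hx
        show NG F A univ True _ x
        filter_upwards [h4, eventually_eventually_nhds.2 h4] with y h5 h6
        refine ⟨fun hy => hC.smooth k w ψ y h1 (h5.1 hy), fun hll =>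
          ⟨hC.l2 k w ψ y h1 (h5.2 hll).1, hC.l2d k w ψ y h1 ?_ (h5.2 hll).1 (h5.2 hll).2⟩⟩
        filter_upwards [h6] with z h7 hz
        exact h7.1 (mem_univ z)
      · refine NG.congr isOpen_univ (subset_univ _) hL
          (NG.zero isOpen_univ (subset_univ _) hl x) ?_
        filter_upwards [hC.cont.continuousAt.eventually (h3 _ hx)] with y hy _
        show 0 = ψ (Qm (F y)) • w y
        rw [hy]
        exact ContinuousAlternatingMap.ext fun v => (zero_smul ℝ (w y v)).symm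
  exY := exY
  exY0 := exY0
  exX := by
    intro k w x hw hd
    obtain ⟨η, h1, h2, h3⟩ := hE.exE k w x (Filter.Eventually.mono hw fun y hy =>
      hy.1 (mem_univ y)) hd
    refine ⟨η, ?_, h3⟩
    show NG F A univ True η x
    filter_upwards [h1, h2, hw, eventually_eventually_nhds.2 h3] with y h4 h5 h6 h7
    refine ⟨fun _ => h4, fun _ => ⟨h5, ?_⟩⟩
    exact hL.congr (k + 1) w (dM η) y (h7.mono fun z hz _ => hz.symm) (h6.2 trivial).1
  constX := by
    intro c x
    show NG F A univ True _ x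
    have h1 : dM (constM M n c) = 0 := funext fun z => (hE.const c z).2.2
    filter_upwards [(hE.const c x).1] with y hy
    refine ⟨fun _ => hy, fun _ => ⟨(hE.const c y).2.1, ?_⟩⟩
    rw [h1]
    exact l2_zero hl 1 y
  dconst := fun c x => (hE.const c x).2.2
  fin := by
    intro v
    by_cases h : ∃ x, Qm (F x) = v
    · obtain ⟨x, rfl⟩ := h
      exact (hfin x).subset fun y hy => hC.inj y x hy
    · convert Set.finite_empty
      ext x
      simp only [mem_preimage, mem_singleton_iff, mem_empty_iff_false, iff_false]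
      exact fun hx => h ⟨x, hx⟩
  mf := hM

/-! ### The submodules of closed and exact forms -/

theorem SL2.add (hL : L2Facts (n := n) F A) (hA : IsClosed A) {k : ℕ} {w w' : MForm M n k}
    (h : SL2 F A w) (h' : SL2 F A w') : SL2 F A (w + w') :=
  ⟨fun x hx => (h.smooth x hx).add (h'.smooth x hx), fun x => hL.add k w w' x
    (Filter.Eventually.of_forall fun y hy => h.smooth y hy) (h.l2 x) (h'.l2 x)⟩

theorem SL2.zero (hl : ∀ x, ∃ U s, IsLift (n := n) F x U s) (k : ℕ) :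
    SL2 F A (0 : MForm M n k) :=
  ⟨fun x _ => smoothAt_zero k x, fun x => l2_zero hl k x⟩

theorem SL2.smul (hL : L2Facts (n := n) F A) {k : ℕ} {w : MForm M n k} (c : ℂ)
    (h : SL2 F A w) : SL2 F A (c • w) :=
  ⟨fun x hx => (h.smooth x hx).smul c, fun x => hL.smul k c w x (h.l2 x)⟩

theorem mem_closedL2 (hL : L2Facts (n := n) F A) (hl : ∀ x, ∃ U s, IsLift (n := n) F x U s)
    (hA : IsClosed A) {k : ℕ} {w : MForm M n k} :
    w ∈ closedL2 F A k ↔ SL2 F A w ∧ ∀ x ∉ A, dM w x = 0 := by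
  refine ⟨fun h => ?_, fun h => Submodule.subset_span h⟩
  unfold closedL2 at h
  induction h using Submodule.span_induction with
  | mem x hx => exact hx
  | zero => exact ⟨SL2.zero hl k, fun x _ => Pair.dM_zero x k⟩
  | add a b _ _ ha hb =>
    refine ⟨ha.1.add hL hA hb.1, fun x hx => ?_⟩
    rw [dM_add (ha.1.smooth x hx) (hb.1.smooth x hx), ha.2 x hx, hb.2 x hx, add_zero]
  | smul c a _ ha =>
    refine ⟨ha.1.smul hL c, fun x hx => ?_⟩
    rw [dM_smul (ha.1.smooth x hx), ha.2 x hx]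
    exact csmul_zero c

theorem mem_exactL2_succ (hL : L2Facts (n := n) F A) (hl : ∀ x, ∃ U s, IsLift (n := n) F x U s)
    (hA : IsClosed A) {k : ℕ} {w : MForm M n (k + 1)} :
    w ∈ exactL2 F A (k + 1) ↔ ∃ η : MForm M n k, SL2 F A η ∧ ∀ x ∉ A, dM η x = w x := by
  refine ⟨fun h => ?_, fun h => Submodule.subset_span h⟩
  have h' : w ∈ Submodule.span ℂ {w : MForm M n (k + 1) |
    ∃ η : MForm M n k, SL2 F A η ∧ ∀ x ∉ A, dM η x = w x} := h
  clear h
  induction h' using Submodule.span_induction with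
  | mem x hx => exact hx
  | zero => exact ⟨0, SL2.zero hl k, fun x _ => Pair.dM_zero x k⟩
  | add a b _ _ ha hb =>
    obtain ⟨η, h1, h2⟩ := ha
    obtain ⟨η', h3, h4⟩ := hb
    refine ⟨η + η', h1.add hL hA h3, fun x hx => ?_⟩
    rw [dM_add (h1.smooth x hx) (h3.smooth x hx), h2 x hx, h4 x hx]
    rfl
  | smul c a _ ha =>
    obtain ⟨η, h1, h2⟩ := ha
    refine ⟨c • η, h1.smul hL c, fun x hx => ?_⟩
    rw [dM_smul (h1.smooth x hx), h2 x hx]
    rfl

theorem mem_exactL2_zero {w : MForm M n 0} :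
    w ∈ exactL2 F A 0 ↔ ∀ x ∉ A, w x = 0 := by
  refine ⟨fun h => ?_, fun h => Submodule.subset_span h⟩
  have h' : w ∈ Submodule.span ℂ {w : MForm M n 0 | ∀ x ∉ A, w x = 0} := h
  clear h
  induction h' using Submodule.span_induction with
  | mem x hx => exact hx
  | zero => exact fun x _ => rfl
  | add a b _ _ ha hb =>
    intro x hx
    show a x + b x = 0
    rw [ha x hx, hb x hx, add_zero]
  | smul c a _ ha =>
    intro x hx
    show c • a x = 0
    rw [ha x hx, csmul_zero]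

theorem mem_closedDR {k : ℕ} {w : MForm M n k} :
    w ∈ closedDR M n k ↔ (∀ x, SmoothAt w x) ∧ dM w = 0 := by
  refine ⟨fun h => ?_, fun h => Submodule.subset_span h⟩
  unfold closedDR at h
  induction h using Submodule.span_induction with
  | mem x hx => exact hx
  | zero => exact ⟨fun x => smoothAt_zero k x, funext fun x => Pair.dM_zero x k⟩
  | add a b _ _ ha hb =>
    refine ⟨fun x => (ha.1 x).add (hb.1 x), funext fun x => ?_⟩
    rw [dM_add (ha.1 x) (hb.1 x), ha.2, hb.2]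
    exact add_zero _
  | smul c a _ ha =>
    refine ⟨fun x => (ha.1 x).smul c, funext fun x => ?_⟩
    rw [dM_smul (ha.1 x), ha.2]
    exact csmul_zero c

theorem mem_exactDR_succ {k : ℕ} {w : MForm M n (k + 1)} :
    w ∈ exactDR M n (k + 1) ↔ ∃ η : MForm M n k, (∀ x, SmoothAt η x) ∧ dM η = w := by
  refine ⟨fun h => ?_, fun h => Submodule.subset_span h⟩
  have h' : w ∈ Submodule.span ℂ {w : MForm M n (k + 1) |
    ∃ η : MForm M n k, (∀ x, SmoothAt η x) ∧ dM η = w} := h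
  clear h
  induction h' using Submodule.span_induction with
  | mem x hx => exact hx
  | zero => exact ⟨0, fun x => smoothAt_zero k x, funext fun x => Pair.dM_zero x k⟩
  | add a b _ _ ha hb =>
    obtain ⟨η, h1, h2⟩ := ha
    obtain ⟨η', h3, h4⟩ := hb
    refine ⟨η + η', fun x => (h1 x).add (h3 x), funext fun x => ?_⟩
    rw [dM_add (h1 x) (h3 x), h2, h4]
    rfl
  | smul c a _ ha =>
    obtain ⟨η, h1, h2⟩ := ha
    refine ⟨c • η, fun x => (h1 x).smul c, funext fun x => ?_⟩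
    rw [dM_smul (h1 x), h2]
    rfl

end nice

/-- Two quotients with the same classes are isomorphic. -/
theorem exists_quot_equiv {W : Type} [AddCommGroup W] [Module ℂ W] (Z1 Z2 E1 E2 : Submodule ℂ W)
    (s1 : ∀ a ∈ Z1, ∃ e ∈ Z1 ⊓ Z2, a - e ∈ E1) (s2 : ∀ a ∈ Z2, ∃ e ∈ Z1 ⊓ Z2, a - e ∈ E2)
    (hk : ∀ e ∈ Z1 ⊓ Z2, (e ∈ E1 ↔ e ∈ E2)) :
    ∃ Φ : (Z1 ⧸ E1.submoduleOf Z1) ≃ₗ[ℂ] (Z2 ⧸ E2.submoduleOf Z2),
      ∀ (w : W) (h1 : w ∈ Z1) (h2 : w ∈ Z2),
        Φ (Submodule.Quotient.mk ⟨w, h1⟩) = Submodule.Quotient.mk ⟨w, h2⟩ := by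
  set f1 : ↥(Z1 ⊓ Z2) →ₗ[ℂ] (Z1 ⧸ E1.submoduleOf Z1) :=
    (E1.submoduleOf Z1).mkQ.comp (Submodule.inclusion inf_le_left) with hf1
  set f2 : ↥(Z1 ⊓ Z2) →ₗ[ℂ] (Z2 ⧸ E2.submoduleOf Z2) :=
    (E2.submoduleOf Z2).mkQ.comp (Submodule.inclusion inf_le_right) with hf2
  have hs1 : Function.Surjective f1 := by
    intro q
    obtain ⟨⟨a, ha⟩, rfl⟩ := Submodule.Quotient.mk_surjective _ q
    obtain ⟨e, he, hae⟩ := s1 a ha
    refine ⟨⟨e, he⟩, ?_⟩
    have h1 : (⟨a, ha⟩ : Z1) - ⟨e, he.1⟩ ∈ E1.submoduleOf Z1 := hae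
    exact ((Submodule.Quotient.eq _).2 h1).symm
  have hs2 : Function.Surjective f2 := by
    intro q
    obtain ⟨⟨a, ha⟩, rfl⟩ := Submodule.Quotient.mk_surjective _ q
    obtain ⟨e, he, hae⟩ := s2 a ha
    refine ⟨⟨e, he⟩, ?_⟩
    have h1 : (⟨a, ha⟩ : Z2) - ⟨e, he.2⟩ ∈ E2.submoduleOf Z2 := hae
    exact ((Submodule.Quotient.eq _).2 h1).symm
  have hker : LinearMap.ker f1 = LinearMap.ker f2 := by
    ext ⟨e, he⟩
    have h1 : f1 ⟨e, he⟩ = 0 ↔ e ∈ E1 := Submodule.Quotient.mk_eq_zero _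
    have h2 : f2 ⟨e, he⟩ = 0 ↔ e ∈ E2 := Submodule.Quotient.mk_eq_zero _
    rw [LinearMap.mem_ker, LinearMap.mem_ker, h1, h2]
    exact hk e he
  refine ⟨(f1.quotKerEquivOfSurjective hs1).symm.trans
    ((Submodule.quotEquivOfEq _ _ hker).trans (f2.quotKerEquivOfSurjective hs2)), ?_⟩
  intro w h1 h2
  have h3 : (Submodule.Quotient.mk (⟨w, h1⟩ : Z1) : Z1 ⧸ E1.submoduleOf Z1) =
      f1.quotKerEquivOfSurjective hs1 (Submodule.Quotient.mk ⟨w, ⟨h1, h2⟩⟩) := rfl
  rw [h3, LinearEquiv.trans_apply, LinearEquiv.symm_apply_apply, LinearEquiv.trans_apply,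
    Submodule.quotEquivOfEq_mk]
  rfl

section main

variable {M : Type} [TopologicalSpace M] {n N : ℕ} [ChartedSpace (Fin n → ℂ) M]
  {F : M → ℙ ℂ (Hil (N + 1))} {A : Set M} [CompactSpace M] [T2Space M]

/-- A smooth form on `M` vanishing off `A` vanishes. -/
theorem eq_zero_of_dense (hM : MFacts M n) (hE : LocFacts (n := n) F A) {k : ℕ}
    {w : MForm M n k} (hw : ∀ x, SmoothAt w x) (h : ∀ x ∉ A, w x = 0) (x : M) : w x = 0 := by
  have h3 : ContinuousAt (rep x w) (chartAt (Fin n → ℂ) x x) := ContDiffAt.continuousAt (hw x)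
  have h4 : ∃ᶠ z in 𝓝 (chartAt (Fin n → ℂ) x x), rep x w z = 0 := by
    have h5 : ∃ᶠ z in 𝓝 x, z ∉ A ∧ z ∈ (chartAt (Fin n → ℂ) x).source :=
      (hE.dense x).and_eventually ((chartAt (Fin n → ℂ) x).open_source.mem_nhds
        (mem_chart_source _ x))
    have h6 : Tendsto (chartAt (Fin n → ℂ) x) (𝓝 x) (𝓝 (chartAt (Fin n → ℂ) x x)) :=
      (chartAt (Fin n → ℂ) x).continuousAt (mem_chart_source _ x)
    refine h6.frequently (h5.mono ?_)
    rintro z ⟨h7, h8⟩
    show (w ((chartAt (Fin n → ℂ) x).symm (chartAt (Fin n → ℂ) x z))).compContinuousLinearMap _ = 0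
    rw [(chartAt (Fin n → ℂ) x).left_inv h8, h z h7]
    rfl
  have h7 : rep x w (chartAt (Fin n → ℂ) x x) = 0 := by
    by_contra hne
    have h8 : ∀ᶠ z in 𝓝 (chartAt (Fin n → ℂ) x x), rep x w z ≠ 0 := h3.eventually_ne hne
    exact h4 h8
  rwa [hM.rep_self] at h7

/-- The global theorem from the local facts: representatives. -/
theorem global_natural (hF : IsCorankOne (n := n) F A) (hM : MFacts M n)
    (hL : L2Facts (n := n) F A) (hC : CutFacts (n := n) F A) (hE : LocFacts (n := n) F A)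
    (k : ℕ) :
    (∀ a ∈ closedL2 (n := n) F A k, ∃ e ∈ closedL2 F A k ⊓ closedDR M n k,
      a - e ∈ exactL2 F A k) ∧
    (∀ a ∈ closedDR M n k, ∃ e ∈ closedL2 F A k ⊓ closedDR M n k, a - e ∈ exactDR M n k) ∧
    (∀ e ∈ closedL2 (n := n) F A k ⊓ closedDR M n k, e ∈ exactL2 F A k ↔ e ∈ exactDR M n k) := by
  have hQ : Continuous fun x => Qm (F x) := hC.cont
  -- the pair of the `L²` complex
  let PA : Pair M n (Fin (N + 1) → Fin (N + 1) → ℂ) (fun x => Qm (F x)) :=
    mkPair hF.closed.isOpen_compl subset_rfl True hM hL hF.hol hC hE hF.fin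
      (fun k w x hw hd => by
        obtain ⟨η, h1, h2⟩ := hE.exA k w x (Filter.Eventually.mono hw fun y hy =>
          ⟨hy.1, hy.2 trivial⟩) hd
        exact ⟨η, Filter.Eventually.mono h1 fun y hy => ⟨hy.1, fun _ => hy.2⟩, h2⟩)
      (fun w x hw hd => hE.exA0 w x (Filter.Eventually.mono hw fun y hy =>
          ⟨hy.1, hy.2 trivial⟩) hd)
  -- the pair of the smooth complex
  let PE : Pair M n (Fin (N + 1) → Fin (N + 1) → ℂ) (fun x => Qm (F x)) :=
    mkPair isOpen_univ (subset_univ Aᶜ) False hM hL hF.hol hC hE hF.fin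
      (fun k w x hw hd => by
        obtain ⟨η, h1, -, h2⟩ := hE.exE k w x (Filter.Eventually.mono hw fun y hy =>
          hy.1 (mem_univ y)) (hd.mono fun y hy => hy (mem_univ y))
        exact ⟨η, Filter.Eventually.mono h1 fun y hy => ⟨fun _ => hy, fun h => h.elim⟩,
          h2.mono fun y hy _ => hy⟩)
      (fun w x hw hd => by
        obtain ⟨c, h2⟩ := hE.exE0 w x (Filter.Eventually.mono hw fun y hy =>
          hy.1 (mem_univ y)) (hd.mono fun y hy => hy (mem_univ y))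
        exact ⟨c, h2.mono fun y hy _ => hy⟩)
  -- niceness of global forms
  have hYA : ∀ {k : ℕ} {w : MForm M n k}, SL2 F A w → (∀ x ∉ A, dM w x = 0) →
      ∀ x, w ∈ PA.Y k x := by
    intro k w h1 h2 x
    refine Filter.Eventually.of_forall fun y => ⟨fun hy => h1.smooth y hy, fun _ =>
      ⟨h1.l2 y, ?_⟩⟩
    exact hL.congr (k + 1) 0 (dM w) y (Filter.Eventually.of_forall fun z hz => (h2 z hz).symm)
      (l2_zero hF.hol (k + 1) y)
  have hYA' : ∀ {k : ℕ} {w : MForm M n k} {e : MForm M n (k + 1)}, SL2 F A w →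
      (∀ x ∉ A, dM w x = e x) → (∀ x, L2Near F A e x) → ∀ x, w ∈ PA.Y k x := by
    intro k w e h1 h2 h3 x
    refine Filter.Eventually.of_forall fun y => ⟨fun hy => h1.smooth y hy, fun _ =>
      ⟨h1.l2 y, ?_⟩⟩
    exact hL.congr (k + 1) e (dM w) y (Filter.Eventually.of_forall fun z hz => (h2 z hz).symm)
      (h3 y)
  have hYE : ∀ {k : ℕ} {w : MForm M n k}, (∀ x, SmoothAt w x) → ∀ x, w ∈ PE.Y k x :=
    fun h1 x => Filter.Eventually.of_forall fun y => ⟨fun _ => h1 y, fun h => h.elim⟩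
  have hX : ∀ {k : ℕ} {w : MForm M n k}, (∀ x, SmoothAt w x) → (∀ x, L2Near F A w x) →
      dM w = 0 → ∀ x, NG F A univ True w x := by
    intro k w h1 h2 h3 x
    refine Filter.Eventually.of_forall fun y => ⟨fun _ => h1 y, fun _ => ⟨h2 y, ?_⟩⟩
    rw [h3]
    exact l2_zero hF.hol (k + 1) y
  have oX : ∀ {k : ℕ} {w : MForm M n k}, (∀ x, NG F A univ True w x) →
      (∀ x, SmoothAt w x) ∧ ∀ x, L2Near F A w x := fun h =>
    ⟨fun x => (h x).self_of_nhds.1 (mem_univ x), fun x => ((h x).self_of_nhds.2 trivial).1⟩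
  have hinf : ∀ {k : ℕ} {w : MForm M n k}, w ∈ closedL2 F A k ⊓ closedDR M n k ↔
      (∀ x, SmoothAt w x) ∧ (∀ x, L2Near F A w x) ∧ dM w = 0 := by
    intro k w
    rw [Submodule.mem_inf, mem_closedL2 hL hF.hol hF.closed, mem_closedDR]
    constructor
    · rintro ⟨⟨h1, -⟩, h2, h3⟩
      exact ⟨h2, h1.l2, h3⟩
    · rintro ⟨h1, h2, h3⟩
      exact ⟨⟨⟨fun x _ => h1 x, h2⟩, fun x _ => by rw [h3]; rfl⟩, h1, h3⟩
  refine ⟨?_, ?_, ?_⟩
  · -- surjectivity on the `L²` side
    intro a ha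
    rw [mem_closedL2 hL hF.hol hF.closed] at ha
    cases k with
    | zero =>
      obtain ⟨e, h1, h2, h3⟩ := PA.surj0 hQ (hYA ha.1 ha.2) fun x hx => ha.2 x hx
      refine ⟨e, hinf.2 ⟨(oX h1).1, (oX h1).2, funext h2⟩, ?_⟩
      rw [mem_exactL2_zero]
      intro x hx
      show a x - e x = 0
      rw [h3 x hx, sub_self]
    | succ k =>
      obtain ⟨e, b, h1, h2, h3, h4⟩ := PA.surj hQ (hYA ha.1 ha.2) fun x hx => ha.2 x hx
      refine ⟨e, hinf.2 ⟨(oX h1).1, (oX h1).2, funext h2⟩, ?_⟩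
      rw [mem_exactL2_succ hL hF.hol hF.closed]
      have hb : SL2 F A b := ⟨fun x hx => (h3 x).self_of_nhds.1 hx, fun x =>
        ((h3 x).self_of_nhds.2 trivial).1⟩
      refine ⟨-b, ?_, fun x hx => ?_⟩
      · have h5 := hb.smul hL (-1)
        rwa [neg_one_smul] at h5
      · show dM (-b) x = a x - e x
        rw [dM_neg (hb.smooth x hx), h4 x hx]
        abel
  · -- surjectivity on the smooth side
    intro a ha
    rw [mem_closedDR] at ha
    cases k with
    | zero =>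
      obtain ⟨e, h1, h2, h3⟩ := PE.surj0 hQ (hYE ha.1) fun x _ => by rw [ha.2]; rfl
      refine ⟨e, hinf.2 ⟨(oX h1).1, (oX h1).2, funext h2⟩, ?_⟩
      have h4 : a = e := funext fun x => h3 x (mem_univ x)
      rw [h4, sub_self]
      exact Submodule.zero_mem _
    | succ k =>
      obtain ⟨e, b, h1, h2, h3, h4⟩ := PE.surj hQ (hYE ha.1) fun x _ => by rw [ha.2]; rfl
      refine ⟨e, hinf.2 ⟨(oX h1).1, (oX h1).2, funext h2⟩, ?_⟩
      rw [mem_exactDR_succ]
      have hb : ∀ x, SmoothAt b x := fun x => (h3 x).self_of_nhds.1 (mem_univ x)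
      refine ⟨-b, fun x => (hb x).neg, funext fun x => ?_⟩
      show dM (-b) x = a x - e x
      rw [dM_neg (hb x), h4 x (mem_univ x)]
      abel
  · -- the kernels
    intro e he
    rw [hinf] at he
    cases k with
    | zero =>
      constructor
      · intro h
        rw [mem_exactL2_zero] at h
        have h1 : e = 0 := funext fun x => eq_zero_of_dense hM hE he.1 h x
        rw [h1]
        exact Submodule.zero_mem _
      · intro h
        have h1 : e = 0 := h
        rw [h1]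
        exact Submodule.zero_mem _
    | succ k =>
      constructor
      · intro h
        rw [mem_exactL2_succ hL hF.hol hF.closed] at h
        obtain ⟨η, h1, h2⟩ := h
        obtain ⟨f, h3, h4⟩ := PA.inj hQ (hX he.1 he.2.1 he.2.2)
          (fun x => by rw [he.2.2]; rfl) (hYA' h1 h2 he.2.1) fun x hx => h2 x hx
        rw [mem_exactDR_succ]
        exact ⟨f, (oX h3).1, funext h4⟩
      · intro h
        rw [mem_exactDR_succ] at h
        obtain ⟨η, h1, h2⟩ := h
        obtain ⟨f, h3, h4⟩ := PE.inj hQ (hX he.1 he.2.1 he.2.2)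
          (fun x => by rw [he.2.2]; rfl) (hYE h1) fun x _ => by rw [h2]
        rw [mem_exactL2_succ hL hF.hol hF.closed]
        exact ⟨f, ⟨fun x _ => (oX h3).1 x, (oX h3).2⟩, fun x _ => h4 x⟩

/-- The global theorem from the local facts. -/
theorem global_iso (hF : IsCorankOne (n := n) F A) (hM : MFacts M n)
    (hL : L2Facts (n := n) F A) (hC : CutFacts (n := n) F A) (hE : LocFacts (n := n) F A)
    (k : ℕ) :
    ∃ Φ : HL2 (n := n) F A k ≃ₗ[ℂ] HDR M n k, ∀ (w : MForm M n k) (h1 : w ∈ closedL2 F A k)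
      (h2 : w ∈ closedDR M n k),
      Φ (Submodule.Quotient.mk ⟨w, h1⟩) = Submodule.Quotient.mk ⟨w, h2⟩ := by
  obtain ⟨h1, h2, h3⟩ := global_natural hF hM hL hC hE k
  exact exists_quot_equiv _ _ _ _ h1 h2 h3

end main

end L2M
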