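import Pool.Agent.Work.MP_ead3fc_ag.M.JacA0

/-!
# MP_ead3fc_ag, module JAC, first half: the Jacobian criterion at a point of maximal rank (helper12)

`jac_local`: if a minor of maximal size of the Jacobian matrix of `P` does not vanish at `v`, then
the cone over the algebraic set `X` is the zero set of `P` near `v`.
-/

set_option autoImplicit false

open MeasureTheory Set Filter Topology
open scoped ENNReal LinearAlgebra.Projectivization

namespace L2M

/-- A minor gives a surjective derivative. -/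
theorem surj_of_jmin {N r : ℕ} (P : Fin r → MvPolynomial (Fin N) ℂ) (J : Fin r → Fin N)
    (v : Hil N) (h : ev (jmin P J) v ≠ 0) :
    Function.Surjective (ContinuousLinearMap.pi fun i => dev (P i) v : Hil N →L[ℂ] (Fin r → ℂ)) := by
  intro a
  rw [ev_jmin] at h
  set A : Matrix (Fin r) (Fin r) ℂ := Matrix.of fun i j => ev (MvPolynomial.pderiv (J j) (P i)) v
    with hA
  have hu : IsUnit A.det := isUnit_iff_ne_zero.mpr h
  refine ⟨∑ j, (A⁻¹.mulVec a) j • EuclideanSpace.single (J j) (1 : ℂ), ?_⟩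
  funext i
  rw [ContinuousLinearMap.pi_apply, map_sum]
  have h1 : ∀ j, dev (P i) v ((A⁻¹.mulVec a) j • EuclideanSpace.single (J j) (1 : ℂ)) =
      A i j * (A⁻¹.mulVec a) j := by
    intro j
    rw [map_smul, dev_apply]
    simp [hA, Matrix.of_apply, mul_comm]
  rw [Finset.sum_congr rfl fun j _ => h1 j]
  have h2 : ∑ j, A i j * (A⁻¹.mulVec a) j = (A.mulVec (A⁻¹.mulVec a)) i := rfl
  rw [h2, Matrix.mulVec_mulVec, Matrix.mul_nonsing_inv A hu, Matrix.one_mulVec]

/-- The size of a minor which does not vanish is at most the number of variables. -/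
theorem le_of_jmin {N r : ℕ} (P : Fin r → MvPolynomial (Fin N) ℂ) (J : Fin r → Fin N)
    (v : Hil N) (h : ev (jmin P J) v ≠ 0) : r ≤ N := by
  have h1 := LinearMap.finrank_le_finrank_of_surjective
    (f := (ContinuousLinearMap.pi fun i => dev (P i) v : Hil N →L[ℂ] (Fin r → ℂ)).toLinearMap)
    (surj_of_jmin P J v h)
  rwa [Module.finrank_fin_fun, finrank_euclideanSpace_fin] at h1

/-- The derivative along a curve. -/
theorem hasDerivAt_ev_comp {N : ℕ} (Q : MvPolynomial (Fin N) ℂ) {γ : ℂ → Hil N} {γ' : Hil N}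
    {t : ℂ} (h : HasDerivAt γ γ' t) : HasDerivAt (fun t => ev Q (γ t)) (dev Q (γ t) γ') t :=
  (hasStrictFDerivAt_ev Q (γ t)).hasFDerivAt.comp_hasDerivAt t h

/-- Curves in the zero set of `P` starting in `X` stay in `X`. -/
theorem curve_lem {N r : ℕ} {X : Set (ℙ ℂ (Hil (N + 1)))}
    (P : Fin r → MvPolynomial (Fin (N + 1)) ℂ) (J : Fin r → Fin (N + 1)) (hP : ∀ i, P i ∈ IX X)
    (hmax : ∀ (P' : Fin (r + 1) → MvPolynomial (Fin (N + 1)) ℂ) (J' : Fin (r + 1) → Fin (N + 1)),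
      (∀ i, P' i ∈ IX X) → ∀ (v : Hil (N + 1)) (h : v ≠ 0), Projectivization.mk ℂ v h ∈ X →
        ev (jmin P' J') v = 0)
    {γ : ℂ → Hil (N + 1)} {R : ℝ} (hR : 0 < R) (hγ : DifferentiableOn ℂ γ (Metric.ball 0 R))
    (h0 : ∀ Q ∈ IX X, ev Q (γ 0) = 0)
    (h1 : ∀ t ∈ Metric.ball (0 : ℂ) R, ∀ i, ev (P i) (γ t) = 0)
    (h2 : ∀ t ∈ Metric.ball (0 : ℂ) R, ev (jmin P J) (γ t) ≠ 0) :
    ∀ Q ∈ IX X, ∀ t ∈ Metric.ball (0 : ℂ) R, ev Q (γ t) = 0 := by
  have hopen : IsOpen (Metric.ball (0 : ℂ) R) := Metric.isOpen_ball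
  have hmem0 : (0 : ℂ) ∈ Metric.ball (0 : ℂ) R := Metric.mem_ball_self hR
  have han : ∀ Q : MvPolynomial (Fin (N + 1)) ℂ,
      AnalyticOnNhd ℂ (fun t => ev Q (γ t)) (Metric.ball 0 R) := by
    intro Q
    refine DifferentiableOn.analyticOnNhd ?_ hopen
    exact ((contDiff_ev Q (k := 1)).differentiable (by norm_num)).comp_differentiableOn hγ
  have hγan : AnalyticOnNhd ℂ γ (Metric.ball 0 R) := hγ.analyticOnNhd hopen
  have hder : ∀ t ∈ Metric.ball (0 : ℂ) R, HasDerivAt γ (deriv γ t) t := fun t ht =>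
    (hγ.differentiableAt (hopen.mem_nhds ht)).hasDerivAt
  have hker : ∀ t ∈ Metric.ball (0 : ℂ) R, ∀ i, dev (P i) (γ t) (deriv γ t) = 0 := by
    intro t ht i
    have h3 := hasDerivAt_ev_comp (P i) (hder t ht)
    have h4 : (fun t => ev (P i) (γ t)) =ᶠ[𝓝 t] fun _ => 0 := by
      filter_upwards [hopen.mem_nhds ht] with s hs
      exact h1 s hs i
    exact h3.unique ((hasDerivAt_const t (0 : ℂ)).congr_of_eventuallyEq h4)
  have hsn : ∀ Q ∈ IX X, ∀ l : Fin (N + 1),
      jmin (Fin.snoc P Q : Fin (r + 1) → MvPolynomial (Fin (N + 1)) ℂ)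
        (Fin.snoc J l : Fin (r + 1) → Fin (N + 1)) ∈ IX X := by
    intro Q hQ l
    have h5 : ∀ i, (Fin.snoc P Q : Fin (r + 1) → MvPolynomial (Fin (N + 1)) ℂ) i ∈ IX X := by
      intro i
      refine Fin.lastCases ?_ (fun i => ?_) i
      · rw [Fin.snoc_last]
        exact hQ
      · rw [Fin.snoc_castSucc]
        exact hP i
    exact ⟨jmin_mem_isHomogeneous fun i => (h5 i).1, hmax _ _ h5⟩
  have key : ∀ n : ℕ, ∀ Q ∈ IX X, (n : ℕ∞) ≤ analyticOrderAt (fun t => ev Q (γ t)) 0 := by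
    intro n
    induction n with
    | zero => intro Q _; simp
    | succ n ih =>
      intro Q hQ
      have h5 := fun l => (natCast_le_analyticOrderAt (han _ 0 hmem0)).mp (ih _ (hsn Q hQ l))
      choose g hg hgeq using h5
      have hΔan : AnalyticAt ℂ (fun t => (ev (jmin P J) (γ t))⁻¹) 0 :=
        (han _ 0 hmem0).inv (h2 0 hmem0)
      have hγ'an : AnalyticAt ℂ (deriv γ) 0 := (hγan 0 hmem0).deriv
      have h6 : (n : ℕ∞) ≤ analyticOrderAt (deriv fun t => ev Q (γ t)) 0 := by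
        rw [natCast_le_analyticOrderAt (han _ 0 hmem0).deriv]
        refine ⟨fun t => (ev (jmin P J) (γ t))⁻¹ * ∑ l, deriv γ t l * g l t, ?_, ?_⟩
        · refine hΔan.mul (Finset.analyticAt_fun_sum _ fun l _ => ?_)
          exact (((EuclideanSpace.proj l : Hil (N + 1) →L[ℂ] ℂ).analyticAt _).comp hγ'an).mul (hg l)
        · have h7 : ∀ᶠ t in 𝓝 (0 : ℂ), ∀ l, ev (jmin
              (Fin.snoc P Q : Fin (r + 1) → MvPolynomial (Fin (N + 1)) ℂ)
              (Fin.snoc J l : Fin (r + 1) → Fin (N + 1))) (γ t) = (t - 0) ^ n • g l t :=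
            eventually_all.mpr hgeq
          filter_upwards [h7, hopen.mem_nhds hmem0] with t ht htb
          have h8 := key_lin P J Q (γ t) (deriv γ t) (hker t htb)
          rw [(hasDerivAt_ev_comp Q (hder t htb)).deriv]
          have h9 : dev Q (γ t) (deriv γ t) = (ev (jmin P J) (γ t))⁻¹ *
              ∑ l, deriv γ t l * ev (jmin
              (Fin.snoc P Q : Fin (r + 1) → MvPolynomial (Fin (N + 1)) ℂ)
              (Fin.snoc J l : Fin (r + 1) → Fin (N + 1))) (γ t) := by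
            rw [h8, ← mul_assoc, inv_mul_cancel₀ (h2 t htb), one_mul]
          rw [h9]
          simp only [ht, smul_eq_mul, Finset.mul_sum]
          refine Finset.sum_congr rfl fun l _ => ?_
          ring
      have h10 := (han Q 0 hmem0).analyticOrderAt_deriv_add_one
      have h11 : (fun t => ev Q (γ t) - ev Q (γ 0)) = fun t => ev Q (γ t) := by
        funext t
        rw [h0 Q hQ, sub_zero]
      rw [h11] at h10
      rw [← h10]
      push_cast
      exact add_le_add h6 le_rfl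
  intro Q hQ t ht
  have h12 : analyticOrderAt (fun t => ev Q (γ t)) 0 = ⊤ := by
    refine ENat.eq_top_iff_forall_ge.mpr fun n => key n Q hQ
  rw [analyticOrderAt_eq_top] at h12
  exact (han Q).eqOn_zero_of_preconnected_of_eventuallyEq_zero
    (convex_ball (0 : ℂ) R).isPreconnected hmem0 h12 ht

/-- The cone over an algebraic set near a point of maximal rank. -/
theorem jac_local {N r : ℕ} {X : Set (ℙ ℂ (Hil (N + 1)))} (hX : IsAlg X)
    (P : Fin r → MvPolynomial (Fin (N + 1)) ℂ) (J : Fin r → Fin (N + 1)) (hP : ∀ i, P i ∈ IX X)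
    (hmax : ∀ (P' : Fin (r + 1) → MvPolynomial (Fin (N + 1)) ℂ) (J' : Fin (r + 1) → Fin (N + 1)),
      (∀ i, P' i ∈ IX X) → ∀ (v : Hil (N + 1)) (h : v ≠ 0), Projectivization.mk ℂ v h ∈ X →
        ev (jmin P' J') v = 0)
    (v : Hil (N + 1)) (hv : v ≠ 0) (hvX : Projectivization.mk ℂ v hv ∈ X)
    (hΔ : ev (jmin P J) v ≠ 0) :
    ∃ W : Set (Hil (N + 1)), IsOpen W ∧ v ∈ W ∧ ∀ (q : Hil (N + 1)) (hq : q ≠ 0), q ∈ W →
      (Projectivization.mk ℂ q hq ∈ X ↔ ∀ i, ev (P i) q = 0) := by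
  set P' : Hil (N + 1) →L[ℂ] (Fin r → ℂ) := ContinuousLinearMap.pi fun i => dev (P i) v with hP'
  have hsurj : Function.Surjective P' := surj_of_jmin P J v hΔ
  obtain ⟨π, hπ⟩ : ∃ π : Hil (N + 1) →L[ℂ] P'.ker, ∀ x : P'.ker, π x = x :=
    P'.ker_closedComplemented_of_finiteDimensional_range
  have hbij : Function.Bijective (P'.prod π) := by
    constructor
    · refine (injective_iff_map_eq_zero (P'.prod π)).mpr fun x hx => ?_
      have h1 : P' x = 0 := congrArg Prod.fst hx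
      have h2 : π x = 0 := congrArg Prod.snd hx
      have h3 := hπ ⟨x, h1⟩
      rw [h2] at h3
      exact (congrArg Subtype.val h3).symm
    · rintro ⟨a, b⟩
      obtain ⟨x, hx⟩ := hsurj a
      refine ⟨x + ((b - π x : P'.ker) : Hil (N + 1)), ?_⟩
      have h1 : P' ((b - π x : P'.ker) : Hil (N + 1)) = 0 := (b - π x : P'.ker).2
      refine Prod.ext ?_ ?_
      · change P' (x + ((b - π x : P'.ker) : Hil (N + 1))) = a
        rw [map_add, h1, add_zero, hx]
      · change π (x + ((b - π x : P'.ker) : Hil (N + 1))) = b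
        rw [map_add, hπ]
        abel
  set Φ' : Hil (N + 1) ≃L[ℂ] (Fin r → ℂ) × P'.ker :=
    ContinuousLinearEquiv.ofBijective (P'.prod π) (LinearMap.ker_eq_bot.mpr hbij.1)
      (LinearMap.range_eq_top.mpr hbij.2) with hΦ'
  set Φ : Hil (N + 1) → (Fin r → ℂ) × P'.ker := fun q => (fun i => ev (P i) q, π q) with hΦ
  have hΦd : HasFDerivAt Φ (Φ' : Hil (N + 1) →L[ℂ] (Fin r → ℂ) × P'.ker) v := by
    have h1 : HasFDerivAt (fun q => fun i => ev (P i) q) P' v :=
      hasFDerivAt_pi.mpr fun i => (hasStrictFDerivAt_ev (P i) v).hasFDerivAt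
    exact h1.prodMk π.hasFDerivAt
  have hΦc : ContDiffAt ℂ 1 Φ v := by
    refine ContDiffAt.prodMk ?_ π.contDiff.contDiffAt
    exact contDiffAt_pi.mpr fun i => (contDiff_ev (P i)).contDiffAt
  have hΦs : HasStrictFDerivAt Φ (Φ' : Hil (N + 1) →L[ℂ] (Fin r → ℂ) × P'.ker) v :=
    hΦc.hasStrictFDerivAt' hΦd one_ne_zero
  set σ : (Fin r → ℂ) × P'.ker → Hil (N + 1) := hΦc.localInverse hΦd one_ne_zero with hσ
  have hσv : σ (Φ v) = v := hΦc.localInverse_apply_image hΦd one_ne_zero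
  have hσc : ContDiffAt ℂ 1 σ (Φ v) := hΦc.to_localInverse hΦd one_ne_zero
  have hσr : ∀ᶠ b in 𝓝 (Φ v), Φ (σ b) = b := hΦs.eventually_right_inverse
  have hσl : ∀ᶠ q in 𝓝 v, σ (Φ q) = q := hΦs.eventually_left_inverse
  have hσd : ∀ᶠ b in 𝓝 (Φ v), DifferentiableAt ℂ σ b := by
    filter_upwards [hσc.eventually (by norm_num)] with b hb
    exact hb.differentiableAt one_ne_zero
  have hσΔ : ∀ᶠ b in 𝓝 (Φ v), ev (jmin P J) (σ b) ≠ 0 := by
    have h1 : ContinuousAt (fun b => ev (jmin P J) (σ b)) (Φ v) := by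
      refine ContinuousAt.comp (g := ev (jmin P J)) ?_ hσc.continuousAt
      exact (contDiff_ev (jmin P J) (k := 1)).continuous.continuousAt
    refine h1.eventually_ne ?_
    rw [hσv]
    exact hΔ
  obtain ⟨ε, hε, hball⟩ := Metric.eventually_nhds_iff_ball.mp (hσr.and (hσd.and hσΔ))
  have hΦ2 : ∀ᶠ q in 𝓝 v, Φ q ∈ Metric.ball (Φ v) (ε / 2) :=
    hΦc.continuousAt.eventually_mem (Metric.ball_mem_nhds _ (half_pos hε))
  obtain ⟨W, hW, hWo, hvW⟩ := eventually_nhds_iff.mp (hσl.and hΦ2)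
  refine ⟨W, hWo, hvW, fun q hq hqW => ⟨fun h i => (hP i).2 q hq h, fun h => ?_⟩⟩
  obtain ⟨hq1, hq2⟩ := hW q hqW
  obtain ⟨I, hI, hIX⟩ := hX
  rw [hIX]
  intro Q hQ
  have hQX : Q ∈ IX X := by
    refine ⟨hI Q hQ, fun u hu huX => ?_⟩
    exact (hIX u hu).mp huX Q hQ
  have hPv : ∀ i, ev (P i) v = 0 := fun i => (hP i).2 v hv hvX
  have hline : ∀ t ∈ Metric.ball (0 : ℂ) 2, Φ v + t • (Φ q - Φ v) ∈ Metric.ball (Φ v) ε := by
    intro t ht
    rw [mem_ball_zero_iff] at ht
    rw [Metric.mem_ball, dist_eq_norm] at hq2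
    rw [Metric.mem_ball, dist_eq_norm, add_sub_cancel_left, norm_smul]
    calc ‖t‖ * ‖Φ q - Φ v‖ ≤ 2 * ‖Φ q - Φ v‖ := by
          exact mul_le_mul_of_nonneg_right ht.le (norm_nonneg _)
      _ < 2 * (ε / 2) := by linarith
      _ = ε := by ring
  have h1 := curve_lem P J hP hmax (γ := fun t => σ (Φ v + t • (Φ q - Φ v))) (R := 2)
    (by norm_num) ?_ ?_ ?_ ?_ Q hQX 1 ?_
  · have h2 : Φ v + (1 : ℂ) • (Φ q - Φ v) = Φ q := by
      rw [one_smul]
      abel
    simp only [h2, hq1] at h1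
    exact h1
  · intro t ht
    refine DifferentiableAt.differentiableWithinAt ?_
    have h2 : DifferentiableAt ℂ (fun t : ℂ => Φ v + t • (Φ q - Φ v)) t :=
      (differentiableAt_const _).add (differentiableAt_id.smul_const _)
    exact DifferentiableAt.comp t (hball _ (hline t ht)).2.1 h2
  · intro Q' hQ'
    simp only [zero_smul, add_zero, hσv]
    exact hQ'.2 v hv hvX
  · intro t ht i
    have h2 := (hball _ (hline t ht)).1
    have h3 : (Φ (σ (Φ v + t • (Φ q - Φ v)))).1 i = 0 := by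
      rw [h2]
      change ev (P i) v + t * (ev (P i) q - ev (P i) v) = 0
      rw [h i, hPv i]
      ring
    exact h3
  · intro t ht
    exact (hball _ (hline t ht)).2.2
  · rw [mem_ball_zero_iff]
    norm_num

/-- The polynomial map and its derivative at a point where a minor does not vanish. -/
theorem jac_deriv {N r : ℕ} (P : Fin r → MvPolynomial (Fin N) ℂ) (J : Fin r → Fin N)
    (v : Hil N) (h : ev (jmin P J) v ≠ 0) :
    ∃ P' : Hil N →L[ℂ] (Fin r → ℂ),
      HasStrictFDerivAt (fun (q : Hil N) (i : Fin r) => ev (P i) q) P' v ∧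
        Function.Surjective P' :=
  ⟨_, hasStrictFDerivAt_pi.mpr fun i => hasStrictFDerivAt_ev (P i) v, surj_of_jmin P J v h⟩

end L2M
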