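import Pool.Agent.Work.MP_ead3fc_ag.M.JacDefs

/-!
# MP_ead3fc_ag, module JAC, first half: polynomials and their derivatives (helper12)
-/

set_option autoImplicit false

open MeasureTheory Set Filter Topology
open scoped ENNReal LinearAlgebra.Projectivization

namespace L2M

/-- The value of a polynomial at a vector. -/
noncomputable def ev {N : ℕ} (Q : MvPolynomial (Fin N) ℂ) (v : Hil N) : ℂ :=
  MvPolynomial.eval (fun i => v i) Q

/-- The homogeneous polynomials vanishing on `X`. -/
def IX {N : ℕ} (X : Set (ℙ ℂ (Hil (N + 1)))) : Set (MvPolynomial (Fin (N + 1)) ℂ) :=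
  {Q | (∃ d : ℕ, Q.IsHomogeneous d) ∧
    ∀ (v : Hil (N + 1)) (h : v ≠ 0), Projectivization.mk ℂ v h ∈ X → ev Q v = 0}

/-- A minor of the Jacobian matrix. -/
noncomputable def jmin {N r : ℕ} (P : Fin r → MvPolynomial (Fin N) ℂ) (J : Fin r → Fin N) :
    MvPolynomial (Fin N) ℂ :=
  (Matrix.of fun i j => MvPolynomial.pderiv (J j) (P i)).det

theorem jmin_isHomogeneous {N r : ℕ} {P : Fin r → MvPolynomial (Fin N) ℂ} {J : Fin r → Fin N}
    {d : Fin r → ℕ} (h : ∀ i, (P i).IsHomogeneous (d i)) :
    (jmin P J).IsHomogeneous (∑ i, (d i - 1)) := by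
  unfold jmin
  rw [Matrix.det_apply']
  refine MvPolynomial.IsHomogeneous.sum _ _ _ fun σ _ => ?_
  have h1 : (∏ i, (Matrix.of fun i j => MvPolynomial.pderiv (J j) (P i)) (σ i) i).IsHomogeneous
      (∑ i, (d (σ i) - 1)) :=
    MvPolynomial.IsHomogeneous.prod _ _ _ fun i _ => (h (σ i)).pderiv
  rw [Equiv.sum_comp σ (fun i => d i - 1)] at h1
  have h2 : ((((Equiv.Perm.sign σ : ℤˣ) : ℤ) : MvPolynomial (Fin N) ℂ)).IsHomogeneous 0 := by
    have : ((((Equiv.Perm.sign σ : ℤˣ) : ℤ) : MvPolynomial (Fin N) ℂ)) =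
        MvPolynomial.C (((Equiv.Perm.sign σ : ℤˣ) : ℤ) : ℂ) := by
      simp
    rw [this]
    exact MvPolynomial.isHomogeneous_C _ _
  simpa using h2.mul h1

theorem jmin_mem_isHomogeneous {N r : ℕ} {P : Fin r → MvPolynomial (Fin N) ℂ}
    {J : Fin r → Fin N} (h : ∀ i, ∃ d : ℕ, (P i).IsHomogeneous d) :
    ∃ d : ℕ, (jmin P J).IsHomogeneous d := by
  choose d hd using h
  exact ⟨_, jmin_isHomogeneous hd⟩

/-- Evaluation of homogeneous polynomials at multiples. -/
theorem ev_smul {N d : ℕ} {Q : MvPolynomial (Fin N) ℂ} (h : Q.IsHomogeneous d) (c : ℂ)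
    (v : Hil N) : ev Q (c • v) = c ^ d * ev Q v := by
  unfold ev
  rw [MvPolynomial.eval_eq', MvPolynomial.eval_eq', Finset.mul_sum]
  refine Finset.sum_congr rfl fun a ha => ?_
  have h1 : ∑ i, a i = d := by
    rw [h.degree_eq_sum_deg_support ha]
    refine (Finset.sum_subset (Finset.subset_univ _) fun i _ hi => ?_).symm
    simpa using hi
  have h2 : ∏ i, ((c • v) i) ^ a i = c ^ d * ∏ i, v i ^ a i := by
    rw [← h1, ← Finset.prod_pow_eq_pow_sum, ← Finset.prod_mul_distrib]
    refine Finset.prod_congr rfl fun i _ => ?_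
    rw [PiLp.smul_apply, smul_eq_mul, mul_pow]
  rw [h2]
  ring

/-- The value of a minor. -/
theorem ev_jmin {N r : ℕ} (P : Fin r → MvPolynomial (Fin N) ℂ) (J : Fin r → Fin N) (v : Hil N) :
    ev (jmin P J) v = (Matrix.of fun i j => ev (MvPolynomial.pderiv (J j) (P i)) v).det := by
  unfold ev jmin
  rw [RingHom.map_det]
  rfl

/-- The derivative of a polynomial function. -/
noncomputable def dev {N : ℕ} (Q : MvPolynomial (Fin N) ℂ) (v : Hil N) : Hil N →L[ℂ] ℂ :=
  ∑ c, ev (MvPolynomial.pderiv c Q) v • (EuclideanSpace.proj c : Hil N →L[ℂ] ℂ)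

theorem dev_apply {N : ℕ} (Q : MvPolynomial (Fin N) ℂ) (v w : Hil N) :
    dev Q v w = ∑ c, ev (MvPolynomial.pderiv c Q) v * w c := by
  unfold dev
  simp

theorem hasStrictFDerivAt_ev {N : ℕ} (Q : MvPolynomial (Fin N) ℂ) (v : Hil N) :
    HasStrictFDerivAt (ev Q) (dev Q v) v := by
  induction Q using MvPolynomial.induction_on with
  | C a =>
    have h1 : ev (MvPolynomial.C a) = fun _ : Hil N => a := by
      funext w
      simp [ev]
    have h2 : dev (MvPolynomial.C a) v = 0 := by
      ext w
      rw [dev_apply]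
      simp [ev]
    rw [h1, h2]
    exact hasStrictFDerivAt_const a v
  | add p q hp hq =>
    have h1 : ev (p + q) = fun w : Hil N => ev p w + ev q w := by
      funext w
      simp [ev]
    have h2 : dev (p + q) v = dev p v + dev q v := by
      ext w
      rw [add_apply, dev_apply, dev_apply, dev_apply,
        ← Finset.sum_add_distrib]
      refine Finset.sum_congr rfl fun c _ => ?_
      simp only [ev, map_add]
      ring
    rw [h1, h2]
    exact hp.add hq
  | mul_X p i hp =>
    have h1 : ev (p * MvPolynomial.X i) = fun w : Hil N => ev p w * w i := by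
      funext w
      simp [ev]
    have h2 : dev (p * MvPolynomial.X i) v =
        ev p v • (EuclideanSpace.proj i : Hil N →L[ℂ] ℂ) + (v i) • dev p v := by
      ext w
      rw [add_apply, smul_apply,
        smul_apply, dev_apply, dev_apply]
      have h3 : ∀ c, ev (MvPolynomial.pderiv c (p * MvPolynomial.X i)) v * w c =
          v i * (ev (MvPolynomial.pderiv c p) v * w c) + (if i = c then ev p v * w c else 0) := by
        intro c
        rw [Derivation.leibniz, MvPolynomial.pderiv_X]
        simp only [ev, smul_eq_mul, map_add, map_mul, MvPolynomial.eval_X, Pi.single_apply]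
        split_ifs with h
        · simp
          ring
        · simp
          ring
      rw [Finset.sum_congr rfl fun c _ => h3 c, Finset.sum_add_distrib, ← Finset.mul_sum]
      simp
      ring
    rw [h1, h2]
    exact hp.mul (EuclideanSpace.proj i : Hil N →L[ℂ] ℂ).hasStrictFDerivAt

theorem contDiff_ev {N : ℕ} (Q : MvPolynomial (Fin N) ℂ) {k : WithTop ℕ∞} :
    ContDiff ℂ k (ev Q) := by
  induction Q using MvPolynomial.induction_on with
  | C a =>
    have h1 : ev (MvPolynomial.C a) = fun _ : Hil N => a := by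
      funext w
      simp [ev]
    rw [h1]
    exact contDiff_const
  | add p q hp hq =>
    have h1 : ev (p + q) = fun w : Hil N => ev p w + ev q w := by
      funext w
      simp [ev]
    rw [h1]
    exact hp.add hq
  | mul_X p i hp =>
    have h1 : ev (p * MvPolynomial.X i) = fun w : Hil N => ev p w * w i := by
      funext w
      simp [ev]
    rw [h1]
    exact hp.mul (EuclideanSpace.proj i : Hil N →L[ℂ] ℂ).contDiff

/-- The key identity: bordered minors and the derivative on the kernel. -/
theorem key_lin {N r : ℕ} (P : Fin r → MvPolynomial (Fin N) ℂ) (J : Fin r → Fin N)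
    (Q : MvPolynomial (Fin N) ℂ) (v w : Hil N) (h : ∀ i, dev (P i) v w = 0) :
    ∑ l, w l * ev (jmin (Fin.snoc P Q : Fin (r + 1) → MvPolynomial (Fin N) ℂ)
      (Fin.snoc J l : Fin (r + 1) → Fin N)) v = ev (jmin P J) v * dev Q v w := by
  have h1 : ∀ l, ev (jmin (Fin.snoc P Q : Fin (r + 1) → MvPolynomial (Fin N) ℂ)
      (Fin.snoc J l : Fin (r + 1) → Fin N)) v =
      ∑ i : Fin (r + 1), (-1) ^ ((i : ℕ) + r) *
        ev (MvPolynomial.pderiv l ((Fin.snoc P Q : Fin (r + 1) → MvPolynomial (Fin N) ℂ) i)) v *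
        (Matrix.of fun (i' : Fin r) (j : Fin r) =>
          ev (MvPolynomial.pderiv (J j)
            ((Fin.snoc P Q : Fin (r + 1) → MvPolynomial (Fin N) ℂ) (i.succAbove i'))) v).det := by
    intro l
    rw [ev_jmin, Matrix.det_succ_column _ (Fin.last r)]
    refine Finset.sum_congr rfl fun i _ => ?_
    have hA : (Matrix.of fun (i : Fin (r + 1)) (j : Fin (r + 1)) =>
        ev (MvPolynomial.pderiv ((Fin.snoc J l : Fin (r + 1) → Fin N) j)
          ((Fin.snoc P Q : Fin (r + 1) → MvPolynomial (Fin N) ℂ) i)) v).submatrix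
            i.succAbove (Fin.last r).succAbove =
        Matrix.of fun (i' : Fin r) (j : Fin r) => ev (MvPolynomial.pderiv (J j)
          ((Fin.snoc P Q : Fin (r + 1) → MvPolynomial (Fin N) ℂ) (i.succAbove i'))) v := by
      ext i' j
      rw [Matrix.submatrix_apply, Matrix.of_apply, Matrix.of_apply, Fin.succAbove_last,
        Fin.snoc_castSucc]
    rw [hA, Matrix.of_apply, Fin.snoc_last, Fin.val_last]
  simp only [h1, Finset.mul_sum]
  rw [Finset.sum_comm, Fin.sum_univ_castSucc]
  have h2 : ∀ i : Fin r, ∑ l, w l * ((-1) ^ (((Fin.castSucc i : Fin (r + 1)) : ℕ) + r) *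
        ev (MvPolynomial.pderiv l
          ((Fin.snoc P Q : Fin (r + 1) → MvPolynomial (Fin N) ℂ) (Fin.castSucc i))) v *
        (Matrix.of fun (i' : Fin r) (j : Fin r) =>
          ev (MvPolynomial.pderiv (J j) ((Fin.snoc P Q : Fin (r + 1) → MvPolynomial (Fin N) ℂ)
            ((Fin.castSucc i).succAbove i'))) v).det) = 0 := by
    intro i
    have h3 := h i
    rw [dev_apply] at h3
    rw [Fin.snoc_castSucc]
    generalize (Matrix.of fun (i' : Fin r) (j : Fin r) =>
          ev (MvPolynomial.pderiv (J j) ((Fin.snoc P Q : Fin (r + 1) → MvPolynomial (Fin N) ℂ)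
            ((Fin.castSucc i).succAbove i'))) v).det = D
    have h4 : ∀ l, w l * ((-1) ^ (((Fin.castSucc i : Fin (r + 1)) : ℕ) + r) *
        ev (MvPolynomial.pderiv l (P i)) v * D) =
        ((-1) ^ (((Fin.castSucc i : Fin (r + 1)) : ℕ) + r) * D) *
          (ev (MvPolynomial.pderiv l (P i)) v * w l) := fun l => by ring
    rw [Finset.sum_congr rfl fun l _ => h4 l, ← Finset.mul_sum, h3, mul_zero]
  rw [Finset.sum_eq_zero fun i _ => h2 i, zero_add, dev_apply, Finset.mul_sum]
  refine Finset.sum_congr rfl fun l _ => ?_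
  rw [Fin.snoc_last, Fin.succAbove_last, ev_jmin]
  simp only [Fin.snoc_castSucc, Fin.val_last]
  rw [← two_mul, pow_mul]
  norm_num
  ring

end L2M
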