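import Pool.Agent.Work.MP_ead3fc_ag.M.VarDefs

/-!
# MP_ead3fc_ag, module JAC: the singular locus of an algebraic set (helper38)

`IsAlg X`: `X` is the common zero set of homogeneous polynomials. Statements of the two dimension
modules: `S_JACUP` (the cone over `F(M)` contains no submanifold of dimension `> n + 1`) and
`S_JACLOW` (it is not contained in a submanifold of dimension `< n + 1`).
-/

set_option autoImplicit false

open MeasureTheory Set Filter Topology
open scoped ENNReal LinearAlgebra.Projectivization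

namespace L2M

/-- `X` is the set of common zeros of a set of homogeneous polynomials. -/
def IsAlg {N : ℕ} (X : Set (ℙ ℂ (Hil (N + 1)))) : Prop :=
  ∃ I : Set (MvPolynomial (Fin (N + 1)) ℂ), (∀ P ∈ I, ∃ d : ℕ, P.IsHomogeneous d) ∧
    ∀ (v : Hil (N + 1)) (h : v ≠ 0),
      Projectivization.mk ℂ v h ∈ X ↔ ∀ P ∈ I, MvPolynomial.eval (fun i => v i) P = 0

/-- JACUP: near `v` the zero set of `P` (a submersion at `v` with values in `ℂ^r`) is contained in
the cone over the image of the compact manifold `M` of dimension `n`: then `N + 1 - r ≤ n + 1`. -/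
def S_JACUP : Prop :=
  ∀ (M : Type) [TopologicalSpace M] [CompactSpace M] (n N r : ℕ) [ChartedSpace (Fin n → ℂ) M]
    (F : M → ℙ ℂ (Hil (N + 1))), (∀ x, ∃ U s, IsLift (n := n) F x U s) →
    ∀ (v : Hil (N + 1)) (P : Hil (N + 1) → (Fin r → ℂ)) (P' : Hil (N + 1) →L[ℂ] (Fin r → ℂ)),
      HasStrictFDerivAt P P' v → Function.Surjective P' → P v = 0 →
      (∀ᶠ q in 𝓝 v, P q = 0 → ∃ h : q ≠ 0, Projectivization.mk ℂ q h ∈ Set.range F) →
      N ≤ n + r

/-- JACLOW: near `v` the cone over `F(M)` is contained in the zero set of `P`: then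
`n + 1 ≤ N + 1 - r`, if `F` has finite fibres and corank at most one. -/
def S_JACLOW : Prop :=
  ∀ (M : Type) [TopologicalSpace M] (n N r : ℕ) [ChartedSpace (Fin n → ℂ) M]
    (F : M → ℙ ℂ (Hil (N + 1))), (∀ x, ∃ U s, IsLift (n := n) F x U s) →
    (∀ x, (F ⁻¹' {F x}).Finite) →
    (∀ x U s, IsLift (n := n) F x U s →
      Module.finrank ℂ (LinearMap.ker (fs s (chartAt (Fin n → ℂ) x x)).toLinearMap) ≤ 1) →
    ∀ (v : Hil (N + 1)) (hv : v ≠ 0) (P : Hil (N + 1) → (Fin r → ℂ))
      (P' : Hil (N + 1) →L[ℂ] (Fin r → ℂ)),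
      HasStrictFDerivAt P P' v → Function.Surjective P' →
      Projectivization.mk ℂ v hv ∈ Set.range F →
      (∀ᶠ q in 𝓝 v, ∀ h : q ≠ 0, Projectivization.mk ℂ q h ∈ Set.range F → P q = 0) →
      n + r ≤ N

end L2M
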