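import Pool.Agent.Work.MP_ead3fc_ag.M.JacDefs
import Pool.Agent.Work.MP_0e9e72_an.SCVA

/-!
# MP_ead3fc_ag, module JACUP (helper38): the cone over `F(M)` has dimension at most `n + 1`
-/

set_option autoImplicit false

open MeasureTheory Set Filter Topology
open scoped ENNReal LinearAlgebra.Projectivization

namespace L2M

namespace JacUp

section coord

variable {V : Type*} [NormedAddCommGroup V] [InnerProductSpace ℂ V] [FiniteDimensional ℂ V]
  {r : ℕ}

/-- Coordinates adapted to the kernel of a surjective linear map. -/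
theorem exists_coord (P' : V →L[ℂ] (Fin r → ℂ)) (hs : Function.Surjective P') :
    ∃ e : V ≃L[ℂ] (Fin r → ℂ) × LinearMap.ker P'.toLinearMap,
      (e : V →L[ℂ] (Fin r → ℂ) × LinearMap.ker P'.toLinearMap) =
        P'.prod (LinearMap.ker P'.toLinearMap).orthogonalProjectionOnto := by
  have : CompleteSpace V := FiniteDimensional.complete ℂ V
  set T := LinearMap.ker P'.toLinearMap with hT
  set f : V →L[ℂ] (Fin r → ℂ) × T := P'.prod T.orthogonalProjectionOnto with hf
  have hinj : Function.Injective f := by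
    rw [injective_iff_map_eq_zero]
    intro x hx
    have h1 : P' x = 0 := congrArg Prod.fst hx
    have h2 : T.orthogonalProjectionOnto x = 0 := congrArg Prod.snd hx
    have h3 := T.orthogonalProjectionOnto_mem_subspace_eq_self (⟨x, h1⟩ : T)
    rw [h2] at h3
    exact (congrArg Subtype.val h3).symm
  have hsurj : Function.Surjective f := by
    rintro ⟨a, t⟩
    obtain ⟨x, hx⟩ := hs a
    refine ⟨x + ((t - T.orthogonalProjectionOnto x : T) : V), Prod.ext ?_ ?_⟩
    · show P' _ = a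
      rw [map_add, hx]
      have h1 : P' ((t - T.orthogonalProjectionOnto x : T) : V) = 0 :=
        (t - T.orthogonalProjectionOnto x).2
      rw [h1, add_zero]
    · show T.orthogonalProjectionOnto _ = t
      rw [map_add, T.orthogonalProjectionOnto_mem_subspace_eq_self]
      abel
  refine ⟨ContinuousLinearEquiv.ofBijective f (LinearMap.ker_eq_bot.2 hinj)
    (LinearMap.range_eq_top.2 hsurj), ?_⟩
  exact ContinuousLinearMap.ext fun x => rfl

/-- The dimension of the kernel. -/
theorem finrank_ker (P' : V →L[ℂ] (Fin r → ℂ)) (hs : Function.Surjective P') :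
    r + Module.finrank ℂ (LinearMap.ker P'.toLinearMap) = Module.finrank ℂ V := by
  have h1 := LinearMap.finrank_range_add_finrank_ker P'.toLinearMap
  have h2 : LinearMap.range P'.toLinearMap = ⊤ := LinearMap.range_eq_top.2 hs
  rw [h2, finrank_top, Module.finrank_fin_fun] at h1
  exact h1

end coord

section main

variable {M : Type} [TopologicalSpace M] {n N : ℕ} [ChartedSpace (Fin n → ℂ) M]
  {F : M → ℙ ℂ (Hil (N + 1))}

/-- The cone over the image of a chart has dimension at most `n + 1`. -/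
theorem dimH_chart {E : Type*} [NormedAddCommGroup E] [NormedSpace ℂ E]
    (π : Hil (N + 1) →L[ℂ] E) {U : Set (Fin n → ℂ)} (hU : IsOpen U)
    {s : (Fin n → ℂ) → Hil (N + 1)} (hs : DifferentiableOn ℂ s U) {y : Fin n → ℂ} {ρ : ℝ}
    (hρ : Metric.ball y ρ ⊆ U) :
    dimH ((fun z : ℂ × (Fin n → ℂ) => π (z.1 • s z.2)) '' (univ ×ˢ Metric.ball y ρ)) ≤
      ((2 * (n + 1) : ℕ) : ℝ≥0∞) := by
  have h1 : ContDiffOn ℝ 1 (fun z : ℂ × (Fin n → ℂ) => π (z.1 • s z.2))
      (univ ×ˢ Metric.ball y ρ) := by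
    rintro ⟨a, z⟩ ⟨-, hz⟩
    have h2 : ContDiffAt ℂ 1 s z := SCV.contDiffAt_of_differentiableOn hU hs (hρ hz) (n := 1)
    have h3 : ContDiffAt ℂ 1 (fun z : ℂ × (Fin n → ℂ) => s z.2) (a, z) :=
      ContDiffAt.comp (a, z) h2 contDiffAt_snd
    have h4 : ContDiffAt ℂ 1 (fun z : ℂ × (Fin n → ℂ) => π (z.1 • s z.2)) (a, z) :=
      π.contDiff.contDiffAt.comp _ (contDiffAt_fst.smul h3)
    exact (h4.restrict_scalars ℝ).contDiffWithinAt
  refine (h1.dimH_image_le (convex_univ.prod (convex_ball y ρ)) subset_rfl).trans ?_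
  refine (dimH_mono (subset_univ _)).trans (le_of_eq ?_)
  rw [Real.dimH_univ_eq_finrank]
  congr 1
  rw [finrank_real_of_complex, Module.finrank_prod, Module.finrank_self, Module.finrank_fin_fun]
  ring

end main

end JacUp

/-- JACUP. -/
theorem jacup : S_JACUP := by
  intro M _ _ n N r _ F hl v P P' hP hs hv0 hev
  set T := LinearMap.ker P'.toLinearMap with hT
  set π : Hil (N + 1) →L[ℂ] T := T.orthogonalProjectionOnto with hπ
  obtain ⟨e, he⟩ := JacUp.exists_coord P' hs
  have hg : HasStrictFDerivAt (fun x => (P x, π x))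
      (e : Hil (N + 1) →L[ℂ] (Fin r → ℂ) × T) v := by
    rw [he]
    exact hP.prodMk π.hasStrictFDerivAt
  -- the set of values of the projection on the cone
  set S : Set T := {z | ∃ q : Hil (N + 1), (∃ h : q ≠ 0, Projectivization.mk ℂ q h ∈ Set.range F) ∧
    π q = z} with hS
  have hSn : S ∈ 𝓝 (π v) := by
    have h1 : ContinuousAt (fun z : T => hg.localInverse _ _ _ ((0 : Fin r → ℂ), z)) (π v) := by
      have h2 : ContinuousAt (hg.localInverse _ _ _) ((0 : Fin r → ℂ), π v) := by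
        have := hg.localInverse_continuousAt
        rwa [hv0] at this
      exact ContinuousAt.comp (f := fun z : T => ((0 : Fin r → ℂ), z)) h2
        (continuous_const.prodMk continuous_id).continuousAt
    have h3 : hg.localInverse _ _ _ ((0 : Fin r → ℂ), π v) = v := by
      have := hg.localInverse_apply_image
      rwa [hv0] at this
    have h4 : ∀ᶠ z : T in 𝓝 (π v), (fun x => (P x, π x))
        (hg.localInverse _ _ _ ((0 : Fin r → ℂ), z)) = ((0 : Fin r → ℂ), z) := by
      have h5 := hg.eventually_right_inverse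
      rw [hv0] at h5
      have h6 : Tendsto (fun z : T => ((0 : Fin r → ℂ), z)) (𝓝 (π v)) (𝓝 ((0 : Fin r → ℂ), π v)) :=
        (continuous_const.prodMk continuous_id).continuousAt
      exact h6.eventually h5
    have h7 : ∀ᶠ z : T in 𝓝 (π v), P (hg.localInverse _ _ _ ((0 : Fin r → ℂ), z)) = 0 →
        ∃ h : hg.localInverse _ _ _ ((0 : Fin r → ℂ), z) ≠ 0,
          Projectivization.mk ℂ (hg.localInverse _ _ _ ((0 : Fin r → ℂ), z)) h ∈
            Set.range F := by
      rw [ContinuousAt, h3] at h1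
      exact h1.eventually hev
    filter_upwards [h4, h7] with z hz hz'
    exact ⟨_, hz' (congrArg Prod.fst hz), congrArg Prod.snd hz⟩
  -- finitely many charts
  choose U s hUs using hl
  have hball : ∀ x : M, ∃ ρ : ℝ, 0 < ρ ∧ Metric.ball (chartAt (Fin n → ℂ) x x) ρ ⊆ U x :=
    fun x => Metric.isOpen_iff.1 (hUs x).isOpen _ (hUs x).mem
  choose ρ hρ0 hρ using hball
  have hnb : ∀ x ∈ (univ : Set M), (chartAt (Fin n → ℂ) x).source ∩
      (chartAt (Fin n → ℂ) x) ⁻¹' Metric.ball (chartAt (Fin n → ℂ) x x) (ρ x) ∈ 𝓝 x := by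
    intro x _
    refine ((chartAt (Fin n → ℂ) x).isOpen_inter_preimage Metric.isOpen_ball).mem_nhds
      ⟨mem_chart_source _ x, Metric.mem_ball_self (hρ0 x)⟩
  obtain ⟨t, -, ht⟩ := isCompact_univ.elim_nhds_subcover _ hnb
  have hcov : S ⊆ ⋃ x ∈ t, (fun z : ℂ × (Fin n → ℂ) => π (z.1 • s x z.2)) ''
      (univ ×ˢ Metric.ball (chartAt (Fin n → ℂ) x x) (ρ x)) := by
    rintro z ⟨q, ⟨hq, y, hy⟩, rfl⟩
    have h1 := ht (mem_univ y)
    simp only [mem_iUnion] at h1 ⊢
    obtain ⟨x, hx, hys, hyb⟩ := h1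
    refine ⟨x, hx, ?_⟩
    obtain ⟨h0, h2⟩ := (hUs x).eq _ (hρ x hyb)
    rw [(chartAt (Fin n → ℂ) x).left_inv hys, hy] at h2
    obtain ⟨a, ha⟩ := (Projectivization.mk_eq_mk_iff' ℂ _ _ hq h0).1 h2
    refine ⟨(a, chartAt (Fin n → ℂ) x y), ⟨mem_univ _, hyb⟩, ?_⟩
    show π (a • s x (chartAt (Fin n → ℂ) x y)) = π q
    rw [ha]
  have hdim : dimH S ≤ ((2 * (n + 1) : ℕ) : ℝ≥0∞) := by
    refine (dimH_mono hcov).trans ?_
    refine (le_of_eq (dimH_bUnion (s := (↑t : Set M)) t.countable_toSet _)).trans ?_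
    exact iSup₂_le fun x _ => JacUp.dimH_chart π (hUs x).isOpen (hUs x).hol (hρ x)
  rw [Real.dimH_of_mem_nhds hSn, finrank_real_of_complex] at hdim
  have h1 : 2 * Module.finrank ℂ T ≤ 2 * (n + 1) := by exact_mod_cast hdim
  have h2 : r + Module.finrank ℂ T = Module.finrank ℂ (Hil (N + 1)) := JacUp.finrank_ker P' hs
  rw [finrank_euclideanSpace_fin] at h2
  omega

end L2M
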