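import Pool.Agent.Work.MP_ead3fc_ag.M.LocA

/-!
# MP_ead3fc_ag, global theorem: module LOC

Local exactness of the `L²` complex and of the smooth complex on `M`.
-/

set_option autoImplicit false

open MeasureTheory Set Filter Topology
open scoped ENNReal ContDiff LinearAlgebra.Projectivization Manifold

namespace L2M

namespace Loc

section gen

variable {M : Type} [TopologicalSpace M] {n N k : ℕ} [ChartedSpace (Fin n → ℂ) M]
variable {F : M → ℙ ℂ (Hil (N + 1))} {A : Set M}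


theorem lift_mono {x : M} {U V : Set (Fin n → ℂ)} {s : (Fin n → ℂ) → Hil (N + 1)}
    (h : IsLift F x U s) (hV : IsOpen V) (hVU : V ⊆ U) (hx : chartAt (Fin n → ℂ) x x ∈ V) : IsLift F x V s :=
  ⟨hV, hx, hVU.trans h.sub, h.hol.mono hVU, fun y hy => h.eq y (hVU hy)⟩

theorem aff_mono {x : M} {U V : Set (Fin n → ℂ)} {G : (Fin n → ℂ) → Hil (N + 1)}
    (h : IsAff F x U G) (hV : IsOpen V) (hVU : V ⊆ U) (hx : chartAt (Fin n → ℂ) x x ∈ V) : IsAff F x V G := by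
  obtain ⟨s, j, h1, h2, h3⟩ := h
  exact ⟨s, j, lift_mono h1 hV hVU hx, fun y hy => h2 y (hVU hy), h3⟩

theorem aff_hol {x : M} {U : Set (Fin n → ℂ)} {G : (Fin n → ℂ) → Hil (N + 1)}
    (h : IsAff F x U G) : DifferentiableOn ℂ G U := by
  obtain ⟨s, j, h1, h2, rfl⟩ := h
  have h3 : DifferentiableOn ℂ (fun y => s y j) U := by
    have h4 : (fun y => s y j) = fun y => EuclideanSpace.proj (𝕜 := ℂ) j (s y) := rfl
    rw [h4]
    exact (EuclideanSpace.proj (𝕜 := ℂ) j).differentiable.comp_differentiableOn h1.hol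
  exact (h3.inv h2).smul h1.hol

theorem fs_comp {N : ℕ} {s : (Fin n → ℂ) → Hil N} {T : (Fin n → ℂ) → (Fin n → ℂ)}
    {z : Fin n → ℂ} (hs : DifferentiableAt ℂ s (T z)) (hT : DifferentiableAt ℂ T z) :
    fs (fun y => s (T y)) z = (fs s (T z)).comp (fderiv ℂ T z) := by
  have h1 : fderiv ℂ (fun y => s (T y)) z = (fderiv ℂ s (T z)).comp (fderiv ℂ T z) :=
    fderiv_comp z hs hT
  unfold fs orth along
  rw [h1]
  ext v
  simp

theorem tr_apply (x x' : M) (z : Fin n → ℂ) : tr (n := n) x x' z = chartAt (Fin n → ℂ) x ((chartAt (Fin n → ℂ) x').symm z) := rfl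

theorem mem_tr_source (x x' : M) (z : Fin n → ℂ) :
    z ∈ (tr (n := n) x x').source ↔ z ∈ (chartAt (Fin n → ℂ) x').target ∧ (chartAt (Fin n → ℂ) x').symm z ∈ (chartAt (Fin n → ℂ) x).source := by
  unfold tr
  rw [OpenPartialHomeomorph.trans_source]
  rfl

theorem tr_symm (x x' : M) : (tr (n := n) x x').symm = tr x' x := by
  unfold tr
  rw [OpenPartialHomeomorph.trans_symm_eq_symm_trans_symm, OpenPartialHomeomorph.symm_symm]

/-- `F` is an immersion at the points of the chart at `x` off `A`. -/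
theorem inj_fs (hM : MFacts M n) (h : IsCorankOne (n := n) F A) {x : M} {U : Set (Fin n → ℂ)}
    {s : (Fin n → ℂ) → Hil (N + 1)} (hs : IsLift F x U s) {y : Fin n → ℂ} (hy : y ∈ U)
    (hyA : (chartAt (Fin n → ℂ) x).symm y ∉ A) : Function.Injective (fs s y) := by
  obtain ⟨x', hx'⟩ : ∃ x', x' = (chartAt (Fin n → ℂ) x).symm y := ⟨_, rfl⟩
  have hxs : x' ∈ (chartAt (Fin n → ℂ) x).source := by
    rw [hx']
    exact (chartAt (Fin n → ℂ) x).map_target (hs.sub hy)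
  have hp' : (chartAt (Fin n → ℂ) x').symm (chartAt (Fin n → ℂ) x' x') = x' := (chartAt (Fin n → ℂ) x').left_inv (mem_chart_source _ x')
  have hsrc : chartAt (Fin n → ℂ) x' x' ∈ (tr (n := n) x x').source :=
    (mem_tr_source _ _ _).2 ⟨mem_chart_target _ x', by rwa [hp']⟩
  have hT : tr (n := n) x x' (chartAt (Fin n → ℂ) x' x') = y := by
    rw [tr_apply, hp', hx', (chartAt (Fin n → ℂ) x).right_inv (hs.sub hy)]
  have hlift : IsLift (n := n) F x' ((tr (n := n) x x').source ∩ tr (n := n) x x' ⁻¹' U)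
      (fun z => s (tr (n := n) x x' z)) := by
    refine ⟨(tr (n := n) x x').isOpen_inter_preimage hs.isOpen, ⟨hsrc, ?_⟩, fun z hz => ?_, ?_,
      fun z hz => ?_⟩
    · rw [mem_preimage, hT]
      exact hy
    · exact ((mem_tr_source _ _ _).1 hz.1).1
    · exact hs.hol.comp ((hM.hol x x').mono inter_subset_left) fun z hz => hz.2
    · obtain ⟨h1, h2⟩ := hs.eq _ hz.2
      refine ⟨h1, ?_⟩
      rw [← h2, tr_apply, (chartAt (Fin n → ℂ) x).left_inv ((mem_tr_source _ _ _).1 hz.1).2]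
  have hinj := h.imm x' (by rwa [hx']) _ _ hlift
  have hdT : DifferentiableAt ℂ (tr (n := n) x x') (chartAt (Fin n → ℂ) x' x') :=
    (hM.hol x x').differentiableAt ((tr (n := n) x x').open_source.mem_nhds hsrc)
  have hds : DifferentiableAt ℂ s (tr (n := n) x x' (chartAt (Fin n → ℂ) x' x')) := by
    rw [hT]
    exact hs.hol.differentiableAt (hs.isOpen.mem_nhds hy)
  rw [fs_comp hds hdT, hT] at hinj
  -- the derivative of the transition map is surjective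
  have hy2 : y ∈ (tr (n := n) x' x).source := by
    rw [← tr_symm, OpenPartialHomeomorph.symm_source, ← hT]
    exact (tr (n := n) x x').map_source hsrc
  have hT2 : tr (n := n) x' x y = chartAt (Fin n → ℂ) x' x' := by
    rw [tr_apply, ← hx']
  have hdT2 : DifferentiableAt ℂ (tr (n := n) x' x) y :=
    (hM.hol x' x).differentiableAt ((tr (n := n) x' x).open_source.mem_nhds hy2)
  have h3 : (fderiv ℂ (tr (n := n) x x') (chartAt (Fin n → ℂ) x' x')).comp (fderiv ℂ (tr (n := n) x' x) y) =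
      ContinuousLinearMap.id ℂ (Fin n → ℂ) := by
    have h4 : (tr (n := n) x x') ∘ (tr (n := n) x' x) =ᶠ[𝓝 y] id := by
      filter_upwards [(tr (n := n) x' x).open_source.mem_nhds hy2] with z hz
      have := (tr (n := n) x' x).left_inv hz
      rw [tr_symm] at this
      exact this
    have h5 := fderiv_comp y (g := tr (n := n) x x') (f := tr (n := n) x' x)
      (by rw [hT2]; exact hdT) hdT2
    rw [hT2] at h5
    rw [← h5, h4.fderiv_eq, fderiv_id]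
  intro u v huv
  have h6 : ∀ u : Fin n → ℂ, fderiv ℂ (tr (n := n) x x') (chartAt (Fin n → ℂ) x' x')
      (fderiv ℂ (tr (n := n) x' x) y u) = u := fun u =>
    congrArg (fun T : (Fin n → ℂ) →L[ℂ] (Fin n → ℂ) => T u) h3
  have h7 : fderiv ℂ (tr (n := n) x' x) y u = fderiv ℂ (tr (n := n) x' x) y v := by
    apply hinj
    simp only [ContinuousLinearMap.comp_apply, h6, huv]
  rw [← h6 u, ← h6 v, h7]

theorem inj_G (hM : MFacts M n) (hQ : S_FSQ) (h : IsCorankOne (n := n) F A) {x : M}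
    {U : Set (Fin n → ℂ)} {G : (Fin n → ℂ) → Hil (N + 1)} (hG : IsAff F x U G)
    {y : Fin n → ℂ} (hy : y ∈ U) (hyA : (chartAt (Fin n → ℂ) x).symm y ∉ A) :
    Function.Injective (fderiv ℂ G y) := by
  obtain ⟨s, j, h1, h2, rfl⟩ := hG
  have h3 := inj_fs hM h h1 hy hyA
  rw [injective_iff_map_eq_zero] at h3 ⊢
  intro v hv
  have h4 := (hQ.2.2.2 n (N + 1) s j y (h1.hol.differentiableAt (h1.isOpen.mem_nhds hy))
    (h2 y hy) v).1
  rw [hv, norm_zero] at h4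
  exact h3 v (norm_le_zero_iff.1 h4)

theorem rank_G (hQ : S_FSQ) (h : IsCorankOne (n := n) F A) {x : M} {U : Set (Fin n → ℂ)}
    {G : (Fin n → ℂ) → Hil (N + 1)} (hG : IsAff F x U G) :
    Module.finrank ℂ (LinearMap.ker (fderiv ℂ G (chartAt (Fin n → ℂ) x x)).toLinearMap) ≤ 1 := by
  obtain ⟨s, j, h1, h2, rfl⟩ := hG
  refine le_trans (Submodule.finrank_mono ?_) (h.rank x U s h1)
  intro v hv
  have h4 := (hQ.2.2.2 n (N + 1) s j (chartAt (Fin n → ℂ) x x) (h1.hol.differentiableAt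
    (h1.isOpen.mem_nhds h1.mem)) (h2 _ h1.mem) v).1
  rw [LinearMap.mem_ker] at hv ⊢
  have hv' : fderiv ℂ (fun z => (s z j)⁻¹ • s z) (chartAt (Fin n → ℂ) x x) v = 0 := hv
  rw [hv', norm_zero] at h4
  exact norm_le_zero_iff.1 h4

theorem fibre_G (h : IsCorankOne (n := n) F A) {x : M} {U : Set (Fin n → ℂ)}
    {G : (Fin n → ℂ) → Hil (N + 1)} (hG : IsAff F x U G) :
    ∀ᶠ y in 𝓝[≠] (chartAt (Fin n → ℂ) x x), G y ≠ G (chartAt (Fin n → ℂ) x x) := by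
  obtain ⟨s, j, h1, h2, rfl⟩ := hG
  have hfin : {y | y ∈ (chartAt (Fin n → ℂ) x).target ∧ (chartAt (Fin n → ℂ) x).symm y ∈ F ⁻¹' {F x}}.Finite := by
    refine Set.Finite.of_finite_image ((h.fin x).subset ?_)
      ((chartAt (Fin n → ℂ) x).symm.injOn.mono fun y hy => hy.1)
    rintro _ ⟨y, hy, rfl⟩
    exact hy.2
  have hU : ∀ᶠ y in 𝓝[≠] (chartAt (Fin n → ℂ) x x), y ∈ U :=
    mem_nhdsWithin_of_mem_nhds (h1.isOpen.mem_nhds h1.mem)
  have hS : ∀ᶠ y in 𝓝[≠] (chartAt (Fin n → ℂ) x x),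
      y ∉ {y | y ∈ (chartAt (Fin n → ℂ) x).target ∧ (chartAt (Fin n → ℂ) x).symm y ∈ F ⁻¹' {F x}} \ {chartAt (Fin n → ℂ) x x} :=
    mem_nhdsWithin_of_mem_nhds ((hfin.subset sdiff_subset).isClosed.isOpen_compl.mem_nhds
      fun hh => hh.2 rfl)
  filter_upwards [hU, hS, self_mem_nhdsWithin] with y hyU hyS hne heq
  refine hyS ⟨⟨h1.sub hyU, ?_⟩, hne⟩
  obtain ⟨h3, h4⟩ := h1.eq y hyU
  obtain ⟨h5, h6⟩ := h1.eq _ h1.mem
  rw [(chartAt (Fin n → ℂ) x).left_inv (mem_chart_source _ x)] at h6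
  rw [mem_preimage, mem_singleton_iff, h4, h6, Projectivization.mk_eq_mk_iff']
  refine ⟨s y j * (s (chartAt (Fin n → ℂ) x x) j)⁻¹, ?_⟩
  rw [mul_smul, ← show (s y j)⁻¹ • s y = (s (chartAt (Fin n → ℂ) x x) j)⁻¹ • s (chartAt (Fin n → ℂ) x x) from heq, smul_smul,
    mul_inv_cancel₀ (h2 y hyU), one_smul]

theorem symm_tendsto (x : M) : Tendsto (chartAt (Fin n → ℂ) x).symm (𝓝 (chartAt (Fin n → ℂ) x x)) (𝓝 x) := by
  have h1 := (chartAt (Fin n → ℂ) x).symm.continuousAt (x := chartAt (Fin n → ℂ) x x) (mem_chart_target _ x)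
  rw [ContinuousAt, (chartAt (Fin n → ℂ) x).left_inv (mem_chart_source _ x)] at h1
  exact h1

theorem chart_tendsto (x : M) : Tendsto (chartAt (Fin n → ℂ) x) (𝓝 x) (𝓝 (chartAt (Fin n → ℂ) x x)) :=
  (chartAt (Fin n → ℂ) x).continuousAt (mem_chart_source _ x)

/-- A holomorphic function near every point vanishing on `A`. -/
theorem exists_h (h : IsCorankOne (n := n) F A) (x : M) :
    ∃ (V : Set (Fin n → ℂ)) (g : (Fin n → ℂ) → ℂ), IsOpen V ∧ chartAt (Fin n → ℂ) x x ∈ V ∧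
      DifferentiableOn ℂ g V ∧ (∀ y ∈ V, (chartAt (Fin n → ℂ) x).symm y ∈ A → g y = 0) ∧
      ∃ᶠ y in 𝓝 (chartAt (Fin n → ℂ) x x), g y ≠ 0 := by
  by_cases hx : x ∈ A
  · exact h.thin x hx
  · refine ⟨(chartAt (Fin n → ℂ) x).target ∩ (chartAt (Fin n → ℂ) x).symm ⁻¹' Aᶜ, fun _ => 1,
      (chartAt (Fin n → ℂ) x).symm.isOpen_inter_preimage h.closed.isOpen_compl, ⟨mem_chart_target _ x, ?_⟩,
      differentiableOn_const _, fun y hy hyA => absurd hyA hy.2, ?_⟩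
    · rw [mem_preimage, (chartAt (Fin n → ℂ) x).left_inv (mem_chart_source _ x)]
      exact hx
    · exact Filter.Frequently.of_forall fun _ => one_ne_zero

theorem rep_inj (hM : MFacts M n) {w w' : MForm M n k} {x y : M} (hy : y ∈ (chartAt (Fin n → ℂ) x).source)
    (h : rep x w (chartAt (Fin n → ℂ) x y) = rep x w' (chartAt (Fin n → ℂ) x y)) : w y = w' y := by
  have hsrc : chartAt (Fin n → ℂ) y y ∈ (tr (n := n) x y).source :=
    (mem_tr_source _ _ _).2 ⟨mem_chart_target _ y, by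
      rwa [(chartAt (Fin n → ℂ) y).left_inv (mem_chart_source _ y)]⟩
  have h1 : tr (n := n) x y (chartAt (Fin n → ℂ) y y) = chartAt (Fin n → ℂ) x y := by
    rw [tr_apply, (chartAt (Fin n → ℂ) y).left_inv (mem_chart_source _ y)]
  rw [← hM.rep_self k w y, ← hM.rep_self k w' y, hM.rep_tr k w x y _ hsrc,
    hM.rep_tr k w' x y _ hsrc]
  apply LocA.pull_congr
  rw [h1, h]

theorem rep_zero {w : MForm M n k} {x : M} {z : Fin n → ℂ} (h : w ((chartAt (Fin n → ℂ) x).symm z) = 0) :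
    rep x w z = 0 := by
  unfold rep
  rw [h]
  rfl

theorem rep_const (c : ℂ) (x : M) (z : Fin n → ℂ) : rep x (constM M n c) z =
    ContinuousAlternatingMap.constOfIsEmpty ℝ (Fin n → ℂ) (Fin 0) c := by
  ext v
  simp [rep, constM]

theorem constM_smooth (c : ℂ) (x : M) : SmoothAt (constM M n c) x := by
  have h1 : rep x (constM M n c) = fun _ =>
      ContinuousAlternatingMap.constOfIsEmpty ℝ (Fin n → ℂ) (Fin 0) c :=
    funext fun z => rep_const c x z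
  unfold SmoothAt
  rw [h1]
  exact contDiffAt_const

theorem constM_d (c : ℂ) (x : M) : dM (constM M n c) x = 0 := by
  have h1 : rep x (constM M n c) = fun _ =>
      ContinuousAlternatingMap.constOfIsEmpty ℝ (Fin n → ℂ) (Fin 0) c :=
    funext fun z => rep_const c x z
  unfold dM
  rw [h1]
  show ContinuousAlternatingMap.alternatizeUncurryFin (fderiv ℝ (fun _ : Fin n → ℂ =>
      ContinuousAlternatingMap.constOfIsEmpty ℝ (Fin n → ℂ) (Fin 0) c) (chartAt (Fin n → ℂ) x x)) = 0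
  have h3 : fderiv ℝ (fun _ : Fin n → ℂ =>
      ContinuousAlternatingMap.constOfIsEmpty ℝ (Fin n → ℂ) (Fin 0) c) (chartAt (Fin n → ℂ) x x) = 0 :=
    fderiv_const_apply _
  rw [h3]
  exact (ContinuousAlternatingMap.alternatizeUncurryFinCLM ℝ (Fin n → ℂ) ℂ
    (n := 0)).map_zero

theorem constM_l2 (hL : L2Facts (n := n) F A) (h0 : S_BOX0) (c : ℂ) (x : M) :
    L2Near F A (constM M n c) x := by
  obtain ⟨U, -, G, hG⟩ := hL.aff x univ univ_mem
  have hG' := hG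
  obtain ⟨s, j, h1, h2, h3⟩ := hG'
  obtain ⟨r, hr, hrU⟩ := Metric.nhds_basis_closedBall.mem_iff.1 (h1.isOpen.mem_nhds h1.mem)
  obtain ⟨C, hC⟩ := h0.2 n (N + 1) (Metric.closedBall (chartAt (Fin n → ℂ) x x) r) U G c
    (isCompact_closedBall _ _) h1.isOpen hrU (aff_hol hG)
  refine (hL.iff_aff 0 _ x U G hG).2 ⟨Metric.ball (chartAt (Fin n → ℂ) x x) r,
    Metric.ball_subset_closedBall.trans hrU, Metric.isOpen_ball, Metric.mem_ball_self hr, ?_⟩
  have h4 : rep x (constM M n c) = fun _ =>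
      ContinuousAlternatingMap.constOfIsEmpty ℝ (Fin n → ℂ) (Fin 0) c :=
    funext fun z => rep_const c x z
  rw [h4]
  refine lt_of_le_of_lt (lintegral_mono_set (t := Metric.ball (chartAt (Fin n → ℂ) x x) r) sdiff_subset) ?_
  refine lt_of_le_of_lt (setLIntegral_mono' measurableSet_ball
    fun z hz => hC z (Metric.ball_subset_closedBall hz)) ?_
  rw [setLIntegral_const]
  exact ENNReal.mul_lt_top ENNReal.ofReal_lt_top measure_ball_lt_top

theorem dense (h : IsCorankOne (n := n) F A) (x : M) : ∃ᶠ y in 𝓝 x, y ∉ A := by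
  obtain ⟨V, g, hV, hxV, -, hA, hg⟩ := exists_h h x
  have h1 : ∃ᶠ z in 𝓝 (chartAt (Fin n → ℂ) x x), (chartAt (Fin n → ℂ) x).symm z ∉ A :=
    (hg.and_eventually (hV.mem_nhds hxV)).mono fun z hz hzA => hz.1 (hA z hz.2 hzA)
  exact (symm_tendsto x).frequently h1

end gen

section cork

variable {M : Type} [TopologicalSpace M] {m N k : ℕ} [ChartedSpace (Fin (m + 1) → ℂ) M]
variable {F : M → ℙ ℂ (Hil (N + 1))} {A : Set M}


/-- Adapted coordinates at a point of `M`. -/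
theorem exists_ad (hM : MFacts M (m + 1)) (hQ : S_FSQ) (hAD : S_ADAPT)
    (h : IsCorankOne (n := m + 1) F A) {x : M} {U : Set (Fin (m + 1) → ℂ)}
    {G : (Fin (m + 1) → ℂ) → Hil (N + 1)} (hG : IsAff F x U G) {V : Set (Fin (m + 1) → ℂ)}
    (hV : V ∈ 𝓝 (chartAt (Fin (m + 1) → ℂ) x x)) :
    ∃ X : Ad m (N + 1), X.G = G ∧ X.B = (chartAt (Fin (m + 1) → ℂ) x).symm ⁻¹' A ∧ chartAt (Fin (m + 1) → ℂ) x x ∈ X.U ∧ X.Ψ.source ⊆ V ∧
      X.Ψ.source ⊆ U := by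
  obtain ⟨V₁, g, hV₁, hxV₁, hgd, hgA, hg⟩ := exists_h h x
  have hU : IsOpen U ∧ chartAt (Fin (m + 1) → ℂ) x x ∈ U ∧ U ⊆ (chartAt (Fin (m + 1) → ℂ) x).target := by
    obtain ⟨s, j, h1, -⟩ := hG
    exact ⟨h1.isOpen, h1.mem, h1.sub⟩
  obtain ⟨W, hW, hWo, hxW⟩ := mem_nhds_iff.1
    (Filter.inter_mem (Filter.inter_mem hV (hV₁.mem_nhds hxV₁)) (hU.1.mem_nhds hU.2.1))
  have hWV : W ⊆ V := fun y hy => (hW hy).1.1
  have hWV₁ : W ⊆ V₁ := fun y hy => (hW hy).1.2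
  have hWU : W ⊆ U := fun y hy => (hW hy).2
  obtain ⟨Ψ, L, h1, h2, h3, h4, h5, h6⟩ := hAD m (N + 1) W (chartAt (Fin (m + 1) → ℂ) x x) G g hWo hxW
    ((aff_hol hG).mono hWU) (hgd.mono hWV₁) hg (rank_G hQ h hG) (fibre_G h hG)
  obtain ⟨a, b, h7, h8, -, h9⟩ := h6 univ univ_mem
  have hsub : Ψ.source ⊆ (chartAt (Fin (m + 1) → ℂ) x).target := (h2.trans hWU).trans hU.2.2
  have hop : IsOpen (Ψ.source \ (chartAt (Fin (m + 1) → ℂ) x).symm ⁻¹' A) := by
    have h10 : Ψ.source \ (chartAt (Fin (m + 1) → ℂ) x).symm ⁻¹' A =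
        Ψ.source ∩ ((chartAt (Fin (m + 1) → ℂ) x).target ∩ (chartAt (Fin (m + 1) → ℂ) x).symm ⁻¹' Aᶜ) := by
      ext y
      exact ⟨fun hy => ⟨hy.1, hsub hy.1, hy.2⟩, fun hy => ⟨hy.1, hy.2.2⟩⟩
    rw [h10]
    exact Ψ.open_source.inter ((chartAt (Fin (m + 1) → ℂ) x).symm.isOpen_inter_preimage h.closed.isOpen_compl)
  exact ⟨⟨Ψ, G, L, g, (chartAt (Fin (m + 1) → ℂ) x).symm ⁻¹' A, a, b, h3, h4, (aff_hol hG).mono (h2.trans hWU),
    hgd.mono (h2.trans hWV₁), h5, ⟨_, h7⟩, h8, h9, hop,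
    fun y hy hyA => hgA y (hWV₁ (h2 hy)) hyA,
    fun y hy => inj_G hM hQ h hG (hWU (h2 hy.1)) hy.2⟩, rfl, rfl, ⟨h1, h7⟩, h2.trans hWV,
    h2.trans hWU⟩

/-- Points near `x` in terms of coordinates. -/
theorem eventually_chart {x : M} {S : Set (Fin (m + 1) → ℂ)} (hS : IsOpen S) (hx : chartAt (Fin (m + 1) → ℂ) x x ∈ S) :
    ∀ᶠ y in 𝓝 x, y ∈ (chartAt (Fin (m + 1) → ℂ) x).source ∧ chartAt (Fin (m + 1) → ℂ) x y ∈ S :=
  Filter.Eventually.and ((chartAt (Fin (m + 1) → ℂ) x).open_source.mem_nhds (mem_chart_source _ x))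
    ((chart_tendsto x).eventually (hS.mem_nhds hx))

theorem exists_form (hM : MFacts M (m + 1)) (x : M) (θ : L2P.Form (m + 1) k) :
    ∃ w : MForm M (m + 1) k, ∀ z ∈ (chartAt (Fin (m + 1) → ℂ) x).target, rep x w z = θ z := hM.of_rep k x θ

/-- Smoothness and exterior derivative of a form given in the chart at `x`. -/
theorem smooth_of_rep (hM : MFacts M (m + 1)) {x y : M} (hy : y ∈ (chartAt (Fin (m + 1) → ℂ) x).source)
    {η : MForm M (m + 1) k} {θ : L2P.Form (m + 1) k} (hθ : ∀ z ∈ (chartAt (Fin (m + 1) → ℂ) x).target, rep x η z = θ z)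
    (hs : ContDiffAt ℝ ∞ θ (chartAt (Fin (m + 1) → ℂ) x y)) :
    SmoothAt η y ∧ rep x (dM η) (chartAt (Fin (m + 1) → ℂ) x y) = extDeriv θ (chartAt (Fin (m + 1) → ℂ) x y) := by
  have h1 : rep x η =ᶠ[𝓝 (chartAt (Fin (m + 1) → ℂ) x y)] θ := by
    filter_upwards [(chartAt (Fin (m + 1) → ℂ) x).open_target.mem_nhds ((chartAt (Fin (m + 1) → ℂ) x).map_source hy)] with z hz
    exact hθ z hz
  have h2 : SmoothAt η y := (hM.smooth_iff k η x y hy).2 (hs.congr_of_eventuallyEq h1)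
  exact ⟨h2, by rw [hM.rep_d k η x y hy h2, h1.extDeriv_eq]⟩

/-- Data in the chart at `x` of a closed form, `L²` complex. -/
theorem dataA (hM : MFacts M (m + 1)) (hQ : S_FSQ) (hAD : S_ADAPT)
    (hL : L2Facts (n := m + 1) F A) (h : IsCorankOne (n := m + 1) F A) {w : MForm M (m + 1) k}
    {x : M} (hw : NiceA F A w x) (hcl : ∀ᶠ y in 𝓝 x, y ∉ A → dM w y = 0) :
    ∃ X : Ad m (N + 1), X.B = (chartAt (Fin (m + 1) → ℂ) x).symm ⁻¹' A ∧ chartAt (Fin (m + 1) → ℂ) x x ∈ X.U ∧ X.U ⊆ (chartAt (Fin (m + 1) → ℂ) x).target ∧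
      IsAff F x X.U X.G ∧ ContDiffOn ℝ ∞ (rep x w) (X.U \ X.B) ∧
      (∀ z ∈ X.U \ X.B, extDeriv (rep x w) z = 0) ∧
      ∫⁻ z in X.U \ X.B, den (fderiv ℂ X.G) (rep x w) z < ⊤ := by
  obtain ⟨U₀, -, G, hG⟩ := hL.aff x univ univ_mem
  obtain ⟨V, hVU, hV, hxV, hfin⟩ := (hL.iff_aff k w x U₀ G hG).1 hw.self_of_nhds.2.1
  have hO : ∀ᶠ z in 𝓝 (chartAt (Fin (m + 1) → ℂ) x x), (((chartAt (Fin (m + 1) → ℂ) x).symm z ∉ A → SmoothAt w ((chartAt (Fin (m + 1) → ℂ) x).symm z)) ∧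
      ((chartAt (Fin (m + 1) → ℂ) x).symm z ∉ A → dM w ((chartAt (Fin (m + 1) → ℂ) x).symm z) = 0)) ∧ z ∈ V :=
    Filter.Eventually.and (Filter.Eventually.and
      ((symm_tendsto x).eventually (hw.mono fun y hy => hy.1))
      ((symm_tendsto x).eventually hcl)) (hV.mem_nhds hxV)
  obtain ⟨X, hXG, hXB, hxU, hXV, hXU⟩ := exists_ad hM hQ hAD h hG hO
  have hUs : X.U ⊆ X.Ψ.source := inter_subset_left
  have hUt : X.U ⊆ (chartAt (Fin (m + 1) → ℂ) x).target := by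
    obtain ⟨s, j, h1, -⟩ := hG
    exact (hUs.trans hXU).trans h1.sub
  have hsm : ∀ z ∈ X.U \ X.B, SmoothAt w ((chartAt (Fin (m + 1) → ℂ) x).symm z) := fun z hz =>
    (hXV (hUs hz.1)).1.1 (by
      have := hz.2
      rw [hXB] at this
      exact this)
  refine ⟨X, hXB, hxU, hUt, ?_, fun z hz => ?_, fun z hz => ?_, ?_⟩
  · rw [hXG]
    exact aff_mono hG (LocA.U_open X) (hUs.trans hXU) hxU
  · have h1 := (hM.smooth_iff k w x _ ((chartAt (Fin (m + 1) → ℂ) x).map_target (hUt hz.1))).1 (hsm z hz)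
    rw [(chartAt (Fin (m + 1) → ℂ) x).right_inv (hUt hz.1)] at h1
    exact h1.contDiffWithinAt
  · have h1 := hM.rep_d k w x _ ((chartAt (Fin (m + 1) → ℂ) x).map_target (hUt hz.1)) (hsm z hz)
    rw [(chartAt (Fin (m + 1) → ℂ) x).right_inv (hUt hz.1)] at h1
    rw [← h1]
    refine rep_zero ((hXV (hUs hz.1)).1.2 ?_)
    have := hz.2
    rw [hXB] at this
    exact this
  · rw [hXG, hXB]
    refine lt_of_le_of_lt (lintegral_mono_set ?_) hfin
    exact sdiff_subset_sdiff_left fun z hz => (hXV (hUs hz)).2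

/-- Data in the chart at `x` of a closed form, smooth complex. -/
theorem dataE (hM : MFacts M (m + 1)) (hQ : S_FSQ) (hAD : S_ADAPT)
    (hL : L2Facts (n := m + 1) F A) (h : IsCorankOne (n := m + 1) F A) {w : MForm M (m + 1) k}
    {x : M} (hw : NiceE w x) (hcl : ∀ᶠ y in 𝓝 x, dM w y = 0) :
    ∃ X : Ad m (N + 1), X.B = (chartAt (Fin (m + 1) → ℂ) x).symm ⁻¹' A ∧ chartAt (Fin (m + 1) → ℂ) x x ∈ X.U ∧ X.U ⊆ (chartAt (Fin (m + 1) → ℂ) x).target ∧
      IsAff F x X.U X.G ∧ ContDiffOn ℝ ∞ (rep x w) X.Ψ.source ∧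
      (∀ z ∈ X.Ψ.source, extDeriv (rep x w) z = 0) := by
  obtain ⟨U₀, -, G, hG⟩ := hL.aff x univ univ_mem
  have hO : ∀ᶠ z in 𝓝 (chartAt (Fin (m + 1) → ℂ) x x), SmoothAt w ((chartAt (Fin (m + 1) → ℂ) x).symm z) ∧ dM w ((chartAt (Fin (m + 1) → ℂ) x).symm z) = 0 :=
    ((symm_tendsto x).eventually hw).and ((symm_tendsto x).eventually hcl)
  obtain ⟨X, hXG, hXB, hxU, hXV, hXU⟩ := exists_ad hM hQ hAD h hG hO
  have hUs : X.U ⊆ X.Ψ.source := inter_subset_left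
  have hst : X.Ψ.source ⊆ (chartAt (Fin (m + 1) → ℂ) x).target := by
    obtain ⟨s, j, h1, -⟩ := hG
    exact hXU.trans h1.sub
  refine ⟨X, hXB, hxU, hUs.trans hst, ?_, fun z hz => ?_, fun z hz => ?_⟩
  · rw [hXG]
    exact aff_mono hG (LocA.U_open X) (hUs.trans hXU) hxU
  · have h1 := (hM.smooth_iff k w x _ ((chartAt (Fin (m + 1) → ℂ) x).map_target (hst hz))).1 (hXV hz).1
    rw [(chartAt (Fin (m + 1) → ℂ) x).right_inv (hst hz)] at h1
    exact h1.contDiffWithinAt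
  · have h1 := hM.rep_d k w x _ ((chartAt (Fin (m + 1) → ℂ) x).map_target (hst hz)) (hXV hz).1
    rw [(chartAt (Fin (m + 1) → ℂ) x).right_inv (hst hz)] at h1
    rw [← h1]
    exact rep_zero (hXV hz).2

theorem exA (hM : MFacts M (m + 1)) (hQ : S_FSQ) (hAD : S_ADAPT) (hLA : S_LOCA)
    (hL : L2Facts (n := m + 1) F A) (h : IsCorankOne (n := m + 1) F A)
    (w : MForm M (m + 1) (k + 1)) (x : M) (hw : NiceA F A w x)
    (hcl : ∀ᶠ y in 𝓝 x, y ∉ A → dM w y = 0) :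
    ∃ η : MForm M (m + 1) k, NiceA F A η x ∧ ∀ᶠ y in 𝓝 x, y ∉ A → dM η y = w y := by
  obtain ⟨X, hXB, hxU, hUt, hG, hs, hd, hfin⟩ := dataA hM hQ hAD hL h hw hcl
  obtain ⟨θ, h1, h2, h3⟩ := hLA m (N + 1) k X (rep x w) hs hd hfin
  obtain ⟨η, hη⟩ := exists_form hM x θ
  have hmem : ∀ y : M, y ∈ (chartAt (Fin (m + 1) → ℂ) x).source → chartAt (Fin (m + 1) → ℂ) x y ∈ X.U → y ∉ A → chartAt (Fin (m + 1) → ℂ) x y ∈ X.U \ X.B := by
    intro y hy hyU hyA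
    refine ⟨hyU, ?_⟩
    rw [hXB, mem_preimage, (chartAt (Fin (m + 1) → ℂ) x).left_inv hy]
    exact hyA
  have hθ : ∀ z ∈ X.U \ X.B, ContDiffAt ℝ ∞ θ z := fun z hz =>
    h1.contDiffAt ((LocA.reg_open X).mem_nhds hz)
  have hkey : ∀ y : M, y ∈ (chartAt (Fin (m + 1) → ℂ) x).source → chartAt (Fin (m + 1) → ℂ) x y ∈ X.U → y ∉ A →
      SmoothAt η y ∧ dM η y = w y := by
    intro y hy hyU hyA
    obtain ⟨h4, h5⟩ := smooth_of_rep hM hy hη (hθ _ (hmem y hy hyU hyA))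
    refine ⟨h4, rep_inj hM hy ?_⟩
    rw [h5, h2 _ (hmem y hy hyU hyA)]
  have hev := eventually_chart (LocA.U_open X) hxU
  have hl2 : ∫⁻ z in X.U \ (chartAt (Fin (m + 1) → ℂ) x).symm ⁻¹' A, den (fderiv ℂ X.G) (rep x η) z < ⊤ := by
    rw [hXB] at h3 hs
    refine lt_of_eq_of_lt (setLIntegral_congr_fun ?_ fun z hz => ?_) h3
    · rw [← hXB]
      exact (LocA.reg_open X).measurableSet
    · simp only [den]
      rw [hη z (hUt hz.1)]
  refine ⟨η, ?_, hev.mono fun y hy hyA => (hkey y hy.1 hy.2 hyA).2⟩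
  filter_upwards [hev, hev.eventually_nhds, hw] with y hy hy' hwy
  refine ⟨fun hyA => (hkey y hy.1 hy.2 hyA).1, ?_, ?_⟩
  · have h6 := hL.near k η x X.U X.G hG hl2 _ hy.2
    rwa [(chartAt (Fin (m + 1) → ℂ) x).left_inv hy.1] at h6
  · exact hL.congr (k + 1) w (dM η) y (hy'.mono fun z hz hzA => (hkey z hz.1 hz.2 hzA).2.symm)
      hwy.2.1

theorem exA0 (hM : MFacts M (m + 1)) (hQ : S_FSQ) (hAD : S_ADAPT) (hLA : S_LOCA0)
    (hL : L2Facts (n := m + 1) F A) (h : IsCorankOne (n := m + 1) F A)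
    (w : MForm M (m + 1) 0) (x : M) (hw : NiceA F A w x)
    (hcl : ∀ᶠ y in 𝓝 x, y ∉ A → dM w y = 0) :
    ∃ c : ℂ, ∀ᶠ y in 𝓝 x, y ∉ A → w y = constM M (m + 1) c y := by
  obtain ⟨X, hXB, hxU, hUt, hG, hs, hd, hfin⟩ := dataA hM hQ hAD hL h hw hcl
  obtain ⟨c, hc⟩ := hLA m (N + 1) X (rep x w) hs hd hfin
  refine ⟨c, (eventually_chart (LocA.U_open X) hxU).mono fun y hy hyA =>
    rep_inj hM hy.1 ?_⟩
  rw [hc _ ⟨hy.2, by rw [hXB, mem_preimage, (chartAt (Fin (m + 1) → ℂ) x).left_inv hy.1]; exact hyA⟩, rep_const]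

theorem exE (hM : MFacts M (m + 1)) (hQ : S_FSQ) (hAD : S_ADAPT) (hLB : S_LOCB)
    (hL : L2Facts (n := m + 1) F A) (h : IsCorankOne (n := m + 1) F A)
    (w : MForm M (m + 1) (k + 1)) (x : M) (hw : NiceE w x)
    (hcl : ∀ᶠ y in 𝓝 x, dM w y = 0) :
    ∃ η : MForm M (m + 1) k, NiceE η x ∧ (∀ᶠ y in 𝓝 x, L2Near F A η y) ∧
      ∀ᶠ y in 𝓝 x, dM η y = w y := by
  obtain ⟨X, hXB, hxU, hUt, hG, hs, hd⟩ := dataE hM hQ hAD hL h hw hcl
  obtain ⟨θ, h1, h2, h3⟩ := hLB.1 m (N + 1) k X (rep x w) hs hd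
  obtain ⟨η, hη⟩ := exists_form hM x θ
  have hθ : ∀ z ∈ X.U, ContDiffAt ℝ ∞ θ z := fun z hz =>
    h1.contDiffAt ((LocA.U_open X).mem_nhds hz)
  have hkey : ∀ y : M, y ∈ (chartAt (Fin (m + 1) → ℂ) x).source → chartAt (Fin (m + 1) → ℂ) x y ∈ X.U → SmoothAt η y ∧ dM η y = w y := by
    intro y hy hyU
    obtain ⟨h4, h5⟩ := smooth_of_rep hM hy hη (hθ _ hyU)
    refine ⟨h4, rep_inj hM hy ?_⟩
    rw [h5, h2 _ hyU]
  have hev := eventually_chart (LocA.U_open X) hxU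
  have hl2 : ∫⁻ z in X.U \ (chartAt (Fin (m + 1) → ℂ) x).symm ⁻¹' A, den (fderiv ℂ X.G) (rep x η) z < ⊤ := by
    refine lt_of_le_of_lt (lintegral_mono_set sdiff_subset) ?_
    refine lt_of_eq_of_lt (setLIntegral_congr_fun (LocA.U_open X).measurableSet
      fun z hz => ?_) h3
    simp only [den]
    rw [hη z (hUt hz)]
  refine ⟨η, hev.mono fun y hy => (hkey y hy.1 hy.2).1, hev.mono fun y hy => ?_,
    hev.mono fun y hy => (hkey y hy.1 hy.2).2⟩
  have h6 := hL.near k η x X.U X.G hG hl2 _ hy.2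
  rwa [(chartAt (Fin (m + 1) → ℂ) x).left_inv hy.1] at h6

theorem exE0 (hM : MFacts M (m + 1)) (hQ : S_FSQ) (hAD : S_ADAPT) (hLB : S_LOCB)
    (hL : L2Facts (n := m + 1) F A) (h : IsCorankOne (n := m + 1) F A)
    (w : MForm M (m + 1) 0) (x : M) (hw : NiceE w x) (hcl : ∀ᶠ y in 𝓝 x, dM w y = 0) :
    ∃ c : ℂ, ∀ᶠ y in 𝓝 x, w y = constM M (m + 1) c y := by
  obtain ⟨X, hXB, hxU, hUt, hG, hs, hd⟩ := dataE hM hQ hAD hL h hw hcl
  obtain ⟨c, hc⟩ := hLB.2 m (N + 1) X (rep x w) (hs.mono inter_subset_left)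
    fun z hz => hd z hz.1
  refine ⟨c, (eventually_chart (LocA.U_open X) hxU).mono fun y hy => rep_inj hM hy.1 ?_⟩
  rw [hc _ hy.2, rep_const]

end cork

end Loc

open Loc

/-- LOC. -/
theorem loc (hM : S_MF) (hQ : S_FSQ) (hAD : S_ADAPT) (hA : S_LOCA) (hA0 : S_LOCA0)
    (hB : S_LOCB) (h0 : S_BOX0) (hC : S_CHG) : S_LOC := by
  intro M _ m N _ _ F A h
  have hMF := hM M (m + 1)
  have hL := hC M (m + 1) N F A h.hol h.closed
  exact ⟨fun k w x => exA hMF hQ hAD hA hL h w x, fun w x => exA0 hMF hQ hAD hA0 hL h w x,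
    fun k w x => exE hMF hQ hAD hB hL h w x, fun w x => exE0 hMF hQ hAD hB hL h w x,
    fun c x => ⟨Filter.Eventually.of_forall fun y => constM_smooth c y,
      constM_l2 hL h0 c x, constM_d c x⟩, dense h⟩

end L2M
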