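import Pool.Agent.Work.MP_ead3fc_ag.M.Tasks
import Pool.Agent.Work.MP_ead3fc_ag.S.Smooth

/-!
# MP_ead3fc_ag, global theorem: modules LOCA, LOCA0, LOCB

Local exactness of the `L²` complex and of the smooth complex in adapted coordinates: transport of
the theorem on boxes by the biholomorphic map `Ψ`.
-/

set_option autoImplicit false

open MeasureTheory Set Filter Topology
open scoped ENNReal ContDiff

namespace L2M

namespace LocA

section pull

variable {n k : ℕ}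

/-- Holomorphic maps are smooth. -/
theorem smooth_of_hol {E : Type*} [NormedAddCommGroup E] [NormedSpace ℂ E] [NormedSpace ℝ E]
    [IsScalarTower ℝ ℂ E] [CompleteSpace E] {f : (Fin n → ℂ) → E} {U : Set (Fin n → ℂ)}
    (hU : IsOpen U) (hf : DifferentiableOn ℂ f U) {y : Fin n → ℂ} (hy : y ∈ U) :
    ContDiffAt ℝ ∞ f y :=
  (SCV.contDiffAt_of_differentiableOn hU hf hy (n := ⊤)).restrict_scalars ℝ

/-- The pull back of a smooth form is smooth. -/
theorem contDiffAt_pull {f : (Fin n → ℂ) → (Fin n → ℂ)} {w : L2P.Form n k} {y : Fin n → ℂ}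
    (hf : ContDiffAt ℝ ∞ f y) (hw : ContDiffAt ℝ ∞ w (f y)) : ContDiffAt ℝ ∞ (pull f w) y :=
  L2P.contDiffAt_altComp (hw.comp y hf) (hf.fderiv_right (m := ∞) (by simp))

/-- The exterior derivative commutes with the pull back. -/
theorem extDeriv_pull {f : (Fin n → ℂ) → (Fin n → ℂ)} {w : L2P.Form n k} {y : Fin n → ℂ}
    (hf : ContDiffAt ℝ ∞ f y) (hw : ContDiffAt ℝ ∞ w (f y)) :
    extDeriv (pull f w) y = (extDeriv w (f y)).compContinuousLinearMap (fderiv ℝ f y) :=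
  extDeriv_pullback (hw.differentiableAt (by simp)) hf (by
    simp only [minSmoothness_of_isRCLikeNormedField]
    exact WithTop.coe_le_coe.2 (le_top : (2 : ℕ∞) ≤ ⊤))

/-- Pull back by mutually inverse maps. -/
theorem pull_pull {f g : (Fin n → ℂ) → (Fin n → ℂ)} {w : L2P.Form n k} {y : Fin n → ℂ}
    (h : ∀ᶠ z in 𝓝 y, g (f z) = z) (hf : DifferentiableAt ℝ f y)
    (hg : DifferentiableAt ℝ g (f y)) : pull f (pull g w) y = w y := by
  have h1 : (fderiv ℝ g (f y)).comp (fderiv ℝ f y) = ContinuousLinearMap.id ℝ (Fin n → ℂ) := by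
    rw [← fderiv_comp y hg hf]
    have h2 : g ∘ f =ᶠ[𝓝 y] id := h
    rw [h2.fderiv_eq, fderiv_id]
  have h3 : g (f y) = y := h.self_of_nhds
  ext v
  simp only [pull, ContinuousAlternatingMap.compContinuousLinearMap_apply, h3]
  congr 1
  funext i
  exact congrArg (fun T : (Fin n → ℂ) →L[ℝ] (Fin n → ℂ) => T (v i)) h1

/-- Pull back of constants. -/
theorem pull_const {f : (Fin n → ℂ) → (Fin n → ℂ)} (c : ℂ) :
    pull f (fun _ => ContinuousAlternatingMap.constOfIsEmpty ℝ (Fin n → ℂ) (Fin 0) c) =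
      fun _ => ContinuousAlternatingMap.constOfIsEmpty ℝ (Fin n → ℂ) (Fin 0) c := by
  funext y
  ext v
  simp [pull]

theorem pull_congr {f : (Fin n → ℂ) → (Fin n → ℂ)} {w w' : L2P.Form n k} {y : Fin n → ℂ}
    (h : w (f y) = w' (f y)) : pull f w y = pull f w' y := by
  unfold pull
  rw [h]

end pull

section ad

variable {m N k : ℕ} (X : Ad m N)

/-- `G` in the adapted coordinates. -/
noncomputable def F (X : Ad m N) : (Fin (m + 1) → ℂ) → Hil N := fun z => X.G (X.Ψ.symm z)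

theorem F_hol : DifferentiableOn ℂ (F X) X.Ψ.target :=
  X.hG.comp X.hol' X.Ψ.mapsTo_symm

theorem diff_Ψ {y : Fin (m + 1) → ℂ} (hy : y ∈ X.Ψ.source) : DifferentiableAt ℂ X.Ψ y :=
  X.hol.differentiableAt (X.Ψ.open_source.mem_nhds hy)

theorem diff_symm {z : Fin (m + 1) → ℂ} (hz : z ∈ X.Ψ.target) : DifferentiableAt ℂ X.Ψ.symm z :=
  X.hol'.differentiableAt (X.Ψ.open_target.mem_nhds hz)

theorem diff_G {y : Fin (m + 1) → ℂ} (hy : y ∈ X.Ψ.source) : DifferentiableAt ℂ X.G y :=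
  X.hG.differentiableAt (X.Ψ.open_source.mem_nhds hy)

theorem smooth_Ψ {y : Fin (m + 1) → ℂ} (hy : y ∈ X.Ψ.source) : ContDiffAt ℝ ∞ X.Ψ y :=
  smooth_of_hol X.Ψ.open_source X.hol hy

theorem smooth_symm {z : Fin (m + 1) → ℂ} (hz : z ∈ X.Ψ.target) : ContDiffAt ℝ ∞ X.Ψ.symm z :=
  smooth_of_hol X.Ψ.open_target X.hol' hz

theorem fderiv_F {z : Fin (m + 1) → ℂ} (hz : z ∈ X.Ψ.target) :
    fderiv ℂ (F X) z = (fderiv ℂ X.G (X.Ψ.symm z)).comp (fderiv ℂ X.Ψ.symm z) :=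
  fderiv_comp z (diff_G X (X.Ψ.map_target hz)) (diff_symm X hz)

theorem fderiv_G {y : Fin (m + 1) → ℂ} (hy : y ∈ X.Ψ.source) :
    fderiv ℂ X.G y = (fderiv ℂ (F X) (X.Ψ y)).comp (fderiv ℂ X.Ψ y) := by
  have h1 : X.G =ᶠ[𝓝 y] F X ∘ X.Ψ := by
    filter_upwards [X.Ψ.open_source.mem_nhds hy] with z hz
    simp only [F, Function.comp_apply, X.Ψ.left_inv hz]
  rw [h1.fderiv_eq]
  exact fderiv_comp y ((F_hol X).differentiableAt (X.Ψ.open_target.mem_nhds (X.Ψ.map_source hy)))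
    (diff_Ψ X hy)

/-- The complement of the part of the coordinate domain off `B`. -/
def A : Set (Fin (m + 1) → ℂ) := (X.Ψ.target ∩ X.Ψ.symm ⁻¹' (X.Ψ.source \ X.B))ᶜ

theorem A_closed : IsClosed (A X) :=
  (X.Ψ.symm.isOpen_inter_preimage X.closed).isClosed_compl

theorem not_mem_A {z : Fin (m + 1) → ℂ} (hz : z ∈ X.Ψ.target) : z ∉ A X ↔ X.Ψ.symm z ∉ X.B := by
  unfold A
  rw [mem_compl_iff, not_not]
  exact ⟨fun h => h.2.2, fun h => ⟨hz, X.Ψ.map_target hz, h⟩⟩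

theorem inj_symm {z : Fin (m + 1) → ℂ} (hz : z ∈ X.Ψ.target) :
    Function.Injective (fderiv ℂ X.Ψ.symm z) := by
  have h1 : (fderiv ℂ X.Ψ (X.Ψ.symm z)).comp (fderiv ℂ X.Ψ.symm z) =
      ContinuousLinearMap.id ℂ (Fin (m + 1) → ℂ) := by
    rw [← fderiv_comp z (diff_Ψ X (X.Ψ.map_target hz)) (diff_symm X hz)]
    have h2 : X.Ψ ∘ X.Ψ.symm =ᶠ[𝓝 z] id := by
      filter_upwards [X.Ψ.open_target.mem_nhds hz] with w hw
      exact X.Ψ.right_inv hw
    rw [h2.fderiv_eq, fderiv_id]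
  intro u v huv
  have h3 := congrArg (fun T : (Fin (m + 1) → ℂ) →L[ℂ] (Fin (m + 1) → ℂ) => T u) h1
  have h4 := congrArg (fun T : (Fin (m + 1) → ℂ) →L[ℂ] (Fin (m + 1) → ℂ) => T v) h1
  simp only [ContinuousLinearMap.comp_apply, ContinuousLinearMap.id_apply] at h3 h4
  rw [← h3, ← h4, huv]

/-- The adapted coordinates as a chart of the local theorem. -/
noncomputable def chart (X : Ad m N) : L2P.Chart m N where
  a := X.a
  b := X.b
  W := X.Ψ.target
  F := F X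
  L := X.L
  h := fun z => X.h (X.Ψ.symm z)
  A := A X
  ne := X.ne
  hW := X.Ψ.open_target
  hUW := X.sub
  hF := F_hol X
  hL := fun z hz j => by
    show X.L (X.G (X.Ψ.symm z)) j = z j.succ
    rw [X.hL _ (X.Ψ.map_target hz) j, X.Ψ.right_inv hz]
  hh := X.hh.comp X.hol' X.Ψ.mapsTo_symm
  hA := A_closed X
  hAh := fun z hz hzA => by
    have h1 : X.Ψ.symm z ∈ X.B := by
      by_contra h
      exact (not_mem_A X (X.sub hz)).2 h hzA
    exact X.zero _ (X.Ψ.map_target (X.sub hz)) h1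
  hside := X.side
  himm := fun z hz hzA => by
    have h1 := X.imm (X.Ψ.symm z) ⟨X.Ψ.map_target (X.sub hz), (not_mem_A X (X.sub hz)).1 hzA⟩
    rw [fderiv_F X (X.sub hz)]
    exact h1.comp (inj_symm X (X.sub hz))

theorem U_open : IsOpen X.U := X.Ψ.isOpen_inter_preimage (L2P.isOpen_cbox _ _)

theorem box_sub {z : Fin (m + 1) → ℂ} (hz : z ∈ L2P.cbox X.a X.b) : z ∈ X.Ψ.target :=
  X.sub (subset_closure hz)

theorem symm_mem_U {z : Fin (m + 1) → ℂ} (hz : z ∈ L2P.cbox X.a X.b) : X.Ψ.symm z ∈ X.U :=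
  ⟨X.Ψ.map_target (box_sub X hz), by
    rw [mem_preimage, X.Ψ.right_inv (box_sub X hz)]
    exact hz⟩

theorem reg_open : IsOpen (X.U \ X.B) := by
  have h1 : X.U \ X.B = X.U ∩ (X.Ψ.source \ X.B) := by
    ext y
    exact ⟨fun h => ⟨h.1, h.1.1, h.2⟩, fun h => ⟨h.1, h.2.2⟩⟩
  rw [h1]
  exact (U_open X).inter X.closed

theorem map_reg {y : Fin (m + 1) → ℂ} (hy : y ∈ X.U \ X.B) : X.Ψ y ∈ (chart X).Ω := by
  refine ⟨hy.1.2, ?_⟩
  refine (not_mem_A X (X.Ψ.map_source hy.1.1)).2 ?_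
  rw [X.Ψ.left_inv hy.1.1]
  exact hy.2

theorem symm_reg {z : Fin (m + 1) → ℂ} (hz : z ∈ (chart X).Ω) : X.Ψ.symm z ∈ X.U \ X.B :=
  ⟨symm_mem_U X hz.1, (not_mem_A X (box_sub X hz.1)).1 hz.2⟩

theorem Ω_sub {z : Fin (m + 1) → ℂ} (hz : z ∈ (chart X).Ω) : z ∈ X.Ψ.target := box_sub X hz.1

theorem image_reg : X.Ψ '' (X.U \ X.B) = (chart X).Ω := by
  ext z
  constructor
  · rintro ⟨y, hy, rfl⟩
    exact map_reg X hy
  · intro hz
    exact ⟨X.Ψ.symm z, symm_reg X hz, X.Ψ.right_inv (Ω_sub X hz)⟩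

theorem symm_image_reg : X.Ψ.symm '' (chart X).Ω = X.U \ X.B := by
  ext y
  constructor
  · rintro ⟨z, hz, rfl⟩
    exact symm_reg X hz
  · intro hy
    exact ⟨X.Ψ y, map_reg X hy, X.Ψ.left_inv hy.1.1⟩

theorem image_U : X.Ψ '' X.U = L2P.cbox X.a X.b := by
  ext z
  constructor
  · rintro ⟨y, hy, rfl⟩
    exact hy.2
  · intro hz
    exact ⟨X.Ψ.symm z, symm_mem_U X hz, X.Ψ.right_inv (box_sub X hz)⟩

theorem box_compact : IsCompact (closure (L2P.cbox X.a X.b)) := (chart X).compact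

theorem symm_box_compact : IsCompact (X.Ψ.symm '' closure (L2P.cbox X.a X.b)) :=
  (box_compact X).image_of_continuousOn (X.Ψ.symm.continuousOn.mono X.sub)

theorem U_sub : X.U ⊆ X.Ψ.symm '' closure (L2P.cbox X.a X.b) := fun y hy =>
  ⟨X.Ψ y, subset_closure hy.2, X.Ψ.left_inv hy.1⟩

theorem symm_box_sub : X.Ψ.symm '' closure (L2P.cbox X.a X.b) ⊆ X.Ψ.source := by
  rintro _ ⟨z, hz, rfl⟩
  exact X.Ψ.map_target (X.sub hz)

/-- Transport to the box. -/
theorem to_box (hTR : S_TR) (w : L2P.Form (m + 1) k)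
    (hw : ∫⁻ y in X.U \ X.B, den (fderiv ℂ X.G) w y < ⊤) :
    ∫⁻ z in (chart X).Ω, den (fderiv ℂ (F X)) (pull X.Ψ.symm w) z < ⊤ := by
  obtain ⟨C, -, hC⟩ := hTR (m + 1) N k X.Ψ.symm (closure (L2P.cbox X.a X.b)) X.hol' X.hol
    (box_compact X) X.sub
  have h1 := hC (fderiv ℂ X.G) w (chart X).Ω (chart X).Ω_open.measurableSet
    (fun z hz => subset_closure hz.1)
  rw [symm_image_reg] at h1
  refine lt_of_le_of_lt (le_trans (le_of_eq ?_) h1) (ENNReal.mul_lt_top ENNReal.ofReal_lt_top hw)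
  refine setLIntegral_congr_fun (chart X).Ω_open.measurableSet fun z hz => ?_
  simp only [den, fderiv_F X (Ω_sub X hz)]

/-- Transport from a part of the box. -/
theorem of_box (hTR : S_TR) (w : L2P.Form (m + 1) k) (S : Set (Fin (m + 1) → ℂ))
    (hS : IsOpen S) (hSU : S ⊆ X.U)
    (hw : ∫⁻ z in X.Ψ '' S, den (fderiv ℂ (F X)) w z < ⊤) :
    ∫⁻ y in S, den (fderiv ℂ X.G) (pull X.Ψ w) y < ⊤ := by
  obtain ⟨C, -, hC⟩ := hTR (m + 1) N k X.Ψ (X.Ψ.symm '' closure (L2P.cbox X.a X.b)) X.hol X.hol'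
    (symm_box_compact X) (symm_box_sub X)
  have h1 := hC (fderiv ℂ (F X)) w S hS.measurableSet (hSU.trans (U_sub X))
  refine lt_of_le_of_lt (le_trans (le_of_eq ?_) h1) (ENNReal.mul_lt_top ENNReal.ofReal_lt_top hw)
  refine setLIntegral_congr_fun hS.measurableSet fun y hy => ?_
  simp only [den, fderiv_G X (hSU hy).1]

theorem isL2_box (hTR : S_TR) {w : L2P.Form (m + 1) k} (hs : ContDiffOn ℝ ∞ w (X.U \ X.B))
    (hw : ∫⁻ y in X.U \ X.B, den (fderiv ℂ X.G) w y < ⊤) :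
    ContDiffOn ℝ ∞ (pull X.Ψ.symm w) (chart X).Ω ∧
      L2P.IsL2 (chart X).F (chart X).Ω (pull X.Ψ.symm w) := by
  have h1 : ContDiffOn ℝ ∞ (pull X.Ψ.symm w) (chart X).Ω := fun z hz =>
    (contDiffAt_pull (smooth_symm X (Ω_sub X hz))
      (hs.contDiffAt ((reg_open X).mem_nhds (symm_reg X hz)))).contDiffWithinAt
  exact ⟨h1, h1.continuousOn.aestronglyMeasurable (chart X).Ω_open.measurableSet,
    to_box X hTR w hw⟩

theorem closed_box {w : L2P.Form (m + 1) k} (hs : ContDiffOn ℝ ∞ w (X.U \ X.B))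
    (hcl : ∀ y ∈ X.U \ X.B, extDeriv w y = 0) (z : Fin (m + 1) → ℂ) (hz : z ∈ (chart X).Ω) :
    extDeriv (pull X.Ψ.symm w) z = 0 := by
  rw [extDeriv_pull (smooth_symm X (Ω_sub X hz))
    (hs.contDiffAt ((reg_open X).mem_nhds (symm_reg X hz)))]
  rw [hcl _ (symm_reg X hz)]
  rfl

theorem eventually_left {y : Fin (m + 1) → ℂ} (hy : y ∈ X.Ψ.source) :
    ∀ᶠ z in 𝓝 y, X.Ψ.symm (X.Ψ z) = z := by
  filter_upwards [X.Ψ.open_source.mem_nhds hy] with z hz
  exact X.Ψ.left_inv hz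

theorem pull_pull_Ψ {w : L2P.Form (m + 1) k} {y : Fin (m + 1) → ℂ} (hy : y ∈ X.Ψ.source) :
    pull X.Ψ (pull X.Ψ.symm w) y = w y :=
  pull_pull (eventually_left X hy) ((smooth_Ψ X hy).differentiableAt (by simp))
    ((smooth_symm X (X.Ψ.map_source hy)).differentiableAt (by simp))

end ad

end LocA

open LocA

/-- LOCA. -/
theorem loca (hTR : S_TR) : S_LOCA := by
  intro m N k X w hs hcl hw
  obtain ⟨h1, h2⟩ := isL2_box X hTR hs hw
  obtain ⟨η, h3, h4, h5⟩ := (chart X).smooth_pos h1 h2 (closed_box X hs hcl)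
  have h6 : ∀ y ∈ X.U \ X.B, ContDiffAt ℝ ∞ η (X.Ψ y) := fun y hy =>
    h3.contDiffAt ((chart X).Ω_open.mem_nhds (map_reg X hy))
  refine ⟨pull X.Ψ η, fun y hy =>
    (contDiffAt_pull (smooth_Ψ X hy.1.1) (h6 y hy)).contDiffWithinAt, fun y hy => ?_, ?_⟩
  · rw [extDeriv_pull (smooth_Ψ X hy.1.1) (h6 y hy)]
    rw [← pull_pull_Ψ X (w := w) hy.1.1]
    exact pull_congr (h5 _ (map_reg X hy))
  · refine of_box X hTR η _ (reg_open X) sdiff_subset ?_
    rw [image_reg]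
    exact h4.fin

/-- LOCA0. -/
theorem loca0 (hTR : S_TR) : S_LOCA0 := by
  intro m N X w hs hcl hw
  obtain ⟨h1, h2⟩ := isL2_box X hTR hs hw
  obtain ⟨c, hc⟩ := (chart X).smooth_zero h1 h2 (closed_box X hs hcl)
  refine ⟨c, fun y hy => ?_⟩
  rw [← pull_pull_Ψ X (w := w) hy.1.1]
  rw [pull_congr (w' := fun _ => ContinuousAlternatingMap.constOfIsEmpty ℝ
    (Fin (m + 1) → ℂ) (Fin 0) c) (hc _ (map_reg X hy)), pull_const]

/-- LOCB. -/
theorem locb (hTR : S_TR) (hP : S_BOXP) (h0 : S_BOX0) : S_LOCB := by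
  constructor
  · intro m N k X e hs hcl
    have h1 : ∀ z ∈ X.Ψ.target, ContDiffAt ℝ ∞ e (X.Ψ.symm z) := fun z hz =>
      hs.contDiffAt (X.Ψ.open_source.mem_nhds (X.Ψ.map_target hz))
    obtain ⟨f, C, h3, h4, h5⟩ := hP m N k X.a X.b X.Ψ.target (F X) X.L (pull X.Ψ.symm e)
      X.Ψ.open_target X.ne X.sub (F_hol X) (chart X).hL
      (fun z hz => (contDiffAt_pull (smooth_symm X hz) (h1 z hz)).contDiffWithinAt)
      (fun z hz => by
        rw [extDeriv_pull (smooth_symm X hz) (h1 z hz)]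
        rw [hcl _ (X.Ψ.map_target hz)]
        rfl)
    have h6 : ∀ y ∈ X.U, ContDiffAt ℝ ∞ f (X.Ψ y) := fun y hy =>
      h3.contDiffAt ((L2P.isOpen_cbox _ _).mem_nhds hy.2)
    refine ⟨pull X.Ψ f, fun y hy =>
      (contDiffAt_pull (smooth_Ψ X hy.1) (h6 y hy)).contDiffWithinAt, fun y hy => ?_, ?_⟩
    · rw [extDeriv_pull (smooth_Ψ X hy.1) (h6 y hy)]
      rw [← pull_pull_Ψ X (w := e) hy.1]
      exact pull_congr (h4 _ hy.2)
    · refine of_box X hTR f _ (U_open X) le_rfl ?_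
      rw [image_U]
      refine lt_of_le_of_lt (setLIntegral_mono' (L2P.isOpen_cbox _ _).measurableSet h5) ?_
      rw [setLIntegral_const]
      exact ENNReal.mul_lt_top ENNReal.ofReal_lt_top
        (lt_of_le_of_lt (measure_mono subset_closure) (box_compact X).measure_lt_top)
  · intro m N X e hs hcl
    have h1 : ∀ z ∈ L2P.cbox X.a X.b, ContDiffAt ℝ ∞ e (X.Ψ.symm z) := fun z hz =>
      hs.contDiffAt ((U_open X).mem_nhds (symm_mem_U X hz))
    obtain ⟨c, hc⟩ := h0.1 (m + 1) X.a X.b (pull X.Ψ.symm e)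
      (fun z hz => (contDiffAt_pull (smooth_symm X (box_sub X hz)) (h1 z hz)).contDiffWithinAt)
      (fun z hz => by
        rw [extDeriv_pull (smooth_symm X (box_sub X hz)) (h1 z hz)]
        rw [hcl _ (symm_mem_U X hz)]
        rfl)
    refine ⟨c, fun y hy => ?_⟩
    rw [← pull_pull_Ψ X (w := e) hy.1]
    rw [pull_congr (w' := fun _ => ContinuousAlternatingMap.constOfIsEmpty ℝ
      (Fin (m + 1) → ℂ) (Fin 0) c) (hc _ hy.2), pull_const]

end L2M
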