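import Pool.Agent.Work.MP_ead3fc_ag.M.Fin
import Pool.Agent.Work.MP_ead3fc_ag.M.Loc
import Pool.Agent.Work.MP_ead3fc_ag.M.Cut
import Pool.Agent.Work.MP_ead3fc_ag.M.Adapt
import Pool.Agent.Work.MP_ead3fc_ag.M.BoxPC
import Pool.Agent.Work.MP_ead3fc_ag.M.LocA

/-!
# MP_ead3fc_ag, global theorem
-/

set_option autoImplicit false

open Set Filter Topology MeasureTheory
open scoped ContDiff Manifold ENNReal LinearAlgebra.Projectivization

namespace L2M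

theorem main_natural (m N : ℕ) (M : Type) [TopologicalSpace M] [CompactSpace M] [T2Space M]
    [ChartedSpace (Fin (m + 1) → ℂ) M] [IsManifold 𝓘(ℂ, Fin (m + 1) → ℂ) 1 M]
    (F : M → ℙ ℂ (Hil (N + 1))) (A : Set M) (hF : IsCorankOne (n := m + 1) F A) (k : ℕ) :
    (∀ a ∈ closedL2 (n := m + 1) F A k, ∃ e ∈ closedL2 F A k ⊓ closedDR M (m + 1) k,
      a - e ∈ exactL2 F A k) ∧
    (∀ a ∈ closedDR M (m + 1) k, ∃ e ∈ closedL2 F A k ⊓ closedDR M (m + 1) k,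
      a - e ∈ exactDR M (m + 1) k) ∧
    (∀ e ∈ closedL2 (n := m + 1) F A k ⊓ closedDR M (m + 1) k,
      e ∈ exactL2 F A k ↔ e ∈ exactDR M (m + 1) k) := by
  have hCHG : S_CHG := chg mf fsq tr_thm
  have hLOC : S_LOC := loc mf fsq adapt (loca tr_thm) (loca0 tr_thm) (locb tr_thm boxp box0) box0
    hCHG
  exact global_natural hF (mf M (m + 1)) (hCHG M (m + 1) N F A hF.hol hF.closed)
    (cut_thm M (m + 1) N F A hF.hol hF.closed) (hLOC M m N F A hF) k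

theorem main (m N : ℕ) (M : Type) [TopologicalSpace M] [CompactSpace M] [T2Space M]
    [ChartedSpace (Fin (m + 1) → ℂ) M] [IsManifold 𝓘(ℂ, Fin (m + 1) → ℂ) 1 M]
    (F : M → ℙ ℂ (Hil (N + 1))) (A : Set M) (hF : IsCorankOne (n := m + 1) F A) (k : ℕ) :
    ∃ Φ : HL2 (n := m + 1) F A k ≃ₗ[ℂ] HDR M (m + 1) k,
      ∀ (w : MForm M (m + 1) k) (h1 : w ∈ closedL2 F A k) (h2 : w ∈ closedDR M (m + 1) k),
        Φ (Submodule.Quotient.mk ⟨w, h1⟩) = Submodule.Quotient.mk ⟨w, h2⟩ := by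
  obtain ⟨h1, h2, h3⟩ := main_natural m N M F A hF k
  exact exists_quot_equiv _ _ _ _ h1 h2 h3

end L2M
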