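import Pool.Agent.Work.MP_ead3fc_ag.M.Defs

/-!
# MP_ead3fc_ag, global theorem: projective varieties and their regular points
-/

set_option autoImplicit false

open MeasureTheory Set Filter Topology
open scoped ENNReal LinearAlgebra.Projectivization

namespace L2M

/-- `X` is a complex submanifold of dimension `n` of `ℙ^N` near its point `p`: near a
representative of `p` the cone over `X` is defined by `N - n` holomorphic functions with linearly
independent derivatives. -/
def IsRegPt {N : ℕ} (n : ℕ) (X : Set (ℙ ℂ (Hil (N + 1)))) (p : ℙ ℂ (Hil (N + 1))) : Prop :=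
  p ∈ X ∧ ∃ (W : Set (Hil (N + 1))) (g : Hil (N + 1) → (Fin (N - n) → ℂ)), IsOpen W ∧
    p.rep ∈ W ∧ DifferentiableOn ℂ g W ∧ Function.Surjective (fderiv ℂ g p.rep) ∧
    ∀ (v : Hil (N + 1)) (h : v ≠ 0), v ∈ W → (Projectivization.mk ℂ v h ∈ X ↔ g v = 0)

/-- The singular locus of `X`. -/
def sing {N : ℕ} (n : ℕ) (X : Set (ℙ ℂ (Hil (N + 1)))) : Set (ℙ ℂ (Hil (N + 1))) :=
  {p | p ∈ X ∧ ¬ IsRegPt n X p}

/-- The homogeneous polynomial `P` vanishes at `p`. -/
def Van {N : ℕ} (P : MvPolynomial (Fin (N + 1)) ℂ) (p : ℙ ℂ (Hil (N + 1))) : Prop :=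
  MvPolynomial.eval (fun i => p.rep i) P = 0

/-- `F : M → X` is holomorphic and finite, of corank at most one, and biholomorphic over the
regular locus of `X`; the singular locus of `X` is contained in the zero set of a homogeneous
polynomial which is not identically zero on `X`. -/
structure IsModel {M : Type} [TopologicalSpace M] {n N : ℕ} [ChartedSpace (Fin n → ℂ) M]
    (F : M → ℙ ℂ (Hil (N + 1))) (X : Set (ℙ ℂ (Hil (N + 1)))) : Prop where
  range : Set.range F = X
  hol : ∀ x, ∃ U s, IsLift (n := n) F x U s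
  fin : ∀ x, (F ⁻¹' {F x}).Finite
  rank : ∀ x U s, IsLift (n := n) F x U s →
    Module.finrank ℂ (LinearMap.ker (fs s (chartAt (Fin n → ℂ) x x)).toLinearMap) ≤ 1
  inj : ∀ x y, F x ∉ sing n X → F x = F y → x = y
  imm : ∀ x, F x ∉ sing n X → ∀ U s, IsLift (n := n) F x U s →
    Function.Injective (fs s (chartAt (Fin n → ℂ) x x))
  sing : ∃ (P : MvPolynomial (Fin (N + 1)) ℂ) (d : ℕ), P.IsHomogeneous d ∧
    (∀ p ∈ sing n X, Van P p) ∧ ∃ p ∈ X, ¬ Van P p

/-- `VAR`. -/
def S_VAR : Prop :=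
  ∀ (M : Type) [TopologicalSpace M] [ConnectedSpace M] (n N : ℕ) [ChartedSpace (Fin n → ℂ) M]
    [IsManifold (modelWithCornersSelf ℂ (Fin n → ℂ)) 1 M] (F : M → ℙ ℂ (Hil (N + 1)))
    (X : Set (ℙ ℂ (Hil (N + 1)))), IsModel (n := n) F X →
    IsCorankOne (n := n) F (F ⁻¹' L2M.sing n X)

end L2M
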